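import Pool.Agent.NSY.Defs

/-!
# NSY-AngD: elementary properties of the angular functions cc

The functions `cc k` are `1`, `√2 cos (k θ)` for `k > 0` and `√2 sin (k θ)` for `k < 0`.
-/

set_option autoImplicit false

open MeasureTheory Set Filter Topology
open Pool.Agent.Neu (E D mu)
open Pool.Agent.Neu.Discx (P)

namespace Pool.Agent.NSY

theorem cc_zero (θ : ℝ) : cc 0 θ = 1 := by
  simp [cc]

private theorem cc_pos {k : ℤ} (hk : 0 < k) : cc k = fun θ => Real.sqrt 2 * Real.cos (k * θ) := by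
  funext θ
  simp [cc, hk.ne', hk]

private theorem cc_neg {k : ℤ} (hk : k < 0) : cc k = fun θ => Real.sqrt 2 * Real.sin (k * θ) := by
  funext θ
  simp [cc, hk.ne, not_lt.2 hk.le]

theorem cc_sq_le (k : ℤ) (θ : ℝ) : cc k θ ^ 2 ≤ 2 := by
  have h2 : Real.sqrt 2 ^ 2 = 2 := Real.sq_sqrt (by norm_num)
  rcases lt_trichotomy k 0 with h | h | h
  · rw [cc_neg h]
    simp only [mul_pow, h2]
    nlinarith [Real.sin_sq_le_one (k * θ)]
  · rw [h, cc_zero]
    norm_num
  · rw [cc_pos h]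
    simp only [mul_pow, h2]
    nlinarith [Real.cos_sq_le_one (k * θ)]

theorem cc_cont (k : ℤ) : Continuous (cc k) := by
  rcases lt_trichotomy k 0 with h | h | h
  · rw [cc_neg h]
    fun_prop
  · have : cc k = fun _ => 1 := by
      funext θ
      rw [h, cc_zero]
    rw [this]
    exact continuous_const
  · rw [cc_pos h]
    fun_prop

theorem cc_periodic (k : ℤ) (θ : ℝ) : cc k (θ + 2 * Real.pi) = cc k θ := by
  rcases lt_trichotomy k 0 with h | h | h
  · rw [cc_neg h]
    have : (k : ℝ) * (θ + 2 * Real.pi) = k * θ + (k : ℝ) * (2 * Real.pi) := by ring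
    simp only [this, Real.sin_add_int_mul_two_pi]
  · rw [h, cc_zero, cc_zero]
  · rw [cc_pos h]
    have : (k : ℝ) * (θ + 2 * Real.pi) = k * θ + (k : ℝ) * (2 * Real.pi) := by ring
    simp only [this, Real.cos_add_int_mul_two_pi]

theorem cc_hasDerivAt (k : ℤ) (θ : ℝ) : HasDerivAt (cc k) (k * cc (-k) θ) θ := by
  rcases lt_trichotomy k 0 with h | h | h
  · rw [cc_neg h, cc_pos (k := -k) (by omega)]
    have h1 : HasDerivAt (fun θ : ℝ => (k : ℝ) * θ) (k : ℝ) θ := by
      simpa using (hasDerivAt_id θ).const_mul (k : ℝ)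
    have h2 := (h1.sin).const_mul (Real.sqrt 2)
    have h3 : (k : ℝ) * (Real.sqrt 2 * Real.cos (((-k : ℤ) : ℝ) * θ)) =
        Real.sqrt 2 * (Real.cos ((k : ℝ) * θ) * (k : ℝ)) := by
      push_cast
      rw [neg_mul, Real.cos_neg]
      ring
    rw [h3]
    exact h2
  · have : cc k = fun _ => 1 := by
      funext θ
      rw [h, cc_zero]
    rw [this, h]
    simpa using hasDerivAt_const θ (1 : ℝ)
  · rw [cc_pos h, cc_neg (k := -k) (by omega)]
    have h1 : HasDerivAt (fun θ : ℝ => (k : ℝ) * θ) (k : ℝ) θ := by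
      simpa using (hasDerivAt_id θ).const_mul (k : ℝ)
    have h2 := (h1.cos).const_mul (Real.sqrt 2)
    have h3 : (k : ℝ) * (Real.sqrt 2 * Real.sin (((-k : ℤ) : ℝ) * θ)) =
        Real.sqrt 2 * (-Real.sin ((k : ℝ) * θ) * (k : ℝ)) := by
      push_cast
      rw [neg_mul, Real.sin_neg]
      ring
    rw [h3]
    exact h2

theorem cc_sq_add (k : ℤ) (hk : k ≠ 0) (θ : ℝ) : cc k θ ^ 2 + cc (-k) θ ^ 2 = 2 := by
  have h2 : Real.sqrt 2 ^ 2 = 2 := Real.sq_sqrt (by norm_num)
  rcases lt_or_gt_of_ne hk with h | h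
  · rw [cc_neg h, cc_pos (k := -k) (by omega)]
    simp only [mul_pow, h2]
    push_cast
    rw [neg_mul, Real.cos_neg]
    nlinarith [Real.sin_sq_add_cos_sq ((k : ℝ) * θ)]
  · rw [cc_pos h, cc_neg (k := -k) (by omega)]
    simp only [mul_pow, h2]
    push_cast
    rw [neg_mul, Real.sin_neg, neg_sq]
    nlinarith [Real.sin_sq_add_cos_sq ((k : ℝ) * θ)]

end Pool.Agent.NSY
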