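import Pool.Agent.NSY.Defs
import Pool.Agent.NSY.AngD

/-!
# NSY-AngN: orthogonality of the angular functions against an N-fold periodic weight

PLAN. Put `I j = ∫ χ cos jθ`, `J j = ∫ χ sin jθ` over `[-π, π]`, `j : ℤ`. `χ` is `2π`-periodic (N times the
period `2π/N`), so the integrals over `[-π, π]` and over `[-π + 2π/N, π + 2π/N]` agree
(`Function.Periodic.intervalIntegral_add_eq`); the substitution `θ ↦ θ + 2π/N` gives, with `β = 2πj/N`,
`I = cos β I - sin β J`, `J = sin β I + cos β J`; the determinant of `(1 - R_β)` is `2 - 2 cos β ≠ 0` for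
`0 < |j| < N`, so `I j = J j = 0` for `0 < |j| < N`. Then product to sum formulas:
`k, l > 0`: `cc k * cc l = cos((k-l)θ) + cos((k+l)θ)`; `k, l < 0`: `cos((k-l)θ) - cos((k+l)θ)`;
`k > 0 > l`: `sin((k+l)θ) - sin((k-l)θ)`; `k = 0` or `l = 0`: directly. All `|k ± l| < N`; the value is `∫ χ` if
`k = l` and `0` otherwise (`sin 0 = 0`). `cc_orth` is the case `χ = 1`, `N = |k| + |l| + 1`.
-/

set_option autoImplicit false

open MeasureTheory Set Filter Topology
open Pool.Agent.Neu (E D mu)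
open Pool.Agent.Neu.Discx (P)

namespace Pool.Agent.NSY

private theorem an_int {χ : ℝ → ℝ} (hm : Measurable χ) {C : ℝ} (hC : ∀ θ, |χ θ| ≤ C)
    {g : ℝ → ℝ} (hg : Continuous g) (a b : ℝ) :
    IntervalIntegrable (fun θ => χ θ * g θ) volume a b := by
  have h1 : IntervalIntegrable χ volume a b :=
    (intervalIntegrable_const (c := C)).mono_fun' hm.aestronglyMeasurable
      (Filter.Eventually.of_forall fun θ => hC θ)
  exact h1.mul_continuousOn hg.continuousOn

private theorem an_per {N : ℕ} (hN : 0 < N) {χ : ℝ → ℝ}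
    (hp : ∀ θ, χ (θ + 2 * Real.pi / N) = χ θ) (θ : ℝ) : χ (θ + 2 * Real.pi) = χ θ := by
  have h1 : Function.Periodic χ (2 * Real.pi / N) := hp
  have h2 := h1.nat_mul N
  have h3 : (N : ℝ) * (2 * Real.pi / N) = 2 * Real.pi := by
    have : (N : ℝ) ≠ 0 := by exact_mod_cast hN.ne'
    field_simp
  rw [h3] at h2
  exact h2 θ

private theorem an_shift {h : ℝ → ℝ} (hh : ∀ θ, h (θ + 2 * Real.pi) = h θ) (c : ℝ) :
    ∫ θ in (-Real.pi)..Real.pi, h θ = ∫ θ in (-Real.pi)..Real.pi, h (θ + c) := by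
  have h1 : Function.Periodic h (2 * Real.pi) := hh
  rw [intervalIntegral.integral_comp_add_right]
  have h2 := h1.intervalIntegral_add_eq (-Real.pi) (-Real.pi + c)
  rw [show -Real.pi + 2 * Real.pi = Real.pi by ring,
    show -Real.pi + c + 2 * Real.pi = Real.pi + c by ring] at h2
  exact h2

private theorem an_zero {N : ℕ} (hN : 0 < N) {χ : ℝ → ℝ} (hm : Measurable χ) {C : ℝ}
    (hC : ∀ θ, |χ θ| ≤ C) (hp : ∀ θ, χ (θ + 2 * Real.pi / N) = χ θ) {j : ℤ} (hj : j ≠ 0)
    (hjN : j.natAbs < N) :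
    (∫ θ in (-Real.pi)..Real.pi, χ θ * Real.cos (j * θ)) = 0 ∧
      (∫ θ in (-Real.pi)..Real.pi, χ θ * Real.sin (j * θ)) = 0 := by
  have hN0 : (N : ℝ) ≠ 0 := by exact_mod_cast hN.ne'
  set I := ∫ θ in (-Real.pi)..Real.pi, χ θ * Real.cos (j * θ) with hI
  set J := ∫ θ in (-Real.pi)..Real.pi, χ θ * Real.sin (j * θ) with hJ
  set β : ℝ := j * (2 * Real.pi / N) with hβ
  have i1 : IntervalIntegrable (fun θ => χ θ * Real.cos (j * θ)) volume (-Real.pi) Real.pi :=
    an_int hm hC (by fun_prop) _ _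
  have i2 : IntervalIntegrable (fun θ => χ θ * Real.sin (j * θ)) volume (-Real.pi) Real.pi :=
    an_int hm hC (by fun_prop) _ _
  have e1 : I = Real.cos β * I - Real.sin β * J := by
    have h1 : I = ∫ θ in (-Real.pi)..Real.pi,
        χ (θ + 2 * Real.pi / N) * Real.cos (j * (θ + 2 * Real.pi / N)) := by
      rw [hI]
      exact an_shift (h := fun θ => χ θ * Real.cos (j * θ)) (fun θ => by
        show χ (θ + 2 * Real.pi) * Real.cos (j * (θ + 2 * Real.pi)) = χ θ * Real.cos (j * θ)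
        rw [an_per hN hp, mul_add, Real.cos_add_int_mul_two_pi]) _
    refine h1.trans ?_
    rw [hI, hJ, ← intervalIntegral.integral_const_mul, ← intervalIntegral.integral_const_mul,
      ← intervalIntegral.integral_sub (i1.const_mul _) (i2.const_mul _)]
    refine intervalIntegral.integral_congr fun θ _ => ?_
    show χ (θ + 2 * Real.pi / N) * Real.cos (j * (θ + 2 * Real.pi / N)) =
      Real.cos β * (χ θ * Real.cos (j * θ)) - Real.sin β * (χ θ * Real.sin (j * θ))
    rw [hp, mul_add, Real.cos_add, ← hβ]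
    ring
  have e2 : J = Real.sin β * I + Real.cos β * J := by
    have h1 : J = ∫ θ in (-Real.pi)..Real.pi,
        χ (θ + 2 * Real.pi / N) * Real.sin (j * (θ + 2 * Real.pi / N)) := by
      rw [hJ]
      exact an_shift (h := fun θ => χ θ * Real.sin (j * θ)) (fun θ => by
        show χ (θ + 2 * Real.pi) * Real.sin (j * (θ + 2 * Real.pi)) = χ θ * Real.sin (j * θ)
        rw [an_per hN hp, mul_add, Real.sin_add_int_mul_two_pi]) _
    refine h1.trans ?_
    rw [hI, hJ, ← intervalIntegral.integral_const_mul, ← intervalIntegral.integral_const_mul,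
      ← intervalIntegral.integral_add (i1.const_mul _) (i2.const_mul _)]
    refine intervalIntegral.integral_congr fun θ _ => ?_
    show χ (θ + 2 * Real.pi / N) * Real.sin (j * (θ + 2 * Real.pi / N)) =
      Real.sin β * (χ θ * Real.cos (j * θ)) + Real.cos β * (χ θ * Real.sin (j * θ))
    rw [hp, mul_add, Real.sin_add, ← hβ]
    ring
  have hc : 2 - 2 * Real.cos β ≠ 0 := by
    intro h
    have h1 : Real.cos β = 1 := by linarith
    obtain ⟨n, hn⟩ := (Real.cos_eq_one_iff β).1 h1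
    rw [hβ] at hn
    have h2 : (n : ℝ) * N = j := by
      have hpi := Real.pi_ne_zero
      field_simp at hn
      linarith
    have h3 : n * (N : ℤ) = j := by exact_mod_cast h2
    have h4 : n.natAbs * N = j.natAbs := by
      rw [← h3, Int.natAbs_mul, Int.natAbs_natCast]
    have h5 : n.natAbs = 0 := by
      by_contra h6
      have h7 : 1 ≤ n.natAbs := Nat.one_le_iff_ne_zero.2 h6
      have h8 := Nat.mul_le_mul_right N h7
      omega
    rw [h5, zero_mul] at h4
    exact hj (Int.natAbs_eq_zero.1 h4.symm)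
  have hs := Real.sin_sq_add_cos_sq β
  constructor
  · have h1 : (2 - 2 * Real.cos β) * I = 0 := by
      linear_combination (1 - Real.cos β) * e1 - Real.sin β * e2 - I * hs
    exact (mul_eq_zero.1 h1).resolve_left hc
  · have h1 : (2 - 2 * Real.cos β) * J = 0 := by
      linear_combination (1 - Real.cos β) * e2 + Real.sin β * e1 - J * hs
    exact (mul_eq_zero.1 h1).resolve_left hc

private theorem an_cos {N : ℕ} (hN : 0 < N) {χ : ℝ → ℝ} (hm : Measurable χ) {C : ℝ}
    (hC : ∀ θ, |χ θ| ≤ C) (hp : ∀ θ, χ (θ + 2 * Real.pi / N) = χ θ) {j : ℤ} (hjN : j.natAbs < N) :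
    (∫ θ in (-Real.pi)..Real.pi, χ θ * Real.cos (j * θ)) =
      if j = 0 then ∫ θ in (-Real.pi)..Real.pi, χ θ else 0 := by
  split_ifs with h
  · subst h
    simp
  · exact (an_zero hN hm hC hp h hjN).1

private theorem an_sin {N : ℕ} (hN : 0 < N) {χ : ℝ → ℝ} (hm : Measurable χ) {C : ℝ}
    (hC : ∀ θ, |χ θ| ≤ C) (hp : ∀ θ, χ (θ + 2 * Real.pi / N) = χ θ) {j : ℤ} (hjN : j.natAbs < N) :
    (∫ θ in (-Real.pi)..Real.pi, χ θ * Real.sin (j * θ)) = 0 := by
  by_cases h : j = 0
  · subst h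
    simp
  · exact (an_zero hN hm hC hp h hjN).2

private theorem an_cc_pos {k : ℤ} (hk : 0 < k) (θ : ℝ) : cc k θ = √2 * Real.cos (k * θ) := by
  unfold cc
  rw [if_neg hk.ne', if_pos hk]

private theorem an_cc_neg {k : ℤ} (hk : k < 0) (θ : ℝ) : cc k θ = √2 * Real.sin (k * θ) := by
  unfold cc
  rw [if_neg hk.ne, if_neg (not_lt.2 hk.le)]

private theorem an_cc_zero (θ : ℝ) : cc 0 θ = 1 := by
  unfold cc
  rw [if_pos rfl]

/-- one of the two indices is zero -/
private theorem an_one {N : ℕ} (hN : 0 < N) {χ : ℝ → ℝ} (hm : Measurable χ) {C : ℝ}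
    (hC : ∀ θ, |χ θ| ≤ C) (hp : ∀ θ, χ (θ + 2 * Real.pi / N) = χ θ) {l : ℤ} (hl : l.natAbs < N) :
    ∫ θ in (-Real.pi)..Real.pi, χ θ * cc l θ =
      if l = 0 then ∫ θ in (-Real.pi)..Real.pi, χ θ else 0 := by
  rcases lt_trichotomy l 0 with h | h | h
  · rw [if_neg h.ne]
    have e : ∀ θ, χ θ * cc l θ = √2 * (χ θ * Real.sin (l * θ)) := fun θ => by
      rw [an_cc_neg h]
      ring
    simp_rw [e]
    rw [intervalIntegral.integral_const_mul, an_sin hN hm hC hp hl, mul_zero]
  · subst h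
    simp_rw [an_cc_zero, mul_one, if_true]
  · rw [if_neg h.ne']
    have e : ∀ θ, χ θ * cc l θ = √2 * (χ θ * Real.cos (l * θ)) := fun θ => by
      rw [an_cc_pos h]
      ring
    simp_rw [e]
    rw [intervalIntegral.integral_const_mul, an_cos hN hm hC hp hl, if_neg h.ne', mul_zero]

theorem cc_orth_sym {N : ℕ} (hN : 0 < N) {χ : ℝ → ℝ} (hm : Measurable χ) {C : ℝ}
    (hC : ∀ θ, |χ θ| ≤ C) (hp : ∀ θ, χ (θ + 2 * Real.pi / N) = χ θ) (k l : ℤ)
    (hkl : k.natAbs + l.natAbs < N) :
    ∫ θ in (-Real.pi)..Real.pi, χ θ * (cc k θ * cc l θ) =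
      if k = l then ∫ θ in (-Real.pi)..Real.pi, χ θ else 0 := by
  by_cases hk0 : k = 0
  · subst hk0
    simp_rw [an_cc_zero, one_mul]
    rw [an_one hN hm hC hp (by omega)]
    simp only [eq_comm]
  by_cases hl0 : l = 0
  · subst hl0
    simp_rw [an_cc_zero, mul_one]
    rw [an_one hN hm hC hp (by omega)]
  have hs2 : √2 * √2 = (2 : ℝ) := Real.mul_self_sqrt (by norm_num)
  have hsub : (k - l).natAbs < N := by omega
  have hadd : (k + l).natAbs < N := by omega
  have i1 : ∀ j : ℤ, IntervalIntegrable (fun θ => χ θ * Real.cos (j * θ)) volume (-Real.pi) Real.pi :=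
    fun j => an_int hm hC (by fun_prop) _ _
  have i2 : ∀ j : ℤ, IntervalIntegrable (fun θ => χ θ * Real.sin (j * θ)) volume (-Real.pi) Real.pi :=
    fun j => an_int hm hC (by fun_prop) _ _
  have c1 : ∀ θ : ℝ, Real.cos (((k - l : ℤ) : ℝ) * θ) =
      Real.cos (k * θ) * Real.cos (l * θ) + Real.sin (k * θ) * Real.sin (l * θ) := by
    intro θ
    push_cast
    rw [sub_mul, Real.cos_sub]
  have c2 : ∀ θ : ℝ, Real.cos (((k + l : ℤ) : ℝ) * θ) =
      Real.cos (k * θ) * Real.cos (l * θ) - Real.sin (k * θ) * Real.sin (l * θ) := by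
    intro θ
    push_cast
    rw [add_mul, Real.cos_add]
  have s1 : ∀ θ : ℝ, Real.sin (((k - l : ℤ) : ℝ) * θ) =
      Real.sin (k * θ) * Real.cos (l * θ) - Real.cos (k * θ) * Real.sin (l * θ) := by
    intro θ
    push_cast
    rw [sub_mul, Real.sin_sub]
  have s2 : ∀ θ : ℝ, Real.sin (((k + l : ℤ) : ℝ) * θ) =
      Real.sin (k * θ) * Real.cos (l * θ) + Real.cos (k * θ) * Real.sin (l * θ) := by
    intro θ
    push_cast
    rw [add_mul, Real.sin_add]
  rcases lt_or_gt_of_ne hk0 with hk | hk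
  · rcases lt_or_gt_of_ne hl0 with hl | hl
    · have e : ∀ θ, χ θ * (cc k θ * cc l θ) = χ θ * Real.cos (((k - l : ℤ) : ℝ) * θ) -
          χ θ * Real.cos (((k + l : ℤ) : ℝ) * θ) := by
        intro θ
        rw [an_cc_neg hk, an_cc_neg hl, c1, c2]
        linear_combination (χ θ * Real.sin (k * θ) * Real.sin (l * θ)) * hs2
      simp_rw [e]
      rw [intervalIntegral.integral_sub (i1 _) (i1 _), an_cos hN hm hC hp hsub,
        an_cos hN hm hC hp hadd, if_neg (show ¬ k + l = 0 by omega), sub_zero]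
      simp only [sub_eq_zero]
    · have e : ∀ θ, χ θ * (cc k θ * cc l θ) = χ θ * Real.sin (((k + l : ℤ) : ℝ) * θ) +
          χ θ * Real.sin (((k - l : ℤ) : ℝ) * θ) := by
        intro θ
        rw [an_cc_neg hk, an_cc_pos hl, s1, s2]
        linear_combination (χ θ * Real.sin (k * θ) * Real.cos (l * θ)) * hs2
      simp_rw [e]
      rw [intervalIntegral.integral_add (i2 _) (i2 _), an_sin hN hm hC hp hsub,
        an_sin hN hm hC hp hadd, if_neg (show ¬ k = l by omega), add_zero]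
  · rcases lt_or_gt_of_ne hl0 with hl | hl
    · have e : ∀ θ, χ θ * (cc k θ * cc l θ) = χ θ * Real.sin (((k + l : ℤ) : ℝ) * θ) -
          χ θ * Real.sin (((k - l : ℤ) : ℝ) * θ) := by
        intro θ
        rw [an_cc_pos hk, an_cc_neg hl, s1, s2]
        linear_combination (χ θ * Real.cos (k * θ) * Real.sin (l * θ)) * hs2
      simp_rw [e]
      rw [intervalIntegral.integral_sub (i2 _) (i2 _), an_sin hN hm hC hp hsub,
        an_sin hN hm hC hp hadd, if_neg (show ¬ k = l by omega), sub_zero]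
    · have e : ∀ θ, χ θ * (cc k θ * cc l θ) = χ θ * Real.cos (((k - l : ℤ) : ℝ) * θ) +
          χ θ * Real.cos (((k + l : ℤ) : ℝ) * θ) := by
        intro θ
        rw [an_cc_pos hk, an_cc_pos hl, c1, c2]
        linear_combination (χ θ * Real.cos (k * θ) * Real.cos (l * θ)) * hs2
      simp_rw [e]
      rw [intervalIntegral.integral_add (i1 _) (i1 _), an_cos hN hm hC hp hsub,
        an_cos hN hm hC hp hadd, if_neg (show ¬ k + l = 0 by omega), add_zero]
      simp only [sub_eq_zero]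

theorem cc_orth (k l : ℤ) :
    ∫ θ in (-Real.pi)..Real.pi, cc k θ * cc l θ = if k = l then 2 * Real.pi else 0 := by
  have h := cc_orth_sym (N := k.natAbs + l.natAbs + 1) (Nat.succ_pos _) (χ := fun _ => 1)
    measurable_const (C := 1) (fun _ => by simp) (fun _ => rfl) k l (Nat.lt_succ_self _)
  simp only [one_mul] at h
  rw [h]
  congr 1
  rw [intervalIntegral.integral_const, smul_eq_mul, mul_one]
  ring

end Pool.Agent.NSY
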