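import Pool.Agent.NSY.Defs
import Pool.Agent.NSY.AngD
import Pool.Agent.NSY.AngN

/-!
# NSY-AngI: Bessel and Wirtinger inequalities for the angular functions

With the complex Fourier coefficients `c_n` of `g` on `[-π, π]` and `a_n = (∫ g cc n)² / (2π)` one has
`a_n + a_{-n} = 4π |c_n|²`, so sums over `|n| < M` with even weights agree; Parseval for `g` and for `g'`.
-/

set_option autoImplicit false

open MeasureTheory Set Filter Topology
open Pool.Agent.Neu (E D mu)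
open Pool.Agent.Neu.Discx (P)

namespace Pool.Agent.NSY

private theorem angI_ab : -Real.pi < Real.pi := by linarith [Real.pi_pos]

/-- complex Fourier coefficient -/
private noncomputable def angC (g : ℝ → ℝ) (n : ℤ) : ℂ :=
  fourierCoeffOn angI_ab (fun t => (g t : ℂ)) n

/-- square of the coefficient with respect to `cc` -/
private noncomputable def angA (g : ℝ → ℝ) (k : ℤ) : ℝ :=
  (∫ θ in (-Real.pi)..Real.pi, g θ * cc k θ) ^ 2 / (2 * Real.pi)

private theorem angI_mem {g : ℝ → ℂ} (hg : Continuous g) :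
    MemLp g 2 (volume.restrict (Ioc (-Real.pi) Real.pi)) := by
  obtain ⟨C, hC⟩ := isCompact_Icc.exists_bound_of_continuousOn (s := Icc (-Real.pi) Real.pi)
    hg.continuousOn
  have hfin : IsFiniteMeasure (volume.restrict (Icc (-Real.pi) Real.pi)) :=
    ⟨by rw [Measure.restrict_apply_univ]; exact isCompact_Icc.measure_lt_top⟩
  have h1 : MemLp g 2 (volume.restrict (Icc (-Real.pi) Real.pi)) :=
    MemLp.of_bound hg.aestronglyMeasurable C
      ((ae_restrict_iff' measurableSet_Icc).2 (Filter.Eventually.of_forall hC))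
  exact h1.mono_measure (Measure.restrict_mono Ioc_subset_Icc_self le_rfl)

private theorem angI_parseval {g : ℝ → ℝ} (hg : Continuous g) :
    HasSum (fun n => ‖angC g n‖ ^ 2) ((∫ θ in (-Real.pi)..Real.pi, g θ ^ 2) / (2 * Real.pi)) := by
  have h := hasSum_sq_fourierCoeffOn angI_ab (angI_mem (Complex.continuous_ofReal.comp hg))
  simp only [smul_eq_mul, Function.comp, Complex.norm_real, Real.norm_eq_abs, sq_abs] at h
  have e : (Real.pi - -Real.pi)⁻¹ * ∫ θ in (-Real.pi)..Real.pi, g θ ^ 2 =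
      (∫ θ in (-Real.pi)..Real.pi, g θ ^ 2) / (2 * Real.pi) := by
    rw [div_eq_inv_mul]
    congr 2
    ring
  rw [e] at h
  exact h

private theorem angI_coeff {g : ℝ → ℝ} (hg : Continuous g) (n : ℤ) :
    angC g n = ((∫ θ in (-Real.pi)..Real.pi, g θ * Real.cos (n * θ) : ℝ) -
      Complex.I * (∫ θ in (-Real.pi)..Real.pi, g θ * Real.sin (n * θ) : ℝ)) / (2 * Real.pi) := by
  unfold angC
  rw [fourierCoeffOn_eq_integral]
  have hπ : (Real.pi : ℂ) ≠ 0 := by exact_mod_cast Real.pi_ne_zero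
  have h1 : ∀ x : ℝ, fourier (-n) ((x : ℝ) : AddCircle (Real.pi - -Real.pi)) • ((g x : ℝ) : ℂ) =
      ((g x * Real.cos (n * x) : ℝ) : ℂ) - Complex.I * ((g x * Real.sin (n * x) : ℝ) : ℂ) := by
    intro x
    rw [fourier_coe_apply]
    have e : 2 * (Real.pi : ℂ) * Complex.I * ((-n : ℤ) : ℂ) * (x : ℂ) / ((Real.pi - -Real.pi : ℝ) : ℂ) =
        ((-(n * x) : ℝ) : ℂ) * Complex.I := by
      push_cast
      field_simp
      ring
    rw [e, Complex.exp_mul_I, ← Complex.ofReal_cos, ← Complex.ofReal_sin, Real.cos_neg, Real.sin_neg,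
      smul_eq_mul]
    push_cast
    ring
  simp_rw [h1]
  have i1 : IntervalIntegrable (fun x : ℝ => ((g x * Real.cos (n * x) : ℝ) : ℂ)) volume (-Real.pi) Real.pi :=
    (Complex.continuous_ofReal.comp (hg.mul (by fun_prop))).intervalIntegrable _ _
  have i2 : IntervalIntegrable (fun x : ℝ => Complex.I * ((g x * Real.sin (n * x) : ℝ) : ℂ)) volume
      (-Real.pi) Real.pi :=
    (continuous_const.mul (Complex.continuous_ofReal.comp (hg.mul (by fun_prop)))).intervalIntegrable _ _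
  rw [intervalIntegral.integral_sub i1 i2, intervalIntegral.integral_const_mul,
    intervalIntegral.integral_ofReal, intervalIntegral.integral_ofReal]
  rw [Complex.real_smul]
  push_cast
  field_simp
  ring

private theorem angI_norm {g : ℝ → ℝ} (hg : Continuous g) (n : ℤ) :
    4 * Real.pi * ‖angC g n‖ ^ 2 =
      ((∫ θ in (-Real.pi)..Real.pi, g θ * Real.cos (n * θ)) ^ 2 +
        (∫ θ in (-Real.pi)..Real.pi, g θ * Real.sin (n * θ)) ^ 2) / Real.pi := by
  rw [angI_coeff hg]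
  obtain ⟨A, hA⟩ : ∃ A, A = ∫ θ in (-Real.pi)..Real.pi, g θ * Real.cos (n * θ) := ⟨_, rfl⟩
  obtain ⟨B, hB⟩ : ∃ B, B = ∫ θ in (-Real.pi)..Real.pi, g θ * Real.sin (n * θ) := ⟨_, rfl⟩
  rw [← hA, ← hB, norm_div, div_pow]
  have e1 : ‖(2 * (Real.pi : ℂ))‖ = 2 * Real.pi := by
    rw [norm_mul, Complex.norm_real, Real.norm_eq_abs, abs_of_pos Real.pi_pos]
    norm_num
  have e2 : ‖(A : ℂ) - Complex.I * (B : ℂ)‖ ^ 2 = A ^ 2 + B ^ 2 := by
    rw [Complex.sq_norm, Complex.normSq_apply]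
    simp
    ring
  rw [e1, e2]
  have hπ := Real.pi_ne_zero
  field_simp
  ring

private theorem angI_pair {g : ℝ → ℝ} (hg : Continuous g) (k : ℤ) :
    angA g k + angA g (-k) = 4 * Real.pi * ‖angC g k‖ ^ 2 := by
  rw [angI_norm hg]
  have hπ := Real.pi_ne_zero
  have h2 : √(2 : ℝ) ^ 2 = 2 := Real.sq_sqrt (by norm_num)
  have hc : ∀ f : ℝ → ℝ, ∫ θ in (-Real.pi)..Real.pi, g θ * (√2 * f θ) =
      √2 * ∫ θ in (-Real.pi)..Real.pi, g θ * f θ := by
    intro f
    rw [← intervalIntegral.integral_const_mul]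
    congr 1
    funext θ
    ring
  unfold angA
  rcases lt_trichotomy k 0 with hk | hk | hk
  · have e1 : ∀ θ, cc k θ = √2 * Real.sin (k * θ) := by
      intro θ
      unfold cc
      rw [if_neg hk.ne, if_neg (not_lt.2 hk.le)]
    have e2 : ∀ θ, cc (-k) θ = √2 * Real.cos (k * θ) := by
      intro θ
      unfold cc
      rw [if_neg (by omega), if_pos (by omega)]
      push_cast
      rw [neg_mul, Real.cos_neg]
    simp_rw [e1, e2]
    rw [hc, hc, mul_pow, mul_pow, h2]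
    field_simp
    ring
  · subst hk
    have e1 : ∀ θ, cc 0 θ = 1 := by
      intro θ
      unfold cc
      rw [if_pos rfl]
    rw [neg_zero]
    simp_rw [e1]
    simp
    field_simp
    ring
  · have e1 : ∀ θ, cc k θ = √2 * Real.cos (k * θ) := by
      intro θ
      unfold cc
      rw [if_neg hk.ne', if_pos hk]
    have e2 : ∀ θ, cc (-k) θ = √2 * (-Real.sin (k * θ)) := by
      intro θ
      unfold cc
      rw [if_neg (by omega), if_neg (by omega)]
      push_cast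
      rw [neg_mul, Real.sin_neg]
    simp_rw [e1, e2]
    rw [hc, hc]
    have e3 : ∫ θ in (-Real.pi)..Real.pi, g θ * -Real.sin (k * θ) =
        -∫ θ in (-Real.pi)..Real.pi, g θ * Real.sin (k * θ) := by
      rw [← intervalIntegral.integral_neg]
      congr 1
      funext θ
      ring
    rw [e3, mul_pow, mul_pow, h2]
    field_simp

private theorem angI_sum {g : ℝ → ℝ} (hg : Continuous g) (M : ℕ) (w : ℤ → ℝ) (hw : ∀ k, w (-k) = w k) :
    ∑ k ∈ Finset.Ioo (-(M : ℤ)) M, w k * angA g k =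
      2 * Real.pi * ∑ k ∈ Finset.Ioo (-(M : ℤ)) M, w k * ‖angC g k‖ ^ 2 := by
  have h1 : ∑ k ∈ Finset.Ioo (-(M : ℤ)) M, w k * angA g k =
      ∑ k ∈ Finset.Ioo (-(M : ℤ)) M, w k * angA g (-k) := by
    refine Finset.sum_nbij' (fun k => -k) (fun k => -k) ?_ ?_ ?_ ?_ ?_
    · intro k hk
      rw [Finset.mem_Ioo] at hk ⊢
      constructor <;> omega
    · intro k hk
      rw [Finset.mem_Ioo] at hk ⊢
      constructor <;> omega
    · intro k _
      exact neg_neg k
    · intro k _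
      exact neg_neg k
    · intro k _
      rw [hw, neg_neg]
  have h2 : 2 * ∑ k ∈ Finset.Ioo (-(M : ℤ)) M, w k * angA g k =
      2 * (2 * Real.pi * ∑ k ∈ Finset.Ioo (-(M : ℤ)) M, w k * ‖angC g k‖ ^ 2) := by
    calc 2 * ∑ k ∈ Finset.Ioo (-(M : ℤ)) M, w k * angA g k
        = ∑ k ∈ Finset.Ioo (-(M : ℤ)) M, w k * angA g k +
          ∑ k ∈ Finset.Ioo (-(M : ℤ)) M, w k * angA g (-k) := by rw [← h1]; ring
      _ = ∑ k ∈ Finset.Ioo (-(M : ℤ)) M, w k * (4 * Real.pi * ‖angC g k‖ ^ 2) := by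
          rw [← Finset.sum_add_distrib]
          refine Finset.sum_congr rfl fun k _ => ?_
          rw [← angI_pair hg]
          ring
      _ = _ := by
          rw [Finset.mul_sum, Finset.mul_sum]
          refine Finset.sum_congr rfl fun k _ => ?_
          ring
  linarith

theorem ang_bessel {g : ℝ → ℝ} (hg : Continuous g) (M : ℕ) :
    ∑ k ∈ Finset.Ioo (-(M : ℤ)) M,
        (∫ θ in (-Real.pi)..Real.pi, g θ * cc k θ) ^ 2 / (2 * Real.pi) ≤
      ∫ θ in (-Real.pi)..Real.pi, g θ ^ 2 := by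
  have h1 := angI_sum hg M (fun _ => 1) (fun _ => rfl)
  simp only [one_mul] at h1
  have h2 := sum_le_hasSum (Finset.Ioo (-(M : ℤ)) M) (fun n _ => sq_nonneg ‖angC g n‖) (angI_parseval hg)
  have hπ := Real.pi_pos
  rw [le_div_iff₀ (by positivity)] at h2
  calc ∑ k ∈ Finset.Ioo (-(M : ℤ)) M, (∫ θ in (-Real.pi)..Real.pi, g θ * cc k θ) ^ 2 / (2 * Real.pi)
      = 2 * Real.pi * ∑ k ∈ Finset.Ioo (-(M : ℤ)) M, ‖angC g k‖ ^ 2 := h1
    _ ≤ ∫ θ in (-Real.pi)..Real.pi, g θ ^ 2 := by linarith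

private theorem angI_deriv {g g' : ℝ → ℝ} (hg : ∀ θ, HasDerivAt g (g' θ) θ) (hg' : Continuous g')
    (hper : g Real.pi = g (-Real.pi)) (n : ℤ) : ‖angC g' n‖ ^ 2 = (n : ℝ) ^ 2 * ‖angC g n‖ ^ 2 := by
  have hFc' : Continuous (fun t => (g' t : ℂ)) := Complex.continuous_ofReal.comp hg'
  unfold angC
  by_cases hn : n = 0
  · subst hn
    have h0 : ∫ θ in (-Real.pi)..Real.pi, g' θ = 0 := by
      rw [intervalIntegral.integral_eq_sub_of_hasDerivAt (fun x _ => hg x) (hg'.intervalIntegrable _ _),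
        hper, sub_self]
    have h1 : fourierCoeffOn angI_ab (fun t => (g' t : ℂ)) 0 = 0 := by
      rw [fourierCoeffOn_eq_integral]
      simp only [neg_zero, fourier_zero, one_smul]
      rw [intervalIntegral.integral_ofReal, h0]
      simp
    rw [h1]
    simp
  · have h1 := fourierCoeffOn_of_hasDerivAt angI_ab hn (f := fun t => (g t : ℂ))
      (f' := fun t => (g' t : ℂ)) (fun x _ => (hg x).ofReal_comp) (hFc'.intervalIntegrable _ _)
    rw [hper, sub_self, mul_zero, zero_sub] at h1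
    have hπ : (Real.pi : ℂ) ≠ 0 := by exact_mod_cast Real.pi_ne_zero
    have hnC : (n : ℂ) ≠ 0 := by exact_mod_cast hn
    have h3 : 1 / (-2 * (Real.pi : ℂ) * Complex.I * n) *
        -(((Real.pi : ℂ) - (-Real.pi : ℝ)) * fourierCoeffOn angI_ab (fun t => (g' t : ℂ)) n) =
        1 / (Complex.I * n) * fourierCoeffOn angI_ab (fun t => (g' t : ℂ)) n := by
      push_cast
      field_simp
      ring
    rw [h3] at h1
    rw [h1, norm_mul, norm_div, norm_one, norm_mul, Complex.norm_I, one_mul, mul_pow, div_pow, one_pow,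
      Complex.norm_intCast, sq_abs]
    have hn2 : (n : ℝ) ^ 2 ≠ 0 := by
      have : (n : ℝ) ≠ 0 := by exact_mod_cast hn
      exact pow_ne_zero 2 this
    field_simp

theorem ang_wirt {g g' : ℝ → ℝ} (hg : ∀ θ, HasDerivAt g (g' θ) θ) (hg' : Continuous g')
    (hper : g Real.pi = g (-Real.pi)) (M : ℕ) :
    ∑ k ∈ Finset.Ioo (-(M : ℤ)) M,
        (k : ℝ) ^ 2 * ((∫ θ in (-Real.pi)..Real.pi, g θ * cc k θ) ^ 2 / (2 * Real.pi)) +
      (M : ℝ) ^ 2 * ((∫ θ in (-Real.pi)..Real.pi, g θ ^ 2) -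
        ∑ k ∈ Finset.Ioo (-(M : ℤ)) M,
          (∫ θ in (-Real.pi)..Real.pi, g θ * cc k θ) ^ 2 / (2 * Real.pi)) ≤
      ∫ θ in (-Real.pi)..Real.pi, g' θ ^ 2 := by
  have hgc : Continuous g := continuous_iff_continuousAt.2 fun t => (hg t).continuousAt
  have h1 := angI_sum hgc M (fun _ => 1) (fun _ => rfl)
  simp only [one_mul] at h1
  have h2 := angI_sum hgc M (fun k => (k : ℝ) ^ 2) (fun k => by push_cast; ring)
  have h1' : ∑ k ∈ Finset.Ioo (-(M : ℤ)) M,
      (∫ θ in (-Real.pi)..Real.pi, g θ * cc k θ) ^ 2 / (2 * Real.pi) =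
      2 * Real.pi * ∑ k ∈ Finset.Ioo (-(M : ℤ)) M, ‖angC g k‖ ^ 2 := h1
  have h2' : ∑ k ∈ Finset.Ioo (-(M : ℤ)) M,
      (k : ℝ) ^ 2 * ((∫ θ in (-Real.pi)..Real.pi, g θ * cc k θ) ^ 2 / (2 * Real.pi)) =
      2 * Real.pi * ∑ k ∈ Finset.Ioo (-(M : ℤ)) M, (k : ℝ) ^ 2 * ‖angC g k‖ ^ 2 := h2
  rw [h1', h2']
  have s1 := angI_parseval hgc
  have s2 := angI_parseval hg'
  simp_rw [angI_deriv hg hg' hper] at s2
  have s3 := s2.sub (s1.mul_left ((M : ℝ) ^ 2))
  have h3 : ∀ n ∉ Finset.Ioo (-(M : ℤ)) M,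
      0 ≤ (n : ℝ) ^ 2 * ‖angC g n‖ ^ 2 - (M : ℝ) ^ 2 * ‖angC g n‖ ^ 2 := by
    intro n hn
    rw [Finset.mem_Ioo] at hn
    have h4 : (M : ℝ) ^ 2 ≤ (n : ℝ) ^ 2 := by
      rw [sq_le_sq, abs_of_nonneg (Nat.cast_nonneg M)]
      have h5 : (M : ℤ) ≤ |n| := by
        rcases le_total 0 n with h | h
        · rw [abs_of_nonneg h]
          by_contra h6
          exact hn ⟨by omega, by omega⟩
        · rw [abs_of_nonpos h]
          by_contra h6
          exact hn ⟨by omega, by omega⟩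
      exact_mod_cast h5
    have h7 := mul_le_mul_of_nonneg_right h4 (sq_nonneg ‖angC g n‖)
    linarith
  have h8 := sum_le_hasSum (Finset.Ioo (-(M : ℤ)) M) h3 s3
  rw [Finset.sum_sub_distrib, ← Finset.mul_sum] at h8
  have hπ := Real.pi_pos
  have h9 : (∫ θ in (-Real.pi)..Real.pi, g' θ ^ 2) / (2 * Real.pi) -
      (M : ℝ) ^ 2 * ((∫ θ in (-Real.pi)..Real.pi, g θ ^ 2) / (2 * Real.pi)) =
      ((∫ θ in (-Real.pi)..Real.pi, g' θ ^ 2) -
        (M : ℝ) ^ 2 * (∫ θ in (-Real.pi)..Real.pi, g θ ^ 2)) / (2 * Real.pi) := by ring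
  rw [h9, le_div_iff₀ (by positivity)] at h8
  nlinarith [h8]

end Pool.Agent.NSY
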