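import Pool.Agent.NSY.Defs
import Pool.Agent.NSY.AngD
import Pool.Agent.NSY.AngN

/-!
# NSY-FkD: angular Fourier coefficients of a C¹ function

Differentiation under the integral sign.
-/

set_option autoImplicit false

open MeasureTheory Set Filter Topology
open Pool.Agent.Neu (E D mu)
open Pool.Agent.Neu.Discx (P)

namespace Pool.Agent.NSY

private theorem cont_F {v : E → ℝ} (hv : ContDiff ℝ 1 v) (k : ℤ) :
    Continuous (fun p : ℝ × ℝ => v (P p.1 p.2) * cc k p.2) :=
  (hv.continuous.comp Pool.Agent.Neu.Discx.continuous_P).mul ((cc_cont k).comp continuous_snd)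

private theorem cont_F' {v : E → ℝ} (hv : ContDiff ℝ 1 v) (k : ℤ) :
    Continuous (fun p : ℝ × ℝ => fderiv ℝ v (P p.1 p.2) (P 1 p.2) * cc k p.2) := by
  have h1 : Continuous (fun p : ℝ × ℝ => fderiv ℝ v (P p.1 p.2)) :=
    (hv.continuous_fderiv one_ne_zero).comp Pool.Agent.Neu.Discx.continuous_P
  have h2 : Continuous (fun p : ℝ × ℝ => P 1 p.2) :=
    Pool.Agent.Neu.Discx.continuous_P.comp (continuous_const.prodMk continuous_snd)
  exact (h1.clm_apply h2).mul ((cc_cont k).comp continuous_snd)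

theorem fk_deriv {v : E → ℝ} (hv : ContDiff ℝ 1 v) (k : ℤ) (r : ℝ) :
    HasDerivAt (fk v k) (fk' v k r) r := by
  have h := Pool.Agent.Neu.Discx.hasDerivAt_int
    (F := fun r θ => v (P r θ) * cc k θ)
    (F' := fun r θ => fderiv ℝ v (P r θ) (P 1 θ) * cc k θ) (cont_F hv k) (cont_F' hv k)
    (fun s θ => ?_) (-Real.pi) Real.pi r
  · exact h.const_mul _
  · have h1 : HasFDerivAt v (fderiv ℝ v (P s θ)) (P s θ) :=
      (hv.differentiable one_ne_zero).differentiableAt.hasFDerivAt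
    exact (h1.comp_hasDerivAt s (Pool.Agent.Neu.Discx.hasDerivAt_P_r s θ)).mul_const _

theorem fk'_cont {v : E → ℝ} (hv : ContDiff ℝ 1 v) (k : ℤ) : Continuous (fk' v k) :=
  continuous_const.mul (Pool.Agent.Neu.Discx.cont_int
    (F := fun r θ => fderiv ℝ v (P r θ) (P 1 θ) * cc k θ) (cont_F' hv k) _ _)

theorem fk_zero {v : E → ℝ} (hv : ContDiff ℝ 1 v) {k : ℤ} (hk : k ≠ 0) : fk v k 0 = 0 := by
  have h := cc_orth k 0
  rw [if_neg hk] at h
  simp only [cc_zero, mul_one] at h
  unfold fk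
  simp only [Pool.Agent.Neu.Discx.P_zero]
  rw [intervalIntegral.integral_const_mul, h, mul_zero, mul_zero]

end Pool.Agent.NSY
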