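import Pool.Agent.NSY.Defs
import Pool.Agent.NSY.AngD
import Pool.Agent.NSY.AngI
import Pool.Agent.NSY.FkD

/-!
# NSY-DiE: the energy on the disc and the energies of the angular sectors

Polar coordinates, and for every radius the Bessel inequality for the radial derivative and the Wirtinger inequality for the angular derivative.
-/

set_option autoImplicit false

open MeasureTheory Set Filter Topology
open Pool.Agent.Neu (E D mu)
open Pool.Agent.Neu.Discx (P)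

namespace Pool.Agent.NSY

private theorem cU {v : E → ℝ} (hv : ContDiff ℝ 1 v) :
    Continuous (fun p : ℝ × ℝ => v (P p.1 p.2)) :=
  hv.continuous.comp Pool.Agent.Neu.Discx.continuous_P

private theorem cW {v : E → ℝ} (hv : ContDiff ℝ 1 v) :
    Continuous (fun p : ℝ × ℝ => fderiv ℝ v (P p.1 p.2) (P 1 p.2)) :=
  ((hv.continuous_fderiv one_ne_zero).comp Pool.Agent.Neu.Discx.continuous_P).clm_apply
    (Pool.Agent.Neu.Discx.continuous_P.comp
      (by fun_prop : Continuous (fun p : ℝ × ℝ => ((1 : ℝ), p.2))))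

private theorem cS {v : E → ℝ} (hv : ContDiff ℝ 1 v) :
    Continuous (fun p : ℝ × ℝ => fderiv ℝ v (P p.1 p.2) !₂[-Real.sin p.2, Real.cos p.2]) :=
  ((hv.continuous_fderiv one_ne_zero).comp Pool.Agent.Neu.Discx.continuous_P).clm_apply
    (Pool.Agent.Neu.Discx.continuous_Q.comp continuous_snd)

private theorem secn {F : ℝ → ℝ → ℝ} (hF : Continuous (fun p : ℝ × ℝ => F p.1 p.2)) (r : ℝ) :
    Continuous (fun t => F r t) :=
  hF.comp (by fun_prop : Continuous (fun t : ℝ => (r, t)))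

private theorem fk_c {v : E → ℝ} (hv : ContDiff ℝ 1 v) (k : ℤ) : Continuous (fk v k) :=
  continuous_iff_continuousAt.2 fun r => (fk_deriv hv k r).continuousAt

private theorem quo_c {v : E → ℝ} (hv : ContDiff ℝ 1 v) (k : ℤ) :
    Continuous (fun r => fk' v k r ^ 2 * r + (k : ℝ) ^ 2 * fk v k r ^ 2 / r) := by
  refine (((fk'_cont hv k).pow 2).mul continuous_id).add ?_
  by_cases hk : k = 0
  · have h : (fun r => (k : ℝ) ^ 2 * fk v k r ^ 2 / r) = fun _ => 0 := by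
      funext r
      rw [hk]
      simp
    rw [h]
    exact continuous_const
  · have hc := fk'_cont hv k
    have hQ : Continuous (fun r : ℝ => ∫ s in (0 : ℝ)..1, fk' v k (s * r)) := by
      refine intervalIntegral.continuous_parametric_intervalIntegral_of_continuous'
        (f := fun (r : ℝ) (s : ℝ) => fk' v k (s * r)) ?_ 0 1
      exact hc.comp (by fun_prop : Continuous (fun q : ℝ × ℝ => q.2 * q.1))
    have hfQ : ∀ r, fk v k r = r * ∫ s in (0 : ℝ)..1, fk' v k (s * r) := by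
      intro r
      have h1 : r * (∫ s in (0 : ℝ)..1, fk' v k (s * r)) = ∫ x in (0 : ℝ)..r, fk' v k x := by
        have := intervalIntegral.mul_integral_comp_mul_right (a := 0) (b := 1)
          (f := fun x => fk' v k x) r
        simp only [zero_mul, one_mul] at this
        rw [← this]
      have h2 : ∫ x in (0 : ℝ)..r, fk' v k x = fk v k r - fk v k 0 :=
        intervalIntegral.integral_eq_sub_of_hasDerivAt (fun x _ => fk_deriv hv k x)
          (hc.intervalIntegrable _ _)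
      rw [h1, h2, fk_zero hv hk, sub_zero]
    have h : (fun r => (k : ℝ) ^ 2 * fk v k r ^ 2 / r) =
        fun r => (k : ℝ) ^ 2 * (r * (∫ s in (0 : ℝ)..1, fk' v k (s * r)) ^ 2) := by
      funext r
      by_cases hr : r = 0
      · rw [hr]
        simp
      · rw [hfQ r]
        field_simp
    rw [h]
    exact continuous_const.mul (continuous_id.mul (hQ.pow 2))

private theorem int_disc {v : E → ℝ} (hv : ContDiff ℝ 1 v) :
    ∫ x in D, v x ^ 2 = ∫ r in (0 : ℝ)..1, (∫ t in (-Real.pi)..Real.pi, v (P r t) ^ 2) * r := by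
  rw [Pool.Agent.Neu.integral_disc_polar (f := fun x => v x ^ 2) (hv.continuous.pow 2)]
  congr 1
  funext r
  exact intervalIntegral.integral_mul_const _ _

private theorem int_grad {v : E → ℝ} (hv : ContDiff ℝ 1 v) :
    ∫ x in D, ‖fderiv ℝ v x‖ ^ 2 = ∫ r in (0 : ℝ)..1,
      ((∫ t in (-Real.pi)..Real.pi, fderiv ℝ v (P r t) (P 1 t) ^ 2) +
        ∫ t in (-Real.pi)..Real.pi, fderiv ℝ v (P r t) !₂[-Real.sin t, Real.cos t] ^ 2) * r := by
  rw [Pool.Agent.Neu.integral_disc_polar (f := fun x => ‖fderiv ℝ v x‖ ^ 2)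
    ((hv.continuous_fderiv one_ne_zero).norm.pow 2)]
  congr 1
  funext r
  rw [intervalIntegral.integral_mul_const]
  congr 1
  rw [← Pool.Agent.Neu.Discx.iadd (A := fun t => fderiv ℝ v (P r t) (P 1 t) ^ 2)
    (B := fun t => fderiv ℝ v (P r t) !₂[-Real.sin t, Real.cos t] ^ 2)
    ((secn (F := fun r t => fderiv ℝ v (P r t) (P 1 t)) (cW hv) r).pow 2)
    ((secn (F := fun r t => fderiv ℝ v (P r t) !₂[-Real.sin t, Real.cos t]) (cS hv) r).pow 2)]
  congr 1
  funext t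
  exact Pool.Agent.Neu.Discx.norm_sq_dual _ t

private theorem sq_div {I c a : ℝ} (hc : 0 < c) (h : a = c⁻¹ * I) : I ^ 2 / c = c * a ^ 2 := by
  rw [h]
  field_simp

private theorem bes {v : E → ℝ} (hv : ContDiff ℝ 1 v) (M : ℕ) (r : ℝ) :
    ∑ k ∈ Finset.Ioo (-(M : ℤ)) M, 2 * Real.pi * fk v k r ^ 2 ≤
      ∫ t in (-Real.pi)..Real.pi, v (P r t) ^ 2 := by
  have hpi := Real.pi_pos
  have h := ang_bessel (g := fun t => v (P r t)) (secn (F := fun r t => v (P r t)) (cU hv) r) M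
  refine le_trans (le_of_eq (Finset.sum_congr rfl fun k _ => ?_)) h
  exact (sq_div (by positivity) rfl).symm

private theorem bes' {v : E → ℝ} (hv : ContDiff ℝ 1 v) (M : ℕ) (r : ℝ) :
    ∑ k ∈ Finset.Ioo (-(M : ℤ)) M, 2 * Real.pi * fk' v k r ^ 2 ≤
      ∫ t in (-Real.pi)..Real.pi, fderiv ℝ v (P r t) (P 1 t) ^ 2 := by
  have hpi := Real.pi_pos
  have h := ang_bessel (g := fun t => fderiv ℝ v (P r t) (P 1 t))
    (secn (F := fun r t => fderiv ℝ v (P r t) (P 1 t)) (cW hv) r) M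
  refine le_trans (le_of_eq (Finset.sum_congr rfl fun k _ => ?_)) h
  exact (sq_div (by positivity) rfl).symm

private theorem wir {v : E → ℝ} (hv : ContDiff ℝ 1 v) (M : ℕ) (r : ℝ) :
    ∑ k ∈ Finset.Ioo (-(M : ℤ)) M, (k : ℝ) ^ 2 * (2 * Real.pi * fk v k r ^ 2) +
      (M : ℝ) ^ 2 * ((∫ t in (-Real.pi)..Real.pi, v (P r t) ^ 2) -
        ∑ k ∈ Finset.Ioo (-(M : ℤ)) M, 2 * Real.pi * fk v k r ^ 2) ≤
      r ^ 2 * ∫ t in (-Real.pi)..Real.pi, fderiv ℝ v (P r t) !₂[-Real.sin t, Real.cos t] ^ 2 := by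
  have hpi := Real.pi_pos
  have hfd : ∀ x, HasFDerivAt v (fderiv ℝ v x) x := fun x =>
    (hv.differentiable one_ne_zero x).hasFDerivAt
  have dUt : ∀ t, HasDerivAt (fun x => v (P r x))
      (r * fderiv ℝ v (P r t) !₂[-Real.sin t, Real.cos t]) t := by
    intro t
    have h1 := (hfd (P r t)).comp_hasDerivAt t (Pool.Agent.Neu.Discx.hasDerivAt_P_t r t)
    have h2 : fderiv ℝ v (P r t) (r • (!₂[-Real.sin t, Real.cos t] : E)) =
        r * fderiv ℝ v (P r t) !₂[-Real.sin t, Real.cos t] := by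
      rw [map_smul, smul_eq_mul]
    rw [← h2]
    exact h1
  have h := ang_wirt (g := fun t => v (P r t)) dUt
    (continuous_const.mul (secn (F := fun r t => fderiv ℝ v (P r t) !₂[-Real.sin t, Real.cos t]) (cS hv) r))
    (by simp [P]) M
  have e1 : ∀ k : ℤ, (∫ θ in (-Real.pi)..Real.pi, v (P r θ) * cc k θ) ^ 2 / (2 * Real.pi) =
      2 * Real.pi * fk v k r ^ 2 := fun k => sq_div (by positivity) rfl
  have e2 : ∫ θ in (-Real.pi)..Real.pi, (r * fderiv ℝ v (P r θ) !₂[-Real.sin θ, Real.cos θ]) ^ 2 =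
      r ^ 2 * ∫ t in (-Real.pi)..Real.pi, fderiv ℝ v (P r t) !₂[-Real.sin t, Real.cos t] ^ 2 := by
    rw [← intervalIntegral.integral_const_mul]
    congr 1
    funext t
    ring
  simp only [e1] at h
  rw [e2] at h
  exact h

private theorem pointw {v : E → ℝ} (hv : ContDiff ℝ 1 v) (M : ℕ) {r : ℝ} (hr0 : 0 ≤ r) (hr1 : r ≤ 1) :
    ∑ k ∈ Finset.Ioo (-(M : ℤ)) M, 2 * Real.pi *
        (fk' v k r ^ 2 * r + (k : ℝ) ^ 2 * fk v k r ^ 2 / r) +
      (M : ℝ) ^ 2 * ((∫ t in (-Real.pi)..Real.pi, v (P r t) ^ 2) * r -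
        ∑ k ∈ Finset.Ioo (-(M : ℤ)) M, 2 * Real.pi * (fk v k r ^ 2 * r)) ≤
      ((∫ t in (-Real.pi)..Real.pi, fderiv ℝ v (P r t) (P 1 t) ^ 2) +
        ∫ t in (-Real.pi)..Real.pi, fderiv ℝ v (P r t) !₂[-Real.sin t, Real.cos t] ^ 2) * r := by
  rcases hr0.eq_or_lt with hr | hr
  · rw [← hr]
    simp
  have h1 := bes hv M r
  have h2 := bes' hv M r
  have h3 := wir hv M r
  generalize hA : (∫ t in (-Real.pi)..Real.pi, v (P r t) ^ 2) = A at h1 h3 ⊢
  generalize hB : (∫ t in (-Real.pi)..Real.pi, fderiv ℝ v (P r t) (P 1 t) ^ 2) = B at h2 ⊢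
  generalize hC : (∫ t in (-Real.pi)..Real.pi,
    fderiv ℝ v (P r t) !₂[-Real.sin t, Real.cos t] ^ 2) = C at h3 ⊢
  have e1 : ∑ k ∈ Finset.Ioo (-(M : ℤ)) M, 2 * Real.pi *
        (fk' v k r ^ 2 * r + (k : ℝ) ^ 2 * fk v k r ^ 2 / r) =
      (∑ k ∈ Finset.Ioo (-(M : ℤ)) M, 2 * Real.pi * fk' v k r ^ 2) * r +
      (∑ k ∈ Finset.Ioo (-(M : ℤ)) M, (k : ℝ) ^ 2 * (2 * Real.pi * fk v k r ^ 2)) / r := by
    rw [Finset.sum_mul, Finset.sum_div, ← Finset.sum_add_distrib]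
    exact Finset.sum_congr rfl fun k _ => by ring
  have e2 : ∑ k ∈ Finset.Ioo (-(M : ℤ)) M, 2 * Real.pi * (fk v k r ^ 2 * r) =
      (∑ k ∈ Finset.Ioo (-(M : ℤ)) M, 2 * Real.pi * fk v k r ^ 2) * r := by
    rw [Finset.sum_mul]
    exact Finset.sum_congr rfl fun k _ => by ring
  rw [e1, e2]
  generalize hSa : (∑ k ∈ Finset.Ioo (-(M : ℤ)) M, 2 * Real.pi * fk v k r ^ 2) = Sa at h1 h3 ⊢
  generalize hSb : (∑ k ∈ Finset.Ioo (-(M : ℤ)) M, 2 * Real.pi * fk' v k r ^ 2) = Sb at h2 ⊢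
  generalize hSk : (∑ k ∈ Finset.Ioo (-(M : ℤ)) M, (k : ℝ) ^ 2 * (2 * Real.pi * fk v k r ^ 2)) = Sk
    at h3 ⊢
  have h4 : Sb * r ≤ B * r := mul_le_mul_of_nonneg_right h2 hr0
  have h5 : Sk / r + (M : ℝ) ^ 2 * (A - Sa) / r ≤ C * r := by
    rw [← add_div, div_le_iff₀ hr]
    linarith
  have h6 : (M : ℝ) ^ 2 * (A * r - Sa * r) ≤ (M : ℝ) ^ 2 * (A - Sa) / r := by
    rw [le_div_iff₀ hr]
    have h7 : 0 ≤ (M : ℝ) ^ 2 * (A - Sa) := mul_nonneg (sq_nonneg _) (sub_nonneg.2 h1)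
    have h8 : r * r ≤ 1 := by nlinarith
    calc (M : ℝ) ^ 2 * (A * r - Sa * r) * r = (M : ℝ) ^ 2 * (A - Sa) * (r * r) := by ring
      _ ≤ (M : ℝ) ^ 2 * (A - Sa) * 1 := mul_le_mul_of_nonneg_left h8 h7
      _ = (M : ℝ) ^ 2 * (A - Sa) := mul_one _
  linarith

private theorem sum_int (M : ℕ) {q : ℤ → ℝ → ℝ} (hq : ∀ k, Continuous (q k)) :
    ∑ k ∈ Finset.Ioo (-(M : ℤ)) M, 2 * Real.pi * (∫ r in (0 : ℝ)..1, q k r) =
      ∫ r in (0 : ℝ)..1, ∑ k ∈ Finset.Ioo (-(M : ℤ)) M, 2 * Real.pi * q k r := by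
  have hq2 : ∀ k : ℤ, Continuous (fun r => 2 * Real.pi * q k r) := fun k =>
    continuous_const.mul (hq k)
  rw [intervalIntegral.integral_finsetSum (f := fun k r => 2 * Real.pi * q k r) fun k _ =>
    (hq2 k).intervalIntegrable _ _]
  exact Finset.sum_congr rfl fun k _ => (intervalIntegral.integral_const_mul _ _).symm

private theorem cA {v : E → ℝ} (hv : ContDiff ℝ 1 v) :
    Continuous (fun r : ℝ => (∫ t in (-Real.pi)..Real.pi, v (P r t) ^ 2) * r) :=
  (Pool.Agent.Neu.Discx.cont_int (F := fun r t => v (P r t) ^ 2) ((cU hv).pow 2) _ _).mul continuous_id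

theorem disc_energy {v : E → ℝ} (hv : ContDiff ℝ 1 v) (M : ℕ) :
    ∑ k ∈ Finset.Ioo (-(M : ℤ)) M, 2 * Real.pi *
        (∫ r in (0 : ℝ)..1, (fk' v k r ^ 2 * r + (k : ℝ) ^ 2 * fk v k r ^ 2 / r)) +
      (M : ℝ) ^ 2 * ((∫ x in D, v x ^ 2) -
        ∑ k ∈ Finset.Ioo (-(M : ℤ)) M, 2 * Real.pi * ∫ r in (0 : ℝ)..1, fk v k r ^ 2 * r) ≤
      ∫ x in D, ‖fderiv ℝ v x‖ ^ 2 := by
  have hca : ∀ k : ℤ, Continuous (fun r => fk v k r ^ 2 * r) := fun k =>
    ((fk_c hv k).pow 2).mul continuous_id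
  have c1 : Continuous (fun r => ∑ k ∈ Finset.Ioo (-(M : ℤ)) M, 2 * Real.pi *
      (fk' v k r ^ 2 * r + (k : ℝ) ^ 2 * fk v k r ^ 2 / r)) :=
    continuous_finsetSum _ fun k _ => continuous_const.mul (quo_c hv k)
  have c2 : Continuous (fun r => ∑ k ∈ Finset.Ioo (-(M : ℤ)) M, 2 * Real.pi * (fk v k r ^ 2 * r)) :=
    continuous_finsetSum _ fun k _ => continuous_const.mul (hca k)
  have c3 : Continuous (fun r : ℝ => (M : ℝ) ^ 2 *
      ((∫ t in (-Real.pi)..Real.pi, v (P r t) ^ 2) * r -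
        ∑ k ∈ Finset.Ioo (-(M : ℤ)) M, 2 * Real.pi * (fk v k r ^ 2 * r))) :=
    continuous_const.mul ((cA hv).sub c2)
  rw [int_disc hv, int_grad hv, sum_int M (fun k => quo_c hv k), sum_int M hca,
    ← intervalIntegral.integral_sub ((cA hv).intervalIntegrable _ _) (c2.intervalIntegrable _ _),
    ← intervalIntegral.integral_const_mul,
    ← intervalIntegral.integral_add (c1.intervalIntegrable _ _) (c3.intervalIntegrable _ _)]
  refine intervalIntegral.integral_mono_on zero_le_one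
    ((c1.add c3).intervalIntegrable _ _) ?_ fun r hr =>
      pointw hv M hr.1 hr.2
  exact (((Pool.Agent.Neu.Discx.cont_int (F := fun r t => fderiv ℝ v (P r t) (P 1 t) ^ 2)
      ((cW hv).pow 2) _ _).add
    (Pool.Agent.Neu.Discx.cont_int
      (F := fun r t => fderiv ℝ v (P r t) !₂[-Real.sin t, Real.cos t] ^ 2)
      ((cS hv).pow 2) _ _)).mul continuous_id).intervalIntegrable _ _

theorem disc_bessel {v : E → ℝ} (hv : ContDiff ℝ 1 v) (M : ℕ) :
    ∑ k ∈ Finset.Ioo (-(M : ℤ)) M, 2 * Real.pi * (∫ r in (0 : ℝ)..1, fk v k r ^ 2 * r) ≤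
      ∫ x in D, v x ^ 2 := by
  have hca : ∀ k : ℤ, Continuous (fun r => fk v k r ^ 2 * r) := fun k =>
    ((fk_c hv k).pow 2).mul continuous_id
  have c2 : Continuous (fun r => ∑ k ∈ Finset.Ioo (-(M : ℤ)) M, 2 * Real.pi * (fk v k r ^ 2 * r)) :=
    continuous_finsetSum _ fun k _ => continuous_const.mul (hca k)
  rw [int_disc hv, sum_int M hca]
  refine intervalIntegral.integral_mono_on zero_le_one (c2.intervalIntegrable _ _)
    ((cA hv).intervalIntegrable _ _) fun r hr => ?_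
  have e2 : ∑ k ∈ Finset.Ioo (-(M : ℤ)) M, 2 * Real.pi * (fk v k r ^ 2 * r) =
      (∑ k ∈ Finset.Ioo (-(M : ℤ)) M, 2 * Real.pi * fk v k r ^ 2) * r := by
    rw [Finset.sum_mul]
    exact Finset.sum_congr rfl fun k _ => by ring
  rw [e2]
  exact mul_le_mul_of_nonneg_right (bes hv M r) hr.1

end Pool.Agent.NSY
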