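import Pool.Agent.NSY.Defs
import Pool.Agent.NSY.AngD

/-!
# NSY-PolP: polar coordinates and the functions pol

PLAN. `P r θ = !₂[r cos θ, r sin θ]` (Pool/Agent/Neu/Disc.lean). `‖P r θ‖ = r` for `r ≥ 0`
(`EuclideanSpace.norm_eq`). `eq_P`: the complex number `z = x 0 + i x 1` has `‖z‖ = ‖x‖`, `z = ‖z‖ e^{i arg z}`
(`Complex.norm_mul_exp_arg_mul_I`, `Complex.norm_mul_cos_arg`, ...). `cc_arg2`: for `r > 0` the number
`r cos θ + i r sin θ = r e^{iθ}` has argument `θ` modulo `2π` (`Complex.arg_mul_cos_add_sin_mul_I_eq_toIocMod` or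
`Complex.arg_cos_add_sin_mul_I_coe_angle`; `θ - toIocMod` is an integer multiple of `2π`), and `cc k` is `2π`-periodic (`cc_periodic`;
`Function.Periodic.int_mul` or `sub_zsmul_eq`).
-/

set_option autoImplicit false

open MeasureTheory Set Filter Topology
open Pool.Agent.Neu (E D mu)
open Pool.Agent.Neu.Discx (P)

namespace Pool.Agent.NSY

private theorem polp_0 (r θ : ℝ) : (P r θ) 0 = r * Real.cos θ := rfl

private theorem polp_1 (r θ : ℝ) : (P r θ) 1 = r * Real.sin θ := rfl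

theorem norm_P {r : ℝ} (hr : 0 ≤ r) (θ : ℝ) : ‖P r θ‖ = r := by
  rw [EuclideanSpace.norm_eq, Fin.sum_univ_two, polp_0, polp_1, Real.norm_eq_abs, Real.norm_eq_abs,
    sq_abs, sq_abs]
  have h1 : (r * Real.cos θ) ^ 2 + (r * Real.sin θ) ^ 2 = r ^ 2 := by
    have h2 := Real.sin_sq_add_cos_sq θ
    linear_combination r ^ 2 * h2
  rw [h1, Real.sqrt_sq hr]

theorem eq_P (x : E) : P ‖x‖ (arg2 x) = x := by
  have hn : ‖x‖ = ‖(⟨x 0, x 1⟩ : ℂ)‖ := by
    rw [EuclideanSpace.norm_eq, Fin.sum_univ_two, Complex.norm_def, Complex.normSq_apply,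
      Real.norm_eq_abs, Real.norm_eq_abs, sq_abs, sq_abs, sq, sq]
  have h0 : ‖x‖ * Real.cos (arg2 x) = x 0 := by
    rw [hn]
    exact Complex.norm_mul_cos_arg (⟨x 0, x 1⟩ : ℂ)
  have h1 : ‖x‖ * Real.sin (arg2 x) = x 1 := by
    rw [hn]
    exact Complex.norm_mul_sin_arg (⟨x 0, x 1⟩ : ℂ)
  ext i
  fin_cases i
  · exact h0
  · exact h1

theorem cc_arg2 (k : ℤ) {r : ℝ} (hr : 0 < r) (θ : ℝ) : cc k (arg2 (P r θ)) = cc k θ := by
  have h1 : arg2 (P r θ) = toIocMod Real.two_pi_pos (-Real.pi) θ := by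
    rw [← Complex.arg_mul_cos_add_sin_mul_I_eq_toIocMod hr θ]
    unfold arg2
    congr 1
    rw [polp_0, polp_1]
    apply Complex.ext
    · simp [Complex.cos_ofReal_re, Complex.sin_ofReal_im]
    · simp [Complex.sin_ofReal_re, Complex.cos_ofReal_im]
  have hp : Function.Periodic (cc k) (2 * Real.pi) := fun θ => cc_periodic k θ
  rw [h1]
  unfold toIocMod
  exact hp.sub_zsmul_eq _

theorem pol_P (k : ℤ) (g : ℝ → ℝ) {r : ℝ} (hr : 0 < r) (θ : ℝ) :
    pol k g (P r θ) = g r * cc k θ := by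
  unfold pol
  rw [norm_P hr.le, cc_arg2 k hr]

end Pool.Agent.NSY
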