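import Pool.Agent.NSY.Defs
import Pool.Agent.NSY.PolP

/-!
# NSY-PolI: polar coordinates on a bounded set; the angular density

PLAN. `int_polar`: as in the proof of `integral_disc_polar` (Pool/Agent/Neu/Disc.lean; `Discx.integral_E_eq_prod`,
`integral_comp_polarCoord_symm`), applied to the function `x ↦ ind Ω x * f x` (bounded, measurable, zero for `‖x‖ ≥ R`); Fubini
on `(0, R) × (-π, π)` for the bounded measurable function. `dens_meas`: `StronglyMeasurable.integral_prod_right` (parametric integral of the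
jointly measurable bounded function `(r, θ) ↦ ind Ω (P r θ)`). `0 ≤ ind ≤ 1` gives the bounds; `dens_eq_one`: `P r θ ∈ ball 0 ρ` for
`0 ≤ r < ρ`. `int_radial`: `int_polar` with `f x = F ‖x‖`, `‖P r θ‖ = r` for `r ≥ 0`. `dens_vol`, `dens_inertia`: `F = 1`,
`F = r²`.
-/

set_option autoImplicit false

open MeasureTheory Set Filter Topology
open Pool.Agent.Neu (E D mu)
open Pool.Agent.Neu.Discx (P)

namespace Pool.Agent.NSY

theorem ind_meas {Ω : Set E} (hΩ : MeasurableSet Ω) :
    Measurable (fun p : ℝ × ℝ => ind Ω (P p.1 p.2)) := by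
  have h1 : Measurable (ind Ω) := measurable_const.indicator hΩ
  exact h1.comp Pool.Agent.Neu.Discx.continuous_P.measurable

theorem ind_bd (Ω : Set E) (x : E) : 0 ≤ ind Ω x ∧ ind Ω x ≤ 1 := by
  unfold ind
  by_cases h : x ∈ Ω
  · rw [indicator_of_mem h]; exact ⟨zero_le_one, le_refl _⟩
  · rw [indicator_of_notMem h]; exact ⟨le_refl _, zero_le_one⟩

theorem int_polar {Ω : Set E} (hΩ : MeasurableSet Ω) {R : ℝ} (hR : 0 < R)
    (hb : Ω ⊆ Metric.ball 0 R) {f : E → ℝ} (hf : Continuous f) :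
    ∫ x in Ω, f x =
      ∫ r in (0 : ℝ)..R, (∫ θ in (-Real.pi)..Real.pi, ind Ω (P r θ) * f (P r θ)) * r := by
  have hc : Continuous (fun p : ℝ × ℝ => f (P p.1 p.2) * p.1) :=
    (hf.comp Pool.Agent.Neu.Discx.continuous_P).mul continuous_fst
  rw [← integral_indicator hΩ, Pool.Agent.Neu.Discx.integral_E_eq_prod,
    ← integral_comp_polarCoord_symm]
  have h1 : ∫ p in polarCoord.target, p.1 • (fun q : ℝ × ℝ => (Ω.indicator f) !₂[q.1, q.2])
      (polarCoord.symm p) = ∫ p in polarCoord.target,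
        (Set.indicator (Ioo (0 : ℝ) R ×ˢ Ioo (-Real.pi) Real.pi)
          (fun p : ℝ × ℝ => ind Ω (P p.1 p.2) * (f (P p.1 p.2) * p.1))) p := by
    refine setIntegral_congr_fun polarCoord.open_target.measurableSet ?_
    rintro ⟨r, t⟩ ⟨hr, ht⟩
    simp only [polarCoord_symm_apply]
    simp only [mem_Ioi] at hr
    simp only at ht
    have hmem : (!₂[r * Real.cos t, r * Real.sin t] : E) ∈ Ω → r < R := by
      intro h
      have h2 := hb h
      rw [mem_ball_zero_iff] at h2
      have h3 : ‖P r t‖ = r := norm_P hr.le t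
      rw [← h3]
      exact h2
    by_cases hm0 : (!₂[r * Real.cos t, r * Real.sin t] : E) ∈ Ω
    · have hm : (r, t) ∈ Ioo (0 : ℝ) R ×ˢ Ioo (-Real.pi) Real.pi := ⟨⟨hr, hmem hm0⟩, ht⟩
      rw [indicator_of_mem hm0, indicator_of_mem hm]
      have hi : ind Ω (P r t) = 1 := indicator_of_mem (show P r t ∈ Ω from hm0) _
      simp only [hi, one_mul, smul_eq_mul]
      exact mul_comm _ _
    · rw [indicator_of_notMem hm0, smul_zero]
      have hi : ind Ω (P r t) = 0 := indicator_of_notMem (show P r t ∉ Ω from hm0) _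
      by_cases hm : (r, t) ∈ Ioo (0 : ℝ) R ×ˢ Ioo (-Real.pi) Real.pi
      · rw [indicator_of_mem hm]
        simp only [hi, zero_mul]
      · rw [indicator_of_notMem hm]
  rw [h1, setIntegral_indicator (measurableSet_Ioo.prod measurableSet_Ioo)]
  have h2 : polarCoord.target ∩ (Ioo (0 : ℝ) R ×ˢ Ioo (-Real.pi) Real.pi)
      = Ioo (0 : ℝ) R ×ˢ Ioo (-Real.pi) Real.pi := by
    apply inter_eq_right.2
    rintro ⟨r, t⟩ ⟨hr, ht⟩
    exact ⟨hr.1, ht⟩
  rw [h2]
  have hint : IntegrableOn (fun p : ℝ × ℝ => ind Ω (P p.1 p.2) * (f (P p.1 p.2) * p.1))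
      (Ioo (0 : ℝ) R ×ˢ Ioo (-Real.pi) Real.pi) (volume.prod volume) := by
    have h3 : IntegrableOn (fun p : ℝ × ℝ => f (P p.1 p.2) * p.1)
      (Icc (0 : ℝ) R ×ˢ Icc (-Real.pi) Real.pi) (volume : Measure (ℝ × ℝ)) :=
      hc.continuousOn.integrableOn_compact (isCompact_Icc.prod isCompact_Icc)
    have h4 := h3.mono_set (prod_mono (Ioo_subset_Icc_self (a := (0 : ℝ)) (b := R))
      (Ioo_subset_Icc_self (a := -Real.pi) (b := Real.pi)))
    refine Integrable.bdd_mul (c := 1) h4 (ind_meas hΩ).aestronglyMeasurable ?_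
    refine Filter.Eventually.of_forall fun p => ?_
    rw [Real.norm_eq_abs, abs_of_nonneg (ind_bd Ω _).1]
    exact (ind_bd Ω _).2
  have h3 := setIntegral_prod _ hint
  have h4 : (volume : Measure (ℝ × ℝ)) = (volume : Measure ℝ).prod volume := rfl
  rw [h4, h3, intervalIntegral.integral_of_le hR.le, integral_Ioc_eq_integral_Ioo]
  refine integral_congr_ae (Filter.Eventually.of_forall fun r => ?_)
  simp only
  rw [intervalIntegral.integral_of_le (by linarith [Real.pi_pos]), integral_Ioc_eq_integral_Ioo,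
    ← integral_mul_const]
  refine integral_congr_ae (Filter.Eventually.of_forall fun t => ?_)
  simp only
  ring

theorem dens_meas {Ω : Set E} (hΩ : MeasurableSet Ω) : Measurable (dens Ω) := by
  unfold dens
  refine Measurable.const_mul ?_ _
  have h1 : (fun r => ∫ θ in (-Real.pi)..Real.pi, ind Ω (P r θ)) =
      fun r => ∫ θ in Ioc (-Real.pi) Real.pi, ind Ω (P r θ) := by
    funext r
    rw [intervalIntegral.integral_of_le (by linarith [Real.pi_pos])]
  rw [h1]
  exact (StronglyMeasurable.integral_prod_right' (f := fun p : ℝ × ℝ => ind Ω (P p.1 p.2))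
    (ν := volume.restrict (Ioc (-Real.pi) Real.pi)) (ind_meas hΩ).stronglyMeasurable).measurable

private theorem ind_int {Ω : Set E} (hΩ : MeasurableSet Ω) (r : ℝ) :
    IntervalIntegrable (fun θ => ind Ω (P r θ)) volume (-Real.pi) Real.pi := by
  have h1 : Measurable (fun θ => ind Ω (P r θ)) := (ind_meas hΩ).comp measurable_prodMk_left
  refine (intervalIntegrable_const (c := (1 : ℝ))).mono_fun h1.aestronglyMeasurable ?_
  refine Filter.Eventually.of_forall fun t => ?_
  simp only [Real.norm_eq_abs, abs_one]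
  rw [abs_of_nonneg (ind_bd Ω _).1]
  exact (ind_bd Ω _).2

theorem dens_bd {Ω : Set E} (hΩ : MeasurableSet Ω) (r : ℝ) : 0 ≤ dens Ω r ∧ dens Ω r ≤ 1 := by
  unfold dens
  have hpi := Real.pi_pos
  constructor
  · refine mul_nonneg (by positivity) ?_
    exact intervalIntegral.integral_nonneg (by linarith) fun t _ => (ind_bd Ω _).1
  · have h1 : (∫ θ in (-Real.pi)..Real.pi, ind Ω (P r θ)) ≤ ∫ _θ in (-Real.pi)..Real.pi, (1 : ℝ) :=
      intervalIntegral.integral_mono_on (by linarith) (ind_int hΩ r) intervalIntegrable_const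
        fun t _ => (ind_bd Ω _).2
    rw [intervalIntegral.integral_const, smul_eq_mul, mul_one] at h1
    have h2 : Real.pi - -Real.pi = 2 * Real.pi := by ring
    rw [h2] at h1
    calc (2 * Real.pi)⁻¹ * (∫ θ in (-Real.pi)..Real.pi, ind Ω (P r θ)) ≤
        (2 * Real.pi)⁻¹ * (2 * Real.pi) := mul_le_mul_of_nonneg_left h1 (by positivity)
      _ = 1 := inv_mul_cancel₀ (by positivity)

theorem dens_eq_one {Ω : Set E} {ρ : ℝ} (hρ : Metric.ball 0 ρ ⊆ Ω) {r : ℝ} (h0 : 0 ≤ r)
    (hr : r < ρ) : dens Ω r = 1 := by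
  unfold dens
  have h1 : ∀ θ, ind Ω (P r θ) = 1 := by
    intro θ
    refine indicator_of_mem (hρ ?_) _
    rw [mem_ball_zero_iff, norm_P h0]
    exact hr
  simp only [h1]
  rw [intervalIntegral.integral_const, smul_eq_mul, mul_one]
  have hpi := Real.pi_pos
  have h2 : Real.pi - -Real.pi = 2 * Real.pi := by ring
  rw [h2]
  exact inv_mul_cancel₀ (by positivity)

theorem int_radial {Ω : Set E} (hΩ : MeasurableSet Ω) {R : ℝ} (hR : 0 < R)
    (hb : Ω ⊆ Metric.ball 0 R) {F : ℝ → ℝ} (hF : Continuous F) :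
    ∫ x in Ω, F ‖x‖ = 2 * Real.pi * ∫ r in (0 : ℝ)..R, dens Ω r * (F r * r) := by
  rw [int_polar hΩ hR hb (f := fun x => F ‖x‖) (hF.comp continuous_norm),
    ← intervalIntegral.integral_const_mul]
  refine intervalIntegral.integral_congr fun r hr => ?_
  rw [uIcc_of_le hR.le] at hr
  simp only [norm_P hr.1]
  rw [intervalIntegral.integral_mul_const]
  unfold dens
  have hpi := Real.pi_pos
  field_simp

theorem dens_vol {Ω : Set E} (hΩ : MeasurableSet Ω) {R : ℝ} (hR : 0 < R)
    (hb : Ω ⊆ Metric.ball 0 R) :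
    (volume Ω).toReal = 2 * Real.pi * ∫ r in (0 : ℝ)..R, dens Ω r * r := by
  have h1 := int_radial hΩ hR hb (F := fun _ => 1) continuous_const
  simp only [one_mul] at h1
  rw [← h1]
  simp [Measure.real]

theorem dens_inertia {Ω : Set E} (hΩ : MeasurableSet Ω) {R : ℝ} (hR : 0 < R)
    (hb : Ω ⊆ Metric.ball 0 R) :
    ∫ x in Ω, ‖x‖ ^ 2 = 2 * Real.pi * ∫ r in (0 : ℝ)..R, dens Ω r * r ^ 3 := by
  rw [int_radial hΩ hR hb (F := fun r => r ^ 2) (continuous_pow 2)]
  have h1 : ∀ r : ℝ, dens Ω r * (r ^ 2 * r) = dens Ω r * r ^ 3 := fun r => by ring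
  simp only [h1]

end Pool.Agent.NSY
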