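import Pool.Agent.NSY.Defs
import Pool.Agent.NSY.PolI
import Pool.Agent.Neu.Rad

/-!
# NSY-FD: the functional of the disc

`volume D = π` (`Pool.Agent.Neu.disc_volume`), `∫_D y = 0` (invariance of `D` under `y ↦ -y`),
`∫_D ‖x‖² = π/2` (`disc_radial` with `f s = s`), and `π³/(π/2) = 2π²`.
-/

set_option autoImplicit false

open MeasureTheory Set Filter Topology
open Pool.Agent.Neu (E D mu)
open Pool.Agent.Neu.Discx (P)

namespace Pool.Agent.NSY

private theorem fd_center : ∫ y in D, (y : E) = 0 := by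
  have h := ((LinearIsometryEquiv.neg ℝ : E ≃ₗᵢ[ℝ] E).measurePreserving).setIntegral_preimage_emb
    ((LinearIsometryEquiv.neg ℝ : E ≃ₗᵢ[ℝ] E).toHomeomorph.measurableEmbedding) (fun y : E => y) D
  have hD : (LinearIsometryEquiv.neg ℝ : E ≃ₗᵢ[ℝ] E) ⁻¹' D = D := by
    ext y
    simp [D]
  rw [hD] at h
  have h2 : ∫ y in D, (LinearIsometryEquiv.neg ℝ : E ≃ₗᵢ[ℝ] E) y = -∫ y in D, (y : E) := by
    rw [← integral_neg]
    rfl
  rw [h2] at h
  have h3 : (2 : ℝ) • ∫ y in D, (y : E) = 0 := by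
    rw [two_smul]
    nth_rewrite 1 [← h]
    exact neg_add_cancel _
  exact (smul_eq_zero.1 h3).resolve_left (by norm_num)

private theorem fd_inertia : ∫ x in D, ‖(x : E)‖ ^ 2 = Real.pi / 2 := by
  have h := Pool.Agent.Neu.disc_radial (f := fun s => s) continuous_id
  have h2 : ∫ y in D, ‖(y : E)‖ ^ 2 = ∫ y in D, Pool.Agent.Neu.sq y := by
    congr 1
    funext y
    rw [Pool.Agent.Neu.Radx.sq_eq]
  rw [h2, h, integral_id]
  ring

theorem FF_disc (n : ℕ) : FF n D = 2 * Real.pi ^ 2 * ∑ k ∈ Finset.Icc 2 n, mu D k := by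
  have hv : (volume D).toReal = Real.pi := by
    rw [Pool.Agent.Neu.disc_volume, ENNReal.toReal_ofReal Real.pi_pos.le]
  unfold FF
  rw [hv, fd_center, smul_zero]
  simp only [sub_zero]
  rw [fd_inertia]
  have := Real.pi_pos.ne'
  field_simp

end Pool.Agent.NSY
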