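import Pool.Agent.NSY.Defs
import Pool.Agent.Neu.Lower

/-!
# NSY-MuG: lower bound for the min-max values

PLAN. As in `Pool.Agent.Neu.le_mu` (Pool/Agent/Neu/Lower.lean). The set is nonempty: the span of the `k` functions `x ↦ (x 0)^j`, `j < k`, restricted to the
disc: a polynomial in `x 0` vanishing on the disc vanishes identically. `le_csInf`: given `V` of dimension `k`, the linear map
`V → (S → ℝ)`, `f ↦ (ℓ i f)_{i ∈ S}` (linear by `hl`) has a nonzero `f` in its kernel since `card S < k`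
(`LinearMap.exists_ne_zero_of_finrank_lt` or rank-nullity); `∫ f² > 0` (`Lowerx.integral_sq_pos`),
so its Rayleigh quotient is `≥ c`, and the supremum is `≥` it (`le_csSup`, bounded above by `Pool.Agent.Neu.rayleigh_bdd`, see the proof of `le_mu`).
-/

set_option autoImplicit false

open MeasureTheory Set Filter Topology
open Pool.Agent.Neu (E D mu)
open Pool.Agent.Neu.Discx (P)

namespace Pool.Agent.NSY

/-- polynomials in the first coordinate -/
private noncomputable def pl (k : ℕ) : (Fin k → ℝ) →ₗ[ℝ] (E → ℝ) where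
  toFun v := fun x => ∑ j : Fin k, v j * x 0 ^ (j : ℕ)
  map_add' v v' := by
    funext x
    simp only [Pi.add_apply]
    rw [← Finset.sum_add_distrib]
    exact Finset.sum_congr rfl (fun j _ => by ring)
  map_smul' c v := by
    funext x
    simp only [Pi.smul_apply, smul_eq_mul, RingHom.id_apply]
    rw [Finset.mul_sum]
    exact Finset.sum_congr rfl (fun j _ => by ring)

private theorem pl_contDiff (k : ℕ) (v : Fin k → ℝ) : ContDiff ℝ 1 (pl k v) := by
  have h0 : ContDiff ℝ 1 (fun x : E => x 0) := contDiff_euclidean.1 contDiff_id 0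
  have h1 : ContDiff ℝ 1 (fun x : E => ∑ j : Fin k, v j * x 0 ^ (j : ℕ)) :=
    ContDiff.sum (fun j _ => contDiff_const.mul (h0.pow _))
  exact h1

private theorem pl_nondeg (k : ℕ) (v : Fin k → ℝ) (h : ∀ x ∈ D, pl k v x = 0) : v = 0 := by
  set p : Polynomial ℝ := ∑ j : Fin k, Polynomial.C (v j) * Polynomial.X ^ (j : ℕ) with hp
  have h1 : ∀ t ∈ Ioo (0 : ℝ) 1, p.IsRoot t := by
    intro t ht
    have h2 := h (EuclideanSpace.single 0 t) (by
      rw [Metric.mem_ball, dist_zero_right, PiLp.norm_single, Real.norm_eq_abs, abs_of_pos ht.1]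
      exact ht.2)
    change ∑ j : Fin k, v j * (EuclideanSpace.single (0 : Fin 2) t) 0 ^ (j : ℕ) = 0 at h2
    rw [Polynomial.IsRoot, hp, Polynomial.eval_finsetSum]
    rw [← h2]
    refine Finset.sum_congr rfl (fun j _ => ?_)
    simp
  have h3 : p = 0 := by
    refine Polynomial.eq_zero_of_infinite_isRoot p ?_
    refine Set.Infinite.mono (fun t ht => h1 t ht) (Ioo_infinite (zero_lt_one))
  funext j
  have h4 : p.coeff (j : ℕ) = v j := by
    rw [hp, Polynomial.finsetSum_coeff]
    rw [Finset.sum_eq_single j]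
    · simp
    · intro i _ hij
      rw [Polynomial.coeff_C_mul, Polynomial.coeff_X_pow, if_neg, mul_zero]
      intro h5
      exact hij (Fin.ext h5.symm)
    · intro h5
      exact absurd (Finset.mem_univ j) h5
  rw [← h4, h3]
  simp

private theorem exists_sp (k : ℕ) :
    ∃ V : Submodule ℝ (E → ℝ),
    (∀ f ∈ V, ContDiff ℝ 1 f) ∧ (∀ f ∈ V, (∀ x ∈ D, f x = 0) → f = 0) ∧
    FiniteDimensional ℝ V ∧ Module.finrank ℝ V = k := by
  have hinj : Function.Injective (pl k) := by
    rw [injective_iff_map_eq_zero]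
    intro v hv
    exact pl_nondeg k v (fun x _ => congrFun hv x)
  refine ⟨LinearMap.range (pl k), ?_, ?_, inferInstance, ?_⟩
  · rintro f ⟨v, rfl⟩
    exact pl_contDiff k _
  · rintro f ⟨v, rfl⟩ h
    have h1 : v = 0 := pl_nondeg k _ h
    rw [h1, map_zero]
  · rw [LinearMap.finrank_range_of_inj hinj, Module.finrank_fin_fun]

theorem mu_ge {ι : Type} {k : ℕ} (S : Finset ι) (hS : S.card < k) (l : ι → (E → ℝ) → ℝ)
    (hl : ∀ i, ∀ v w : E → ℝ, ContDiff ℝ 1 v → ContDiff ℝ 1 w → ∀ a b : ℝ,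
      l i (fun x => a * v x + b * w x) = a * l i v + b * l i w)
    {c : ℝ} (h : ∀ v : E → ℝ, ContDiff ℝ 1 v → (∀ i ∈ S, l i v = 0) →
      c * ∫ x in D, v x ^ 2 ≤ ∫ x in D, ‖fderiv ℝ v x‖ ^ 2) :
    c ≤ mu D k := by
  have hΩ : IsOpen D := Metric.isOpen_ball
  have hb : Bornology.IsBounded D := Metric.isBounded_ball
  unfold mu
  apply le_csInf
  · obtain ⟨V, h1, h2, h3, h4⟩ := exists_sp k
    exact ⟨_, V, h1, h2, h3, h4, rfl⟩
  · rintro r ⟨V, h1, h2, h3, h4, rfl⟩
    obtain ⟨C, hC⟩ := Pool.Agent.Neu.rayleigh_bdd hΩ hb V h1 h2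
    let L : V →ₗ[ℝ] (S → ℝ) :=
      { toFun := fun f i => l i (f : E → ℝ)
        map_add' := fun f g => by
          funext i
          have h5 := hl i f.1 g.1 (h1 f.1 f.2) (h1 g.1 g.2) 1 1
          have h6 : (fun x => 1 * (f : E → ℝ) x + 1 * (g : E → ℝ) x) = ((f + g : V) : E → ℝ) := by
            funext x
            rw [one_mul, one_mul]
            rfl
          rw [h6, one_mul, one_mul] at h5
          exact h5
        map_smul' := fun c f => by
          funext i
          have h5 := hl i f.1 f.1 (h1 f.1 f.2) (h1 f.1 f.2) c 0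
          have h6 : (fun x => c * (f : E → ℝ) x + 0 * (f : E → ℝ) x) = ((c • f : V) : E → ℝ) := by
            funext x
            rw [zero_mul, add_zero]
            rfl
          rw [h6, zero_mul, add_zero] at h5
          exact h5 }
    have hker : LinearMap.ker L ≠ ⊥ := by
      intro hbot
      have hinj : Function.Injective L := LinearMap.ker_eq_bot.1 hbot
      have h5 := LinearMap.finrank_le_finrank_of_injective hinj
      rw [h4, Module.finrank_fintype_fun_eq_card, Fintype.card_coe] at h5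
      omega
    obtain ⟨f, hf, hf0⟩ := Submodule.exists_mem_ne_zero_of_ne_bot hker
    have hfl : ∀ i ∈ S, l i (f : E → ℝ) = 0 := fun i hi => congrFun (LinearMap.mem_ker.1 hf) ⟨i, hi⟩
    have hf0' : (f : E → ℝ) ≠ 0 := fun h => hf0 (Subtype.ext h)
    have hpos := Pool.Agent.Neu.Lowerx.integral_sq_pos hΩ hb h1 h2 f.2 hf0'
    have h6 := h f.1 (h1 f.1 f.2) hfl
    have h7 : c ≤ (∫ x in D, ‖fderiv ℝ (f : E → ℝ) x‖ ^ 2) / (∫ x in D, (f : E → ℝ) x ^ 2) := by
      rw [le_div_iff₀ hpos]; exact h6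
    refine h7.trans (le_csSup ?_ ⟨f.1, f.2, hf0', rfl⟩)
    refine ⟨C, ?_⟩
    rintro q ⟨g, hg, hg0, rfl⟩
    rw [div_le_iff₀ (Pool.Agent.Neu.Lowerx.integral_sq_pos hΩ hb h1 h2 hg hg0)]
    exact hC g hg

end Pool.Agent.NSY
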