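import Mathlib
import Pool.Agent.Neu.Disc

/-!
# NSY: Neumann eigenvalue sums of domains with rotational symmetry (MP_7e3a18_an, helper2)

Definitions.  `P r θ` (from `Pool.Agent.Neu.Disc`) is the point with polar coordinates `(r, θ)`.
-/

set_option autoImplicit false

open MeasureTheory Set Filter Topology
open Pool.Agent.Neu (E D mu)
open Pool.Agent.Neu.Discx (P)

namespace Pool.Agent.NSY

/-- the angular functions: `cc 0 = 1`, `cc k = √2 cos kθ` for `k > 0`, `cc k = √2 sin kθ` for `k < 0` -/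
noncomputable def cc (k : ℤ) (θ : ℝ) : ℝ :=
  if k = 0 then 1 else if 0 < k then √2 * Real.cos (k * θ) else √2 * Real.sin (k * θ)

/-- the polar angle -/
noncomputable def arg2 (x : E) : ℝ := Complex.arg ⟨x 0, x 1⟩

/-- the function with polar representation `g(r) cc k θ` -/
noncomputable def pol (k : ℤ) (g : ℝ → ℝ) (x : E) : ℝ := g ‖x‖ * cc k (arg2 x)

/-- `g` is `C¹` on `(0,∞)` and behaves at `0` so that `g(r) cc k θ`, `|k| = m`, is `C¹` on the plane -/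
structure Reg (m : ℕ) (g g' : ℝ → ℝ) : Prop where
  der : ∀ r, 0 < r → HasDerivAt g (g' r) r
  cont : ContinuousOn g' (Ioi 0)
  lim : Tendsto g (𝓝[>] 0) (𝓝 (g 0))
  zero : m ≠ 0 → g 0 = 0
  slope : ∃ c : ℝ, Tendsto g' (𝓝[>] 0) (𝓝 c) ∧ (c ≠ 0 → m = 1)

/-- radial Neumann eigenfunction of the unit disc in the angular sector `m`, eigenvalue `K`,
`∫_0^1 u² t dt = 1/2`, continued as a constant to `t ≥ 1` -/
structure REig (m : ℕ) (K : ℝ) (u u' : ℝ → ℝ) : Prop where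
  reg : Reg m u u'
  ode : ∀ t ∈ Ioo (0 : ℝ) 1,
    HasDerivAt (fun s => s * u' s) ((m : ℝ) ^ 2 * u t / t - K * (t * u t)) t
  out : ∀ t, 1 ≤ t → u' t = 0
  norm : ∫ t in (0 : ℝ)..1, u t ^ 2 * t = 1 / 2

/-- the least eigenvalue of the angular sector `m` of the unit disc (`= (j'_{m,1})²` for `m ≥ 1`) -/
noncomputable def lam (m : ℕ) : ℝ :=
  sInf {q : ℝ | ∃ f f' : ℝ → ℝ, (∀ r, HasDerivAt f (f' r) r) ∧ Continuous f' ∧ f 0 = 0 ∧
    (∫ r in (0 : ℝ)..1, f r ^ 2 * r) ≠ 0 ∧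
    q = (∫ r in (0 : ℝ)..1, (f' r ^ 2 * r + (m : ℝ) ^ 2 * f r ^ 2 / r)) /
      (∫ r in (0 : ℝ)..1, f r ^ 2 * r)}

/-- the coefficient functional of `u(r) cc k θ` on the unit disc -/
noncomputable def cf (k : ℤ) (u : ℝ → ℝ) (v : E → ℝ) : ℝ :=
  ∫ r in (0 : ℝ)..1, (∫ θ in (-Real.pi)..Real.pi, v (P r θ) * cc k θ) * (u r * r)

/-- a finite family of Neumann eigenfunctions `u_i(r) cc k_i θ` (square norm `π`) of the unit disc in the
angular sectors `< M`, with eigenvalues `K_i < Λ`, such that the energy is `≥ Λ` on the complement -/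
structure Fam (M : ℕ) (Λ : ℝ) {ι : Type} [Fintype ι] (k : ι → ℤ) (K : ι → ℝ)
    (u u' : ι → ℝ → ℝ) : Prop where
  sec : ∀ i, (k i).natAbs < M
  eig : ∀ i, REig (k i).natAbs (K i) (u i) (u' i)
  lt : ∀ i, K i < Λ
  zero : ∃ i, K i = 0
  orth : ∀ i j, i ≠ j → k i = k j → ∫ t in (0 : ℝ)..1, u i t * u j t * t = 0
  gap : ∀ v : E → ℝ, ContDiff ℝ 1 v →
    ∑ i, K i * (cf (k i) (u i) v ^ 2 / Real.pi) +
        Λ * ((∫ x in D, v x ^ 2) - ∑ i, cf (k i) (u i) v ^ 2 / Real.pi)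
      ≤ ∫ x in D, ‖fderiv ℝ v x‖ ^ 2

/-- rotation by the angle `α` -/
noncomputable def rot (α : ℝ) (x : E) : E :=
  !₂[Real.cos α * x 0 - Real.sin α * x 1, Real.sin α * x 0 + Real.cos α * x 1]

/-- the rotation as a continuous linear map -/
noncomputable def rotL (α : ℝ) : E →L[ℝ] E :=
  LinearMap.toContinuousLinearMap
    { toFun := rot α
      map_add' := fun x y => by
        ext i
        fin_cases i
        · simp [rot]; ring
        · simp [rot]; ring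
      map_smul' := fun c x => by
        ext i
        fin_cases i
        · simp [rot]; ring
        · simp [rot]; ring }

/-- the set is invariant under the rotation by `2π/N` -/
def Sym (N : ℕ) (Ω : Set E) : Prop := ∀ x ∈ Ω, rot (2 * Real.pi / N) x ∈ Ω

/-- indicator function -/
noncomputable def ind (Ω : Set E) (x : E) : ℝ := Ω.indicator (fun _ => 1) x

/-- angular density of `Ω` at the radius `r` -/
noncomputable def dens (Ω : Set E) (r : ℝ) : ℝ :=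
  (2 * Real.pi)⁻¹ * ∫ θ in (-Real.pi)..Real.pi, ind Ω (P r θ)

/-- the mass map `t(r)`, `t²/2 = ∫_0^r om(s) s ds` -/
noncomputable def tm (om : ℝ → ℝ) (r : ℝ) : ℝ := √(2 * ∫ s in (0 : ℝ)..r, om s * s)

/-- `om_n → ω` in `L¹(0, R)`, `om_n` continuous with values in `[0,1]` and `= 1` near `[0, ρ_n]`,
`ρ_n = ρ (1 - 1/(n+2)) → ρ` -/
structure Appr (ω : ℝ → ℝ) (ρ R : ℝ) (om : ℕ → ℝ → ℝ) : Prop where
  cont : ∀ n, Continuous (om n)
  nonneg : ∀ n r, 0 ≤ om n r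
  le_one : ∀ n r, om n r ≤ 1
  one : ∀ (n : ℕ) r, r ≤ ρ * (1 - 1 / (n + 2)) → om n r = 1
  lim : Tendsto (fun n => ∫ r in (0 : ℝ)..R, |om n r - ω r|) atTop (𝓝 0)

/-- properties of the approximating densities -/
structure Om (om : ℝ → ℝ) (a : ℝ) : Prop where
  cont : Continuous om
  nonneg : ∀ r, 0 ≤ om r
  le_one : ∀ r, om r ≤ 1
  pos : 0 < a
  one : ∀ r, r ≤ a → om r = 1

/-- Gram matrix on `Ω` -/
noncomputable def gramM (Ω : Set E) {n : ℕ} (w : Fin n → E → ℝ) : Matrix (Fin n) (Fin n) ℝ :=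
  fun i j => ∫ x in Ω, w i x * w j x

/-- energy matrix on `Ω` -/
noncomputable def enM (Ω : Set E) {n : ℕ} (w : Fin n → E → ℝ) : Matrix (Fin n) (Fin n) ℝ :=
  fun i j => ∫ x in Ω, inner ℝ ((InnerProductSpace.toDual ℝ E).symm (fderiv ℝ (w i) x))
    ((InnerProductSpace.toDual ℝ E).symm (fderiv ℝ (w j) x))

/-- angular Fourier coefficients of `v` and their derivatives -/
noncomputable def fk (v : E → ℝ) (k : ℤ) (r : ℝ) : ℝ :=
  (2 * Real.pi)⁻¹ * ∫ θ in (-Real.pi)..Real.pi, v (P r θ) * cc k θ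

noncomputable def fk' (v : E → ℝ) (k : ℤ) (r : ℝ) : ℝ :=
  (2 * Real.pi)⁻¹ * ∫ θ in (-Real.pi)..Real.pi, fderiv ℝ v (P r θ) (P 1 θ) * cc k θ

/-- `F_n(Ω) = (μ_2 + ... + μ_n) A³ / I` -/
noncomputable def FF (n : ℕ) (Ω : Set E) : ℝ :=
  (∑ k ∈ Finset.Icc 2 n, mu Ω k) * (volume Ω).toReal ^ 3 /
    (∫ x in Ω, ‖x - ((volume Ω).toReal)⁻¹ • ∫ y in Ω, y‖ ^ 2)

/-- square of the Hilbert-Schmidt norm of a linear map of the plane -/
noncomputable def hs (L : E →ₗ[ℝ] E) : ℝ :=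
  ‖L !₂[1, 0]‖ ^ 2 + ‖L !₂[0, 1]‖ ^ 2

/-! ### Radial kernels -/

/-- the Green kernel of the sector `m ≥ 1` -/
noncomputable def GG (m : ℕ) (t s : ℝ) : ℝ :=
  (2 * (m : ℝ))⁻¹ * (min t s / max t s) ^ m * (1 + max t s ^ (2 * m))

/-- the Green kernel of the sector `0` -/
noncomputable def G0 (t s : ℝ) : ℝ := -Real.log (max t s) + (t ^ 2 + s ^ 2) / 2 - 3 / 4

/-- `∫_0^1 GG m t s h(s) s ds` in explicit form -/
noncomputable def UU (m : ℕ) (h : ℝ → ℝ) (t : ℝ) : ℝ :=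
  (2 * (m : ℝ))⁻¹ * (((t ^ m)⁻¹ + t ^ m) * (∫ s in (0 : ℝ)..t, s ^ (m + 1) * h s) +
    t ^ m * ∫ s in t..1, (s * (s ^ m)⁻¹ + s ^ (m + 1)) * h s)

/-- the derivative of `UU m h` -/
noncomputable def UU' (m : ℕ) (h : ℝ → ℝ) (t : ℝ) : ℝ :=
  2⁻¹ * t⁻¹ * ((-(t ^ m)⁻¹ + t ^ m) * (∫ s in (0 : ℝ)..t, s ^ (m + 1) * h s) +
    t ^ m * ∫ s in t..1, (s * (s ^ m)⁻¹ + s ^ (m + 1)) * h s)

/-- `∫_0^1 G0 t s h(s) s ds` in explicit form -/
noncomputable def V0 (h : ℝ → ℝ) (t : ℝ) : ℝ :=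
  -(Real.log t * ∫ s in (0 : ℝ)..t, h s * s) - (∫ s in t..1, Real.log s * (h s * s)) +
    t ^ 2 / 2 * (∫ s in (0 : ℝ)..1, h s * s) + (∫ s in (0 : ℝ)..1, h s * s ^ 3) / 2 -
    3 / 4 * ∫ s in (0 : ℝ)..1, h s * s

/-- the derivative of `V0 h` -/
noncomputable def V0' (h : ℝ → ℝ) (t : ℝ) : ℝ :=
  -(t⁻¹ * ∫ s in (0 : ℝ)..t, h s * s) + t * ∫ s in (0 : ℝ)..1, h s * s

/-- the measure on `(0,1]` -/
noncomputable abbrev μ1 : Measure ℝ := volume.restrict (Ioc (0 : ℝ) 1)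

/-- `h` is continuous on `(0,1]` with `√t |h t|` bounded -/
def Sq (h : ℝ → ℝ) : Prop :=
  ContinuousOn h (Ioc 0 1) ∧ ∃ C : ℝ, ∀ t ∈ Ioc (0 : ℝ) 1, √t * |h t| ≤ C

/-- admissible functions for the weak form: continuous on `[0,1]`, `C¹` in `(0,1)` with bounded
derivative -/
structure Adm (f f' : ℝ → ℝ) : Prop where
  cont : ContinuousOn f (Icc 0 1)
  der : ∀ t ∈ Ioo (0 : ℝ) 1, HasDerivAt f (f' t) t
  contd : ContinuousOn f' (Ioo 0 1)
  bdd : ∃ C : ℝ, ∀ t ∈ Ioo (0 : ℝ) 1, |f' t| ≤ C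

/-- the energy form of the sector `m` -/
noncomputable def en (m : ℕ) (f f' g g' : ℝ → ℝ) : ℝ :=
  ∫ t in (0 : ℝ)..1, (f' t * g' t * t + (m : ℝ) ^ 2 * (f t * g t) / t)

/-- the `L²(t dt)` product -/
noncomputable def ip (f g : ℝ → ℝ) : ℝ := ∫ t in (0 : ℝ)..1, f t * g t * t

end Pool.Agent.NSY
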