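import Pool.Agent.NSY.Defs

/-!
# NSY-GrM: Gram and energy matrices

The quadratic forms of the Gram matrix and of the energy matrix of a finite family of `C¹` functions
on a bounded set are the square norm and the energy of the linear combination.
-/

set_option autoImplicit false

open MeasureTheory Set Filter Topology
open Pool.Agent.Neu (E D mu)
open Pool.Agent.Neu.Discx (P)

namespace Pool.Agent.NSY

variable {n : ℕ} {Ω : Set E} {w : Fin n → E → ℝ}

private theorem int_on {f : E → ℝ} (hf : Continuous f) {Ω : Set E}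
    (hb : Bornology.IsBounded Ω) : IntegrableOn f Ω := by
  obtain ⟨R, hR⟩ := hb.subset_closedBall (0 : E)
  exact (hf.continuousOn.integrableOn_compact (isCompact_closedBall (0 : E) R)).mono_set hR

private theorem quad_aux {n : ℕ} {Ω : Set E} (f : Fin n → Fin n → E → ℝ)
    (hf : ∀ i j, Continuous (f i j)) (hb : Bornology.IsBounded Ω) (a : Fin n → ℝ)
    (M : Matrix (Fin n) (Fin n) ℝ) (hM : ∀ i j, M i j = ∫ x in Ω, f i j x) :
    a ⬝ᵥ M.mulVec a = ∫ x in Ω, ∑ i, ∑ j, a i * (f i j x * a j) := by
  rw [integral_finsetSum]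
  · unfold dotProduct
    refine Finset.sum_congr rfl fun i _ => ?_
    rw [integral_finsetSum]
    · unfold Matrix.mulVec dotProduct
      rw [Finset.mul_sum]
      refine Finset.sum_congr rfl fun j _ => ?_
      rw [integral_const_mul, integral_mul_const, ← hM]
    · intro j _
      exact int_on (continuous_const.mul ((hf i j).mul continuous_const)) hb
  · intro i _
    exact int_on (continuous_finsetSum _ fun j _ =>
      continuous_const.mul ((hf i j).mul continuous_const)) hb

theorem gramM_quad (hΩ : MeasurableSet Ω) (hb : Bornology.IsBounded Ω)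
    (hw : ∀ j, ContDiff ℝ 1 (w j)) (a : Fin n → ℝ) :
    a ⬝ᵥ (gramM Ω w).mulVec a = ∫ x in Ω, (∑ j, a j * w j x) ^ 2 := by
  have _ := hΩ
  rw [quad_aux (fun i j x => w i x * w j x)
    (fun i j => (hw i).continuous.mul (hw j).continuous) hb a (gramM Ω w) (fun i j => rfl)]
  congr 1
  ext x
  rw [sq, Finset.sum_mul_sum]
  refine Finset.sum_congr rfl fun i _ => Finset.sum_congr rfl fun j _ => ?_
  ring

theorem enM_quad (hΩ : MeasurableSet Ω) (hb : Bornology.IsBounded Ω)
    (hw : ∀ j, ContDiff ℝ 1 (w j)) (a : Fin n → ℝ) :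
    a ⬝ᵥ (enM Ω w).mulVec a = ∫ x in Ω, ‖fderiv ℝ (fun y => ∑ j, a j * w j y) x‖ ^ 2 := by
  have _ := hΩ
  have hg : ∀ i, Continuous
      (fun x => (InnerProductSpace.toDual ℝ E).symm (fderiv ℝ (w i) x)) := fun i =>
    (InnerProductSpace.toDual ℝ E).symm.continuous.comp ((hw i).continuous_fderiv one_ne_zero)
  rw [quad_aux (fun i j x => inner ℝ ((InnerProductSpace.toDual ℝ E).symm (fderiv ℝ (w i) x))
    ((InnerProductSpace.toDual ℝ E).symm (fderiv ℝ (w j) x)))
    (fun i j => (hg i).inner (hg j)) hb a (enM Ω w) (fun i j => rfl)]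
  congr 1
  ext x
  have h1 : fderiv ℝ (fun y => ∑ j, a j * w j y) x = ∑ j, a j • fderiv ℝ (w j) x := by
    rw [fderiv_fun_sum (fun j _ => (((hw j).differentiable one_ne_zero) x).const_mul (a j))]
    refine Finset.sum_congr rfl fun j _ => ?_
    exact fderiv_const_mul (((hw j).differentiable one_ne_zero) x) (a j)
  rw [h1, ← LinearIsometryEquiv.norm_map (InnerProductSpace.toDual ℝ E).symm, map_sum,
    ← real_inner_self_eq_norm_sq, sum_inner]
  refine Finset.sum_congr rfl fun i _ => ?_
  rw [inner_sum]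
  refine Finset.sum_congr rfl fun j _ => ?_
  rw [LinearIsometryEquiv.map_smulₛₗ, LinearIsometryEquiv.map_smulₛₗ, inner_smul_left,
    inner_smul_right]
  simp only [conj_trivial]
  ring

theorem gramM_symm (Ω : Set E) (w : Fin n → E → ℝ) : (gramM Ω w).IsHermitian := by
  apply Matrix.IsHermitian.ext
  intro i j
  unfold gramM
  rw [star_trivial]
  congr 1
  ext x
  ring

theorem enM_symm (Ω : Set E) (w : Fin n → E → ℝ) : (enM Ω w).IsHermitian := by
  apply Matrix.IsHermitian.ext
  intro i j
  unfold enM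
  rw [star_trivial]
  congr 1
  ext x
  exact real_inner_comm _ _

theorem enM_diag (Ω : Set E) (w : Fin n → E → ℝ) (j : Fin n) :
    enM Ω w j j = ∫ x in Ω, ‖fderiv ℝ (w j) x‖ ^ 2 := by
  unfold enM
  congr 1
  ext x
  rw [real_inner_self_eq_norm_sq, LinearIsometryEquiv.norm_map]

theorem enM_posSemidef (hΩ : MeasurableSet Ω) (hb : Bornology.IsBounded Ω)
    (hw : ∀ j, ContDiff ℝ 1 (w j)) : (enM Ω w).PosSemidef := by
  refine Matrix.PosSemidef.of_dotProduct_mulVec_nonneg (enM_symm Ω w) fun a => ?_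
  rw [star_trivial, enM_quad hΩ hb hw a]
  exact integral_nonneg fun x => sq_nonneg _

end Pool.Agent.NSY
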