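import Mathlib
import Pool.Agent.NSY.Defs

/-!
# NSY-Dia: simultaneous diagonalisation (linear algebra)

A positive definite and a symmetric matrix are diagonalised simultaneously; the eigenvalues are
in increasing order and their sum is a trace.
-/

set_option autoImplicit false

open MeasureTheory Set Filter Topology
open Pool.Agent.Neu (E D mu)
open Pool.Agent.Neu.Discx (P)

namespace Pool.Agent.NSY

private theorem spec {n : ℕ} {A : Matrix (Fin n) (Fin n) ℝ} (hA : A.IsHermitian) :
    ∃ V : Matrix (Fin n) (Fin n) ℝ, V.transpose * V = 1 ∧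
      V.transpose * A * V = Matrix.diagonal hA.eigenvalues := by
  refine ⟨hA.eigenvectorUnitary, ?_, ?_⟩
  · have h := Unitary.coe_star_mul_self hA.eigenvectorUnitary
    rw [Matrix.star_eq_conjTranspose, Matrix.conjTranspose_eq_transpose_of_trivial] at h
    exact h
  · have h := hA.conjStarAlgAut_star_eigenvectorUnitary
    rw [Unitary.conjStarAlgAut_star_apply] at h
    rw [Matrix.star_eq_conjTranspose, Matrix.conjTranspose_eq_transpose_of_trivial] at h
    exact h

theorem diag_pair {n : ℕ} {G A : Matrix (Fin n) (Fin n) ℝ} (hG : G.PosDef)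
    (hA : A.IsHermitian) :
    ∃ (C : Matrix (Fin n) (Fin n) ℝ) (e : Fin n → ℝ), C.det ≠ 0 ∧ Monotone e ∧
      C.transpose * G * C = 1 ∧ C.transpose * A * C = Matrix.diagonal e ∧
      ∑ i, e i = (G⁻¹ * A).trace := by
  obtain ⟨V, hV1, hV2⟩ := spec hG.1
  have hpos : ∀ i, 0 < hG.1.eigenvalues i := fun i => hG.eigenvalues_pos i
  let d : Fin n → ℝ := fun i => (√(hG.1.eigenvalues i))⁻¹
  let B : Matrix (Fin n) (Fin n) ℝ := V * Matrix.diagonal d
  have hB : B.transpose * G * B = 1 := by
    change (V * Matrix.diagonal d).transpose * G * (V * Matrix.diagonal d) = 1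
    have h1 : (V * Matrix.diagonal d).transpose * G * (V * Matrix.diagonal d) =
        Matrix.diagonal d * (V.transpose * G * V) * Matrix.diagonal d := by
      rw [Matrix.transpose_mul, Matrix.diagonal_transpose]
      simp only [Matrix.mul_assoc]
    rw [h1, hV2, Matrix.diagonal_mul_diagonal, Matrix.diagonal_mul_diagonal,
      ← Matrix.diagonal_one]
    congr 1
    funext i
    change (√(hG.1.eigenvalues i))⁻¹ * hG.1.eigenvalues i * (√(hG.1.eigenvalues i))⁻¹ = 1
    have h2 : √(hG.1.eigenvalues i) ≠ 0 := (Real.sqrt_pos.2 (hpos i)).ne'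
    field_simp
    exact (Real.sq_sqrt (hpos i).le).symm
  have hA' : (B.transpose * A * B).IsHermitian := by
    have h1 := Matrix.isHermitian_conjTranspose_mul_mul B hA
    rw [Matrix.conjTranspose_eq_transpose_of_trivial] at h1
    exact h1
  obtain ⟨W, hW1, hW2⟩ := spec hA'
  let C0 : Matrix (Fin n) (Fin n) ℝ := B * W
  have hC0t : C0.transpose = W.transpose * B.transpose := Matrix.transpose_mul _ _
  have hCG : C0.transpose * G * C0 = 1 := by
    have h1 : C0.transpose * G * C0 = W.transpose * (B.transpose * G * B) * W := by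
      rw [hC0t]
      change W.transpose * B.transpose * G * (B * W) = _
      simp only [Matrix.mul_assoc]
    rw [h1, hB, Matrix.mul_one, hW1]
  have hCA : C0.transpose * A * C0 = Matrix.diagonal hA'.eigenvalues := by
    have h1 : C0.transpose * A * C0 = W.transpose * (B.transpose * A * B) * W := by
      rw [hC0t]
      change W.transpose * B.transpose * A * (B * W) = _
      simp only [Matrix.mul_assoc]
    rw [h1, hW2]
  have hinv : C0 * C0.transpose * G = 1 := by
    have h1 := _root_.mul_eq_one_comm.1 hCG
    rw [← Matrix.mul_assoc] at h1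
    exact h1
  have hGi : G⁻¹ = C0 * C0.transpose := Matrix.inv_eq_left_inv hinv
  let σ := Tuple.sort hA'.eigenvalues
  let C : Matrix (Fin n) (Fin n) ℝ := C0.submatrix id σ
  have hsub : ∀ M : Matrix (Fin n) (Fin n) ℝ,
      C.transpose * M * C = (C0.transpose * M * C0).submatrix σ σ := by
    intro M
    ext i j
    simp [Matrix.mul_apply, C]
  have h1 : C.transpose * G * C = 1 := by
    rw [hsub, hCG]
    ext i j
    simp [Matrix.one_apply]
  refine ⟨C, hA'.eigenvalues ∘ σ, ?_, Tuple.monotone_sort _, h1, ?_, ?_⟩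
  · intro h0
    have h2 := congrArg Matrix.det h1
    rw [Matrix.det_mul, h0, mul_zero, Matrix.det_one] at h2
    exact zero_ne_one h2
  · rw [hsub, hCA]
    ext i j
    simp [Matrix.diagonal_apply]
  · rw [hGi]
    have h2 : (C0 * C0.transpose * A).trace = (C0.transpose * A * C0).trace := by
      rw [Matrix.mul_assoc, Matrix.trace_mul_comm]
    rw [h2, hCA, Matrix.trace_diagonal]
    exact Equiv.sum_comp σ hA'.eigenvalues

end Pool.Agent.NSY
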