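import Pool.Agent.NSY.Defs
import Pool.Agent.NSY.GrM
import Pool.Agent.NSY.Dia
import Pool.Agent.Neu.Trial

/-!
# NSY-TrU: upper bound for the sum of the min-max values by a trace

PLAN. `mu_nonneg`: every element of the set is a supremum of nonnegative numbers (`Real.sSup_nonneg`, `Real.sInf_nonneg`).
`sum_mu_le`: `diag_pair` for `G = gramM Ω w`, `A = enM Ω w` gives `C, e`. For `1 ≤ i ≤ n` put (index `i - 1 : Fin n`)
`φ : (Fin i → ℝ) →ₗ (E → ℝ)`, `φ b = ∑_{l < i} b_l v_l`, `v_l = ∑_j C j l w_j`, that is `φ b = ∑_j a_j w_j` with `a = C b̂`, `b̂` the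
extension of `b` by zero. By `gramM_quad`, `enM_quad`: `∫ φ(b)² = aᵀ G a = |b|²`,
`∫ ‖fderiv φ(b)‖² = ∑ e_l b_l² ≤ e_{i-1} |b|²` (monotone). `Pool.Agent.Neu.Trialx.mu_le` gives `mu Ω i ≤ e_{i-1}` (`e ≥ 0` because
`A` is positive semidefinite; injectivity on `Ω`: `∫ φ(b)² = 0` implies `b = 0`). Sum over `i`: `∑ e = trace (G⁻¹ A)`.
(`Finset.sum_Icc`-to-`Fin` conversion: `Finset.sum_range`/`Finset.range_eq_Ico`.)
-/

set_option autoImplicit false

open MeasureTheory Set Filter Topology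
open Pool.Agent.Neu (E D mu)
open Pool.Agent.Neu.Discx (P)

namespace Pool.Agent.NSY

theorem mu_nonneg (Ω : Set E) (k : ℕ) : 0 ≤ mu Ω k := by
  unfold mu
  apply Real.sInf_nonneg
  rintro r ⟨V, -, -, -, -, rfl⟩
  apply Real.sSup_nonneg
  rintro q ⟨f, -, -, rfl⟩
  exact div_nonneg (integral_nonneg fun x => sq_nonneg _) (integral_nonneg fun x => sq_nonneg _)

/-- extension by zero -/
private noncomputable def tuExt (n k : ℕ) : (Fin k → ℝ) →ₗ[ℝ] (Fin n → ℝ) where
  toFun b := fun l => if h : l.val < k then b ⟨l.val, h⟩ else 0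
  map_add' b c := by
    funext l
    by_cases h : l.val < k
    · simp [h]
    · simp [h]
  map_smul' r b := by
    funext l
    by_cases h : l.val < k
    · simp [h]
    · simp [h]

private theorem tuExt_apply (n k : ℕ) (b : Fin k → ℝ) (l : Fin n) :
    tuExt n k b l = if h : l.val < k then b ⟨l.val, h⟩ else 0 := rfl

private theorem tuExt_inj {n k : ℕ} (hk : k ≤ n) (b : Fin k → ℝ) (h : tuExt n k b = 0) : b = 0 := by
  funext l
  have h1 := congrFun h ⟨l.val, lt_of_lt_of_le l.isLt hk⟩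
  rw [tuExt_apply] at h1
  simpa using h1

/-- the trial space -/
private noncomputable def tuPhi {n : ℕ} (C : Matrix (Fin n) (Fin n) ℝ) (w : Fin n → E → ℝ) (k : ℕ) :
    (Fin k → ℝ) →ₗ[ℝ] (E → ℝ) where
  toFun b := fun x => ∑ j, (C.mulVec (tuExt n k b)) j * w j x
  map_add' b c := by
    funext x
    simp only [map_add, Matrix.mulVec_add, Pi.add_apply, add_mul, Finset.sum_add_distrib]
  map_smul' r b := by
    funext x
    simp only [map_smul, Matrix.mulVec_smul, Pi.smul_apply, smul_eq_mul, RingHom.id_apply,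
      Finset.mul_sum, mul_assoc]

private theorem tu_quad {n : ℕ} (C M : Matrix (Fin n) (Fin n) ℝ) (d : Fin n → ℝ)
    (h : C.transpose * M * C = Matrix.diagonal d) (b : Fin n → ℝ) :
    (C.mulVec b) ⬝ᵥ M.mulVec (C.mulVec b) = ∑ l, d l * b l ^ 2 := by
  have h1 : (C.mulVec b) ⬝ᵥ M.mulVec (C.mulVec b) = b ⬝ᵥ (C.transpose * M * C).mulVec b := by
    rw [← Matrix.mulVec_mulVec, ← Matrix.mulVec_mulVec, Matrix.dotProduct_mulVec b,
      Matrix.vecMul_transpose]
  rw [h1, h, dotProduct]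
  refine Finset.sum_congr rfl fun l _ => ?_
  rw [Matrix.mulVec_diagonal]
  ring

theorem sum_mu_le {n : ℕ} {Ω : Set E} (hΩ : IsOpen Ω) (hb : Bornology.IsBounded Ω)
    {w : Fin n → E → ℝ} (hw : ∀ j, ContDiff ℝ 1 (w j)) (hG : (gramM Ω w).PosDef) :
    ∑ i ∈ Finset.Icc 1 n, mu Ω i ≤ ((gramM Ω w)⁻¹ * enM Ω w).trace := by
  obtain ⟨C, e, -, hmono, hG1, hA1, htr⟩ := diag_pair hG (enM_symm Ω w)
  have hG2 : C.transpose * gramM Ω w * C = Matrix.diagonal (fun _ => (1 : ℝ)) := by
    rw [hG1]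
    exact (Matrix.diagonal_one).symm
  have hmass : ∀ (k : ℕ) (b : Fin k → ℝ), ∫ x in Ω, (tuPhi C w k b x) ^ 2 =
      ∑ l, (1 : ℝ) * (tuExt n k b l) ^ 2 := by
    intro k b
    have h1 := gramM_quad hΩ.measurableSet hb hw (C.mulVec (tuExt n k b))
    rw [tu_quad C (gramM Ω w) _ hG2] at h1
    exact h1.symm
  have hen : ∀ (k : ℕ) (b : Fin k → ℝ), ∫ x in Ω, ‖fderiv ℝ (tuPhi C w k b) x‖ ^ 2 =
      ∑ l, e l * (tuExt n k b l) ^ 2 := by
    intro k b
    have h1 := enM_quad hΩ.measurableSet hb hw (C.mulVec (tuExt n k b))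
    rw [tu_quad C (enM Ω w) _ hA1] at h1
    exact h1.symm
  have he0 : ∀ l, 0 ≤ e l := by
    intro l
    have h1 := enM_quad hΩ.measurableSet hb hw (C.mulVec (Pi.single l (1 : ℝ)))
    rw [tu_quad C (enM Ω w) _ hA1] at h1
    have h2 : ∑ l', e l' * (Pi.single l (1 : ℝ) : Fin n → ℝ) l' ^ 2 = e l := by
      rw [Finset.sum_eq_single l]
      · simp
      · intro l' _ hne
        simp [Pi.single_eq_of_ne hne]
      · intro h
        exact absurd (Finset.mem_univ l) h
    rw [h2] at h1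
    rw [h1]
    exact integral_nonneg fun x => sq_nonneg _
  have hmu : ∀ i : Fin n, mu Ω (i.val + 1) ≤ e i := by
    intro i
    have hk : i.val + 1 ≤ n := i.isLt
    refine Neu.Trialx.mu_le (tuPhi C w (i.val + 1)) (he0 i) ?_ ?_ ?_
    · intro b
      show ContDiff ℝ 1 (fun x => ∑ j, (C.mulVec (tuExt n (i.val + 1) b)) j * w j x)
      exact ContDiff.sum fun j _ => contDiff_const.mul (hw j)
    · intro b hb0
      apply tuExt_inj hk
      have h1 := hmass (i.val + 1) b
      have h2 : ∫ x in Ω, (tuPhi C w (i.val + 1) b x) ^ 2 = 0 := by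
        rw [setIntegral_congr_fun (g := fun _ => (0 : ℝ)) hΩ.measurableSet
          (fun x hx => by simp [hb0 x hx])]
        simp
      rw [h2] at h1
      have h3 := (Finset.sum_eq_zero_iff_of_nonneg (fun l _ => by positivity)).1 h1.symm
      funext l
      have h4 := h3 l (Finset.mem_univ l)
      simpa using h4
    · intro b
      rw [hen, hmass, Finset.mul_sum]
      refine Finset.sum_le_sum fun l _ => ?_
      by_cases h : l.val < i.val + 1
      · have h1 : e l ≤ e i := hmono (by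
          rw [Fin.le_def]
          omega)
        rw [one_mul]
        exact mul_le_mul_of_nonneg_right h1 (sq_nonneg _)
      · rw [tuExt_apply, dif_neg h]
        simp
  have hsum : ∀ N : ℕ, ∑ i ∈ Finset.Icc 1 N, mu Ω i = ∑ i ∈ Finset.range N, mu Ω (i + 1) := by
    intro N
    induction N with
    | zero => simp
    | succ N ih =>
      rw [Finset.sum_Icc_succ_top (by omega), ih, Finset.sum_range_succ]
  rw [hsum n, ← Fin.sum_univ_eq_sum_range (fun i => mu Ω (i + 1)) n, ← htr]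
  exact Finset.sum_le_sum fun i _ => hmu i

end Pool.Agent.NSY
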