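import Pool.Agent.NSY.Defs
import Pool.Agent.NSY.PolP

/-!
# NSY-Rot: rotations and symmetric sets

PLAN. Coordinates: `rot α (P r θ) = P r (θ + α)` (addition theorems), `rot α (rot β x) = rot (α + β) x`,
`‖rot α x‖ = ‖x‖`, `rot (2π) x = x`. `rot_mp`: linear isometry, bijective with inverse `rot (-α)`; build a
`LinearIsometryEquiv` and use `LinearIsometryEquiv.measurePreserving`. `Sym.iff`: `rot (2π/N)` iterated `N - 1` times is
`rot (-2π/N)` on points (`rot (2π) = id`), so the converse holds. `Sym.iff_mul`: induction on `s`.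
`Sym.ind`: `ind` at `P r (θ + 2π/N) = rot (2π/N) (P r θ)`. `Sym.int_rot`: measure preserving bijection of `Ω`
(`MeasurePreserving.setIntegral_preimage_emb`).
-/

set_option autoImplicit false

open MeasureTheory Set Filter Topology
open Pool.Agent.Neu (E D mu)
open Pool.Agent.Neu.Discx (P)

namespace Pool.Agent.NSY

private theorem rot_ap0 (α : ℝ) (x : E) : (rot α x) 0 = Real.cos α * x 0 - Real.sin α * x 1 := rfl

private theorem rot_ap1 (α : ℝ) (x : E) : (rot α x) 1 = Real.sin α * x 0 + Real.cos α * x 1 := rfl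

private theorem rot_P0 (r θ : ℝ) : (P r θ) 0 = r * Real.cos θ := rfl

private theorem rot_P1 (r θ : ℝ) : (P r θ) 1 = r * Real.sin θ := rfl

private theorem rot_ext {x y : E} (h0 : x 0 = y 0) (h1 : x 1 = y 1) : x = y := by
  ext i
  fin_cases i
  · exact h0
  · exact h1

theorem rot_P (α r θ : ℝ) : rot α (P r θ) = P r (θ + α) := by
  apply rot_ext
  · rw [rot_ap0, rot_P0, rot_P1, rot_P0, Real.cos_add]
    ring
  · rw [rot_ap1, rot_P0, rot_P1, rot_P1, Real.sin_add]
    ring

theorem rot_rot (α β : ℝ) (x : E) : rot α (rot β x) = rot (α + β) x := by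
  apply rot_ext
  · rw [rot_ap0, rot_ap0, rot_ap1, rot_ap0, Real.cos_add, Real.sin_add]
    ring
  · rw [rot_ap1, rot_ap0, rot_ap1, rot_ap1, Real.cos_add, Real.sin_add]
    ring

theorem rot_zero (x : E) : rot 0 x = x := by
  apply rot_ext
  · rw [rot_ap0, Real.cos_zero, Real.sin_zero]
    ring
  · rw [rot_ap1, Real.cos_zero, Real.sin_zero]
    ring

theorem rot_two_pi (x : E) : rot (2 * Real.pi) x = x := by
  apply rot_ext
  · rw [rot_ap0, Real.cos_two_pi, Real.sin_two_pi]
    ring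
  · rw [rot_ap1, Real.cos_two_pi, Real.sin_two_pi]
    ring

theorem norm_rot (α : ℝ) (x : E) : ‖rot α x‖ = ‖x‖ := by
  rw [EuclideanSpace.norm_eq, EuclideanSpace.norm_eq, Fin.sum_univ_two, Fin.sum_univ_two, rot_ap0,
    rot_ap1, Real.norm_eq_abs, Real.norm_eq_abs, Real.norm_eq_abs, Real.norm_eq_abs, sq_abs, sq_abs,
    sq_abs, sq_abs]
  congr 1
  have h := Real.sin_sq_add_cos_sq α
  linear_combination (x 0 ^ 2 + x 1 ^ 2) * h

theorem rotL_apply (α : ℝ) (x : E) : rotL α x = rot α x := rfl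

/-- the rotation as an isometry -/
private noncomputable def rotE (α : ℝ) : E ≃ₗᵢ[ℝ] E where
  toFun := rot α
  invFun := rot (-α)
  left_inv := fun x => by
    show rot (-α) (rot α x) = x
    rw [rot_rot, neg_add_cancel, rot_zero]
  right_inv := fun x => by
    show rot α (rot (-α) x) = x
    rw [rot_rot, add_neg_cancel, rot_zero]
  map_add' := fun x y => (rotL α).map_add x y
  map_smul' := fun c x => (rotL α).map_smul c x
  norm_map' := fun x => norm_rot α x

theorem rot_mp (α : ℝ) : MeasurePreserving (rot α) (volume : Measure E) volume :=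
  (rotE α).measurePreserving

private theorem rot_emb (α : ℝ) : MeasurableEmbedding (rot α) :=
  (rotE α).toHomeomorph.measurableEmbedding

private theorem rot_mul {N : ℕ} {Ω : Set E} (h : Sym N Ω) (s : ℕ) : ∀ x ∈ Ω,
    rot (s * (2 * Real.pi / N)) x ∈ Ω := by
  induction s with
  | zero =>
    intro x hx
    rw [Nat.cast_zero, zero_mul, rot_zero]
    exact hx
  | succ s ih =>
    intro x hx
    have h1 : ((s + 1 : ℕ) : ℝ) * (2 * Real.pi / N) =
        2 * Real.pi / N + s * (2 * Real.pi / N) := by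
      push_cast
      ring
    rw [h1, ← rot_rot]
    exact h _ (ih x hx)

theorem Sym.iff {N : ℕ} (hN : 0 < N) {Ω : Set E} (h : Sym N Ω) (x : E) :
    rot (2 * Real.pi / N) x ∈ Ω ↔ x ∈ Ω := by
  refine ⟨fun hx => ?_, h x⟩
  have h1 := rot_mul h (N - 1) _ hx
  rw [rot_rot] at h1
  have h2 : ((N - 1 : ℕ) : ℝ) * (2 * Real.pi / N) + 2 * Real.pi / N = 2 * Real.pi := by
    rw [Nat.cast_sub hN, Nat.cast_one]
    have h3 : (N : ℝ) ≠ 0 := by
      exact_mod_cast hN.ne'
    field_simp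
    ring
  rwa [h2, rot_two_pi] at h1

theorem Sym.iff_mul {N : ℕ} (hN : 0 < N) {Ω : Set E} (h : Sym N Ω) (s : ℕ) (x : E) :
    rot (s * (2 * Real.pi / N)) x ∈ Ω ↔ x ∈ Ω := by
  induction s with
  | zero => rw [Nat.cast_zero, zero_mul, rot_zero]
  | succ s ih =>
    have h1 : ((s + 1 : ℕ) : ℝ) * (2 * Real.pi / N) =
        2 * Real.pi / N + s * (2 * Real.pi / N) := by
      push_cast
      ring
    rw [h1, ← rot_rot, Sym.iff hN h, ih]

theorem Sym.ind {N : ℕ} (hN : 0 < N) {Ω : Set E} (h : Sym N Ω) (r θ : ℝ) :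
    NSY.ind Ω (P r (θ + 2 * Real.pi / N)) = NSY.ind Ω (P r θ) := by
  rw [← rot_P]
  unfold NSY.ind
  by_cases hx : P r θ ∈ Ω
  · rw [Set.indicator_of_mem hx, Set.indicator_of_mem ((Sym.iff hN h _).2 hx)]
  · rw [Set.indicator_of_notMem hx, Set.indicator_of_notMem fun h1 => hx ((Sym.iff hN h _).1 h1)]

theorem Sym.int_rot {N : ℕ} (hN : 0 < N) {Ω : Set E} (h : Sym N Ω) (s : ℕ) (f : E → ℝ) :
    ∫ x in Ω, f (rot (s * (2 * Real.pi / N)) x) = ∫ x in Ω, f x := by
  have h1 := (rot_mp (s * (2 * Real.pi / N))).setIntegral_preimage_emb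
    (rot_emb (s * (2 * Real.pi / N))) f Ω
  have h2 : rot (s * (2 * Real.pi / N)) ⁻¹' Ω = Ω := by
    ext x
    exact Sym.iff_mul hN h s x
  rwa [h2] at h1

end Pool.Agent.NSY
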