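import Pool.Agent.NSY.Defs

/-!
# NSY-Alg: the variational inequality (algebra)

`0 ≤ en m (f - U) (f' - U') (f - U) (f' - U') = en f f - 2 en f U + en U U`.
-/

set_option autoImplicit false

open MeasureTheory Set Filter Topology
open Pool.Agent.Neu (E D mu)
open Pool.Agent.Neu.Discx (P)

namespace Pool.Agent.NSY

private theorem alg_lin {g g' : ℝ → ℝ} (hg : Adm g g') (h0 : g 0 = 0) :
    ∃ C : ℝ, 0 ≤ C ∧ ∀ t ∈ Ioo (0 : ℝ) 1, |g t| ≤ C * t := by
  obtain ⟨C, hC⟩ := hg.bdd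
  refine ⟨C, le_trans (abs_nonneg _) (hC (1 / 2) ⟨by norm_num, by norm_num⟩), fun t ht => ?_⟩
  obtain ⟨c, hc, hce⟩ := exists_hasDerivAt_eq_slope g g' ht.1
    (hg.cont.mono (Icc_subset_Icc le_rfl ht.2.le))
    (fun x hx => hg.der x ⟨hx.1, hx.2.trans ht.2⟩)
  have h1 : g t = g' c * t := by
    rw [hce, h0]
    have := ht.1.ne'
    field_simp
    ring
  rw [h1, abs_mul, abs_of_pos ht.1]
  exact mul_le_mul_of_nonneg_right (hC c ⟨hc.1, hc.2.trans ht.2⟩) ht.1.le

private theorem alg_int {m : ℕ} {f f' g g' : ℝ → ℝ} (hf : Adm f f') (hg : Adm g g')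
    (hf0 : m ≠ 0 → f 0 = 0) (hg0 : m ≠ 0 → g 0 = 0) :
    IntervalIntegrable (fun t => f' t * g' t * t + (m : ℝ) ^ 2 * (f t * g t) / t) volume 0 1 := by
  rw [intervalIntegrable_iff_integrableOn_Ioo_of_le zero_le_one]
  have hfc : ContinuousOn f (Ioo 0 1) := hf.cont.mono Ioo_subset_Icc_self
  have hgc : ContinuousOn g (Ioo 0 1) := hg.cont.mono Ioo_subset_Icc_self
  have hcont : ContinuousOn (fun t => f' t * g' t * t + (m : ℝ) ^ 2 * (f t * g t) / t)
      (Ioo 0 1) := by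
    refine ContinuousOn.add ((hf.contd.mul hg.contd).mul continuousOn_id) ?_
    exact ContinuousOn.div (continuousOn_const.mul (hfc.mul hgc)) continuousOn_id
      (fun t ht => ht.1.ne')
  obtain ⟨A, hA⟩ := hf.bdd
  obtain ⟨B, hB⟩ := hg.bdd
  have hA0 : 0 ≤ A := le_trans (abs_nonneg _) (hA (1 / 2) ⟨by norm_num, by norm_num⟩)
  have h1 : ∀ t ∈ Ioo (0 : ℝ) 1, |f' t * g' t * t| ≤ A * B := by
    intro t ht
    rw [abs_mul, abs_mul, abs_of_pos ht.1]
    calc |f' t| * |g' t| * t ≤ |f' t| * |g' t| * 1 :=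
          mul_le_mul_of_nonneg_left ht.2.le (by positivity)
      _ ≤ A * B := by
          rw [mul_one]
          exact mul_le_mul (hA t ht) (hB t ht) (abs_nonneg _) hA0
  have h2 : ∃ K : ℝ, ∀ t ∈ Ioo (0 : ℝ) 1, |(m : ℝ) ^ 2 * (f t * g t) / t| ≤ K := by
    by_cases hm : m = 0
    · refine ⟨0, fun t ht => ?_⟩
      rw [hm]; simp
    · obtain ⟨C, hC0, hC⟩ := alg_lin hf (hf0 hm)
      obtain ⟨C', hC'0, hC'⟩ := alg_lin hg (hg0 hm)
      refine ⟨(m : ℝ) ^ 2 * (C * C'), fun t ht => ?_⟩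
      have h3 : |f t * g t| ≤ C * C' * t * t := by
        rw [abs_mul]
        calc |f t| * |g t| ≤ (C * t) * (C' * t) :=
              mul_le_mul (hC t ht) (hC' t ht) (abs_nonneg _) (mul_nonneg hC0 ht.1.le)
          _ = C * C' * t * t := by ring
      rw [abs_div, abs_mul, abs_of_pos ht.1, abs_of_nonneg (by positivity : (0 : ℝ) ≤ (m : ℝ) ^ 2),
        div_le_iff₀ ht.1]
      calc (m : ℝ) ^ 2 * |f t * g t| ≤ (m : ℝ) ^ 2 * (C * C' * t * t) :=
            mul_le_mul_of_nonneg_left h3 (by positivity)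
        _ = (m : ℝ) ^ 2 * (C * C') * t * t := by ring
        _ ≤ (m : ℝ) ^ 2 * (C * C') * t * 1 := by
            apply mul_le_mul_of_nonneg_left ht.2.le
            have := ht.1.le
            positivity
        _ = (m : ℝ) ^ 2 * (C * C') * t := mul_one _
  obtain ⟨K, hK⟩ := h2
  have : IsFiniteMeasure (volume.restrict (Ioo (0 : ℝ) 1)) := by
    constructor
    rw [Measure.restrict_apply_univ]
    exact measure_Ioo_lt_top
  refine Integrable.of_bound (hcont.aestronglyMeasurable measurableSet_Ioo) (A * B + K) ?_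
  filter_upwards [ae_restrict_mem measurableSet_Ioo] with t ht
  rw [Real.norm_eq_abs]
  exact (abs_add_le _ _).trans (add_le_add (h1 t ht) (hK t ht))

theorem en_ineq {m : ℕ} {f f' U U' : ℝ → ℝ} (hf : Adm f f') (hU : Adm U U')
    (hf0 : m ≠ 0 → f 0 = 0) (hU0 : m ≠ 0 → U 0 = 0) :
    2 * en m f f' U U' - en m U U' U U' ≤ en m f f' f f' := by
  have i1 := alg_int hf hf hf0 hf0
  have i2 := alg_int hf hU hf0 hU0
  have i3 := alg_int hU hU hU0 hU0
  have key : 0 ≤ ∫ t in (0 : ℝ)..1,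
      (((f' t * f' t * t + (m : ℝ) ^ 2 * (f t * f t) / t) -
        2 * (f' t * U' t * t + (m : ℝ) ^ 2 * (f t * U t) / t)) +
        (U' t * U' t * t + (m : ℝ) ^ 2 * (U t * U t) / t)) := by
    apply intervalIntegral.integral_nonneg zero_le_one
    intro t ht
    have h1 : ((f' t * f' t * t + (m : ℝ) ^ 2 * (f t * f t) / t) -
        2 * (f' t * U' t * t + (m : ℝ) ^ 2 * (f t * U t) / t)) +
        (U' t * U' t * t + (m : ℝ) ^ 2 * (U t * U t) / t) =
        (f' t - U' t) ^ 2 * t + (m : ℝ) ^ 2 * (f t - U t) ^ 2 / t := by ring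
    rw [h1]
    have := ht.1
    positivity
  rw [intervalIntegral.integral_add (i1.sub (i2.const_mul 2)) i3,
    intervalIntegral.integral_sub i1 (i2.const_mul 2), intervalIntegral.integral_const_mul] at key
  unfold en
  linarith

end Pool.Agent.NSY
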