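import Pool.Agent.NSY.Defs

/-!
# NSY-ApE: approximation of the density by continuous densities

PLAN. `ω` is integrable on `[0, R]` (bounded measurable), so for every `n` there is a continuous `g_n : ℝ → ℝ` with
`∫_0^R |g_n - ω| ≤ 1/(n+1)` (`MeasureTheory.Integrable.exists_hasCompactSupport_integral_sub_le` or
`MemLp.exists_boundedContinuous...` for the measure `volume.restrict (Ioc 0 R)`). Clamp: `c_n = max 0 (min 1 g_n)`, the distance to `ω ∈ [0,1]` does not
increase. Let `ψ_n r = max 0 (min 1 ((ρ - r) (n+2) / ρ))`: continuous, in `[0,1]`, `= 1` for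
`r ≤ ρ (1 - 1/(n+2))` and `= 0` for `r ≥ ρ`. `om_n = max c_n ψ_n`: for `0 ≤ r < ρ`, `ω r = 1` and `|om_n - 1| ≤ |c_n - 1|`; for `r ≥ ρ`,
`om_n = c_n`. `Appr.om`: `ρ (1 - 1/(n+2)) > 0`.
-/

set_option autoImplicit false

open MeasureTheory Set Filter Topology
open Pool.Agent.Neu (E D mu)
open Pool.Agent.Neu.Discx (P)

namespace Pool.Agent.NSY

/-- clamping to `[0,1]` -/
private noncomputable def apeC (x : ℝ) : ℝ := max 0 (min 1 x)

private theorem apeC_nonneg (x : ℝ) : 0 ≤ apeC x := le_max_left _ _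

private theorem apeC_le (x : ℝ) : apeC x ≤ 1 := max_le zero_le_one (min_le_left _ _)

private theorem apeC_one {x : ℝ} (h : 1 ≤ x) : apeC x = 1 := by
  unfold apeC
  rw [min_eq_left h, max_eq_right zero_le_one]

private theorem apeC_zero {x : ℝ} (h : x ≤ 0) : apeC x = 0 := by
  unfold apeC
  exact max_eq_left (le_trans (min_le_right _ _) h)

private theorem apeC_cont {f : ℝ → ℝ} (hf : Continuous f) : Continuous fun x => apeC (f x) := by
  unfold apeC
  exact continuous_const.max (continuous_const.min hf)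

private theorem apeC_dist (x w : ℝ) (h0 : 0 ≤ w) (h1 : w ≤ 1) : |apeC x - w| ≤ |x - w| := by
  unfold apeC
  rcases le_total 1 x with h | h
  · rw [min_eq_left h, max_eq_right zero_le_one, abs_of_nonneg (by linarith),
      abs_of_nonneg (by linarith)]
    linarith
  · rw [min_eq_right h]
    rcases le_total 0 x with h2 | h2
    · rw [max_eq_right h2]
    · rw [max_eq_left h2, abs_of_nonpos (by linarith), abs_of_nonpos (by linarith)]
      linarith

theorem exists_appr {ω : ℝ → ℝ} (hm : Measurable ω) (h01 : ∀ r, 0 ≤ ω r ∧ ω r ≤ 1) {ρ R : ℝ}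
    (hρ : 0 < ρ) (hρR : ρ ≤ R) (hone : ∀ r, 0 ≤ r → r < ρ → ω r = 1) :
    ∃ om : ℕ → ℝ → ℝ, Appr ω ρ R om := by
  have hR : 0 ≤ R := le_trans hρ.le hρR
  have hf : Integrable ((Ioc 0 R).indicator ω) volume := by
    rw [integrable_indicator_iff measurableSet_Ioc]
    refine Measure.integrableOn_of_bounded (M := 1) (by simp) hm.aestronglyMeasurable
      (Filter.Eventually.of_forall fun r => ?_)
    rw [Real.norm_eq_abs, abs_of_nonneg (h01 r).1]
    exact (h01 r).2
  have hex : ∀ n : ℕ, ∃ g : ℝ → ℝ, Continuous g ∧ Integrable g volume ∧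
      ∫ r, ‖(Ioc 0 R).indicator ω r - g r‖ ≤ 1 / ((n : ℝ) + 1) := by
    intro n
    obtain ⟨g, _, h2, h3, h4⟩ := hf.exists_hasCompactSupport_integral_sub_le
      (show (0 : ℝ) < 1 / ((n : ℝ) + 1) by positivity)
    exact ⟨g, h3, h4, h2⟩
  choose g hg1 hg2 hg3 using hex
  let om : ℕ → ℝ → ℝ := fun n r =>
    max (apeC (g n r)) (apeC ((ρ - r) * ((n : ℝ) + 2) / ρ))
  have hcont : ∀ n, Continuous (om n) := by
    intro n
    refine Continuous.max (apeC_cont (hg1 n)) (apeC_cont ?_)
    exact ((continuous_const.sub continuous_id).mul continuous_const).div_const _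
  have hnn : ∀ n r, 0 ≤ om n r := fun n r => le_trans (apeC_nonneg _) (le_max_left _ _)
  have hle : ∀ n r, om n r ≤ 1 := fun n r => max_le (apeC_le _) (apeC_le _)
  have hpt : ∀ n, ∀ r ∈ Ioc (0 : ℝ) R, |om n r - ω r| ≤ ‖(Ioc 0 R).indicator ω r - g n r‖ := by
    intro n r hr
    rw [indicator_of_mem hr, Real.norm_eq_abs, abs_sub_comm (ω r)]
    refine le_trans ?_ (apeC_dist (g n r) (ω r) (h01 r).1 (h01 r).2)
    rcases lt_or_ge r ρ with h | h
    · rw [hone r hr.1.le h, abs_sub_comm, abs_of_nonneg (by linarith [hle n r]), abs_sub_comm,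
        abs_of_nonneg (by linarith [apeC_le (g n r)])]
      have h2 : apeC (g n r) ≤ om n r := le_max_left _ _
      linarith
    · have h2 : apeC ((ρ - r) * ((n : ℝ) + 2) / ρ) = 0 := by
        refine apeC_zero ?_
        refine div_nonpos_of_nonpos_of_nonneg ?_ hρ.le
        exact mul_nonpos_of_nonpos_of_nonneg (by linarith) (by positivity)
      have h3 : om n r = apeC (g n r) := by
        show max (apeC (g n r)) (apeC ((ρ - r) * ((n : ℝ) + 2) / ρ)) = _
        rw [h2, max_eq_left (apeC_nonneg _)]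
      rw [h3]
  refine ⟨om, ⟨hcont, hnn, hle, ?_, ?_⟩⟩
  · intro n r hr
    have h2 : apeC ((ρ - r) * ((n : ℝ) + 2) / ρ) = 1 := by
      refine apeC_one ?_
      rw [le_div_iff₀ hρ, one_mul]
      have hn : (0 : ℝ) < (n : ℝ) + 2 := by positivity
      have h3 : ρ - r ≥ ρ / ((n : ℝ) + 2) := by
        have h4 : ρ * (1 - 1 / ((n : ℝ) + 2)) = ρ - ρ / ((n : ℝ) + 2) := by
          field_simp
        rw [h4] at hr
        linarith
      calc ρ = ρ / ((n : ℝ) + 2) * ((n : ℝ) + 2) := by field_simp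
        _ ≤ (ρ - r) * ((n : ℝ) + 2) := mul_le_mul_of_nonneg_right h3 hn.le
    show max (apeC (g n r)) (apeC ((ρ - r) * ((n : ℝ) + 2) / ρ)) = 1
    rw [h2, max_eq_right (apeC_le _)]
  · refine squeeze_zero (fun n => ?_) (fun n => ?_) tendsto_one_div_add_atTop_nhds_zero_nat
    · exact intervalIntegral.integral_nonneg hR fun r _ => abs_nonneg _
    · refine le_trans ?_ (hg3 n)
      rw [intervalIntegral.integral_of_le hR]
      have hI : Integrable (fun r => ‖(Ioc 0 R).indicator ω r - g n r‖) volume :=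
        (hf.sub (hg2 n)).norm
      refine le_trans (setIntegral_mono_on ?_ hI.integrableOn measurableSet_Ioc (hpt n))
        (setIntegral_le_integral hI (Filter.Eventually.of_forall fun r => norm_nonneg _))
      refine Measure.integrableOn_of_bounded (M := 1) (by simp)
        (((hcont n).measurable.sub hm).abs.aestronglyMeasurable)
        (Filter.Eventually.of_forall fun r => ?_)
      rw [Real.norm_eq_abs, abs_abs, abs_le]
      constructor
      · linarith [hnn n r, (h01 r).2]
      · linarith [hle n r, (h01 r).1]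

theorem Appr.om {ω : ℝ → ℝ} {ρ R : ℝ} {om : ℕ → ℝ → ℝ} (h : Appr ω ρ R om) (hρ : 0 < ρ)
    (n : ℕ) : Om (om n) (ρ * (1 - 1 / (n + 2))) := by
  refine ⟨h.cont n, h.nonneg n, h.le_one n, ?_, h.one n⟩
  have hn : (0 : ℝ) < (n : ℝ) + 2 := by positivity
  have h1 : 1 / ((n : ℝ) + 2) < 1 := by
    rw [div_lt_one hn]
    linarith [(Nat.cast_nonneg n : (0 : ℝ) ≤ (n : ℝ))]
  exact mul_pos hρ (by linarith)

end Pool.Agent.NSY
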