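import Pool.Agent.NSY.Defs

/-!
# NSY-TmP: the mass map of a continuous density

PLAN. `tm om r = √(2 ∫_0^r om s s ds)`. For `0 ≤ r ≤ a` the integral is `r²/2` (`om = 1`); for `r ≥ 0` it is `≤ r²/2` and,
for `r ≥ a`, `≥ a²/2` (monotone in `r`, integrand `≥ 0`). So it is positive for `r > 0`; `HasDerivAt` by FTC
(`intervalIntegral.integral_hasDerivAt_right`, integrand continuous) and `HasDerivAt.sqrt`:
`(2 om r r) / (2 tm) = om r r / tm`.
-/

set_option autoImplicit false

open MeasureTheory Set Filter Topology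
open Pool.Agent.Neu (E D mu)
open Pool.Agent.Neu.Discx (P)

namespace Pool.Agent.NSY

variable {om : ℝ → ℝ} {a : ℝ}

private theorem tp_cont (h : Om om a) : Continuous fun s => om s * s :=
  h.cont.mul continuous_id

private theorem tp_nonneg (h : Om om a) {x y : ℝ} (hx : 0 ≤ x) (hxy : x ≤ y) :
    0 ≤ ∫ s in x..y, om s * s :=
  intervalIntegral.integral_nonneg hxy fun s hs => mul_nonneg (h.nonneg s) (hx.trans hs.1)

private theorem tp_eq (h : Om om a) {r : ℝ} (h0 : 0 ≤ r) (hr : r ≤ a) :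
    ∫ s in (0 : ℝ)..r, om s * s = r ^ 2 / 2 := by
  have h1 : ∫ s in (0 : ℝ)..r, om s * s = ∫ s in (0 : ℝ)..r, s := by
    refine intervalIntegral.integral_congr fun s hs => ?_
    rw [Set.uIcc_of_le h0] at hs
    show om s * s = s
    rw [h.one s (hs.2.trans hr), one_mul]
  rw [h1, integral_id]
  ring

theorem Om.tm_sq (h : Om om a) {r : ℝ} (hr : 0 ≤ r) :
    tm om r ^ 2 = 2 * ∫ s in (0 : ℝ)..r, om s * s := by
  unfold tm
  exact Real.sq_sqrt (mul_nonneg (by norm_num) (tp_nonneg h le_rfl hr))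

theorem Om.tm_eq (h : Om om a) {r : ℝ} (h0 : 0 ≤ r) (hr : r ≤ a) : tm om r = r := by
  unfold tm
  rw [tp_eq h h0 hr, show 2 * (r ^ 2 / 2) = r ^ 2 by ring, Real.sqrt_sq h0]

theorem Om.tm_le (h : Om om a) {r : ℝ} (hr : 0 ≤ r) : tm om r ≤ r := by
  unfold tm
  rw [Real.sqrt_le_iff]
  refine ⟨hr, ?_⟩
  have h1 : ∫ s in (0 : ℝ)..r, om s * s ≤ ∫ s in (0 : ℝ)..r, s := by
    refine intervalIntegral.integral_mono_on hr ((tp_cont h).intervalIntegrable _ _)
      (continuous_id.intervalIntegrable _ _) fun s hs => ?_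
    exact mul_le_of_le_one_left hs.1 (h.le_one s)
  rw [integral_id] at h1
  linarith

theorem Om.le_tm (h : Om om a) {r : ℝ} (hr : a ≤ r) : a ≤ tm om r := by
  unfold tm
  rw [Real.le_sqrt' h.pos]
  have h1 := intervalIntegral.integral_add_adjacent_intervals
    ((tp_cont h).intervalIntegrable (μ := volume) 0 a) ((tp_cont h).intervalIntegrable (μ := volume) a r)
  have h2 := tp_eq h h.pos.le le_rfl
  have h3 := tp_nonneg h h.pos.le hr
  linarith

theorem Om.tm_pos (h : Om om a) {r : ℝ} (hr : 0 < r) : 0 < tm om r := by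
  rcases le_total r a with hra | hra
  · rw [h.tm_eq hr.le hra]
    exact hr
  · exact lt_of_lt_of_le h.pos (h.le_tm hra)

theorem Om.tm_deriv (h : Om om a) {r : ℝ} (hr : 0 < r) :
    HasDerivAt (tm om) (om r * r / tm om r) r := by
  have h1 : HasDerivAt (fun u => ∫ s in (0 : ℝ)..u, om s * s) (om r * r) r :=
    ((tp_cont h).integral_hasStrictDerivAt 0 r).hasDerivAt
  have h2 := h.tm_pos hr
  have h3 : 2 * (∫ s in (0 : ℝ)..r, om s * s) ≠ 0 := (Real.sqrt_pos.1 h2).ne'
  have h4 := (h1.const_mul 2).sqrt h3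
  have h5 : 2 * (om r * r) / (2 * √(2 * ∫ s in (0 : ℝ)..r, om s * s)) = om r * r / tm om r :=
    mul_div_mul_left _ _ two_ne_zero
  rw [h5] at h4
  exact h4

theorem Om.tm_contOn (h : Om om a) : ContinuousOn (tm om) (Ici 0) := by
  have h1 : Continuous fun u => ∫ s in (0 : ℝ)..u, om s * s :=
    intervalIntegral.continuous_primitive (fun x y => (tp_cont h).intervalIntegrable x y) 0
  have h2 : Continuous (tm om) := (continuous_const.mul h1).sqrt
  exact h2.continuousOn

end Pool.Agent.NSY
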