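import Pool.Agent.NSY.Defs
import Pool.Agent.NSY.TmP

/-!
# NSY-TmS: substitution t = tm om r

Change of variables for monotone functions (`integral_comp_mul_deriv_of_deriv_nonneg`), applied to
`f = tm om`, `f' r = om r r / tm om r`, `g t = F t * t`.
-/

set_option autoImplicit false

open MeasureTheory Set Filter Topology
open Pool.Agent.Neu (E D mu)
open Pool.Agent.Neu.Discx (P)

namespace Pool.Agent.NSY

theorem Om.sub {om : ℝ → ℝ} {a : ℝ} (h : Om om a) {R : ℝ} (hR : 0 < R) {F : ℝ → ℝ}
    (hF : ContinuousOn F (Ioi 0)) {C : ℝ} (hC : ∀ t, 0 < t → t ≤ R → |F t| ≤ C) :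
    ∫ r in (0 : ℝ)..R, F (tm om r) * (om r * r) = ∫ t in (0 : ℝ)..(tm om R), F t * t := by
  have h0 : tm om 0 = 0 := h.tm_eq le_rfl h.pos.le
  have hcont : ContinuousOn (tm om) (uIcc 0 R) := by
    refine h.tm_contOn.mono ?_
    rw [uIcc_of_le hR.le]
    exact fun x hx => hx.1
  have key := intervalIntegral.integral_comp_mul_deriv_of_deriv_nonneg (a := 0) (b := R)
    (f := tm om) (f' := fun r => om r * r / tm om r) (g := fun t => F t * t) hcont
    (by
      intro x hx
      rw [min_eq_left hR.le] at hx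
      exact h.tm_deriv hx.1)
    (by
      intro x hx
      rw [min_eq_left hR.le] at hx
      exact div_nonneg (mul_nonneg (h.nonneg x) hx.1.le) (h.tm_pos hx.1).le)
  rw [h0] at key
  rw [← key]
  refine intervalIntegral.integral_congr ?_
  intro r hr
  rw [uIcc_of_le hR.le] at hr
  show F (tm om r) * (om r * r) = ((fun t => F t * t) ∘ tm om) r * (om r * r / tm om r)
  rcases eq_or_lt_of_le hr.1 with h1 | h1
  · subst h1
    simp
  · have h2 := (h.tm_pos h1).ne'
    simp only [Function.comp]
    field_simp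

end Pool.Agent.NSY
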