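import Pool.Agent.NSY.Defs
import Pool.Agent.NSY.TmP
import Pool.Agent.NSY.TmS
import Pool.Agent.NSY.ApE

/-!
# NSY-ApL: limit of the transported integrals

PLAN. `|∫_0^R ω F(tm) r - ∫_0^R om_n F(tm) r| ≤ C R ∫_0^R |om_n - ω| → 0` (for `0 < r ≤ R`, `0 < tm ≤ R`; measurability of
`r ↦ F (tm r)` on `(0, R]`: continuous there). By `Om.sub` the second integral is `∫_0^{t_n} F t t dt`, `t_n = tm (om n) R`.
`t_n² = 2 ∫_0^R om_n s ds → 2 ∫_0^R ω s ds = 1` (`tm_sq`), so `t_n → 1` and (`|F t t| ≤ C R` on `(0, R]`, `1 ≤ R` because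
`1/2 = ∫ ω r ≤ R²/2`, `t_n ≤ R`) the integral tends to `∫_0^1 F t t dt`:
`|∫_{1}^{t_n}| ≤ C R |t_n - 1|`.
-/

set_option autoImplicit false

open MeasureTheory Set Filter Topology
open Pool.Agent.Neu (E D mu)
open Pool.Agent.Neu.Discx (P)

namespace Pool.Agent.NSY

private theorem apl_int {g : ℝ → ℝ} {R M : ℝ}
    (hg : AEStronglyMeasurable g (volume.restrict (Ioc (0 : ℝ) R)))
    (hb : ∀ r ∈ Ioc (0 : ℝ) R, |g r| ≤ M) (hR : 0 ≤ R) : IntervalIntegrable g volume 0 R := by
  rw [intervalIntegrable_iff_integrableOn_Ioc_of_le hR]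
  exact (integrable_const M).mono' hg
    ((ae_restrict_iff' measurableSet_Ioc).2 (Eventually.of_forall hb))

theorem Appr.limit {ω : ℝ → ℝ} {ρ R : ℝ} {om : ℕ → ℝ → ℝ} (h : Appr ω ρ R om)
    (hm : Measurable ω) (h01 : ∀ r, 0 ≤ ω r ∧ ω r ≤ 1) (hρ : 0 < ρ) (hR : 0 < R)
    (hvol : ∫ r in (0 : ℝ)..R, ω r * r = 1 / 2) {F : ℝ → ℝ} (hF : ContinuousOn F (Ioi 0))
    {C : ℝ} (hC : ∀ t, 0 < t → t ≤ R → |F t| ≤ C) :
    Tendsto (fun n => ∫ r in (0 : ℝ)..R, ω r * F (tm (om n) r) * r) atTop
      (𝓝 (∫ t in (0 : ℝ)..1, F t * t)) := by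
  have hC0 : 0 ≤ C := (abs_nonneg _).trans (hC R hR le_rfl)
  have hO := fun n => h.om hρ n
  -- measurability
  have hGm : ∀ n, AEStronglyMeasurable (fun r => F (tm (om n) r))
      (volume.restrict (Ioc (0 : ℝ) R)) := by
    intro n
    have hc : ContinuousOn (fun r => F (tm (om n) r)) (Ioc (0 : ℝ) R) :=
      hF.comp ((hO n).tm_contOn.mono fun r hr => hr.1.le) fun r hr => (hO n).tm_pos hr.1
    exact hc.aestronglyMeasurable measurableSet_Ioc
  have hGb : ∀ n, ∀ r ∈ Ioc (0 : ℝ) R, |F (tm (om n) r)| ≤ C := by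
    intro n r hr
    exact hC _ ((hO n).tm_pos hr.1) (((hO n).tm_le hr.1.le).trans hr.2)
  have hid : AEStronglyMeasurable (fun r : ℝ => r) (volume.restrict (Ioc (0 : ℝ) R)) :=
    measurable_id.aestronglyMeasurable
  have hωm : AEStronglyMeasurable ω (volume.restrict (Ioc (0 : ℝ) R)) := hm.aestronglyMeasurable
  have homm : ∀ n, AEStronglyMeasurable (om n) (volume.restrict (Ioc (0 : ℝ) R)) :=
    fun n => (h.cont n).aestronglyMeasurable
  -- the distance
  have hdI : ∀ n, IntervalIntegrable (fun r => |om n r - ω r|) volume 0 R := by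
    intro n
    refine apl_int (M := 1) (((h.cont n).measurable.sub hm).abs.aestronglyMeasurable)
      (fun r _ => ?_) hR.le
    rw [abs_abs, abs_le]
    constructor
    · linarith [h.nonneg n r, (h01 r).2]
    · linarith [h.le_one n r, (h01 r).1]
  -- the total masses
  have hωr : IntervalIntegrable (fun r => ω r * r) volume 0 R := by
    refine apl_int (M := R) (hωm.mul hid) (fun r hr => ?_) hR.le
    rw [abs_mul, abs_of_nonneg (h01 r).1, abs_of_nonneg hr.1.le]
    nlinarith [(h01 r).1, (h01 r).2, hr.1, hr.2]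
  have homr : ∀ n, IntervalIntegrable (fun r => om n r * r) volume 0 R :=
    fun n => ((h.cont n).mul continuous_id).intervalIntegrable _ _
  have hmass : Tendsto (fun n => ∫ r in (0 : ℝ)..R, om n r * r) atTop (𝓝 (1 / 2)) := by
    have h1 : Tendsto (fun n => R * ∫ r in (0 : ℝ)..R, |om n r - ω r|) atTop (𝓝 (R * 0)) :=
      h.lim.const_mul R
    rw [mul_zero] at h1
    have h2 : Tendsto (fun n => (∫ r in (0 : ℝ)..R, om n r * r) - 1 / 2) atTop (𝓝 0) := by
      refine squeeze_zero_norm (fun n => ?_) h1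
      rw [← hvol, ← intervalIntegral.integral_sub (homr n) hωr,
        ← intervalIntegral.integral_const_mul]
      refine intervalIntegral.norm_integral_le_of_norm_le hR.le
        (Eventually.of_forall fun r hr => ?_) ((hdI n).const_mul R)
      rw [← sub_mul, norm_mul, Real.norm_eq_abs, Real.norm_eq_abs, abs_of_nonneg hr.1.le]
      nlinarith [abs_nonneg (om n r - ω r), hr.2]
    have h3 := h2.add_const (1 / 2)
    simpa using h3
  have hT : Tendsto (fun n => tm (om n) R) atTop (𝓝 1) := by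
    have h1 : Tendsto (fun n => √(2 * ∫ r in (0 : ℝ)..R, om n r * r)) atTop (𝓝 √(2 * (1 / 2))) :=
      (hmass.const_mul 2).sqrt
    have h2 : √(2 * (1 / 2) : ℝ) = 1 := by norm_num
    rw [h2] at h1
    exact h1
  have hTle : ∀ n, tm (om n) R ≤ R := fun n => (hO n).tm_le hR.le
  have hTpos : ∀ n, 0 < tm (om n) R := fun n => (hO n).tm_pos hR
  have hR1 : 1 ≤ R := le_of_tendsto' hT hTle
  -- the transported integrals
  have hFt : IntervalIntegrable (fun t => F t * t) volume 0 R := by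
    refine apl_int (M := C * R) (AEStronglyMeasurable.mul
      ((hF.mono fun r hr => hr.1).aestronglyMeasurable measurableSet_Ioc) hid) (fun r hr => ?_) hR.le
    rw [abs_mul, abs_of_nonneg hr.1.le]
    exact mul_le_mul (hC r hr.1 hr.2) hr.2 hr.1.le hC0
  have hsub : ∀ T, 0 < T → T ≤ R → IntervalIntegrable (fun t => F t * t) volume 0 T := by
    intro T h1 h2
    refine hFt.mono_set ?_
    rw [uIcc_of_le h1.le, uIcc_of_le hR.le]
    exact Icc_subset_Icc le_rfl h2
  have hJ : Tendsto (fun n => ∫ t in (0 : ℝ)..(tm (om n) R), F t * t) atTop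
      (𝓝 (∫ t in (0 : ℝ)..1, F t * t)) := by
    have h1 : Tendsto (fun n => C * R * |tm (om n) R - 1|) atTop (𝓝 0) := by
      have h2 := ((hT.sub_const 1).abs).const_mul (C * R)
      simpa using h2
    rw [tendsto_iff_norm_sub_tendsto_zero]
    refine squeeze_zero (fun n => norm_nonneg _) (fun n => ?_) h1
    rw [intervalIntegral.integral_interval_sub_left (hsub _ (hTpos n) (hTle n))
      (hsub 1 one_pos hR1)]
    refine intervalIntegral.norm_integral_le_of_norm_le_const fun t ht => ?_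
    have ht0 : 0 < t := (lt_min one_pos (hTpos n)).trans ht.1
    have htR : t ≤ R := ht.2.trans (max_le hR1 (hTle n))
    rw [Real.norm_eq_abs, abs_mul, abs_of_nonneg ht0.le]
    exact mul_le_mul (hC t ht0 htR) htR ht0.le hC0
  have hK : ∀ n, ∫ r in (0 : ℝ)..R, F (tm (om n) r) * (om n r * r) =
      ∫ t in (0 : ℝ)..(tm (om n) R), F t * t := fun n => (hO n).sub hR hF hC
  have hI1 : ∀ n, IntervalIntegrable (fun r => ω r * F (tm (om n) r) * r) volume 0 R := by
    intro n
    refine apl_int (M := C * R) ((hωm.mul (hGm n)).mul hid) (fun r hr => ?_) hR.le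
    rw [abs_mul, abs_mul, abs_of_nonneg (h01 r).1, abs_of_nonneg hr.1.le]
    refine mul_le_mul ?_ hr.2 hr.1.le hC0
    calc ω r * |F (tm (om n) r)| ≤ 1 * C :=
          mul_le_mul (h01 r).2 (hGb n r hr) (abs_nonneg _) zero_le_one
      _ = C := one_mul C
  have hI2 : ∀ n, IntervalIntegrable (fun r => F (tm (om n) r) * (om n r * r)) volume 0 R := by
    intro n
    refine apl_int (M := C * R) ((hGm n).mul ((homm n).mul hid)) (fun r hr => ?_) hR.le
    rw [abs_mul, abs_mul, abs_of_nonneg (h.nonneg n r), abs_of_nonneg hr.1.le]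
    refine mul_le_mul (hGb n r hr) ?_ (mul_nonneg (h.nonneg n r) hr.1.le) hC0
    nlinarith [h.nonneg n r, h.le_one n r, hr.1, hr.2]
  have hdiff : Tendsto (fun n => (∫ r in (0 : ℝ)..R, ω r * F (tm (om n) r) * r) -
      ∫ r in (0 : ℝ)..R, F (tm (om n) r) * (om n r * r)) atTop (𝓝 0) := by
    have h1 : Tendsto (fun n => C * R * ∫ r in (0 : ℝ)..R, |om n r - ω r|) atTop (𝓝 (C * R * 0)) :=
      h.lim.const_mul (C * R)
    rw [mul_zero] at h1
    refine squeeze_zero_norm (fun n => ?_) h1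
    rw [← intervalIntegral.integral_sub (hI1 n) (hI2 n), ← intervalIntegral.integral_const_mul]
    refine intervalIntegral.norm_integral_le_of_norm_le hR.le
      (Eventually.of_forall fun r hr => ?_) ((hdI n).const_mul (C * R))
    have e1 : ω r * F (tm (om n) r) * r - F (tm (om n) r) * (om n r * r) =
        -((om n r - ω r) * (F (tm (om n) r) * r)) := by ring
    rw [e1, norm_neg, norm_mul, norm_mul, Real.norm_eq_abs, Real.norm_eq_abs, Real.norm_eq_abs,
      abs_of_nonneg hr.1.le, mul_comm (C * R)]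
    refine mul_le_mul_of_nonneg_left ?_ (abs_nonneg _)
    exact mul_le_mul (hGb n r hr) hr.2 hr.1.le hC0
  have hfin := hdiff.add hJ
  rw [zero_add] at hfin
  refine hfin.congr fun n => ?_
  rw [hK n]
  ring

end Pool.Agent.NSY
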