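import Pool.Agent.NSY.Defs
import Pool.Agent.NSY.Rot

/-!
# NSY-Iso: isotropy of rotation averages

PLAN. Coordinates. `∑_{s<N} cos(θ + s 4π/N) = 0`, `∑ sin(...) = 0` for `N ≥ 3` (geometric sum of the `N`-th roots of unity `e^{4πi/N} ≠ 1`), so
`∑ cos²(θ + 2πs/N) = N/2`, `∑ sin² = N/2`, `∑ sin cos = 0`. `sum_rot_apply`: `rot_s v` with `|v| = r`: `L (rot_s v) = v-combination` of the
columns `L e₀, L e₁`: `∑_s ‖L (rot_s v)‖² = (N/2) hs L ‖v‖²`.
`sum_rot_comp`: for a functional `ℓ` let `v` be its Riesz vector; `‖ℓ ∘ M‖² = ‖Mᵀ v‖²`; coordinates: if `ℓ e₀ = p`, `ℓ e₁ = q` then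
`‖ℓ‖² = p² + q²` (`Pool.Agent.Neu.Discx.norm_sq_dual` with `t = 0`), and `ℓ ∘ rotL α` has coordinates `(p cos α + q sin α, -p sin α + q cos α)`;
then compose with `M`: `(ℓ' M e₀)² + (ℓ' M e₁)²`, quadratic in the coordinates of `ℓ'`; sum over `s`: `(N/2)(hs M)(p² + q²)`.
`hs_inv`: for an invertible 2×2 matrix `M⁻¹ = adj M / det`, `hs (adj M) = hs M`.
-/

set_option autoImplicit false

open MeasureTheory Set Filter Topology
open Pool.Agent.Neu (E D mu)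
open Pool.Agent.Neu.Discx (P)

namespace Pool.Agent.NSY

private theorem iso_nsq (x : E) : ‖x‖ ^ 2 = x 0 ^ 2 + x 1 ^ 2 := by
  rw [EuclideanSpace.norm_sq_eq, Fin.sum_univ_two]
  simp

private theorem iso_dec (x : E) : x = x 0 • (!₂[1, 0] : E) + x 1 • (!₂[0, 1] : E) := by
  ext i
  fin_cases i
  · simp
  · simp

private theorem iso_lin (L : E →ₗ[ℝ] E) (x : E) (i : Fin 2) :
    (L x) i = x 0 * (L !₂[1, 0]) i + x 1 * (L !₂[0, 1]) i := by
  conv_lhs => rw [iso_dec x]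
  rw [map_add, map_smul, map_smul]
  simp

private theorem iso_geom {N : ℕ} (hN : 3 ≤ N) :
    ∑ s ∈ Finset.range N, Complex.exp (((s : ℝ) * (4 * Real.pi / N) : ℝ) * Complex.I) = 0 := by
  have hN0 : (N : ℂ) ≠ 0 := by exact_mod_cast (by omega : N ≠ 0)
  set z : ℂ := Complex.exp ((4 * Real.pi / N : ℝ) * Complex.I) with hz
  have h1 : ∀ s : ℕ, Complex.exp (((s : ℝ) * (4 * Real.pi / N) : ℝ) * Complex.I) = z ^ s := by
    intro s
    rw [hz, ← Complex.exp_nat_mul]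
    congr 1
    push_cast
    ring
  rw [Finset.sum_congr rfl fun s _ => h1 s]
  have h2 : z ^ N = 1 := by
    rw [hz, ← Complex.exp_nat_mul]
    rw [Complex.exp_eq_one_iff]
    refine ⟨2, ?_⟩
    push_cast
    field_simp
    ring
  have h3 : z ≠ 1 := by
    rw [hz]
    intro h
    rw [Complex.exp_eq_one_iff] at h
    obtain ⟨k, hk⟩ := h
    have hpi : (Real.pi : ℂ) ≠ 0 := by exact_mod_cast Real.pi_ne_zero
    have h4 : (2 : ℂ) = k * N := by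
      push_cast at hk
      field_simp at hk
      have h5 : (Real.pi : ℂ) * Complex.I * 2 * 2 = (Real.pi : ℂ) * Complex.I * 2 * (k * N) := by
        linear_combination (Real.pi : ℂ) * Complex.I * hk
      have h6 : (Real.pi : ℂ) * Complex.I * 2 ≠ 0 :=
        mul_ne_zero (mul_ne_zero hpi Complex.I_ne_zero) two_ne_zero
      exact mul_left_cancel₀ h6 h5
    have h5 : (2 : ℤ) = k * N := by exact_mod_cast h4
    have h6 : (3 : ℤ) ≤ N := by exact_mod_cast hN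
    rcases lt_trichotomy k 0 with h7 | h7 | h7
    · nlinarith
    · rw [h7] at h5
      norm_num at h5
    · nlinarith
  have h4 := mul_geom_sum z N
  rw [h2, sub_self] at h4
  exact (mul_eq_zero.1 h4).resolve_left (sub_ne_zero.2 h3)

private theorem iso_cos {N : ℕ} (hN : 3 ≤ N) :
    ∑ s ∈ Finset.range N, Real.cos (2 * (s * (2 * Real.pi / N))) = 0 := by
  have h := congrArg Complex.re (iso_geom hN)
  rw [Complex.re_sum, Complex.zero_re] at h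
  rw [← h]
  refine Finset.sum_congr rfl fun s _ => ?_
  rw [Complex.exp_ofReal_mul_I_re]
  congr 1
  ring

private theorem iso_sin {N : ℕ} (hN : 3 ≤ N) :
    ∑ s ∈ Finset.range N, Real.sin (2 * (s * (2 * Real.pi / N))) = 0 := by
  have h := congrArg Complex.im (iso_geom hN)
  rw [Complex.im_sum, Complex.zero_im] at h
  rw [← h]
  refine Finset.sum_congr rfl fun s _ => ?_
  rw [Complex.exp_ofReal_mul_I_im]
  congr 1
  ring

private theorem iso_quad {N : ℕ} (hN : 3 ≤ N) (A B C a b : ℝ) :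
    ∑ s ∈ Finset.range N,
      (A * (Real.cos (s * (2 * Real.pi / N)) * a - Real.sin (s * (2 * Real.pi / N)) * b) ^ 2 +
        C * ((Real.cos (s * (2 * Real.pi / N)) * a - Real.sin (s * (2 * Real.pi / N)) * b) *
          (Real.sin (s * (2 * Real.pi / N)) * a + Real.cos (s * (2 * Real.pi / N)) * b)) +
        B * (Real.sin (s * (2 * Real.pi / N)) * a + Real.cos (s * (2 * Real.pi / N)) * b) ^ 2) =
      N * ((A + B) / 2) * (a ^ 2 + b ^ 2) := by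
  have h1 : ∀ θ : ℝ, A * (Real.cos θ * a - Real.sin θ * b) ^ 2 +
        C * ((Real.cos θ * a - Real.sin θ * b) * (Real.sin θ * a + Real.cos θ * b)) +
        B * (Real.sin θ * a + Real.cos θ * b) ^ 2 =
      (A + B) / 2 * (a ^ 2 + b ^ 2) +
        ((A - B) / 2 * (a ^ 2 - b ^ 2) + C * (a * b)) * Real.cos (2 * θ) +
        (C / 2 * (a ^ 2 - b ^ 2) - (A - B) * (a * b)) * Real.sin (2 * θ) := by
    intro θ
    rw [Real.cos_two_mul, Real.sin_two_mul]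
    have h2 := Real.sin_sq_add_cos_sq θ
    have h3 : Real.sin θ ^ 2 = 1 - Real.cos θ ^ 2 := by linarith
    ring_nf
    rw [h3]
    ring
  rw [Finset.sum_congr rfl fun s _ => h1 _, Finset.sum_add_distrib, Finset.sum_add_distrib,
    Finset.sum_const, ← Finset.mul_sum, ← Finset.mul_sum, iso_cos hN, iso_sin hN,
    Finset.card_range, nsmul_eq_mul]
  ring

private theorem iso_rot0 (α : ℝ) (x : E) : (rot α x) 0 = Real.cos α * x 0 - Real.sin α * x 1 := by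
  simp [rot]

private theorem iso_rot1 (α : ℝ) (x : E) : (rot α x) 1 = Real.sin α * x 0 + Real.cos α * x 1 := by
  simp [rot]

theorem sum_rot_apply {N : ℕ} (hN : 3 ≤ N) (L : E →ₗ[ℝ] E) (v : E) :
    ∑ s ∈ Finset.range N, ‖L (rot (s * (2 * Real.pi / N)) v)‖ ^ 2 =
      N * (hs L / 2) * ‖v‖ ^ 2 := by
  have h := iso_quad hN (‖L !₂[1, 0]‖ ^ 2) (‖L !₂[0, 1]‖ ^ 2)
    (2 * ((L !₂[1, 0]) 0 * (L !₂[0, 1]) 0 + (L !₂[1, 0]) 1 * (L !₂[0, 1]) 1)) (v 0) (v 1)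
  rw [hs, iso_nsq v, ← h]
  refine Finset.sum_congr rfl fun s _ => ?_
  rw [iso_nsq, iso_lin, iso_lin L _ 1, iso_rot0, iso_rot1, iso_nsq (L !₂[1, 0]),
    iso_nsq (L !₂[0, 1])]
  ring

private theorem iso_dual (ℓ : E →L[ℝ] ℝ) : ‖ℓ‖ ^ 2 = ℓ !₂[1, 0] ^ 2 + ℓ !₂[0, 1] ^ 2 := by
  have h := Pool.Agent.Neu.Discx.norm_sq_dual ℓ 0
  rw [h]
  simp [P]

private theorem iso_fun (ℓ : E →L[ℝ] ℝ) (x : E) :
    ℓ x = x 0 * ℓ !₂[1, 0] + x 1 * ℓ !₂[0, 1] := by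
  conv_lhs => rw [iso_dec x]
  rw [map_add, map_smul, map_smul]
  simp

theorem sum_rot_comp {N : ℕ} (hN : 3 ≤ N) (M : E →L[ℝ] E) (ℓ : E →L[ℝ] ℝ) :
    ∑ s ∈ Finset.range N, ‖(ℓ.comp (rotL (s * (2 * Real.pi / N)))).comp M‖ ^ 2 =
      N * (hs (M : E →ₗ[ℝ] E) / 2) * ‖ℓ‖ ^ 2 := by
  have h := iso_quad hN ((M !₂[1, 0]) 0 ^ 2 + (M !₂[0, 1]) 0 ^ 2)
    ((M !₂[1, 0]) 1 ^ 2 + (M !₂[0, 1]) 1 ^ 2)
    (-2 * ((M !₂[1, 0]) 0 * (M !₂[1, 0]) 1 + (M !₂[0, 1]) 0 * (M !₂[0, 1]) 1))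
    (ℓ !₂[1, 0]) (-ℓ !₂[0, 1])
  have h2 : hs (M : E →ₗ[ℝ] E) = (M !₂[1, 0]) 0 ^ 2 + (M !₂[0, 1]) 0 ^ 2 +
      ((M !₂[1, 0]) 1 ^ 2 + (M !₂[0, 1]) 1 ^ 2) := by
    rw [hs, iso_nsq, iso_nsq]
    simp only [ContinuousLinearMap.coe_coe]
    ring
  have h3 : ℓ !₂[1, 0] ^ 2 + (-ℓ !₂[0, 1]) ^ 2 = ‖ℓ‖ ^ 2 := by
    rw [iso_dual]
    ring
  rw [h2, ← h3, ← h]
  refine Finset.sum_congr rfl fun s _ => ?_
  rw [iso_dual]
  have h4 : ∀ x : E, ((ℓ.comp (rotL (s * (2 * Real.pi / N)))).comp M) x =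
      ℓ (rot (s * (2 * Real.pi / N)) (M x)) := fun x => rfl
  rw [h4, h4, iso_fun ℓ (rot _ (M !₂[1, 0])), iso_fun ℓ (rot _ (M !₂[0, 1])), iso_rot0, iso_rot0,
    iso_rot1, iso_rot1]
  ring

private theorem iso_det (T : E →ₗ[ℝ] E) : LinearMap.det T =
    (T !₂[1, 0]) 0 * (T !₂[0, 1]) 1 - (T !₂[0, 1]) 0 * (T !₂[1, 0]) 1 := by
  rw [← LinearMap.det_toMatrix (EuclideanSpace.basisFun (Fin 2) ℝ).toBasis, Matrix.det_fin_two]
  have h0 : (EuclideanSpace.basisFun (Fin 2) ℝ) 0 = (!₂[1, 0] : E) := by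
    ext i
    fin_cases i <;> simp
  have h1 : (EuclideanSpace.basisFun (Fin 2) ℝ) 1 = (!₂[0, 1] : E) := by
    ext i
    fin_cases i <;> simp
  simp only [LinearMap.toMatrix_apply, OrthonormalBasis.coe_toBasis, h0, h1,
    OrthonormalBasis.coe_toBasis_repr_apply, EuclideanSpace.basisFun_repr]

theorem hs_inv (T : E ≃ₗ[ℝ] E) :
    hs (T.symm : E →ₗ[ℝ] E) = hs (T : E →ₗ[ℝ] E) / LinearMap.det (T : E →ₗ[ℝ] E) ^ 2 := by
  have hd : LinearMap.det (T : E →ₗ[ℝ] E) ≠ 0 := (LinearEquiv.isUnit_det' T).ne_zero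
  have hdet := iso_det (T : E →ₗ[ℝ] E)
  simp only [LinearEquiv.coe_coe] at hdet
  have h0 : ∀ i, (T (T.symm !₂[1, 0])) i = (!₂[1, 0] : E) i := fun i => by
    rw [LinearEquiv.apply_symm_apply]
  have h1 : ∀ i, (T (T.symm !₂[0, 1])) i = (!₂[0, 1] : E) i := fun i => by
    rw [LinearEquiv.apply_symm_apply]
  have e : ∀ (x : E) (i : Fin 2), (T x) i = x 0 * (T !₂[1, 0]) i + x 1 * (T !₂[0, 1]) i :=
    fun x i => iso_lin (T : E →ₗ[ℝ] E) x i
  have a0 := h0 0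
  have a1 := h0 1
  have b0 := h1 0
  have b1 := h1 1
  rw [e] at a0 a1 b0 b1
  simp only [Matrix.cons_val_zero, Matrix.cons_val_one] at a0 a1 b0 b1
  rw [hs, hs, iso_nsq, iso_nsq, iso_nsq, iso_nsq]
  simp only [LinearEquiv.coe_coe]
  rw [eq_div_iff (pow_ne_zero 2 hd), hdet]
  generalize (T.symm !₂[1, 0]) 0 = x at *
  generalize (T.symm !₂[1, 0]) 1 = y at *
  generalize (T.symm !₂[0, 1]) 0 = z at *
  generalize (T.symm !₂[0, 1]) 1 = w at *
  generalize (T !₂[1, 0]) 0 = a at *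
  generalize (T !₂[1, 0]) 1 = c at *
  generalize (T !₂[0, 1]) 0 = b at *
  generalize (T !₂[0, 1]) 1 = d at *
  have hx : x * (a * d - b * c) = d := by linear_combination d * a0 - b * a1
  have hy : y * (a * d - b * c) = -c := by linear_combination a * a1 - c * a0
  have hz : z * (a * d - b * c) = -b := by linear_combination d * b0 - b * b1
  have hw : w * (a * d - b * c) = a := by linear_combination a * b1 - c * b0
  have : (x ^ 2 + y ^ 2 + (z ^ 2 + w ^ 2)) * (a * d - b * c) ^ 2 =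
      (x * (a * d - b * c)) ^ 2 + (y * (a * d - b * c)) ^ 2 + ((z * (a * d - b * c)) ^ 2 +
        (w * (a * d - b * c)) ^ 2) := by ring
  rw [this, hx, hy, hz, hw]
  ring

theorem hs_pos (T : E ≃ₗ[ℝ] E) : 0 < hs (T : E →ₗ[ℝ] E) := by
  rw [hs]
  have h1 : (T : E →ₗ[ℝ] E) !₂[1, 0] ≠ 0 := by
    intro h
    have h2 : (!₂[1, 0] : E) = 0 := by
      have h3 : T !₂[1, 0] = 0 := h
      exact (LinearEquiv.map_eq_zero_iff T).1 h3
    have h3 := congrArg (fun x : E => x 0) h2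
    simp at h3
  have h2 : 0 < ‖(T : E →ₗ[ℝ] E) !₂[1, 0]‖ := norm_pos_iff.2 h1
  positivity

end Pool.Agent.NSY
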