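import Pool.Agent.NSY.Defs
import Pool.Agent.NSY.GrM
import Pool.Agent.NSY.TrU
import Pool.Agent.NSY.Rot
import Pool.Agent.NSY.Iso

/-!
# NSY-Avg: averaging over the rotations, affine images

PLAN. `T : E ≃ᵃ[ℝ] E`, `L = T.linear`, `δ = |det L| > 0`. For `s < N` let `ρ_s = rot (s 2π/N)` and `W_s j = w j ∘ ρ_s ∘ T.symm`, `C¹`
on the plane. `T '' Ω` is open and bounded. CHANGE OF VARIABLES `x = T y` (`integral_image_eq_integral_abs_det_fderiv_smul` or
`MeasureTheory.Measure.addHaar_image_linearMap`) and then `y ↦ ρ_s y` (`Sym.int_rot`, `ρ_s Ω = Ω`):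
`∫_{TΩ} (∑ a_j W_s j)² = δ ∫_Ω (∑ a_j w_j)²`; so `gramM (T '' Ω) W_s = δ • gramM Ω w`.
ENERGY: `fderiv (∑ a_j W_s j) (T y) = fderiv w_a (ρ_s y) ∘ ρ_s ∘ L⁻¹`, so
`∫_{TΩ} ‖fderiv ...‖² = δ ∫_Ω ‖fderiv w_a (x) ∘ rotL (s 2π/N) ∘ L⁻¹‖² dx`. Sum over `s < N` and `sum_rot_comp` (module Iso):
`∑_s ‖ℓ ∘ rotL ∘ L⁻¹‖² = (N/2) hs(L⁻¹) ‖ℓ‖²` and `hs (L⁻¹) = hs L / det²`. So the quadratic forms satisfy
`∑_s enM (T '' Ω) W_s = N δ (hs L / (2 det²)) enM Ω w` (two symmetric matrices with the same quadratic form are equal; or work with traces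
directly: `trace (G⁻¹ A)` is a sum of values of the quadratic form of `A`).
`sum_mu_le` for every `s`: `∑ mu ≤ trace ((δ G)⁻¹ A_s) = δ⁻¹ trace (G⁻¹ A_s)`; average over `s < N`.
-/

set_option autoImplicit false

open MeasureTheory Set Filter Topology
open Pool.Agent.Neu (E D mu)
open Pool.Agent.Neu.Discx (P)

namespace Pool.Agent.NSY

private theorem inner_dual_sum {N : ℕ} (hN : 3 ≤ N) (M : E →L[ℝ] E) (l l' : E →L[ℝ] ℝ) :
    ∑ s ∈ Finset.range N, inner ℝ
        ((InnerProductSpace.toDual ℝ E).symm ((l.comp (rotL (s * (2 * Real.pi / N)))).comp M))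
        ((InnerProductSpace.toDual ℝ E).symm ((l'.comp (rotL (s * (2 * Real.pi / N)))).comp M)) =
      N * (NSY.hs (M : E →ₗ[ℝ] E) / 2) * inner ℝ ((InnerProductSpace.toDual ℝ E).symm l)
        ((InnerProductSpace.toDual ℝ E).symm l') := by
  have key : ∀ a b : E →L[ℝ] ℝ, inner ℝ ((InnerProductSpace.toDual ℝ E).symm a)
      ((InnerProductSpace.toDual ℝ E).symm b) = (‖a + b‖ ^ 2 - ‖a‖ ^ 2 - ‖b‖ ^ 2) / 2 := by
    intro a b
    rw [real_inner_eq_norm_add_mul_self_sub_norm_mul_self_sub_norm_mul_self_div_two, ← map_add,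
      LinearIsometryEquiv.norm_map, LinearIsometryEquiv.norm_map, LinearIsometryEquiv.norm_map]
    simp only [sq]
  simp only [key]
  rw [← Finset.sum_div, Finset.sum_sub_distrib, Finset.sum_sub_distrib, sum_rot_comp hN,
    sum_rot_comp hN]
  have h1 : ∀ s : ℕ, (l.comp (rotL (s * (2 * Real.pi / N)))).comp M +
      (l'.comp (rotL (s * (2 * Real.pi / N)))).comp M =
      ((l + l').comp (rotL (s * (2 * Real.pi / N)))).comp M := fun s => rfl
  simp only [h1]
  rw [sum_rot_comp hN]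
  ring

theorem avg {N n : ℕ} (hN : 3 ≤ N) {Ω : Set E} (hΩ : IsOpen Ω) (hb : Bornology.IsBounded Ω)
    (hs : Sym N Ω) (T : E ≃ᵃ[ℝ] E) {w : Fin n → E → ℝ} (hw : ∀ j, ContDiff ℝ 1 (w j))
    (hG : (gramM Ω w).PosDef) :
    ∑ i ∈ Finset.Icc 1 n, mu (T '' Ω) i ≤
      NSY.hs (T.linear : E →ₗ[ℝ] E) / (2 * LinearMap.det (T.linear : E →ₗ[ℝ] E) ^ 2) *
        ((gramM Ω w)⁻¹ * enM Ω w).trace := by
  classical
  set L := T.linear with hL
  set d : ℝ := LinearMap.det (L : E →ₗ[ℝ] E) with hd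
  have hd0 : d ≠ 0 := (LinearEquiv.isUnit_det' L).ne_zero
  set M : E →L[ℝ] E := LinearMap.toContinuousLinearMap (L.symm : E →ₗ[ℝ] E) with hM
  set c : E := T.symm 0 with hc
  have hTs : ∀ x, T.symm x = M x + c := by
    intro x
    have h1 := congrFun (AffineMap.decomp (T.symm : E →ᵃ[ℝ] E)) x
    exact h1
  set Lc : E →L[ℝ] E := LinearMap.toContinuousLinearMap (L : E →ₗ[ℝ] E) with hLc
  have hT : ∀ x, T x = Lc x + T 0 := by
    intro x
    have h1 := congrFun (AffineMap.decomp (T : E →ᵃ[ℝ] E)) x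
    exact h1
  have hTder : ∀ x, HasFDerivAt (T : E → E) Lc x := by
    intro x
    have h1 : (T : E → E) = fun x => Lc x + T 0 := funext hT
    rw [h1]
    exact Lc.hasFDerivAt.add_const _
  have hTsd : ∀ x, HasFDerivAt (T.symm : E → E) M x := by
    intro x
    have h1 : (T.symm : E → E) = fun x => M x + c := funext hTs
    rw [h1]
    exact M.hasFDerivAt.add_const _
  have hTc : Continuous (T : E → E) := continuous_iff_continuousAt.2 fun x => (hTder x).continuousAt
  have hTsc : Continuous (T.symm : E → E) :=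
    continuous_iff_continuousAt.2 fun x => (hTsd x).continuousAt
  have hTsC : ContDiff ℝ 1 (T.symm : E → E) := by
    have h1 : (T.symm : E → E) = fun x => M x + c := funext hTs
    rw [h1]
    exact M.contDiff.add contDiff_const
  have hO : IsOpen (T '' Ω) := by
    have h1 : T '' Ω = T.symm ⁻¹' Ω := by
      ext x
      constructor
      · rintro ⟨y, hy, rfl⟩
        simpa using hy
      · intro hx
        exact ⟨T.symm x, hx, by simp⟩
    rw [h1]
    exact hΩ.preimage hTsc
  have hbd : Bornology.IsBounded (T '' Ω) :=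
    (hb.isCompact_closure.image hTc).isBounded.subset (image_mono subset_closure)
  have hcv : ∀ g : E → ℝ, ∫ x in T '' Ω, g x = |d| * ∫ x in Ω, g (T x) := by
    intro g
    rw [integral_image_eq_integral_abs_det_fderiv_smul volume hΩ.measurableSet
      (fun x _ => (hTder x).hasFDerivWithinAt) T.injective.injOn g, ← integral_const_mul]
    refine integral_congr_ae (Filter.Eventually.of_forall fun x => ?_)
    simp only [smul_eq_mul]
    rfl
  let al : ℕ → ℝ := fun s => (s : ℝ) * (2 * Real.pi / N)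
  let W : ℕ → Fin n → E → ℝ := fun s j x => w j (rotL (al s) (T.symm x))
  have hWC : ∀ s j, ContDiff ℝ 1 (W s j) := fun s j =>
    (hw j).comp ((rotL (al s)).contDiff.comp hTsC)
  have hWd : ∀ s j y, fderiv ℝ (W s j) (T y) =
      ((fderiv ℝ (w j) (rot (al s) y)).comp (rotL (al s))).comp M := by
    intro s j y
    have h1 : HasFDerivAt (W s j)
        ((fderiv ℝ (w j) (rotL (al s) (T.symm (T y)))).comp ((rotL (al s)).comp M)) (T y) := by
      have h2 : HasFDerivAt (w j) (fderiv ℝ (w j) (rotL (al s) (T.symm (T y))))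
          (rotL (al s) (T.symm (T y))) :=
        ((hw j).differentiable (by norm_num)).differentiableAt.hasFDerivAt
      exact h2.comp (T y) ((rotL (al s)).hasFDerivAt.comp (T y) (hTsd (T y)))
    rw [h1.fderiv, AffineEquiv.symm_apply_apply, rotL_apply]
    rfl
  have hN0 : 0 < N := by omega
  have hgram : ∀ s, gramM (T '' Ω) (W s) = |d| • gramM Ω w := by
    intro s
    ext i j
    simp only [gramM, Matrix.smul_apply, smul_eq_mul]
    rw [hcv]
    congr 1
    have h1 := hs.int_rot hN0 s (fun x => w i x * w j x)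
    rw [← h1]
    refine integral_congr_ae (Filter.Eventually.of_forall fun x => ?_)
    simp only [W, AffineEquiv.symm_apply_apply, rotL_apply, al]
  have hen : ∑ s ∈ Finset.range N, enM (T '' Ω) (W s) =
      (|d| * (N * (NSY.hs (M : E →ₗ[ℝ] E) / 2))) • enM Ω w := by
    ext i j
    rw [Matrix.sum_apply]
    simp only [enM, Matrix.smul_apply, smul_eq_mul]
    have h1 : ∀ s, (∫ x in T '' Ω, inner ℝ ((InnerProductSpace.toDual ℝ E).symm (fderiv ℝ (W s i) x))
        ((InnerProductSpace.toDual ℝ E).symm (fderiv ℝ (W s j) x))) = |d| * ∫ x in Ω, inner ℝ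
        ((InnerProductSpace.toDual ℝ E).symm (((fderiv ℝ (w i) x).comp (rotL (al s))).comp M))
        ((InnerProductSpace.toDual ℝ E).symm (((fderiv ℝ (w j) x).comp (rotL (al s))).comp M)) := by
      intro s
      rw [hcv]
      congr 1
      rw [← hs.int_rot hN0 s (fun x => inner ℝ
        ((InnerProductSpace.toDual ℝ E).symm (((fderiv ℝ (w i) x).comp (rotL (al s))).comp M))
        ((InnerProductSpace.toDual ℝ E).symm (((fderiv ℝ (w j) x).comp (rotL (al s))).comp M)))]
      refine integral_congr_ae (Filter.Eventually.of_forall fun x => ?_)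
      simp only [hWd, al]
    rw [Finset.sum_congr rfl fun s _ => h1 s, ← Finset.mul_sum, mul_assoc]
    congr 1
    rw [← integral_finsetSum, ← integral_const_mul]
    · refine integral_congr_ae (Filter.Eventually.of_forall fun x => ?_)
      exact inner_dual_sum hN M (fderiv ℝ (w i) x) (fderiv ℝ (w j) x)
    · intro s _
      refine Pool.Agent.Neu.Trialx.intOn hb ?_
      have h2 : ∀ j, Continuous fun x => (InnerProductSpace.toDual ℝ E).symm
          (((fderiv ℝ (w j) x).comp (rotL (al s))).comp M) := by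
        intro j
        refine (InnerProductSpace.toDual ℝ E).symm.continuous.comp ?_
        exact (((hw j).continuous_fderiv (by norm_num)).clm_comp continuous_const).clm_comp
          continuous_const
      exact (h2 i).inner (h2 j)
  have hdpos : 0 < |d| := abs_pos.2 hd0
  have hpos : ∀ s, (gramM (T '' Ω) (W s)).PosDef := fun s => by
    rw [hgram s]
    exact hG.smul hdpos
  have hinv : ∀ s, (gramM (T '' Ω) (W s))⁻¹ = |d|⁻¹ • (gramM Ω w)⁻¹ := by
    intro s
    rw [hgram s]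
    have hu : IsUnit (gramM Ω w).det := isUnit_iff_ne_zero.2 hG.det_pos.ne'
    refine Matrix.inv_eq_left_inv ?_
    rw [Matrix.smul_mul, Matrix.mul_smul, Matrix.nonsing_inv_mul _ hu, smul_smul,
      inv_mul_cancel₀ hdpos.ne', one_smul]
  have hsum : (N : ℝ) * ∑ i ∈ Finset.Icc 1 n, mu (T '' Ω) i ≤
      ∑ s ∈ Finset.range N, |d|⁻¹ * ((gramM Ω w)⁻¹ * enM (T '' Ω) (W s)).trace := by
    have h1 : (N : ℝ) * ∑ i ∈ Finset.Icc 1 n, mu (T '' Ω) i =
        ∑ s ∈ Finset.range N, ∑ i ∈ Finset.Icc 1 n, mu (T '' Ω) i := by simp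
    rw [h1]
    refine Finset.sum_le_sum fun s _ => ?_
    have h2 := sum_mu_le hO hbd (hWC s) (hpos s)
    rwa [hinv s, Matrix.smul_mul, Matrix.trace_smul, smul_eq_mul] at h2
  rw [← Finset.mul_sum, ← Matrix.trace_sum, ← Matrix.mul_sum, hen, Matrix.mul_smul,
    Matrix.trace_smul, smul_eq_mul] at hsum
  have hhs : NSY.hs (M : E →ₗ[ℝ] E) = NSY.hs (L : E →ₗ[ℝ] E) / d ^ 2 := by
    have := hs_inv L
    rw [← this]
    rfl
  rw [hhs] at hsum
  have hNpos : (0 : ℝ) < N := by exact_mod_cast hN0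
  refine le_of_mul_le_mul_left (hsum.trans (le_of_eq ?_)) hNpos
  have hd' : |d| ≠ 0 := hdpos.ne'
  field_simp

end Pool.Agent.NSY
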