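import Pool.Agent.NSY.Defs
import Pool.Agent.NSY.AngD
import Pool.Agent.NSY.PolP

/-!
# NSY-PolC: pol k g is C¹ on the plane

PLAN. AWAY FROM 0: for `x ≠ 0` near `x₀`, `cc k (arg2 x)` is, up to the factor `√2`, the real or the imaginary part of
`(z / |z|)^k`, `z = x 0 + i x 1` (`k = 0`: 1; `k > 0`: `√2 Re z^k / ‖x‖^k`; `k < 0`: `cc k = √2 sin kθ = -√2 sin |k|θ =
-√2 Im z^|k| / ‖x‖^|k|`), a smooth function of `x ≠ 0`; `g ‖x‖` is differentiable with continuous derivative. So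
`pol k g` is `C¹` on `{0}ᶜ` (`ContDiffOn` or: differentiable with continuous `fderiv`).
POLAR DERIVATIVES: for `r > 0`, differentiating `pol k g (P r θ) = g r * cc k θ` (`pol_P`; chain rule with `hasDerivAt_P_r`, `hasDerivAt_P_t` of
Pool/Agent/Neu/Disc.lean) gives `fderiv (P r θ) (P 1 θ) = g' r * cc k θ` and
`fderiv (P r θ) (!₂[-sin θ, cos θ]) = k * (g r / r) * cc (-k) θ` (`cc_hasDerivAt`).
With `norm_sq_dual` (Neu/Disc) this is `pol_fderiv`.
AT 0: let `c` be the limit of `g'`; then `(g r - g 0) / r → c` (mean value theorem / `hasDerivWithinAt_Ioi...`, L'Hôpital), and for `k ≠ 0`, `g 0 = 0`, `g r / r → c`.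
Let `L` be the linear map `c √2 x 0` if `k = 1`, `-c √2 x 1` if `k = -1` (`cc (-1) θ = √2 sin (-θ)`), `0` otherwise; by `slope`,
`c = 0` unless `|k| = 1`. In polar coordinates `L (P 1 θ) = c cc k θ`, `L (e_θ) = c k cc (-k) θ` (both 0 if `c = 0`).
`|pol k g x - pol k g 0 - L x| ≤ √2 |g r - g 0 - c r| = o(r)`, so `L` is the derivative at 0, and by `norm_sq_dual` applied to
`fderiv (P r θ) - L`: `‖fderiv (P r θ) - L‖² ≤ 2 (g' r - c)² + 2 k² (g r / r - c)² → 0` (for `k = 0` the second term is absent). So the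
derivative is continuous; `contDiff_one_iff_fderiv`.
-/

set_option autoImplicit false

open MeasureTheory Set Filter Topology
open Pool.Agent.Neu (E D mu)
open Pool.Agent.Neu.Discx (P)

namespace Pool.Agent.NSY

namespace PolCx

/-- the complex coordinate -/
noncomputable def Z (x : E) : ℂ := (x 0 : ℂ) + (x 1 : ℂ) * Complex.I

theorem contDiff_Z : ContDiff ℝ 1 Z := by
  unfold Z
  have h0 : ContDiff ℝ 1 (fun x : E => ((x 0 : ℝ) : ℂ)) :=
    Complex.ofRealCLM.contDiff.comp (EuclideanSpace.proj (𝕜 := ℝ) (0 : Fin 2)).contDiff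
  have h1 : ContDiff ℝ 1 (fun x : E => ((x 1 : ℝ) : ℂ)) :=
    Complex.ofRealCLM.contDiff.comp (EuclideanSpace.proj (𝕜 := ℝ) (1 : Fin 2)).contDiff
  exact h0.add (h1.mul contDiff_const)

theorem Z_eq (x : E) : Z x = (‖x‖ : ℂ) *
    (Complex.cos (arg2 x : ℝ) + Complex.sin (arg2 x : ℝ) * Complex.I) := by
  have h := eq_P x
  have h0 : x 0 = ‖x‖ * Real.cos (arg2 x) := by
    conv_lhs => rw [← h]
    simp [P]
  have h1 : x 1 = ‖x‖ * Real.sin (arg2 x) := by
    conv_lhs => rw [← h]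
    simp [P]
  unfold Z
  rw [h0, h1]
  push_cast
  ring

theorem Z_pow (x : E) (m : ℕ) : Z x ^ m = ((‖x‖ ^ m * Real.cos (m * arg2 x) : ℝ) : ℂ) +
    ((‖x‖ ^ m * Real.sin (m * arg2 x) : ℝ) : ℂ) * Complex.I := by
  rw [Z_eq, mul_pow, Complex.cos_add_sin_mul_I_pow]
  push_cast
  ring

theorem Z_re (x : E) (m : ℕ) : (Z x ^ m).re = ‖x‖ ^ m * Real.cos (m * arg2 x) := by
  rw [Z_pow]
  simp [-Complex.ofReal_mul, -Complex.ofReal_pow, -Complex.ofReal_cos, -Complex.ofReal_sin]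

theorem Z_im (x : E) (m : ℕ) : (Z x ^ m).im = ‖x‖ ^ m * Real.sin (m * arg2 x) := by
  rw [Z_pow]
  simp [-Complex.ofReal_mul, -Complex.ofReal_pow, -Complex.ofReal_cos, -Complex.ofReal_sin]

theorem cc_arg (k : ℤ) {x : E} (hx : x ≠ 0) : cc k (arg2 x) =
    if k = 0 then 1 else if 0 < k then √2 * ((Z x ^ k.natAbs).re / ‖x‖ ^ k.natAbs)
      else -(√2 * ((Z x ^ k.natAbs).im / ‖x‖ ^ k.natAbs)) := by
  have hn : ‖x‖ ≠ 0 := norm_ne_zero_iff.2 hx
  unfold cc
  split_ifs with h1 h2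
  · rfl
  · have hk : ((k.natAbs : ℕ) : ℝ) = (k : ℝ) := by
      have : ((k.natAbs : ℕ) : ℤ) = k := Int.natAbs_of_nonneg h2.le
      have h := congrArg (fun z : ℤ => (z : ℝ)) this
      simpa using h
    rw [Z_re, hk]
    field_simp
  · have hk : ((k.natAbs : ℕ) : ℝ) = -(k : ℝ) := by
      have : ((k.natAbs : ℕ) : ℤ) = -k := Int.ofNat_natAbs_of_nonpos (by omega)
      have h := congrArg (fun z : ℤ => (z : ℝ)) this
      simpa using h
    rw [Z_im, hk, neg_mul, Real.sin_neg]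
    field_simp

theorem cc_contDiffAt (k : ℤ) {x : E} (hx : x ≠ 0) :
    ContDiffAt ℝ 1 (fun y => cc k (arg2 y)) x := by
  have hev : (fun y => cc k (arg2 y)) =ᶠ[𝓝 x] fun y =>
      if k = 0 then 1 else if 0 < k then √2 * ((Z y ^ k.natAbs).re / ‖y‖ ^ k.natAbs)
      else -(√2 * ((Z y ^ k.natAbs).im / ‖y‖ ^ k.natAbs)) := by
    filter_upwards [isOpen_ne.mem_nhds hx] with y hy
    exact cc_arg k hy
  refine ContDiffAt.congr_of_eventuallyEq ?_ hev
  have hn : ‖x‖ ^ k.natAbs ≠ 0 := pow_ne_zero _ (norm_ne_zero_iff.2 hx)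
  have hnorm : ContDiffAt ℝ 1 (fun y : E => ‖y‖ ^ k.natAbs) x := (contDiffAt_norm ℝ hx).pow _
  have hZ : ContDiffAt ℝ 1 (fun y : E => Z y ^ k.natAbs) x := contDiff_Z.contDiffAt.pow _
  have hre : ContDiffAt ℝ 1 (fun y : E => (Z y ^ k.natAbs).re) x :=
    Complex.reCLM.contDiff.contDiffAt.comp x hZ
  have him : ContDiffAt ℝ 1 (fun y : E => (Z y ^ k.natAbs).im) x :=
    Complex.imCLM.contDiff.contDiffAt.comp x hZ
  split_ifs
  · exact contDiffAt_const
  · exact contDiffAt_const.mul (hre.div hnorm hn)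
  · exact (contDiffAt_const.mul (him.div hnorm hn)).neg

theorem g_contDiffAt {m : ℕ} {g g' : ℝ → ℝ} (h : Reg m g g') {r : ℝ} (hr : 0 < r) :
    ContDiffAt ℝ 1 g r := by
  have h1 : ContDiffOn ℝ 1 g (Ioi 0) := by
    have h2 : ContDiffOn ℝ (0 + 1) g (Ioi 0) := by
      rw [contDiffOn_succ_iff_deriv_of_isOpen isOpen_Ioi]
      refine ⟨fun y hy => (h.der y hy).differentiableAt.differentiableWithinAt, by simp, ?_⟩
      rw [contDiffOn_zero]
      refine h.cont.congr ?_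
      intro y hy
      exact (h.der y hy).deriv
    simpa using h2
  exact h1.contDiffAt (Ioi_mem_nhds hr)

theorem pol_contDiffAt {k : ℤ} {m : ℕ} {g g' : ℝ → ℝ} (h : Reg m g g') {x : E} (hx : x ≠ 0) :
    ContDiffAt ℝ 1 (pol k g) x := by
  have h1 : ContDiffAt ℝ 1 (fun y : E => g ‖y‖) x :=
    ContDiffAt.comp (g := g) (f := fun y : E => ‖y‖) x (g_contDiffAt h (norm_pos_iff.2 hx)) (contDiffAt_norm ℝ hx)
  exact h1.mul (cc_contDiffAt k hx)

theorem norm_Pn {r : ℝ} (hr : 0 < r) (θ : ℝ) : P r θ ≠ 0 := by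
  rw [← norm_pos_iff, norm_P hr.le]
  exact hr

theorem pol_fd {k : ℤ} {m : ℕ} {g g' : ℝ → ℝ} (h : Reg m g g') {r : ℝ} (hr : 0 < r) (θ : ℝ) :
    ‖fderiv ℝ (pol k g) (P r θ)‖ ^ 2 =
      g' r ^ 2 * cc k θ ^ 2 + (k : ℝ) ^ 2 * (g r / r) ^ 2 * cc (-k) θ ^ 2 := by
  have hd : HasFDerivAt (pol k g) (fderiv ℝ (pol k g) (P r θ)) (P r θ) :=
    ((pol_contDiffAt h (norm_Pn hr θ)).differentiableAt (by norm_num)).hasFDerivAt
  have h1 : fderiv ℝ (pol k g) (P r θ) (P 1 θ) = g' r * cc k θ := by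
    have ha : HasDerivAt (fun s => pol k g (P s θ)) (fderiv ℝ (pol k g) (P r θ) (P 1 θ)) r :=
      HasFDerivAt.comp_hasDerivAt (f := fun s => P s θ) r hd
        (Pool.Agent.Neu.Discx.hasDerivAt_P_r r θ)
    have hb : HasDerivAt (fun s => pol k g (P s θ)) (g' r * cc k θ) r := by
      refine ((h.der r hr).mul_const (cc k θ)).congr_of_eventuallyEq ?_
      filter_upwards [Ioi_mem_nhds hr] with s hs
      exact pol_P k g hs θ
    exact ha.unique hb
  have h2 : r * fderiv ℝ (pol k g) (P r θ) !₂[-Real.sin θ, Real.cos θ] =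
      g r * (k * cc (-k) θ) := by
    have ha := HasFDerivAt.comp_hasDerivAt (f := fun s => P r s) θ hd
      (Pool.Agent.Neu.Discx.hasDerivAt_P_t r θ)
    have hb : HasDerivAt (fun s => pol k g (P r s)) (g r * (k * cc (-k) θ)) θ := by
      refine ((cc_hasDerivAt k θ).const_mul (g r)).congr_of_eventuallyEq ?_
      filter_upwards with s
      exact pol_P k g hr s
    have hc := ha.unique hb
    rw [map_smul, smul_eq_mul] at hc
    exact hc
  rw [Pool.Agent.Neu.Discx.norm_sq_dual _ θ, h1]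
  have h3 : fderiv ℝ (pol k g) (P r θ) !₂[-Real.sin θ, Real.cos θ] =
      g r / r * (k * cc (-k) θ) := by
    field_simp
    linarith [h2]
  rw [h3]
  ring

theorem g_deriv0 {m : ℕ} {g g' : ℝ → ℝ} (h : Reg m g g') {c : ℝ}
    (hc : Tendsto g' (𝓝[>] 0) (𝓝 c)) : HasDerivWithinAt g c (Ici 0) 0 := by
  refine hasDerivWithinAt_Ici_of_tendsto_deriv (s := Ioi 0) ?_ ?_ self_mem_nhdsWithin ?_
  · exact fun y hy => (h.der y hy).differentiableAt.differentiableWithinAt
  · exact h.lim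
  · refine hc.congr' ?_
    filter_upwards [self_mem_nhdsWithin] with y hy
    exact ((h.der y hy).deriv).symm

theorem cc_abs (k : ℤ) (θ : ℝ) : |cc k θ| ≤ 2 := by
  have := cc_sq_le k θ
  rw [abs_le]
  constructor <;> nlinarith

theorem contDiff_of_zero {k : ℤ} {g g' : ℝ → ℝ} (h : Reg k.natAbs g g')
    (hc : Tendsto g' (𝓝[>] 0) (𝓝 0)) : ContDiff ℝ 1 (pol k g) := by
  have hd0 := g_deriv0 h hc
  have hz : ∀ x : E, pol k g 0 = g 0 * cc k (arg2 x) := by
    intro x
    unfold pol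
    rw [norm_zero]
    rcases eq_or_ne k 0 with rfl | hk
    · rw [cc_zero, cc_zero]
    · rw [h.zero (by simpa using hk)]
      simp
  have hF : HasFDerivAt (pol k g) (0 : E →L[ℝ] ℝ) 0 := by
    rw [hasFDerivAt_iff_isLittleO_nhds_zero]
    rw [hasDerivWithinAt_iff_isLittleO] at hd0
    have hb := hd0
    rw [Asymptotics.isLittleO_iff] at hb ⊢
    intro ε hε
    have h3 := hb (half_pos hε)
    rw [eventually_nhdsWithin_iff] at h3
    have h4 : Tendsto (fun x : E => ‖x‖) (𝓝 0) (𝓝 0) := by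
      simpa using (continuous_norm (E := E)).tendsto 0
    filter_upwards [h4.eventually h3] with x hx
    have h5 := hx (norm_nonneg x)
    simp only [sub_zero, smul_eq_mul, mul_zero, Real.norm_eq_abs, abs_norm] at h5
    rw [zero_add, hz x]
    simp only [_root_.zero_apply, sub_zero]
    unfold pol
    rw [← sub_mul, norm_mul, Real.norm_eq_abs, Real.norm_eq_abs]
    have h6 := cc_abs k (arg2 x)
    have h7 := abs_nonneg (g ‖x‖ - g 0)
    nlinarith
  have hfd0 : fderiv ℝ (pol k g) 0 = 0 := hF.fderiv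
  rw [contDiff_one_iff_fderiv]
  constructor
  · intro x
    rcases eq_or_ne x 0 with rfl | hx
    · exact hF.differentiableAt
    · exact (pol_contDiffAt h hx).differentiableAt (by norm_num)
  · rw [continuous_iff_continuousAt]
    intro x
    rcases eq_or_ne x 0 with rfl | hx
    · -- continuity at 0
      have hB : Tendsto (fun r => 2 * g' r ^ 2 + 2 * ((k : ℝ) * (g r / r)) ^ 2) (𝓝[>] 0) (𝓝 0) := by
        have h1 : Tendsto (fun r => (k : ℝ) * (g r / r)) (𝓝[>] 0) (𝓝 0) := by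
          rcases eq_or_ne k 0 with rfl | hk
          · simp
          · have hg0 : g 0 = 0 := h.zero (by simpa using hk)
            have h2 := hasDerivWithinAt_iff_tendsto_slope.1 hd0
            have h3 : Tendsto (fun r => g r / r) (𝓝[>] 0) (𝓝 0) := by
              refine (h2.mono_left ?_).congr' ?_
              · refine nhdsWithin_mono _ ?_
                intro y hy
                exact ⟨mem_Ici.2 (le_of_lt (mem_Ioi.1 hy)), ne_of_gt (mem_Ioi.1 hy)⟩
              · filter_upwards with y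
                simp [slope_def_field, hg0]
            simpa using h3.const_mul (k : ℝ)
        have h4 := ((hc.pow 2).const_mul 2).add ((h1.pow 2).const_mul 2)
        simpa using h4
      rw [Metric.continuousAt_iff]
      intro ε hε
      have hev := hB.eventually (gt_mem_nhds (show (0 : ℝ) < ε ^ 2 by positivity))
      obtain ⟨δ, hδ, hsub⟩ := mem_nhdsGT_iff_exists_Ioo_subset.1 hev
      refine ⟨δ, hδ, ?_⟩
      intro y hy
      rw [hfd0, dist_zero_right]
      rw [dist_zero_right] at hy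
      rcases eq_or_ne y 0 with rfl | hy0
      · rw [hfd0, norm_zero]
        exact hε
      · have hr : 0 < ‖y‖ := norm_pos_iff.2 hy0
        have h5 := pol_fd (k := k) h hr (arg2 y)
        rw [eq_P] at h5
        have h6 : 2 * g' ‖y‖ ^ 2 + 2 * ((k : ℝ) * (g ‖y‖ / ‖y‖)) ^ 2 < ε ^ 2 := hsub ⟨hr, hy⟩
        have h7 := cc_sq_le k (arg2 y)
        have h8 := cc_sq_le (-k) (arg2 y)
        have h9 : ‖fderiv ℝ (pol k g) y‖ ^ 2 < ε ^ 2 := by
          rw [h5]
          have e1 : g' ‖y‖ ^ 2 * cc k (arg2 y) ^ 2 ≤ g' ‖y‖ ^ 2 * 2 :=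
            mul_le_mul_of_nonneg_left h7 (sq_nonneg _)
          have e2 : (k : ℝ) ^ 2 * (g ‖y‖ / ‖y‖) ^ 2 * cc (-k) (arg2 y) ^ 2 ≤
              (k : ℝ) ^ 2 * (g ‖y‖ / ‖y‖) ^ 2 * 2 :=
            mul_le_mul_of_nonneg_left h8 (by positivity)
          nlinarith
        exact lt_of_pow_lt_pow_left₀ 2 hε.le h9
    · exact ((pol_contDiffAt h hx).fderiv_right (m := 0) (by norm_num)).continuousAt

theorem exists_L (k : ℤ) (c : ℝ) (hc : c ≠ 0 → k.natAbs = 1) :
    ∃ L : E →L[ℝ] ℝ, ∀ x, L x = c * ‖x‖ * cc k (arg2 x) := by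
  rcases eq_or_ne c 0 with rfl | hc0
  · exact ⟨0, fun x => by simp⟩
  · have hx0 : ∀ x : E, x 0 = ‖x‖ * Real.cos (arg2 x) := by
      intro x
      conv_lhs => rw [← eq_P x]
      simp [P]
    have hx1 : ∀ x : E, x 1 = ‖x‖ * Real.sin (arg2 x) := by
      intro x
      conv_lhs => rw [← eq_P x]
      simp [P]
    rcases Int.natAbs_eq_iff.1 (hc hc0) with h | h
    · refine ⟨(c * √2) • (EuclideanSpace.proj (𝕜 := ℝ) (0 : Fin 2) : E →L[ℝ] ℝ), fun x => ?_⟩
      change (c * √2) * x 0 = _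
      rw [hx0, h]
      simp [cc]
      ring
    · refine ⟨(-(c * √2)) • (EuclideanSpace.proj (𝕜 := ℝ) (1 : Fin 2) : E →L[ℝ] ℝ), fun x => ?_⟩
      change (-(c * √2)) * x 1 = _
      rw [hx1, h]
      simp [cc]
      ring

end PolCx

theorem pol_contDiff {k : ℤ} {g g' : ℝ → ℝ} (h : Reg k.natAbs g g') :
    ContDiff ℝ 1 (pol k g) := by
  obtain ⟨c, hc, hc1⟩ := h.slope
  obtain ⟨L, hL⟩ := PolCx.exists_L k c hc1
  have h1 : Reg k.natAbs (fun r => g r - c * r) (fun r => g' r - c) := by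
    refine ⟨?_, ?_, ?_, ?_, ?_⟩
    · intro r hr
      have h5 : HasDerivAt (fun s : ℝ => c * s) c r := by
        simpa using (hasDerivAt_id r).const_mul c
      exact (h.der r hr).sub h5
    · exact h.cont.sub continuousOn_const
    · have h2 : Tendsto (fun r : ℝ => c * r) (𝓝[>] 0) (𝓝 (c * 0)) :=
        ((continuous_const.mul continuous_id).tendsto 0).mono_left nhdsWithin_le_nhds
      exact h.lim.sub h2
    · intro hm
      simp [h.zero hm]
    · refine ⟨0, by simpa using hc.sub_const c, fun h0 => absurd rfl h0⟩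
  have h2 : ContDiff ℝ 1 (pol k (fun r => g r - c * r)) :=
    PolCx.contDiff_of_zero h1 (by simpa using hc.sub_const c)
  have h3 : pol k g = fun x => pol k (fun r => g r - c * r) x + L x := by
    funext x
    rw [hL]
    unfold pol
    ring
  rw [h3]
  exact h2.add L.contDiff

theorem pol_fderiv {k : ℤ} {g g' : ℝ → ℝ} (h : Reg k.natAbs g g') {r : ℝ} (hr : 0 < r) (θ : ℝ) :
    ‖fderiv ℝ (pol k g) (P r θ)‖ ^ 2 =
      g' r ^ 2 * cc k θ ^ 2 + (k : ℝ) ^ 2 * (g r / r) ^ 2 * cc (-k) θ ^ 2 :=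
  PolCx.pol_fd h hr θ

end Pool.Agent.NSY
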