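import Pool.Agent.NSY.Defs

/-!
# NSY-RegB: bounds for radial profiles

`reg_bd`: a regular profile and its derivative are bounded on `(0, R]`, and `|g t| ≤ C t` if
`m ≠ 0`.  `REig.bd`, `REig.cont`: global bounds and continuity on `[0, ∞)` of a radial
eigenfunction (constant for `t ≥ 1`).
-/

set_option autoImplicit false

open MeasureTheory Set Filter Topology
open Pool.Agent.Neu (E D mu)
open Pool.Agent.Neu.Discx (P)

namespace Pool.Agent.NSY

private lemma bd_aux {f : ℝ → ℝ} {c : ℝ} (hc : ContinuousOn f (Ioi 0))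
    (hl : Tendsto f (𝓝[>] 0) (𝓝 c)) (R : ℝ) :
    ∃ C : ℝ, 0 ≤ C ∧ ∀ t, 0 < t → t ≤ R → |f t| ≤ C := by
  have h1 : ∀ᶠ t in 𝓝[>] (0 : ℝ), |f t| < |c| + 1 := by
    have h2 : Tendsto (fun t => |f t|) (𝓝[>] 0) (𝓝 |c|) := hl.abs
    exact h2.eventually (gt_mem_nhds (by linarith))
  obtain ⟨e, he0, he⟩ := (mem_nhdsGT_iff_exists_Ioo_subset).mp h1
  have he0' : (0 : ℝ) < e := he0
  have hcomp : IsCompact (Icc e R) := isCompact_Icc
  have hcon : ContinuousOn f (Icc e R) := hc.mono (fun x hx => lt_of_lt_of_le he0' hx.1)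
  obtain ⟨C, hC⟩ := hcomp.exists_bound_of_continuousOn hcon
  refine ⟨max (|c| + 1) C, le_max_of_le_left (by positivity), fun t ht htR => ?_⟩
  rcases lt_or_ge t e with h | h
  · exact le_max_of_le_left (he ⟨ht, h⟩).le
  · exact le_max_of_le_right (by simpa [Real.norm_eq_abs] using hC t ⟨h, htR⟩)

private lemma reg_contOn {m : ℕ} {g g' : ℝ → ℝ} (h : Reg m g g') : ContinuousOn g (Ici 0) := by
  intro t ht
  rcases eq_or_lt_of_le (show (0 : ℝ) ≤ t from ht) with h0 | h0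
  · subst h0
    exact continuousWithinAt_Ioi_iff_Ici.mp h.lim
  · exact (h.der t h0).continuousAt.continuousWithinAt

theorem reg_bd {m : ℕ} {g g' : ℝ → ℝ} (h : Reg m g g') (R : ℝ) :
    ∃ C : ℝ, 0 ≤ C ∧ ∀ t, 0 < t → t ≤ R → |g t| ≤ C ∧ |g' t| ≤ C ∧ (m ≠ 0 → |g t| ≤ C * t) := by
  obtain ⟨c, hc, -⟩ := h.slope
  obtain ⟨C1, hC1, hb1⟩ := bd_aux h.cont hc R
  have hgc : ContinuousOn g (Ioi 0) := (reg_contOn h).mono Ioi_subset_Ici_self
  obtain ⟨C2, hC2, hb2⟩ := bd_aux hgc h.lim R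
  refine ⟨max C1 C2, le_max_of_le_left hC1, fun t ht htR =>
    ⟨(hb2 t ht htR).trans (le_max_right _ _), (hb1 t ht htR).trans (le_max_left _ _), ?_⟩⟩
  intro hm
  obtain ⟨s, hs, hs'⟩ := exists_hasDerivAt_eq_slope g g' ht
    ((reg_contOn h).mono (fun x hx => hx.1)) (fun x hx => h.der x hx.1)
  rw [h.zero hm, sub_zero, sub_zero, eq_div_iff ht.ne'] at hs'
  rw [← hs', abs_mul, abs_of_pos ht]
  exact mul_le_mul_of_nonneg_right
    ((hb1 s hs.1 (hs.2.le.trans htR)).trans (le_max_left _ _)) ht.le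

theorem REig.bd {m : ℕ} {K : ℝ} {u u' : ℝ → ℝ} (h : REig m K u u') :
    ∃ C : ℝ, 0 ≤ C ∧ ∀ t, 0 < t → |u t| ≤ C ∧ |u' t| ≤ C ∧ (m ≠ 0 → |u t| ≤ C * t) := by
  obtain ⟨C, hC, hb⟩ := reg_bd h.reg 1
  refine ⟨C, hC, fun t ht => ?_⟩
  rcases le_or_gt t 1 with h1 | h1
  · exact hb t ht h1
  · have hconst : u t = u 1 := by
      obtain ⟨s, hs, hs'⟩ := exists_hasDerivAt_eq_slope u u' h1
        ((reg_contOn h.reg).mono (fun x hx => le_trans zero_le_one hx.1))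
        (fun x hx => h.reg.der x (lt_trans zero_lt_one hx.1))
      rw [h.out s hs.1.le, eq_div_iff (by linarith)] at hs'
      linarith
    have hu1 := hb 1 one_pos le_rfl
    refine ⟨by rw [hconst]; exact hu1.1, by rw [h.out t h1.le, abs_zero]; exact hC, fun _ => ?_⟩
    rw [hconst]
    exact hu1.1.trans (le_mul_of_one_le_right hC h1.le)

theorem REig.cont {m : ℕ} {K : ℝ} {u u' : ℝ → ℝ} (h : REig m K u u') :
    ContinuousOn u (Ici 0) := reg_contOn h.reg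

end Pool.Agent.NSY
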