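import Pool.Agent.NSY.Defs
import Pool.Agent.NSY.RegB
import Pool.Agent.NSY.PolP
import Pool.Agent.NSY.PolC
import Pool.Agent.NSY.AngN
import Pool.Agent.NSY.PolI
import Pool.Agent.NSY.FkD

/-!
# NSY-CfL: coefficient functionals

PLAN. `cf k u v = ∫_0^1 (∫_θ v(P r θ) cc k θ) u r r dr`; the inner integral is continuous in `r` (`Discx.cont_int`), `u` is continuous and bounded on
`[0, 1]` (`REig.cont`), so everything is interval integrable; linearity. `cf_eq`: `integral_disc_polar` for the continuous function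
`v * pol k u` (`pol_contDiff`), `pol_P` for `r > 0`. `pol_norm`: `integral_disc_polar`, `cc_orth k k`, `REig.norm`: `2π · 1/2 = π`.
`cf_fk`: definitions.
-/

set_option autoImplicit false

open MeasureTheory Set Filter Topology
open Pool.Agent.Neu (E D mu)
open Pool.Agent.Neu.Discx (P)

namespace Pool.Agent.NSY

private theorem cfl_cont {v : E → ℝ} (hv : Continuous v) (k : ℤ) :
    Continuous (fun p : ℝ × ℝ => v (P p.1 p.2) * cc k p.2) :=
  (hv.comp Pool.Agent.Neu.Discx.continuous_P).mul ((cc_cont k).comp continuous_snd)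

private theorem cfl_inner {v : E → ℝ} (hv : Continuous v) (k : ℤ) :
    Continuous (fun r => ∫ θ in (-Real.pi)..Real.pi, v (P r θ) * cc k θ) :=
  Pool.Agent.Neu.Discx.cont_int (F := fun r θ => v (P r θ) * cc k θ) (cfl_cont hv k) _ _

private theorem cfl_slice {v : E → ℝ} (hv : Continuous v) (k : ℤ) (r : ℝ) :
    Continuous (fun θ => v (P r θ) * cc k θ) :=
  (cfl_cont hv k).comp (by fun_prop : Continuous (fun t : ℝ => (r, t)))

private theorem cfl_int {m : ℕ} {K : ℝ} {u u' : ℝ → ℝ} (h : REig m K u u') {v : E → ℝ}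
    (hv : Continuous v) (k : ℤ) :
    IntervalIntegrable (fun r => (∫ θ in (-Real.pi)..Real.pi, v (P r θ) * cc k θ) * (u r * r))
      volume 0 1 := by
  refine ContinuousOn.intervalIntegrable ?_
  have h1 : ContinuousOn u (uIcc (0 : ℝ) 1) := by
    refine h.cont.mono ?_
    rw [uIcc_of_le zero_le_one]
    exact Icc_subset_Ici_self
  exact (cfl_inner hv k).continuousOn.mul (h1.mul continuousOn_id)

theorem cf_lin {m : ℕ} {K : ℝ} {u u' : ℝ → ℝ} (h : REig m K u u') (k : ℤ) (v w : E → ℝ)
    (hv : Continuous v) (hw : Continuous w) (a b : ℝ) :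
    cf k u (fun x => a * v x + b * w x) = a * cf k u v + b * cf k u w := by
  unfold cf
  rw [← intervalIntegral.integral_const_mul, ← intervalIntegral.integral_const_mul,
    ← intervalIntegral.integral_add ((cfl_int h hv k).const_mul a) ((cfl_int h hw k).const_mul b)]
  refine intervalIntegral.integral_congr fun r _ => ?_
  have h1 : ∫ θ in (-Real.pi)..Real.pi, (a * v (P r θ) + b * w (P r θ)) * cc k θ =
      a * (∫ θ in (-Real.pi)..Real.pi, v (P r θ) * cc k θ) +
        b * ∫ θ in (-Real.pi)..Real.pi, w (P r θ) * cc k θ := by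
    rw [← intervalIntegral.integral_const_mul, ← intervalIntegral.integral_const_mul,
      ← intervalIntegral.integral_add
        (((cfl_slice hv k r).intervalIntegrable _ _).const_mul a)
        (((cfl_slice hw k r).intervalIntegrable _ _).const_mul b)]
    refine intervalIntegral.integral_congr fun θ _ => ?_
    show (a * v (P r θ) + b * w (P r θ)) * cc k θ =
      a * (v (P r θ) * cc k θ) + b * (w (P r θ) * cc k θ)
    ring
  show (∫ θ in (-Real.pi)..Real.pi, (a * v (P r θ) + b * w (P r θ)) * cc k θ) * (u r * r) =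
    a * ((∫ θ in (-Real.pi)..Real.pi, v (P r θ) * cc k θ) * (u r * r)) +
      b * ((∫ θ in (-Real.pi)..Real.pi, w (P r θ) * cc k θ) * (u r * r))
  rw [h1]
  ring

theorem cf_eq {k : ℤ} {K : ℝ} {u u' : ℝ → ℝ} (h : REig k.natAbs K u u') {v : E → ℝ}
    (hv : Continuous v) : cf k u v = ∫ x in D, v x * pol k u x := by
  rw [Pool.Agent.Neu.integral_disc_polar (f := fun x => v x * pol k u x)
    (hv.mul (pol_contDiff h.reg).continuous)]
  unfold cf
  refine intervalIntegral.integral_congr fun r hr => ?_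
  rw [uIcc_of_le zero_le_one] at hr
  show (∫ θ in (-Real.pi)..Real.pi, v (P r θ) * cc k θ) * (u r * r) =
    ∫ θ in (-Real.pi)..Real.pi, v (P r θ) * pol k u (P r θ) * r
  rcases hr.1.eq_or_lt with h0 | h0
  · rw [← h0, mul_zero, mul_zero]
    simp
  · rw [← intervalIntegral.integral_mul_const]
    refine intervalIntegral.integral_congr fun θ _ => ?_
    show v (P r θ) * cc k θ * (u r * r) = v (P r θ) * pol k u (P r θ) * r
    rw [pol_P k u h0 θ]
    ring

theorem pol_norm {k : ℤ} {K : ℝ} {u u' : ℝ → ℝ} (h : REig k.natAbs K u u') :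
    ∫ x in D, pol k u x ^ 2 = Real.pi := by
  rw [Pool.Agent.Neu.integral_disc_polar (f := fun x => pol k u x ^ 2)
    ((pol_contDiff h.reg).continuous.pow 2)]
  have h1 : ∫ r in (0 : ℝ)..1, ∫ t in (-Real.pi)..Real.pi,
      (fun x => pol k u x ^ 2) !₂[r * Real.cos t, r * Real.sin t] * r =
      ∫ r in (0 : ℝ)..1, 2 * Real.pi * (u r ^ 2 * r) := by
    refine intervalIntegral.integral_congr fun r hr => ?_
    rw [uIcc_of_le zero_le_one] at hr
    show ∫ θ in (-Real.pi)..Real.pi, pol k u (P r θ) ^ 2 * r = 2 * Real.pi * (u r ^ 2 * r)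
    rcases hr.1.eq_or_lt with h0 | h0
    · rw [← h0, mul_zero, mul_zero]
      simp
    · have h2 : ∫ θ in (-Real.pi)..Real.pi, cc k θ * cc k θ = 2 * Real.pi := by
        rw [cc_orth k k, if_pos rfl]
      rw [← h2, ← intervalIntegral.integral_mul_const]
      refine intervalIntegral.integral_congr fun θ _ => ?_
      show pol k u (P r θ) ^ 2 * r = cc k θ * cc k θ * (u r ^ 2 * r)
      rw [pol_P k u h0 θ]
      ring
  rw [h1, intervalIntegral.integral_const_mul, h.norm]
  ring

theorem cf_fk (k : ℤ) (u : ℝ → ℝ) (v : E → ℝ) :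
    cf k u v = 2 * Real.pi * ip (fk v k) u := by
  unfold cf ip fk
  rw [← intervalIntegral.integral_const_mul]
  refine intervalIntegral.integral_congr fun r _ => ?_
  show (∫ θ in (-Real.pi)..Real.pi, v (P r θ) * cc k θ) * (u r * r) =
    2 * Real.pi * ((2 * Real.pi)⁻¹ * (∫ θ in (-Real.pi)..Real.pi, v (P r θ) * cc k θ) * u r * r)
  have hpi := Real.pi_ne_zero
  field_simp

end Pool.Agent.NSY
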