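import Pool.Agent.NSY.Defs
import Pool.Agent.NSY.Rot

/-!
# NSY-Cvx: a convex symmetric set contains a large centred disc

PLAN. `0 ∈ Ω`: `0 = (1/N) ∑_s rot_s x` for `x ∈ Ω` (sum of the `N`-th roots of unity, convexity). Let `ρ = infDist 0 Ωᶜ` (`Ωᶜ` is closed and
nonempty, `0 ∉ Ωᶜ`): `ρ > 0`, `ball 0 ρ ⊆ Ω`, and there is `p ∉ Ω` with `‖p‖ = ρ`. Separation (`geometric_hahn_banach_open_point`): a functional
`f`, `f x < f p` for `x ∈ Ω`; with Riesz vector `a ≠ 0`: `ball 0 ρ ⊆ Ω` gives `ρ ‖a‖ ≤ ⟪a, p⟫ ≤ ‖a‖ ρ`, so `a` is a positive multiple of `p`: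
`⟪p, x⟫ ≤ ρ²` for `x ∈ Ω`, hence (symmetry) `⟪rot_s p, x⟫ ≤ ρ²` for all `s`. WLOG write `p = ρ (cos β, sin β)`. Every `x = P r θ ∈ Ω`: choose `s` with
`θ - β - 2πs/N ∈ [-π/N, π/N]` modulo `2π`; then `y = rot_{-β - 2πs/N} x` lies in the triangle
`T₀ = {y | 0 ≤ y 0 ≤ ρ, |y 1| ≤ y 0 tan(π/N)}` of area `ρ² tan(π/N)`. So `vol Ω ≤ N ρ² tan(π/N)`
(rotations preserve the volume, finite union bound). `tan` is convex on `[0, π/4]`, `tan 0 = 0`, `tan (π/4) = 1`, so `tan (π/N) ≤ 4/N` for `N ≥ 4`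
(or: `tan x ≤ 4x/π` by the mean value theorem / convexity of `sin x / cos x`), hence `vol Ω ≤ 4 ρ² ≤ √2 π ρ²` (`4 < 1.414 · 3.14`).
-/

set_option autoImplicit false

open MeasureTheory Set Filter Topology
open Pool.Agent.Neu (E D mu)
open Pool.Agent.Neu.Discx (P)

namespace Pool.Agent.NSY

private theorem cvx_mp :
    MeasurePreserving (fun x : E => (x 0, x 1)) (volume : Measure E) (volume : Measure (ℝ × ℝ)) :=
  (volume_preserving_finTwoArrow ℝ).comp (PiLp.volume_preserving_ofLp (Fin 2))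

/-- the triangle -/
private def tri (ρ t : ℝ) : Set E := {y | 0 ≤ y 0 ∧ y 0 ≤ ρ ∧ |y 1| ≤ y 0 * t}

private theorem tri_vol {ρ t : ℝ} (hρ : 0 ≤ ρ) (ht : 0 ≤ t) :
    volume (tri ρ t) ≤ ENNReal.ofReal (ρ ^ 2 * t) ∧ MeasurableSet (tri ρ t) := by
  set S : Set (ℝ × ℝ) := {q | 0 ≤ q.1 ∧ q.1 ≤ ρ ∧ |q.2| ≤ q.1 * t} with hS
  have hSc : IsClosed S := by
    refine (isClosed_le continuous_const continuous_fst).inter
      ((isClosed_le continuous_fst continuous_const).inter
        (isClosed_le continuous_snd.abs (continuous_fst.mul continuous_const)))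
  have hpre : tri ρ t = (fun x : E => (x 0, x 1)) ⁻¹' S := rfl
  refine ⟨?_, ?_⟩
  · rw [hpre, cvx_mp.measure_preimage hSc.measurableSet.nullMeasurableSet]
    rw [Measure.volume_eq_prod, Measure.prod_apply hSc.measurableSet]
    have h1 : ∀ a : ℝ, volume (Prod.mk a ⁻¹' S) ≤
        (Icc (0 : ℝ) ρ).indicator (fun a => ENNReal.ofReal (2 * a * t)) a := by
      intro a
      by_cases ha : a ∈ Icc (0 : ℝ) ρ
      · rw [indicator_of_mem ha]
        have h2 : Prod.mk a ⁻¹' S ⊆ Icc (-(a * t)) (a * t) := by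
          rintro b ⟨_, _, h3⟩
          exact abs_le.1 h3
        refine (measure_mono h2).trans ?_
        rw [Real.volume_Icc]
        refine ENNReal.ofReal_le_ofReal (le_of_eq ?_)
        ring
      · rw [indicator_of_notMem ha]
        have h2 : Prod.mk a ⁻¹' S = ∅ := by
          ext b
          simp only [mem_preimage, mem_empty_iff_false, iff_false]
          rintro ⟨h3, h4, _⟩
          exact ha ⟨h3, h4⟩
        rw [h2, measure_empty]
    refine (lintegral_mono h1).trans ?_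
    rw [lintegral_indicator measurableSet_Icc]
    have h2 : ∫⁻ a in Icc (0 : ℝ) ρ, ENNReal.ofReal (2 * a * t) =
        ENNReal.ofReal (∫ a in Icc (0 : ℝ) ρ, 2 * a * t) := by
      rw [ofReal_integral_eq_lintegral_ofReal]
      · exact (by fun_prop : Continuous fun a : ℝ => 2 * a * t).integrableOn_Icc
      · refine (ae_restrict_iff' measurableSet_Icc).2 (ae_of_all _ fun a ha => ?_)
        have := ha.1
        show 0 ≤ 2 * a * t
        positivity
    rw [h2]
    refine ENNReal.ofReal_le_ofReal (le_of_eq ?_)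
    rw [integral_Icc_eq_integral_Ioc, ← intervalIntegral.integral_of_le hρ]
    rw [intervalIntegral.integral_mul_const, intervalIntegral.integral_const_mul, integral_id]
    ring
  · rw [hpre]
    exact cvx_mp.measurable hSc.measurableSet

private theorem P_int (r θ : ℝ) (k : ℤ) : P r (θ + k * (2 * Real.pi)) = P r θ := by
  unfold P
  rw [Real.cos_add_int_mul_two_pi, Real.sin_add_int_mul_two_pi]

private theorem cvx_inner (p x : E) : inner ℝ p x = p 0 * x 0 + p 1 * x 1 := by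
  simp [PiLp.inner_apply, Fin.sum_univ_two]
  ring

private theorem cvx_zero {N : ℕ} (hN : 4 ≤ N) {Ω : Set E} (hne : Ω.Nonempty)
    (hc : Convex ℝ Ω) (hs : Sym N Ω) : (0 : E) ∈ Ω := by
  obtain ⟨x, hx⟩ := hne
  have hN0 : (0 : ℝ) < N := by exact_mod_cast (by omega : 0 < N)
  set h : ℝ := 2 * Real.pi / N with hh
  have hmem : ∀ s : ℕ, rot (s * h) x ∈ Ω := fun s => (hs.iff_mul (by omega) s x).2 hx
  set S : E := ∑ s ∈ Finset.range N, rot (s * h) x with hS
  have hrot : rot h S = S := by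
    rw [← rotL_apply, hS, map_sum]
    have h1 : ∀ s ∈ Finset.range N, rotL h (rot (s * h) x) = rot (((s + 1 : ℕ) : ℝ) * h) x := by
      intro s _
      rw [rotL_apply, rot_rot]
      congr 1
      push_cast
      ring
    rw [Finset.sum_congr rfl h1]
    have h2 := Finset.sum_range_succ' (fun s : ℕ => rot ((s : ℝ) * h) x) N
    have h3 := Finset.sum_range_succ (fun s : ℕ => rot ((s : ℝ) * h) x) N
    rw [h3] at h2
    have h4 : rot ((N : ℝ) * h) x = x := by
      rw [hh, mul_div_cancel₀ _ hN0.ne']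
      exact rot_two_pi x
    have h5 : rot (((0 : ℕ) : ℝ) * h) x = x := by
      rw [Nat.cast_zero, zero_mul, rot_zero]
    rw [h4, h5] at h2
    exact (add_right_cancel h2).symm
  have hcos : Real.cos h < 1 := by
    have h1 : 0 < h := by positivity
    have h2 : h ≤ Real.pi := by
      rw [hh, div_le_iff₀ hN0]
      have : (4 : ℝ) ≤ N := by exact_mod_cast hN
      nlinarith [Real.pi_pos]
    have h3 := Real.cos_lt_cos_of_nonneg_of_le_pi le_rfl h2 h1
    rwa [Real.cos_zero] at h3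
  have h0 := congrFun (congrArg (fun y : E => (y : Fin 2 → ℝ)) hrot) 0
  have h1 := congrFun (congrArg (fun y : E => (y : Fin 2 → ℝ)) hrot) 1
  have h0' : Real.cos h * S 0 - Real.sin h * S 1 = S 0 := h0
  have h1' : Real.sin h * S 0 + Real.cos h * S 1 = S 1 := h1
  have hsc := Real.sin_sq_add_cos_sq h
  have hS0 : S 0 = 0 := by
    have h2 : (1 - Real.cos h) * S 0 = 0 := by
      linear_combination (1 / 2) * (Real.cos h - 1) * h0' + (1 / 2) * Real.sin h * h1' -
        (1 / 2) * S 0 * hsc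
    exact (mul_eq_zero.1 h2).resolve_left (by linarith)
  have hS1 : S 1 = 0 := by
    have h2 : (1 - Real.cos h) * S 1 = 0 := by
      linear_combination (-1 / 2) * Real.sin h * h0' + (1 / 2) * (Real.cos h - 1) * h1' -
        (1 / 2) * S 1 * hsc
    exact (mul_eq_zero.1 h2).resolve_left (by linarith)
  have hSz : S = 0 := by
    ext i
    fin_cases i
    · exact hS0
    · exact hS1
  have h2 : ∑ s ∈ Finset.range N, ((N : ℝ)⁻¹) • rot ((s : ℝ) * h) x ∈ Ω := by
    refine hc.sum_mem (fun _ _ => by positivity) ?_ (fun s _ => hmem s)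
    rw [Finset.sum_const, Finset.card_range, nsmul_eq_mul, mul_inv_cancel₀ hN0.ne']
  rw [← Finset.smul_sum] at h2
  have h3 : ∑ s ∈ Finset.range N, rot ((s : ℝ) * h) x = 0 := hSz
  rwa [h3, smul_zero] at h2

private theorem cvx_rad {Ω : Set E} (hΩ : IsOpen Ω) (hb : Bornology.IsBounded Ω)
    (hc : Convex ℝ Ω) (h0 : (0 : E) ∈ Ω) : ∃ p : E, 0 < ‖p‖ ∧ Metric.ball 0 ‖p‖ ⊆ Ω ∧
      ∀ x ∈ Ω, inner ℝ p x ≤ ‖p‖ ^ 2 := by
  have hne : (Ωᶜ).Nonempty := by
    rw [Set.nonempty_compl]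
    rintro rfl
    exact NormedSpace.unbounded_univ ℝ E hb
  obtain ⟨p, hp, hd⟩ := hΩ.isClosed_compl.exists_infDist_eq_dist hne (0 : E)
  rw [dist_zero_left] at hd
  have hball : Metric.ball 0 ‖p‖ ⊆ Ω := by
    intro x hx
    by_contra hxo
    have h1 : Metric.infDist 0 Ωᶜ ≤ dist 0 x := Metric.infDist_le_dist_of_mem hxo
    rw [hd, dist_zero_left] at h1
    rw [mem_ball_zero_iff] at hx
    linarith
  have hp0 : 0 < ‖p‖ := by
    rw [norm_pos_iff]
    rintro rfl
    exact hp h0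
  refine ⟨p, hp0, hball, fun x hx => ?_⟩
  by_contra hcon
  have hcon' : 0 < inner ℝ p x - ‖p‖ ^ 2 := by linarith
  set c : ℝ := inner ℝ p x - ‖p‖ ^ 2 with hcdef
  set D' : ℝ := ‖p - x‖ ^ 2 with hD
  have hD0 : 0 ≤ D' := by positivity
  set ε : ℝ := c / (D' + 1) with hε
  have hε0 : 0 < ε := by positivity
  have hεD : ε * (D' + 1) = c := div_mul_cancel₀ _ (by positivity)
  have hy : p + ε • (p - x) ∈ Metric.ball (0 : E) ‖p‖ := by
    rw [mem_ball_zero_iff]
    have h1 : ‖p + ε • (p - x)‖ ^ 2 = ‖p‖ ^ 2 + 2 * (ε * -c) + ε ^ 2 * D' := by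
      rw [norm_add_sq_real, inner_smul_right, inner_sub_right, real_inner_self_eq_norm_sq,
        norm_smul, mul_pow, Real.norm_eq_abs, sq_abs]
      ring
    have h2 : ‖p + ε • (p - x)‖ ^ 2 < ‖p‖ ^ 2 := by
      rw [h1]
      nlinarith
    exact lt_of_pow_lt_pow_left₀ 2 hp0.le h2
  have hy' := hball hy
  apply hp
  have h3 : p = (1 + ε)⁻¹ • (p + ε • (p - x)) + (ε * (1 + ε)⁻¹) • x := by
    have h4 : (1 + ε) ≠ 0 := by positivity
    have h5 : (1 + ε) • p = (p + ε • (p - x)) + ε • x := by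
      rw [smul_sub, add_smul, one_smul]
      abel
    calc p = (1 + ε)⁻¹ • ((1 + ε) • p) := by rw [smul_smul, inv_mul_cancel₀ h4, one_smul]
      _ = _ := by rw [h5, smul_add, smul_smul, mul_comm ε]
  rw [h3]
  refine hc hy' hx (by positivity) (by positivity) ?_
  field_simp

theorem convex_disc {N : ℕ} (hN : 4 ≤ N) {Ω : Set E} (hΩ : IsOpen Ω)
    (hb : Bornology.IsBounded Ω) (hne : Ω.Nonempty) (hc : Convex ℝ Ω) (hs : Sym N Ω) :
    ∃ ρ : ℝ, 0 < ρ ∧ Metric.ball 0 ρ ⊆ Ω ∧ (volume Ω).toReal ≤ √2 * Real.pi * ρ ^ 2 := by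
  obtain ⟨p, hp0, hball, hp⟩ := cvx_rad hΩ hb hc (cvx_zero hN hne hc hs)
  refine ⟨‖p‖, hp0, hball, ?_⟩
  have hN0 : (0 : ℝ) < N := by exact_mod_cast (by omega : 0 < N)
  have hNz : (N : ℤ) ≠ 0 := by omega
  have hpi := Real.pi_pos
  set ρ := ‖p‖ with hρ
  set h : ℝ := 2 * Real.pi / N with hh
  have hNh : (N : ℝ) * h = 2 * Real.pi := by
    rw [hh, mul_div_cancel₀ _ hN0.ne']
  have hh0 : 0 < h := by positivity
  set β : ℝ := arg2 p with hβ
  set t : ℝ := √2 * Real.pi / N with ht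
  have ht0 : 0 ≤ t := by positivity
  obtain ⟨hv, hm⟩ := tri_vol hp0.le ht0
  have hcov : Ω ⊆ ⋃ s ∈ Finset.range N, rot (s * h - β) ⁻¹' tri ρ t := by
    intro x hx
    set r := ‖x‖ with hr
    set θ := arg2 x with hθ
    have hxP : x = P r θ := (eq_P x).symm
    set k : ℤ := round ((θ - β) / h) with hk
    have hk1 : |(θ - β) / h - k| ≤ 1 / 2 := abs_sub_round _
    set ψ : ℝ := θ - β - k * h with hψ
    have hψ1 : |ψ| ≤ Real.pi / N := by
      have h1 : ψ = ((θ - β) / h - k) * h := by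
        rw [hψ]
        field_simp
      rw [h1, abs_mul, abs_of_pos hh0]
      calc |(θ - β) / h - k| * h ≤ 1 / 2 * h := mul_le_mul_of_nonneg_right hk1 hh0.le
        _ = Real.pi / N := by rw [hh]; ring
    have hψ4 : |ψ| ≤ Real.pi / 4 := by
      refine hψ1.trans ?_
      have : (4 : ℝ) ≤ N := by exact_mod_cast hN
      gcongr
    set s : ℕ := ((-k) % (N : ℤ)).toNat with hs'
    have hs0 : ((s : ℕ) : ℤ) = (-k) % (N : ℤ) := Int.toNat_of_nonneg (Int.emod_nonneg _ hNz)
    have hsN : s < N := by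
      have := Int.emod_lt_of_pos (-k) (by omega : (0 : ℤ) < N)
      omega
    have hsk : ((s : ℕ) : ℝ) * h = -k * h - ((-k) / (N : ℤ) : ℤ) * (2 * Real.pi) := by
      have h1 := Int.emod_add_mul_ediv (-k) (N : ℤ)
      rw [← hs0] at h1
      have h2 : ((s : ℕ) : ℝ) + (N : ℝ) * (((-k) / (N : ℤ) : ℤ) : ℝ) = -(k : ℝ) := by
        exact_mod_cast h1
      rw [← hNh, ← h2]
      ring
    have hPk : ∀ a : ℝ, P r (a + s * h) = P r (a - k * h) := by
      intro a
      rw [hsk]
      have h1 := P_int r (a - k * h) (-((-k) / (N : ℤ)))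
      rw [← h1]
      congr 1
      push_cast
      ring
    rw [mem_iUnion₂]
    refine ⟨s, Finset.mem_range.2 hsN, ?_⟩
    have hy : rot (s * h - β) x = P r ψ := by
      rw [hxP, rot_P]
      have h1 : θ + (s * h - β) = (θ - β) + s * h := by ring
      rw [h1, hPk]
    rw [mem_preimage, hy]
    have hcos : √2 / 2 ≤ Real.cos ψ := by
      rw [← Real.cos_pi_div_four, ← Real.cos_abs ψ]
      exact Real.cos_le_cos_of_nonneg_of_le_pi (abs_nonneg _) (by linarith) hψ4
    have hr0 : 0 ≤ r := norm_nonneg x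
    have h2p : (0 : ℝ) < √2 := by positivity
    have hcos0 : 0 < Real.cos ψ := by linarith [half_pos h2p]
    refine ⟨?_, ?_, ?_⟩
    · show 0 ≤ r * Real.cos ψ
      positivity
    · show r * Real.cos ψ ≤ ρ
      have h1 : rot (s * h) x ∈ Ω := (hs.iff_mul (by omega) s x).2 hx
      have h2 := hp _ h1
      rw [hxP, rot_P, hPk] at h2
      have h3 : p = P ρ β := (eq_P p).symm
      have h4 : inner ℝ p (P r (θ - k * h)) = ρ * (r * Real.cos ψ) := by
        rw [cvx_inner]
        nth_rewrite 1 2 [h3]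
        show ρ * Real.cos β * (r * Real.cos (θ - k * h)) +
          ρ * Real.sin β * (r * Real.sin (θ - k * h)) = _
        have h5 : ψ = (θ - k * h) - β := by rw [hψ]; ring
        rw [h5, Real.cos_sub (θ - k * h) β]
        ring
      rw [h4, sq] at h2
      exact le_of_mul_le_mul_left h2 hp0
    · show |r * Real.sin ψ| ≤ r * Real.cos ψ * t
      rw [abs_mul, abs_of_nonneg hr0, mul_assoc]
      refine mul_le_mul_of_nonneg_left ?_ hr0
      have h1 : |Real.sin ψ| ≤ |ψ| := Real.abs_sin_le_abs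
      have h2 : √2 / 2 * t = Real.pi / N := by
        rw [ht]
        have := Real.mul_self_sqrt (show (0 : ℝ) ≤ 2 by norm_num)
        field_simp
        linarith
      calc |Real.sin ψ| ≤ Real.pi / N := h1.trans hψ1
        _ = √2 / 2 * t := h2.symm
        _ ≤ Real.cos ψ * t := mul_le_mul_of_nonneg_right hcos ht0
  have hvol : volume Ω ≤ ENNReal.ofReal (√2 * Real.pi * ρ ^ 2) := by
    refine (measure_mono hcov).trans ((measure_biUnion_finset_le _ _).trans ?_)
    have h1 : ∀ s ∈ Finset.range N, volume (rot ((s : ℝ) * h - β) ⁻¹' tri ρ t) ≤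
        ENNReal.ofReal (ρ ^ 2 * t) := by
      intro s _
      rw [(rot_mp _).measure_preimage hm.nullMeasurableSet]
      exact hv
    refine (Finset.sum_le_sum h1).trans ?_
    rw [Finset.sum_const, Finset.card_range, nsmul_eq_mul]
    rw [← ENNReal.ofReal_natCast, ← ENNReal.ofReal_mul hN0.le]
    refine ENNReal.ofReal_le_ofReal (le_of_eq ?_)
    rw [ht]
    field_simp
  exact ENNReal.toReal_le_of_le_ofReal (by positivity) hvol

end Pool.Agent.NSY
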