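import Pool.Agent.NSY.Defs
import Pool.Agent.NSY.RegB

/-!
# NSY-EnId: energy identity for a radial eigenfunction

The derivative of `t u' t u t` is `(m² u/t - K t u) u + t u'²`; this function has the limit `0` at both ends
of `(0, 1)`.
-/

set_option autoImplicit false

open MeasureTheory Set Filter Topology
open Pool.Agent.Neu (E D mu)
open Pool.Agent.Neu.Discx (P)

namespace Pool.Agent.NSY

private theorem ii_of_bdd {f : ℝ → ℝ} (hf : ContinuousOn f (Ioc 0 1)) {B : ℝ}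
    (hB : ∀ t ∈ Ioc (0 : ℝ) 1, |f t| ≤ B) : IntervalIntegrable f volume 0 1 := by
  rw [intervalIntegrable_iff_integrableOn_Ioc_of_le zero_le_one]
  exact Integrable.of_bound (hf.aestronglyMeasurable measurableSet_Ioc) B
    ((ae_restrict_iff' measurableSet_Ioc).2 (Filter.Eventually.of_forall fun t ht => hB t ht))

private theorem cont_u {m : ℕ} {K : ℝ} {u u' : ℝ → ℝ} (h : REig m K u u') :
    ContinuousOn u (Ioi 0) := fun t ht => (h.reg.der t ht).continuousAt.continuousWithinAt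

private theorem ii1 {m : ℕ} {K : ℝ} {u u' : ℝ → ℝ} (h : REig m K u u') :
    IntervalIntegrable (fun t => (u' t ^ 2 + (m : ℝ) ^ 2 * (u t / t) ^ 2) * t) volume 0 1 := by
  obtain ⟨C, hC0, hC⟩ := h.bd
  have hsub : Ioc (0 : ℝ) 1 ⊆ Ioi 0 := fun t ht => ht.1
  refine ii_of_bdd (B := (C ^ 2 + (m : ℝ) ^ 2 * C ^ 2) * 1) ?_ ?_
  · refine ContinuousOn.mul (ContinuousOn.add ((h.reg.cont.mono hsub).pow 2) ?_) continuousOn_id
    refine ContinuousOn.mul continuousOn_const (ContinuousOn.pow ?_ 2)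
    exact ((cont_u h).mono hsub).div continuousOn_id (fun t ht => ht.1.ne')
  · intro t ht
    obtain ⟨h1, h2, h3⟩ := hC t ht.1
    have h4 : u' t ^ 2 ≤ C ^ 2 := by
      rw [← sq_abs]
      exact pow_le_pow_left₀ (abs_nonneg _) h2 2
    have h5 : (m : ℝ) ^ 2 * (u t / t) ^ 2 ≤ (m : ℝ) ^ 2 * C ^ 2 := by
      rcases Nat.eq_zero_or_pos m with hm | hm
      · rw [hm]
        norm_num
      · refine mul_le_mul_of_nonneg_left ?_ (by positivity)
        rw [← sq_abs]
        refine pow_le_pow_left₀ (abs_nonneg _) ?_ 2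
        rw [abs_div, abs_of_pos ht.1, div_le_iff₀ ht.1]
        exact h3 hm.ne'
    have h6 : (0 : ℝ) ≤ u' t ^ 2 + (m : ℝ) ^ 2 * (u t / t) ^ 2 := by positivity
    rw [abs_of_nonneg (mul_nonneg h6 ht.1.le)]
    exact mul_le_mul (by linarith) ht.2 ht.1.le (by positivity)

private theorem ii2 {m : ℕ} {K : ℝ} {u u' : ℝ → ℝ} (h : REig m K u u') :
    IntervalIntegrable (fun t => u t ^ 2 * t) volume 0 1 := by
  obtain ⟨C, hC0, hC⟩ := h.bd
  have hsub : Ioc (0 : ℝ) 1 ⊆ Ioi 0 := fun t ht => ht.1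
  refine ii_of_bdd (B := C ^ 2 * 1) ?_ ?_
  · exact (((cont_u h).mono hsub).pow 2).mul continuousOn_id
  · intro t ht
    obtain ⟨h1, h2, h3⟩ := hC t ht.1
    have h4 : u t ^ 2 ≤ C ^ 2 := by
      rw [← sq_abs]
      exact pow_le_pow_left₀ (abs_nonneg _) h1 2
    rw [abs_of_nonneg (mul_nonneg (sq_nonneg _) ht.1.le)]
    exact mul_le_mul h4 ht.2 ht.1.le (by positivity)

theorem REig.energy {m : ℕ} {K : ℝ} {u u' : ℝ → ℝ} (h : REig m K u u') :
    ∫ t in (0 : ℝ)..1, (u' t ^ 2 + (m : ℝ) ^ 2 * (u t / t) ^ 2) * t = K / 2 := by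
  obtain ⟨C, hC0, hC⟩ := h.bd
  have hint : IntervalIntegrable
      (fun t => (u' t ^ 2 + (m : ℝ) ^ 2 * (u t / t) ^ 2) * t - K * (u t ^ 2 * t)) volume 0 1 :=
    (ii1 h).sub ((ii2 h).const_mul K)
  have hder : ∀ t ∈ Ioo (0 : ℝ) 1, HasDerivAt (fun s => s * u' s * u s)
      ((u' t ^ 2 + (m : ℝ) ^ 2 * (u t / t) ^ 2) * t - K * (u t ^ 2 * t)) t := by
    intro t ht
    have h1 := (h.ode t ht).mul (h.reg.der t ht.1)
    have h2 : ((m : ℝ) ^ 2 * u t / t - K * (t * u t)) * u t + t * u' t * u' t =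
        (u' t ^ 2 + (m : ℝ) ^ 2 * (u t / t) ^ 2) * t - K * (u t ^ 2 * t) := by
      have h3 : t ≠ 0 := ht.1.ne'
      field_simp
      ring
    rw [← h2]
    exact h1
  have hlim0 : Tendsto (fun s => s * u' s * u s) (𝓝[>] 0) (𝓝 0) := by
    have h1 : Tendsto (fun s : ℝ => s * (C * C)) (𝓝[>] 0) (𝓝 0) := by
      have h2 : Tendsto (fun s : ℝ => s * (C * C)) (𝓝 0) (𝓝 (0 * (C * C))) :=
        tendsto_id.mul tendsto_const_nhds
      rw [zero_mul] at h2
      exact h2.mono_left nhdsWithin_le_nhds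
    refine squeeze_zero_norm' ?_ h1
    filter_upwards [self_mem_nhdsWithin] with s hs
    have hs' : (0 : ℝ) < s := hs
    obtain ⟨h3, h4, -⟩ := hC s hs'
    rw [Real.norm_eq_abs, abs_mul, abs_mul, abs_of_pos hs', mul_assoc]
    exact mul_le_mul_of_nonneg_left (mul_le_mul h4 h3 (abs_nonneg _) hC0) hs'.le
  have hlim1 : Tendsto (fun s => s * u' s * u s) (𝓝[<] 1) (𝓝 0) := by
    have h1 : ContinuousAt (fun s => s * u' s * u s) 1 := by
      have h2 : ContinuousAt u' 1 := h.reg.cont.continuousAt (Ioi_mem_nhds zero_lt_one)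
      exact (continuousAt_id.mul h2).mul (h.reg.der 1 zero_lt_one).continuousAt
    have h3 : (1 : ℝ) * u' 1 * u 1 = 0 := by rw [h.out 1 le_rfl]; ring
    have h4 : Tendsto (fun s => s * u' s * u s) (𝓝 1) (𝓝 (1 * u' 1 * u 1)) := h1
    rw [h3] at h4
    exact h4.mono_left nhdsWithin_le_nhds
  have h5 := intervalIntegral.integral_eq_sub_of_hasDerivAt_of_tendsto zero_lt_one hder hint
    hlim0 hlim1
  rw [intervalIntegral.integral_sub (ii1 h) ((ii2 h).const_mul K),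
    intervalIntegral.integral_const_mul, h.norm] at h5
  linarith

theorem REig.K_nonneg {m : ℕ} {K : ℝ} {u u' : ℝ → ℝ} (h : REig m K u u') : 0 ≤ K := by
  have h1 := h.energy
  have h2 : 0 ≤ ∫ t in (0 : ℝ)..1, (u' t ^ 2 + (m : ℝ) ^ 2 * (u t / t) ^ 2) * t := by
    refine intervalIntegral.integral_nonneg zero_le_one fun t ht => ?_
    exact mul_nonneg (by positivity) ht.1
  linarith

theorem REig.m_le {m : ℕ} {K : ℝ} {u u' : ℝ → ℝ} (h : REig m K u u') : (m : ℝ) ^ 2 ≤ K := by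
  have h1 := h.energy
  have h2 : ∫ t in (0 : ℝ)..1, (m : ℝ) ^ 2 * (u t ^ 2 * t) ≤
      ∫ t in (0 : ℝ)..1, (u' t ^ 2 + (m : ℝ) ^ 2 * (u t / t) ^ 2) * t := by
    refine intervalIntegral.integral_mono_on zero_le_one ((ii2 h).const_mul _) (ii1 h)
      fun t ht => ?_
    rcases ht.1.eq_or_lt with h3 | h3
    · rw [← h3, mul_zero, mul_zero, mul_zero]
    · rw [← mul_assoc]
      refine mul_le_mul_of_nonneg_right ?_ ht.1
      have h4 : u t ^ 2 ≤ (u t / t) ^ 2 := by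
        rw [div_pow, le_div_iff₀ (by positivity)]
        have h5 : t ^ 2 ≤ 1 := pow_le_one₀ h3.le ht.2
        nlinarith [sq_nonneg (u t)]
      have h6 := mul_le_mul_of_nonneg_left h4 (sq_nonneg (m : ℝ))
      linarith [sq_nonneg (u' t)]
  rw [intervalIntegral.integral_const_mul, h.norm] at h2
  linarith

end Pool.Agent.NSY
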