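import Pool.Agent.NSY.Defs
import Pool.Agent.NSY.MuG
import Pool.Agent.NSY.CfL
import Pool.Agent.NSY.EnId

/-!
# NSY-DiS: lower bounds for the eigenvalue sums of the disc from a family

PLAN. `card_ge`: if `card ι < n`, apply `mu_ge` with `S = univ`, `l i = cf (k i) (u i)` (linear by `cf_lin`), `c = Λ`: for `v` with all
coefficients zero the gap inequality is `Λ ∫ v² ≤ ∫ ‖fderiv v‖²`. So `Λ ≤ mu D n`, contradiction.
`exists_emb`: let `p = card ι`, order `ι` by `K`: an equivalence `e : Fin p ≃ ι` with `K ∘ e` monotone (`Tuple.sort`). For `1 ≤ i ≤ n ≤ p`: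
`K (e (i-1)) ≤ mu D i`: `mu_ge` with `S = image of the first i-1 indices`, `c = K (e (i-1))`: for `v` orthogonal to them the gap inequality gives
`∫ ‖fderiv v‖² ≥ ∑_{j ≥ i-1} K_j c_j² + Λ (∫ v² - ∑_{j ≥ i-1} c_j²) ≥ K_{i-1} ∫ v²`: since `K_j ≥ K_{i-1}`, `Λ > K_{i-1}`; for this one needs
`∫ v² - ∑ c_j² ≥ 0`, OR argue: `∑ K_j c_j² + Λ (∫ v² - ∑ c_j²) = Λ ∫ v² - ∑ (Λ - K_j) c_j² `; use Bessel's inequality `bessel` below (the functions
`pol (k j) (u j)` are orthogonal in `L²(D)` with square norm `π`: `cf_eq`, `pol_norm`, `orth`, `cc_orth`).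
`σ = ` the first `n` indices. The smallest `K` is `0` (`zero`, `K_nonneg`), so
`∑_{j<n} K (σ j) = ∑_{i=2}^{n} K (e (i-1)) ≤ ∑_{i ∈ Icc 2 n} mu D i` (for `n = 0` both sides are `0`).
-/

set_option autoImplicit false

open MeasureTheory Set Filter Topology
open Pool.Agent.Neu (E D mu)
open Pool.Agent.Neu.Discx (P)

namespace Pool.Agent.NSY

variable {M : ℕ} {Λ : ℝ} {ι : Type} [Fintype ι] {k : ι → ℤ} {K : ι → ℝ} {u u' : ι → ℝ → ℝ}

private theorem dis_int {f : E → ℝ} (hf : Continuous f) : IntegrableOn f D :=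
  (hf.continuousOn.integrableOn_compact (isCompact_closedBall (0 : E) 1)).mono_set
    Metric.ball_subset_closedBall

private theorem Fam.dis_cont (h : Fam M Λ k K u u') (i : ι) : Continuous (pol (k i) (u i)) :=
  (pol_contDiff (h.eig i).reg).continuous

private theorem Fam.dis_orth (h : Fam M Λ k K u u') {i j : ι} (hij : i ≠ j) :
    ∫ x in D, pol (k j) (u j) x * pol (k i) (u i) x = 0 := by
  rw [← cf_eq (h.eig i) (h.dis_cont j)]
  unfold cf
  have h1 : ∀ r ∈ Set.uIoc (0 : ℝ) 1,
      (∫ θ in (-Real.pi)..Real.pi, pol (k j) (u j) (P r θ) * cc (k i) θ) * (u i r * r) =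
        (if k j = k i then 2 * Real.pi else 0) * (u i r * u j r * r) := by
    intro r hr
    rw [Set.uIoc_of_le zero_le_one] at hr
    have h2 : ∫ θ in (-Real.pi)..Real.pi, pol (k j) (u j) (P r θ) * cc (k i) θ =
        u j r * ∫ θ in (-Real.pi)..Real.pi, cc (k j) θ * cc (k i) θ := by
      rw [← intervalIntegral.integral_const_mul]
      congr 1
      funext θ
      rw [pol_P (k j) (u j) hr.1 θ, mul_assoc]
    rw [h2, cc_orth]
    ring
  rw [intervalIntegral.integral_congr_ae (Filter.Eventually.of_forall h1),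
    intervalIntegral.integral_const_mul]
  by_cases hk : k j = k i
  · rw [h.orth i j hij hk.symm, mul_zero]
  · rw [if_neg hk, zero_mul]

theorem Fam.bessel (h : Fam M Λ k K u u') {v : E → ℝ} (hv : Continuous v) :
    ∑ i, cf (k i) (u i) v ^ 2 / Real.pi ≤ ∫ x in D, v x ^ 2 := by
  classical
  have hφ : ∀ i, Continuous (pol (k i) (u i)) := h.dis_cont
  set φ : ι → E → ℝ := fun i => pol (k i) (u i) with hφd
  set c : ι → ℝ := fun i => cf (k i) (u i) v with hc
  have hπ := Real.pi_pos
  have hcf : ∀ i, ∫ x in D, v x * φ i x = c i := fun i => (cf_eq (h.eig i) hv).symm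
  have hgram : ∀ i j, ∫ x in D, φ i x * φ j x = if i = j then Real.pi else 0 := by
    intro i j
    by_cases hij : i = j
    · subst hij
      rw [if_pos rfl, ← pol_norm (h.eig i)]
      congr 1
      funext x
      rw [sq]
    · rw [if_neg hij]
      exact h.dis_orth (Ne.symm hij)
  have hW : Continuous fun x => ∑ i, c i / Real.pi * φ i x :=
    continuous_finsetSum _ fun i _ => continuous_const.mul (hφ i)
  have h0 : 0 ≤ ∫ x in D, (v x - ∑ i, c i / Real.pi * φ i x) ^ 2 :=
    integral_nonneg fun x => sq_nonneg _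
  have h1 : ∀ x, (v x - ∑ i, c i / Real.pi * φ i x) ^ 2 =
      v x ^ 2 - 2 * (v x * ∑ i, c i / Real.pi * φ i x) + (∑ i, c i / Real.pi * φ i x) ^ 2 := by
    intro x
    ring
  have h2 : ∫ x in D, v x * ∑ i, c i / Real.pi * φ i x = ∑ i, c i ^ 2 / Real.pi := by
    have e1 : ∀ x, v x * ∑ i, c i / Real.pi * φ i x = ∑ i, c i / Real.pi * (v x * φ i x) := by
      intro x
      rw [Finset.mul_sum]
      exact Finset.sum_congr rfl fun i _ => by ring
    simp only [e1]
    rw [integral_finsetSum]
    · refine Finset.sum_congr rfl fun i _ => ?_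
      rw [integral_const_mul, hcf]
      ring
    · intro i _
      exact (dis_int (hv.mul (hφ i))).const_mul _
  have h3 : ∫ x in D, (∑ i, c i / Real.pi * φ i x) ^ 2 = ∑ i, c i ^ 2 / Real.pi := by
    have e1 : ∀ x, (∑ i, c i / Real.pi * φ i x) ^ 2 =
        ∑ i, ∑ j, (c i / Real.pi * (c j / Real.pi)) * (φ i x * φ j x) := by
      intro x
      rw [sq, Finset.sum_mul_sum]
      exact Finset.sum_congr rfl fun i _ => Finset.sum_congr rfl fun j _ => by ring
    simp only [e1]
    rw [integral_finsetSum]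
    · refine Finset.sum_congr rfl fun i _ => ?_
      rw [integral_finsetSum]
      · simp only [integral_const_mul, hgram]
        simp only [mul_ite, mul_zero]
        rw [Finset.sum_ite_eq Finset.univ i, if_pos (Finset.mem_univ i)]
        field_simp
      · intro j _
        exact (dis_int ((hφ i).mul (hφ j))).const_mul _
    · intro i _
      refine integrable_finsetSum _ fun j _ => ?_
      exact (dis_int ((hφ i).mul (hφ j))).const_mul _
  have i1 : IntegrableOn (fun x => v x ^ 2) D := dis_int (hv.pow 2)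
  have i2 : IntegrableOn (fun x => 2 * (v x * ∑ i, c i / Real.pi * φ i x)) D :=
    dis_int (continuous_const.mul (hv.mul hW))
  have i3 : IntegrableOn (fun x => (∑ i, c i / Real.pi * φ i x) ^ 2) D := dis_int (hW.pow 2)
  have i12 : IntegrableOn (fun x => v x ^ 2 - 2 * (v x * ∑ i, c i / Real.pi * φ i x)) D :=
    i1.sub i2
  simp only [h1] at h0
  rw [integral_add i12 i3, integral_sub i1 i2, integral_const_mul, h2, h3] at h0
  linarith

private theorem Fam.dis_lin (h : Fam M Λ k K u u') : ∀ i, ∀ v w : E → ℝ, ContDiff ℝ 1 v →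
    ContDiff ℝ 1 w → ∀ a b : ℝ, cf (k i) (u i) (fun x => a * v x + b * w x) =
      a * cf (k i) (u i) v + b * cf (k i) (u i) w :=
  fun i v w hv hw a b => cf_lin (h.eig i) (k i) v w hv.continuous hw.continuous a b

theorem Fam.card_ge (h : Fam M Λ k K u u') {n : ℕ} (hn : mu D n < Λ) :
    n ≤ Fintype.card ι := by
  by_contra hcon
  rw [not_le] at hcon
  have h1 : Λ ≤ mu D n := by
    refine mu_ge (Finset.univ : Finset ι) (by rwa [Finset.card_univ])
      (fun i v => cf (k i) (u i) v) h.dis_lin ?_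
    intro v hv hz
    have h2 := h.gap v hv
    have h3 : ∀ i, cf (k i) (u i) v = 0 := fun i => hz i (Finset.mem_univ i)
    simp only [h3] at h2
    simpa using h2
  linarith

private theorem Fam.dis_mu (h : Fam M Λ k K u u') {p : ℕ} (e : Fin p ≃ ι)
    (he : Monotone (K ∘ e)) (j : Fin p) : K (e j) ≤ mu D ((j : ℕ) + 1) := by
  classical
  refine mu_ge ((Finset.univ.filter fun i : Fin p => i < j).image e) ?_
    (fun i v => cf (k i) (u i) v) h.dis_lin ?_
  · refine Nat.lt_succ_of_le (Finset.card_image_le.trans ?_)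
    have h1 : (Finset.univ.filter fun i : Fin p => i < j) = Finset.Iio j := by
      ext i
      simp
    rw [h1, Fin.card_Iio]
  · intro v hv hz
    have h2 := h.gap v hv
    have h3 := h.bessel hv.continuous
    have hπ := Real.pi_pos
    have h4 : ∑ i, K (e j) * (cf (k i) (u i) v ^ 2 / Real.pi) ≤
        ∑ i, K i * (cf (k i) (u i) v ^ 2 / Real.pi) := by
      refine Finset.sum_le_sum fun i _ => ?_
      obtain ⟨i', rfl⟩ := e.surjective i
      rcases lt_or_ge i' j with h5 | h5
      · have h6 : cf (k (e i')) (u (e i')) v = 0 :=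
          hz (e i') (Finset.mem_image_of_mem e (by simpa using h5))
        rw [h6]
        simp
      · refine mul_le_mul_of_nonneg_right (he h5) (by positivity)
    rw [← Finset.mul_sum] at h4
    have h7 := h.lt (e j)
    nlinarith [mul_nonneg (sub_nonneg.2 h7.le) (sub_nonneg.2 h3)]

theorem Fam.exists_emb (h : Fam M Λ k K u u') {n : ℕ} (hn : n ≤ Fintype.card ι) :
    ∃ σ : Fin n → ι, Function.Injective σ ∧
      ∑ j, K (σ j) ≤ ∑ i ∈ Finset.Icc 2 n, mu D i := by
  classical
  set e : Fin (Fintype.card ι) ≃ ι :=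
    (Tuple.sort (K ∘ (Fintype.equivFin ι).symm)).trans (Fintype.equivFin ι).symm with he
  have hmono : Monotone (K ∘ e) := by
    have h1 := Tuple.monotone_sort (K ∘ (Fintype.equivFin ι).symm)
    exact h1
  clear_value e
  refine ⟨fun j => e (Fin.castLE hn j), ?_, ?_⟩
  · intro i j hij
    exact Fin.castLE_injective hn (e.injective hij)
  · cases n with
    | zero => simp
    | succ m =>
      have h1 : ∀ m : ℕ, ∑ i ∈ Finset.Icc 2 (m + 1), mu D i = ∑ j : Fin m, mu D ((j : ℕ) + 2) := by
        intro m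
        induction m with
        | zero => simp
        | succ m ih =>
          rw [Finset.sum_Icc_succ_top (by omega), ih, Fin.sum_univ_castSucc]
          rfl
      rw [h1, Fin.sum_univ_succ]
      have h2 : K (e (Fin.castLE hn 0)) ≤ 0 := by
        obtain ⟨i, hi⟩ := h.zero
        obtain ⟨j, rfl⟩ := e.surjective i
        rw [← hi]
        exact hmono (by
          rw [Fin.le_def]
          simp)
      have h3 : ∑ j : Fin m, K (e (Fin.castLE hn j.succ)) ≤ ∑ j : Fin m, mu D ((j : ℕ) + 2) := by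
        refine Finset.sum_le_sum fun j _ => ?_
        have h4 := h.dis_mu e hmono (Fin.castLE hn j.succ)
        have h5 : ((Fin.castLE hn j.succ : Fin (Fintype.card ι)) : ℕ) + 1 = (j : ℕ) + 2 := by
          simp
        rw [h5] at h4
        exact h4
      linarith

end Pool.Agent.NSY
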