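import Pool.Agent.NSY.Defs
import Pool.Agent.NSY.RegB
import Pool.Agent.NSY.EnId

/-!
# NSY-Key: the pointwise bound t² u² <= K (Bessel identity)

The function `(t u')² + (K t² - m²) u²` has derivative `2 K t u²`; the square of `u` is nondecreasing
up to the point where `K t² = m²`.
-/

set_option autoImplicit false

open MeasureTheory Set Filter Topology
open Pool.Agent.Neu (E D mu)
open Pool.Agent.Neu.Discx (P)

namespace Pool.Agent.NSY

/-- the integral of the square -/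
private noncomputable def Jk (u : ℝ → ℝ) (s : ℝ) : ℝ := ∫ r in (0 : ℝ)..s, u r ^ 2 * r

private theorem contOn {m : ℕ} {K : ℝ} {u u' : ℝ → ℝ} (h : REig m K u u') :
    ContinuousOn (fun r => u r ^ 2 * r) (Ici 0) :=
  (h.cont.pow 2).mul continuousOn_id

private theorem J_der {m : ℕ} {K : ℝ} {u u' : ℝ → ℝ} (h : REig m K u u') {s : ℝ} (hs : 0 < s) :
    HasDerivAt (Jk u) (u s ^ 2 * s) s := by
  have hc := contOn h
  have hc' : ContinuousOn (fun r => u r ^ 2 * r) (Ioi 0) := hc.mono Ioi_subset_Ici_self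
  refine intervalIntegral.integral_hasDerivAt_right ?_
    (hc'.stronglyMeasurableAtFilter isOpen_Ioi s hs) (hc'.continuousAt (Ioi_mem_nhds hs))
  refine (hc.mono ?_).intervalIntegrable
  rw [uIcc_of_le hs.le]
  exact Icc_subset_Ici_self

private theorem J_mono {m : ℕ} {K : ℝ} {u u' : ℝ → ℝ} (h : REig m K u u') :
    MonotoneOn (Jk u) (Ioi 0) := by
  refine monotoneOn_of_deriv_nonneg (convex_Ioi 0) (fun s hs => (J_der h hs).continuousAt.continuousWithinAt)
    (fun s hs => ?_) (fun s hs => ?_)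
  · rw [interior_Ioi] at hs
    exact (J_der h hs).differentiableAt.differentiableWithinAt
  · rw [interior_Ioi] at hs
    rw [(J_der h hs).deriv]
    exact mul_nonneg (sq_nonneg _) (le_of_lt hs)

private theorem J_lim {m : ℕ} {K : ℝ} {u u' : ℝ → ℝ} (h : REig m K u u') :
    Tendsto (Jk u) (𝓝[>] 0) (𝓝 0) := by
  have hc := contOn h
  have h1 : ContinuousOn (Jk u) (uIcc 0 1) := by
    refine intervalIntegral.continuousOn_primitive_interval ?_
    refine (hc.mono ?_).integrableOn_compact isCompact_uIcc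
    rw [uIcc_of_le zero_le_one]
    exact Icc_subset_Ici_self
  have h2 : ContinuousWithinAt (Jk u) (uIcc 0 1) 0 := h1 0 left_mem_uIcc
  have h3 : Jk u 0 = 0 := by
    unfold Jk
    exact intervalIntegral.integral_same
  have h4 : Tendsto (Jk u) (𝓝[uIcc 0 1] 0) (𝓝 0) := by
    have h5 : Tendsto (Jk u) (𝓝[uIcc 0 1] 0) (𝓝 (Jk u 0)) := h2
    rwa [h3] at h5
  refine h4.mono_left ?_
  rw [uIcc_of_le zero_le_one]
  rw [← nhdsWithin_Ioo_eq_nhdsGT (zero_lt_one' ℝ)]
  exact nhdsWithin_mono _ Ioo_subset_Icc_self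

private theorem q_lim {m : ℕ} {K : ℝ} {u u' : ℝ → ℝ} (h : REig m K u u') :
    Tendsto (fun s => s * u' s * u s) (𝓝[>] 0) (𝓝 0) := by
  obtain ⟨C, hC, hb⟩ := h.bd
  have h1 : Tendsto (fun s : ℝ => s * (C * C)) (𝓝[>] 0) (𝓝 0) := by
    have h2 : Tendsto (fun s : ℝ => s * (C * C)) (𝓝 0) (𝓝 (0 * (C * C))) :=
      (continuous_id.mul continuous_const).tendsto 0
    rw [zero_mul] at h2
    exact h2.mono_left nhdsWithin_le_nhds
  refine squeeze_zero_norm' ?_ h1
  filter_upwards [self_mem_nhdsWithin] with s hs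
  have hs' : (0 : ℝ) < s := hs
  obtain ⟨h2, h3, -⟩ := hb s hs'
  rw [Real.norm_eq_abs, abs_mul, abs_mul, abs_of_pos hs', mul_assoc]
  exact mul_le_mul_of_nonneg_left (mul_le_mul h3 h2 (abs_nonneg _) hC) hs'.le

private theorem W_lim {m : ℕ} {K : ℝ} {u u' : ℝ → ℝ} (h : REig m K u u') :
    Tendsto (fun s => (s * u' s) ^ 2 + (K * s ^ 2 - (m : ℝ) ^ 2) * u s ^ 2) (𝓝[>] 0) (𝓝 0) := by
  obtain ⟨C, hC, hb⟩ := h.bd
  have hK := h.K_nonneg
  have h1 : Tendsto (fun s : ℝ => s ^ 2 * (C ^ 2 + K * C ^ 2 + (m : ℝ) ^ 2 * C ^ 2)) (𝓝[>] 0) (𝓝 0) := by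
    have h2 : Tendsto (fun s : ℝ => s ^ 2 * (C ^ 2 + K * C ^ 2 + (m : ℝ) ^ 2 * C ^ 2)) (𝓝 0)
        (𝓝 ((0 : ℝ) ^ 2 * (C ^ 2 + K * C ^ 2 + (m : ℝ) ^ 2 * C ^ 2))) :=
      ((continuous_id.pow 2).mul continuous_const).tendsto 0
    rw [zero_pow two_ne_zero, zero_mul] at h2
    exact h2.mono_left nhdsWithin_le_nhds
  refine squeeze_zero_norm' ?_ h1
  filter_upwards [self_mem_nhdsWithin] with s hs
  have hs' : (0 : ℝ) < s := hs
  obtain ⟨h2, h3, h4⟩ := hb s hs'
  have e1 : u' s ^ 2 ≤ C ^ 2 := by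
    rw [← sq_abs]
    exact pow_le_pow_left₀ (abs_nonneg _) h3 2
  have e2 : u s ^ 2 ≤ C ^ 2 := by
    rw [← sq_abs]
    exact pow_le_pow_left₀ (abs_nonneg _) h2 2
  have e3 : (m : ℝ) ^ 2 * u s ^ 2 ≤ s ^ 2 * ((m : ℝ) ^ 2 * C ^ 2) := by
    by_cases hm : m = 0
    · subst hm
      simp
    · have h5 : u s ^ 2 ≤ (C * s) ^ 2 := by
        rw [← sq_abs]
        exact pow_le_pow_left₀ (abs_nonneg _) (h4 hm) 2
      calc (m : ℝ) ^ 2 * u s ^ 2 ≤ (m : ℝ) ^ 2 * (C * s) ^ 2 :=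
            mul_le_mul_of_nonneg_left h5 (sq_nonneg _)
        _ = s ^ 2 * ((m : ℝ) ^ 2 * C ^ 2) := by ring
  have e4 : (s * u' s) ^ 2 ≤ s ^ 2 * C ^ 2 := by
    rw [mul_pow]
    exact mul_le_mul_of_nonneg_left e1 (sq_nonneg _)
  have e5 : K * s ^ 2 * u s ^ 2 ≤ s ^ 2 * (K * C ^ 2) := by
    calc K * s ^ 2 * u s ^ 2 ≤ K * s ^ 2 * C ^ 2 :=
          mul_le_mul_of_nonneg_left e2 (mul_nonneg hK (sq_nonneg _))
      _ = s ^ 2 * (K * C ^ 2) := by ring
  have e6 : 0 ≤ (s * u' s) ^ 2 := sq_nonneg _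
  have e7 : 0 ≤ K * s ^ 2 * u s ^ 2 := mul_nonneg (mul_nonneg hK (sq_nonneg _)) (sq_nonneg _)
  have e8 : 0 ≤ (m : ℝ) ^ 2 * u s ^ 2 := mul_nonneg (sq_nonneg _) (sq_nonneg _)
  rw [Real.norm_eq_abs, abs_le]
  constructor
  · nlinarith
  · nlinarith

private theorem W_der {m : ℕ} {K : ℝ} {u u' : ℝ → ℝ} (h : REig m K u u') {s : ℝ}
    (hs : s ∈ Ioo (0 : ℝ) 1) :
    HasDerivAt (fun s => (s * u' s) ^ 2 + (K * s ^ 2 - (m : ℝ) ^ 2) * u s ^ 2)
      (2 * K * (u s ^ 2 * s)) s := by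
  have h1 := h.ode s hs
  have h2 := h.reg.der s hs.1
  have h3 : HasDerivAt (fun s : ℝ => K * s ^ 2 - (m : ℝ) ^ 2) (K * (2 * s)) s := by
    have h4 : HasDerivAt (fun s : ℝ => s ^ 2) (2 * s) s := by
      simpa using hasDerivAt_pow 2 s
    exact (h4.const_mul K).sub_const _
  have h5 := (h1.pow 2).add (h3.mul (h2.pow 2))
  refine h5.congr_deriv ?_
  have hs0 : s ≠ 0 := hs.1.ne'
  simp only [Pi.pow_apply, Nat.cast_ofNat, Nat.add_one_sub_one, pow_one]
  field_simp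
  ring

private theorem W_eq {m : ℕ} {K : ℝ} {u u' : ℝ → ℝ} (h : REig m K u u') {t : ℝ}
    (ht : t ∈ Ioo (0 : ℝ) 1) :
    (t * u' t) ^ 2 + (K * t ^ 2 - (m : ℝ) ^ 2) * u t ^ 2 = 2 * K * Jk u t := by
  let V : ℝ → ℝ := fun s => (s * u' s) ^ 2 + (K * s ^ 2 - (m : ℝ) ^ 2) * u s ^ 2 - 2 * K * Jk u s
  have hV : ∀ s ∈ Ioo (0 : ℝ) 1, HasDerivAt V 0 s := by
    intro s hs
    have h1 := (W_der h hs).sub ((J_der h hs.1).const_mul (2 * K))
    refine h1.congr_deriv ?_
    ring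
  have hconst : ∀ s ∈ Ioo (0 : ℝ) 1, V s = V t := fun s hs =>
    isOpen_Ioo.is_const_of_deriv_eq_zero isPreconnected_Ioo
      (fun x hx => (hV x hx).differentiableAt.differentiableWithinAt)
      (fun x hx => (hV x hx).deriv) hs ht
  have hlim : Tendsto V (𝓝[>] 0) (𝓝 0) := by
    have h1 := (W_lim h).sub ((J_lim h).const_mul (2 * K))
    rw [mul_zero, sub_zero] at h1
    exact h1
  have hlim2 : Tendsto V (𝓝[>] 0) (𝓝 (V t)) := by
    refine tendsto_const_nhds.congr' ?_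
    filter_upwards [Ioo_mem_nhdsGT (zero_lt_one' ℝ)] with s hs
    exact (hconst s hs).symm
  have h0 : V t = 0 := tendsto_nhds_unique hlim2 hlim
  have h1 : (t * u' t) ^ 2 + (K * t ^ 2 - (m : ℝ) ^ 2) * u t ^ 2 - 2 * K * Jk u t = 0 := h0
  linarith

private theorem J_one {m : ℕ} {K : ℝ} {u u' : ℝ → ℝ} (h : REig m K u u') : Jk u 1 = 1 / 2 := h.norm

theorem REig.key {m : ℕ} {K : ℝ} {u u' : ℝ → ℝ} (h : REig m K u u') {t : ℝ} (ht : 0 < t) :
    t ^ 2 * u' t ^ 2 ≤ K := by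
  have hK := h.K_nonneg
  rcases le_or_gt 1 t with h1 | h1
  · rw [h.out t h1]
    simpa using hK
  have hW := W_eq h (t := t) ⟨ht, h1⟩
  have hJt : Jk u t ≤ 1 / 2 := by
    rw [← J_one h]
    exact J_mono h ht (mem_Ioi.2 one_pos) h1.le
  rcases le_or_gt ((m : ℝ) ^ 2) (K * t ^ 2) with h2 | h2
  · have h3 : 0 ≤ (K * t ^ 2 - (m : ℝ) ^ 2) * u t ^ 2 := mul_nonneg (by linarith) (sq_nonneg _)
    have h4 : 2 * K * Jk u t ≤ K := by nlinarith
    have h5 : t ^ 2 * u' t ^ 2 = (t * u' t) ^ 2 := by ring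
    linarith
  · have hm : (m : ℝ) ≠ 0 := by
      intro h3
      rw [h3] at h2
      have : 0 ≤ K * t ^ 2 := mul_nonneg hK (sq_nonneg _)
      nlinarith
    have hmpos : (0 : ℝ) < m := lt_of_le_of_ne (Nat.cast_nonneg m) (Ne.symm hm)
    have hmK := h.m_le
    have hKpos : 0 < K := lt_of_lt_of_le (pow_pos hmpos 2) hmK
    have hsK : 0 < √K := Real.sqrt_pos.2 hKpos
    set t0 : ℝ := m / √K with ht0
    have ht0sq : K * t0 ^ 2 = (m : ℝ) ^ 2 := by
      rw [ht0, div_pow, Real.sq_sqrt hKpos.le]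
      field_simp
    have ht0pos : 0 < t0 := div_pos hmpos hsK
    have htt0 : t < t0 := by
      by_contra hcon
      push Not at hcon
      have : t0 ^ 2 ≤ t ^ 2 := pow_le_pow_left₀ ht0pos.le hcon 2
      nlinarith
    have ht01 : t0 ≤ 1 := by
      by_contra hcon
      push Not at hcon
      have : 1 < t0 ^ 2 := by nlinarith
      nlinarith
    have hq : ∀ s ∈ Ioo (0 : ℝ) t0, HasDerivAt (fun s => s * u' s * u s)
        ((m : ℝ) ^ 2 * u s / s * u s - K * (s * u s) * u s + s * u' s * u' s) s := by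
      intro s hs
      have e1 := h.ode s ⟨hs.1, lt_of_lt_of_le hs.2 ht01⟩
      have e2 := h.reg.der s hs.1
      refine (e1.mul e2).congr_deriv ?_
      ring
    have hqm : MonotoneOn (fun s => s * u' s * u s) (Ioo 0 t0) := by
      refine monotoneOn_of_deriv_nonneg (convex_Ioo 0 t0)
        (fun s hs => (hq s hs).continuousAt.continuousWithinAt) (fun s hs => ?_) (fun s hs => ?_)
      · rw [interior_Ioo] at hs
        exact (hq s hs).differentiableAt.differentiableWithinAt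
      · rw [interior_Ioo] at hs
        rw [(hq s hs).deriv]
        have e1 : (m : ℝ) ^ 2 * u s / s * u s - K * (s * u s) * u s =
            ((m : ℝ) ^ 2 - K * s ^ 2) / s * u s ^ 2 := by
          have := hs.1.ne'
          field_simp
        have e2 : K * s ^ 2 ≤ (m : ℝ) ^ 2 := by
          rw [← ht0sq]
          exact mul_le_mul_of_nonneg_left (pow_le_pow_left₀ hs.1.le hs.2.le 2) hK
        have e3 : 0 ≤ ((m : ℝ) ^ 2 - K * s ^ 2) / s * u s ^ 2 :=
          mul_nonneg (div_nonneg (by linarith) hs.1.le) (sq_nonneg _)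
        have e4 : 0 ≤ s * u' s * u' s := by
          rw [mul_assoc]
          exact mul_nonneg hs.1.le (mul_self_nonneg _)
        linarith
    have hqn : ∀ s ∈ Ioo (0 : ℝ) t0, 0 ≤ s * u' s * u s := by
      intro s hs
      refine le_of_tendsto (q_lim h) ?_
      filter_upwards [Ioo_mem_nhdsGT hs.1] with r hr
      exact hqm ⟨hr.1, hr.2.trans hs.2⟩ hs hr.2.le
    have hum : MonotoneOn (fun s => u s ^ 2) (Ioo 0 t0) := by
      have e0 : ∀ s ∈ Ioo (0 : ℝ) t0, HasDerivAt (fun s => u s ^ 2) (2 * (u' s * u s)) s := by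
        intro s hs
        refine ((h.reg.der s hs.1).pow 2).congr_deriv ?_
        simp only [Nat.cast_ofNat, Nat.add_one_sub_one, pow_one]
        ring
      refine monotoneOn_of_deriv_nonneg (convex_Ioo 0 t0)
        (fun s hs => (e0 s hs).continuousAt.continuousWithinAt) (fun s hs => ?_) (fun s hs => ?_)
      · rw [interior_Ioo] at hs
        exact (e0 s hs).differentiableAt.differentiableWithinAt
      · rw [interior_Ioo] at hs
        rw [(e0 s hs).deriv]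
        have e1 := hqn s hs
        rw [mul_assoc] at e1
        have e2 : 0 ≤ u' s * u s := nonneg_of_mul_nonneg_right e1 hs.1
        linarith
    have hΦ : 2 * K * Jk u t - K * t ^ 2 * u t ^ 2 ≤ 2 * K * Jk u t0 - K * t0 ^ 2 * u t ^ 2 := by
      have e0 : ∀ s ∈ Icc t t0, HasDerivAt (fun s => 2 * K * Jk u s - K * s ^ 2 * u t ^ 2)
          (2 * K * (u s ^ 2 * s) - K * (2 * s) * u t ^ 2) s := by
        intro s hs
        have hs0 : 0 < s := lt_of_lt_of_le ht hs.1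
        have e1 : HasDerivAt (fun s : ℝ => s ^ 2) (2 * s) s := by
          simpa using hasDerivAt_pow 2 s
        exact ((J_der h hs0).const_mul (2 * K)).sub ((e1.const_mul K).mul_const _)
      have e2 : MonotoneOn (fun s => 2 * K * Jk u s - K * s ^ 2 * u t ^ 2) (Icc t t0) := by
        refine monotoneOn_of_deriv_nonneg (convex_Icc t t0)
          (fun s hs => (e0 s hs).continuousAt.continuousWithinAt) (fun s hs => ?_) (fun s hs => ?_)
        · rw [interior_Icc] at hs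
          exact (e0 s (Ioo_subset_Icc_self hs)).differentiableAt.differentiableWithinAt
        · rw [interior_Icc] at hs
          rw [(e0 s (Ioo_subset_Icc_self hs)).deriv]
          have e3 : u t ^ 2 ≤ u s ^ 2 :=
            hum ⟨ht, htt0⟩ ⟨ht.trans hs.1, hs.2⟩ hs.1.le
          have e4 : 0 ≤ K * (2 * s) := mul_nonneg hK (by linarith [ht.trans hs.1])
          have e5 := mul_le_mul_of_nonneg_left e3 e4
          nlinarith
      exact e2 (left_mem_Icc.2 htt0.le) (right_mem_Icc.2 htt0.le) htt0.le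
    have hJ0 : Jk u t0 ≤ 1 / 2 := by
      rw [← J_one h]
      exact J_mono h ht0pos (mem_Ioi.2 one_pos) ht01
    have h5 : t ^ 2 * u' t ^ 2 = (t * u' t) ^ 2 := by ring
    rw [ht0sq] at hΦ
    have h6 : 2 * K * Jk u t0 ≤ K := by nlinarith
    rw [h5]
    nlinarith

end Pool.Agent.NSY
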