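import Pool.Agent.NSY.Defs
import Pool.Agent.NSY.TmP

/-!
# NSY-TmR: composition of a radial profile with the mass map

Chain rule; near `0` the mass map is the identity.
-/

set_option autoImplicit false

open MeasureTheory Set Filter Topology
open Pool.Agent.Neu (E D mu)
open Pool.Agent.Neu.Discx (P)

namespace Pool.Agent.NSY

theorem Om.reg {om : ℝ → ℝ} {a : ℝ} (h : Om om a) {m : ℕ} {u u' : ℝ → ℝ} (hu : Reg m u u') :
    Reg m (fun r => u (tm om r)) (fun r => u' (tm om r) * (om r * r / tm om r)) := by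
  have h0 : tm om 0 = 0 := h.tm_eq le_rfl h.pos.le
  have hev : ∀ᶠ r in 𝓝[>] (0 : ℝ), 0 < r ∧ r ≤ a := Ioc_mem_nhdsGT h.pos
  have hc : ContinuousOn (tm om) (Ioi 0) := h.tm_contOn.mono Ioi_subset_Ici_self
  refine ⟨fun r hr => ?_, ?_, ?_, fun hm => ?_, ?_⟩
  · exact (hu.der (tm om r) (h.tm_pos hr)).comp r (h.tm_deriv hr)
  · refine (hu.cont.comp hc fun r hr => h.tm_pos hr).mul ?_
    exact (h.cont.continuousOn.mul continuousOn_id).div hc fun r hr => (h.tm_pos hr).ne'
  · show Tendsto (fun r => u (tm om r)) (𝓝[>] 0) (𝓝 (u (tm om 0)))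
    rw [h0]
    refine hu.lim.congr' ?_
    filter_upwards [hev] with r hr
    rw [h.tm_eq hr.1.le hr.2]
  · show u (tm om 0) = 0
    rw [h0]
    exact hu.zero hm
  · obtain ⟨c, h1, h2⟩ := hu.slope
    refine ⟨c, h1.congr' ?_, h2⟩
    filter_upwards [hev] with r hr
    rw [h.tm_eq hr.1.le hr.2, h.one r hr.2, one_mul, div_self hr.1.ne', mul_one]

end Pool.Agent.NSY
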