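import Pool.Agent.NSY.Defs
import Pool.Agent.NSY.TmP
import Pool.Agent.NSY.RegB
import Pool.Agent.NSY.EnId
import Pool.Agent.NSY.Key
import Pool.Agent.NSY.TmR

/-!
# NSY-EnL: energy of the transported eigenfunction

Pointwise inequality of the integrands (`enl_pt`, with `REig.key` for `r ≥ a`), then integration; all functions are
bounded and measurable on `(0, R]` (`enl_int`).
-/

set_option autoImplicit false

open MeasureTheory Set Filter Topology
open Pool.Agent.Neu (E D mu)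
open Pool.Agent.Neu.Discx (P)

namespace Pool.Agent.NSY

/-- integrability of `ω f` for `f` continuous and bounded -/
private theorem enl_int {ω f : ℝ → ℝ} (hm : Measurable ω) (h01 : ∀ r, 0 ≤ ω r ∧ ω r ≤ 1) {R C : ℝ}
    (hR : 0 < R) (hf : ContinuousOn f (Ioi 0)) (hC : ∀ r, 0 < r → r ≤ R → |f r| ≤ C) :
    IntervalIntegrable (fun r => ω r * f r) volume 0 R := by
  rw [intervalIntegrable_iff_integrableOn_Ioc_of_le hR.le]
  have hf' : ContinuousOn f (Ioc 0 R) := hf.mono fun r hr => hr.1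
  refine Integrable.of_bound
    (hm.aestronglyMeasurable.restrict.mul (hf'.aestronglyMeasurable measurableSet_Ioc)) C ?_
  refine (ae_restrict_iff' measurableSet_Ioc).2 (Eventually.of_forall fun r hr => ?_)
  rw [Real.norm_eq_abs, abs_mul, abs_of_nonneg (h01 r).1]
  have h1 := hC r hr.1 hr.2
  have h2 := mul_le_mul (h01 r).2 h1 (abs_nonneg _) zero_le_one
  rwa [one_mul] at h2

/-- the pointwise inequality -/
private theorem enl_pt {om : ℝ → ℝ} {a : ℝ} (h : Om om a) {m : ℕ} {K : ℝ} {u u' : ℝ → ℝ}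
    (hu : REig m K u u') {w : ℝ} (hw : 0 ≤ w) {r : ℝ} (hr : 0 < r) :
    w * (((u' (tm om r) * (om r * r / tm om r)) ^ 2 + (m : ℝ) ^ 2 * (u (tm om r) / r) ^ 2) * r) ≤
      w * ((u' (tm om r) ^ 2 + (m : ℝ) ^ 2 * (u (tm om r) / tm om r) ^ 2) * r) +
        K / a ^ 4 * (w * r ^ 3 - w * (tm om r ^ 2 * r)) := by
  have hT := h.tm_pos hr
  have hTr := h.tm_le hr.le
  have hK := hu.K_nonneg
  have ho0 := h.nonneg r
  have ho1 := h.le_one r
  have ha := h.pos
  have e1 : (u' (tm om r) * (om r * r / tm om r)) ^ 2 ≤ u' (tm om r) ^ 2 * (r ^ 2 / tm om r ^ 2) := by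
    have e2 : (u' (tm om r) * (om r * r / tm om r)) ^ 2 =
        om r ^ 2 * (u' (tm om r) ^ 2 * (r ^ 2 / tm om r ^ 2)) := by ring
    rw [e2]
    have e3 : om r ^ 2 ≤ 1 := pow_le_one₀ ho0 ho1
    exact mul_le_of_le_one_left (by positivity) e3
  have e2 : (u (tm om r) / r) ^ 2 ≤ (u (tm om r) / tm om r) ^ 2 := by
    rw [div_pow, div_pow]
    exact div_le_div_of_nonneg_left (sq_nonneg _) (pow_pos hT 2) (pow_le_pow_left₀ hT.le hTr 2)
  have e3 : u' (tm om r) ^ 2 * (r ^ 2 / tm om r ^ 2) =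
      u' (tm om r) ^ 2 + u' (tm om r) ^ 2 / tm om r ^ 2 * (r ^ 2 - tm om r ^ 2) := by
    field_simp
    ring
  have e4 : u' (tm om r) ^ 2 / tm om r ^ 2 * (r ^ 2 - tm om r ^ 2) ≤
      K / a ^ 4 * (r ^ 2 - tm om r ^ 2) := by
    rcases le_total r a with hra | hra
    · rw [h.tm_eq hr.le hra, sub_self, mul_zero, mul_zero]
    · have haT := h.le_tm hra
      have e5 : 0 ≤ r ^ 2 - tm om r ^ 2 := sub_nonneg.2 (pow_le_pow_left₀ hT.le hTr 2)
      refine mul_le_mul_of_nonneg_right ?_ e5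
      have e6 := hu.key hT
      have e7 : u' (tm om r) ^ 2 ≤ K / tm om r ^ 2 := by
        rw [le_div_iff₀ (pow_pos hT 2), mul_comm]
        exact e6
      have e8 : K / tm om r ^ 2 ≤ K / a ^ 2 :=
        div_le_div_of_nonneg_left hK (pow_pos ha 2) (pow_le_pow_left₀ ha.le haT 2)
      calc u' (tm om r) ^ 2 / tm om r ^ 2 ≤ K / a ^ 2 / tm om r ^ 2 :=
            div_le_div_of_nonneg_right (e7.trans e8) (sq_nonneg _)
        _ ≤ K / a ^ 2 / a ^ 2 := div_le_div_of_nonneg_left (div_nonneg hK (sq_nonneg _)) (pow_pos ha 2)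
            (pow_le_pow_left₀ ha.le haT 2)
        _ = K / a ^ 4 := by rw [div_div, ← pow_add]
  have e5 : (u' (tm om r) * (om r * r / tm om r)) ^ 2 + (m : ℝ) ^ 2 * (u (tm om r) / r) ^ 2 ≤
      (u' (tm om r) ^ 2 + (m : ℝ) ^ 2 * (u (tm om r) / tm om r) ^ 2) +
        K / a ^ 4 * (r ^ 2 - tm om r ^ 2) := by
    have e6 := mul_le_mul_of_nonneg_left e2 (sq_nonneg (m : ℝ))
    linarith
  calc w * (((u' (tm om r) * (om r * r / tm om r)) ^ 2 + (m : ℝ) ^ 2 * (u (tm om r) / r) ^ 2) * r)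
      ≤ w * (((u' (tm om r) ^ 2 + (m : ℝ) ^ 2 * (u (tm om r) / tm om r) ^ 2) +
        K / a ^ 4 * (r ^ 2 - tm om r ^ 2)) * r) :=
        mul_le_mul_of_nonneg_left (mul_le_mul_of_nonneg_right e5 hr.le) hw
    _ = _ := by ring

theorem energy_le {om : ℝ → ℝ} {a : ℝ} (h : Om om a) {m : ℕ} {K : ℝ} {u u' : ℝ → ℝ}
    (hu : REig m K u u') {ω : ℝ → ℝ} (hm : Measurable ω) (h01 : ∀ r, 0 ≤ ω r ∧ ω r ≤ 1) {R : ℝ}
    (hR : 0 < R) :
    ∫ r in (0 : ℝ)..R, ω r * ((u' (tm om r) * (om r * r / tm om r)) ^ 2 +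
        (m : ℝ) ^ 2 * (u (tm om r) / r) ^ 2) * r ≤
      (∫ r in (0 : ℝ)..R,
        ω r * (u' (tm om r) ^ 2 + (m : ℝ) ^ 2 * (u (tm om r) / tm om r) ^ 2) * r) +
      K / a ^ 4 * ((∫ r in (0 : ℝ)..R, ω r * r ^ 3) -
        ∫ r in (0 : ℝ)..R, ω r * tm om r ^ 2 * r) := by
  obtain ⟨C, hC0, hC⟩ := reg_bd (h.reg hu.reg) R
  obtain ⟨B, hB0, hB⟩ := hu.bd
  have hreg := h.reg hu.reg
  have htc : ContinuousOn (tm om) (Ioi 0) := h.tm_contOn.mono Ioi_subset_Ici_self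
  have htm : MapsTo (tm om) (Ioi 0) (Ioi 0) := fun r hr => h.tm_pos hr
  have huc : ContinuousOn (fun r => u (tm om r)) (Ioi 0) :=
    fun r hr => (hreg.der r hr).continuousAt.continuousWithinAt
  have huc' : ContinuousOn (fun r => u' (tm om r)) (Ioi 0) := hu.reg.cont.comp htc htm
  have hidc : ContinuousOn (fun r : ℝ => r) (Ioi 0) := continuousOn_id
  -- the first function
  have hf1c : ContinuousOn (fun r => ((u' (tm om r) * (om r * r / tm om r)) ^ 2 +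
      (m : ℝ) ^ 2 * (u (tm om r) / r) ^ 2) * r) (Ioi 0) :=
    ((hreg.cont.pow 2).add (continuousOn_const.mul
      ((huc.div hidc fun r hr => (ne_of_gt hr)).pow 2))).mul hidc
  have hf1b : ∀ r, 0 < r → r ≤ R → |((u' (tm om r) * (om r * r / tm om r)) ^ 2 +
      (m : ℝ) ^ 2 * (u (tm om r) / r) ^ 2) * r| ≤ (C ^ 2 + (m : ℝ) ^ 2 * C ^ 2) * R := by
    intro r hr hrR
    obtain ⟨-, h2, h3⟩ := hC r hr hrR
    have e1 : (u' (tm om r) * (om r * r / tm om r)) ^ 2 ≤ C ^ 2 := by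
      rw [← sq_abs]
      exact pow_le_pow_left₀ (abs_nonneg _) h2 2
    have e2 : (m : ℝ) ^ 2 * (u (tm om r) / r) ^ 2 ≤ (m : ℝ) ^ 2 * C ^ 2 := by
      rcases Nat.eq_zero_or_pos m with hm0 | hm0
      · rw [hm0]; simp
      · have h4 := h3 (Nat.pos_iff_ne_zero.1 hm0)
        refine mul_le_mul_of_nonneg_left ?_ (sq_nonneg _)
        rw [← sq_abs, abs_div, abs_of_pos hr]
        refine pow_le_pow_left₀ (by positivity) ?_ 2
        rwa [div_le_iff₀ hr]
    rw [abs_of_nonneg (by positivity)]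
    exact mul_le_mul (add_le_add e1 e2) hrR hr.le (by positivity)
  -- the second function
  have hf2c : ContinuousOn (fun r => (u' (tm om r) ^ 2 +
      (m : ℝ) ^ 2 * (u (tm om r) / tm om r) ^ 2) * r) (Ioi 0) :=
    ((huc'.pow 2).add (continuousOn_const.mul
      ((huc.div htc fun r hr => (h.tm_pos hr).ne').pow 2))).mul hidc
  have hf2b : ∀ r, 0 < r → r ≤ R → |(u' (tm om r) ^ 2 +
      (m : ℝ) ^ 2 * (u (tm om r) / tm om r) ^ 2) * r| ≤ (B ^ 2 + (m : ℝ) ^ 2 * B ^ 2) * R := by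
    intro r hr hrR
    have hT := h.tm_pos hr
    obtain ⟨-, h2, h3⟩ := hB _ hT
    have e1 : u' (tm om r) ^ 2 ≤ B ^ 2 := by
      rw [← sq_abs]
      exact pow_le_pow_left₀ (abs_nonneg _) h2 2
    have e2 : (m : ℝ) ^ 2 * (u (tm om r) / tm om r) ^ 2 ≤ (m : ℝ) ^ 2 * B ^ 2 := by
      rcases Nat.eq_zero_or_pos m with hm0 | hm0
      · rw [hm0]; simp
      · have h4 := h3 (Nat.pos_iff_ne_zero.1 hm0)
        refine mul_le_mul_of_nonneg_left ?_ (sq_nonneg _)
        rw [← sq_abs, abs_div, abs_of_pos hT]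
        refine pow_le_pow_left₀ (by positivity) ?_ 2
        rwa [div_le_iff₀ hT]
    rw [abs_of_nonneg (by positivity)]
    exact mul_le_mul (add_le_add e1 e2) hrR hr.le (by positivity)
  -- the other functions
  have hf3b : ∀ r, 0 < r → r ≤ R → |r ^ 3| ≤ R ^ 3 := by
    intro r hr hrR
    rw [abs_of_nonneg (by positivity)]
    exact pow_le_pow_left₀ hr.le hrR 3
  have hf4b : ∀ r, 0 < r → r ≤ R → |tm om r ^ 2 * r| ≤ R ^ 2 * R := by
    intro r hr hrR
    have hT := h.tm_pos hr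
    rw [abs_of_nonneg (by positivity)]
    exact mul_le_mul (pow_le_pow_left₀ hT.le ((h.tm_le hr.le).trans hrR) 2) hrR hr.le (by positivity)
  have i1 := enl_int hm h01 hR hf1c hf1b
  have i2 := enl_int hm h01 hR hf2c hf2b
  have i3 : IntervalIntegrable (fun r => ω r * r ^ 3) volume 0 R := enl_int hm h01 hR (hidc.pow 3) hf3b
  have i4 : IntervalIntegrable (fun r => ω r * (tm om r ^ 2 * r)) volume 0 R :=
    enl_int hm h01 hR ((htc.pow 2).mul hidc) hf4b
  have key : ∫ r in (0 : ℝ)..R, ω r * (((u' (tm om r) * (om r * r / tm om r)) ^ 2 +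
        (m : ℝ) ^ 2 * (u (tm om r) / r) ^ 2) * r) ≤
      ∫ r in (0 : ℝ)..R, (ω r * ((u' (tm om r) ^ 2 + (m : ℝ) ^ 2 * (u (tm om r) / tm om r) ^ 2) * r) +
        K / a ^ 4 * (ω r * r ^ 3 - ω r * (tm om r ^ 2 * r))) := by
    refine intervalIntegral.integral_mono_on_of_le_Ioo hR.le i1 (i2.add ((i3.sub i4).const_mul _)) ?_
    intro r hr
    exact enl_pt h hu (h01 r).1 hr.1
  rw [intervalIntegral.integral_add i2 ((i3.sub i4).const_mul _),
    intervalIntegral.integral_const_mul, intervalIntegral.integral_sub i3 i4] at key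
  have c1 : ∀ r : ℝ, ω r * ((u' (tm om r) * (om r * r / tm om r)) ^ 2 +
        (m : ℝ) ^ 2 * (u (tm om r) / r) ^ 2) * r = ω r * (((u' (tm om r) * (om r * r / tm om r)) ^ 2 +
        (m : ℝ) ^ 2 * (u (tm om r) / r) ^ 2) * r) := fun r => mul_assoc _ _ _
  have c2 : ∀ r : ℝ, ω r * (u' (tm om r) ^ 2 + (m : ℝ) ^ 2 * (u (tm om r) / tm om r) ^ 2) * r =
      ω r * ((u' (tm om r) ^ 2 + (m : ℝ) ^ 2 * (u (tm om r) / tm om r) ^ 2) * r) :=
    fun r => mul_assoc _ _ _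
  have c3 : ∀ r : ℝ, ω r * tm om r ^ 2 * r = ω r * (tm om r ^ 2 * r) := fun r => mul_assoc _ _ _
  simp only [c1, c2, c3]
  exact key

end Pool.Agent.NSY
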