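import Pool.Agent.NSY.Defs

/-!
# NSY-LamF: the lowest eigenvalue of a sector

The quotients of the definition of `lam` are nonnegative, increasing in `m`, and at least `m²`; the function `f² / r` is
continuous if `f` is differentiable and `f 0 = 0`.
-/

set_option autoImplicit false

open MeasureTheory Set Filter Topology
open Pool.Agent.Neu (E D mu)
open Pool.Agent.Neu.Discx (P)

namespace Pool.Agent.NSY

private theorem lamF_cont {f f' : ℝ → ℝ} (hf : ∀ r, HasDerivAt f (f' r) r) : Continuous f :=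
  continuous_iff_continuousAt.2 fun r => (hf r).continuousAt

private theorem lamF_div {f f' : ℝ → ℝ} (hf : ∀ r, HasDerivAt f (f' r) r) (h0 : f 0 = 0) :
    Continuous fun r => f r ^ 2 / r := by
  have h1 : Continuous (dslope f 0) := by
    rw [← continuousOn_univ]
    exact (continuousOn_dslope univ_mem).2 ⟨(lamF_cont hf).continuousOn, (hf 0).differentiableAt⟩
  have h2 : (fun r => f r ^ 2 / r) = fun r => f r * dslope f 0 r := by
    funext r
    by_cases hr : r = 0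
    · subst hr
      rw [h0, div_zero, zero_mul]
    · rw [dslope_of_ne _ hr, slope_def_field, h0, sub_zero, sub_zero]
      ring
  rw [h2]
  exact (lamF_cont hf).mul h1

private theorem lamF_int {f f' : ℝ → ℝ} (hf : ∀ r, HasDerivAt f (f' r) r) (hf' : Continuous f')
    (h0 : f 0 = 0) (m : ℕ) : Continuous fun r => f' r ^ 2 * r + (m : ℝ) ^ 2 * f r ^ 2 / r := by
  have h1 := lamF_div hf h0
  have h2 : (fun r => f' r ^ 2 * r + (m : ℝ) ^ 2 * f r ^ 2 / r) =
      fun r => f' r ^ 2 * r + (m : ℝ) ^ 2 * (f r ^ 2 / r) := by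
    funext r
    rw [mul_div_assoc]
  rw [h2]
  fun_prop

private theorem lamF_nonneg {f f' : ℝ → ℝ} (m : ℕ) :
    0 ≤ ∫ r in (0 : ℝ)..1, (f' r ^ 2 * r + (m : ℝ) ^ 2 * f r ^ 2 / r) := by
  refine intervalIntegral.integral_nonneg zero_le_one fun r hr => ?_
  have := hr.1
  positivity

private theorem lamF_pos {f : ℝ → ℝ} : 0 ≤ ∫ r in (0 : ℝ)..1, f r ^ 2 * r :=
  intervalIntegral.integral_nonneg zero_le_one fun r hr => mul_nonneg (sq_nonneg _) hr.1

theorem lam_le {m m' : ℕ} (hm : m ≤ m') {f f' : ℝ → ℝ} (hf : ∀ r, HasDerivAt f (f' r) r)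
    (hf' : Continuous f') (h0 : f 0 = 0) :
    lam m * (∫ r in (0 : ℝ)..1, f r ^ 2 * r) ≤
      ∫ r in (0 : ℝ)..1, (f' r ^ 2 * r + (m' : ℝ) ^ 2 * f r ^ 2 / r) := by
  by_cases hI : (∫ r in (0 : ℝ)..1, f r ^ 2 * r) = 0
  · rw [hI, mul_zero]
    exact lamF_nonneg m'
  have hI0 : 0 < ∫ r in (0 : ℝ)..1, f r ^ 2 * r := lt_of_le_of_ne lamF_pos (Ne.symm hI)
  have h1 : lam m ≤ (∫ r in (0 : ℝ)..1, (f' r ^ 2 * r + (m : ℝ) ^ 2 * f r ^ 2 / r)) /
      (∫ r in (0 : ℝ)..1, f r ^ 2 * r) := by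
    refine csInf_le ⟨0, ?_⟩ ⟨f, f', hf, hf', h0, hI, rfl⟩
    rintro q ⟨g, g', -, -, -, -, rfl⟩
    exact div_nonneg (lamF_nonneg m) lamF_pos
  have h2 := (le_div_iff₀ hI0).1 h1
  refine h2.trans ?_
  refine intervalIntegral.integral_mono_on zero_le_one ((lamF_int hf hf' h0 m).intervalIntegrable _ _)
    ((lamF_int hf hf' h0 m').intervalIntegrable _ _) fun r hr => ?_
  have h3 : (m : ℝ) ^ 2 ≤ (m' : ℝ) ^ 2 :=
    pow_le_pow_left₀ (Nat.cast_nonneg _) (by exact_mod_cast hm) 2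
  have h4 : 0 ≤ f r ^ 2 / r := div_nonneg (sq_nonneg _) hr.1
  have h5 := mul_le_mul_of_nonneg_right h3 h4
  rw [mul_div_assoc, mul_div_assoc]
  linarith

theorem sq_le_lam (m : ℕ) : (m : ℝ) ^ 2 ≤ lam m := by
  refine le_csInf ⟨_, fun r => r, fun _ => 1, fun r => hasDerivAt_id r, continuous_const, rfl, ?_, rfl⟩ ?_
  · have h1 : (∫ r in (0 : ℝ)..1, (fun r : ℝ => r) r ^ 2 * r) = 1 / 4 := by
      have h2 : ∀ r : ℝ, r ^ 2 * r = r ^ 3 := fun r => by ring
      simp only [h2, integral_pow]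
      norm_num
    rw [h1]
    norm_num
  · rintro q ⟨f, f', hf, hf', h0, hI, rfl⟩
    have hI0 : 0 < ∫ r in (0 : ℝ)..1, f r ^ 2 * r := lt_of_le_of_ne lamF_pos (Ne.symm hI)
    rw [le_div_iff₀ hI0, ← intervalIntegral.integral_const_mul]
    have hc := lamF_cont hf
    refine intervalIntegral.integral_mono_on zero_le_one
      ((by fun_prop : Continuous fun r => (m : ℝ) ^ 2 * (f r ^ 2 * r)).intervalIntegrable _ _)
      ((lamF_int hf hf' h0 m).intervalIntegrable _ _) fun r hr => ?_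
    have h1 : f r ^ 2 * r ≤ f r ^ 2 / r := by
      rcases hr.1.eq_or_lt with h | h
      · rw [← h, mul_zero, div_zero]
      · rw [le_div_iff₀ h]
        have h2 : r * r ≤ 1 := by nlinarith [hr.2]
        have h3 := mul_le_mul_of_nonneg_left h2 (sq_nonneg (f r))
        nlinarith
    have h4 := mul_le_mul_of_nonneg_left h1 (sq_nonneg (m : ℝ))
    have h5 : 0 ≤ f' r ^ 2 * r := mul_nonneg (sq_nonneg _) hr.1
    rw [mul_div_assoc]
    linarith

end Pool.Agent.NSY
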