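import Pool.Agent.NSY.Defs

/-!
# NSY-G0c: the kernel of the sector 0

PLAN. `G0_cont`: away from the origin `max t s > 0`; at the origin the value is 0 and
`|√t √s log (max t s)| ≤ max |log max| → 0` (`Real.tendsto_log_mul_rpow_nhdsGT_zero`-type limit: `x log x → 0`), the other terms are bounded.
`G0_int`: split at `t` (`h s s` is bounded by `C √s`, `log s · s · h s` is integrable) and expand: for `s < t` `max = t`, for `s > t` `max = s`.
`V0_mean`: Fubini, `∫_0^1 G0 t s t dt = (1 - s²)/4 + s²/4 + 1/8 - 3/8 = 0`; or differentiate: with `H t = ∫_0^t h s s ds`,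
`∫_0^1 V0 h t · t dt` by parts. A simple way: `V0 h = ∫ G0 t s (h s s)` and swap.
-/

set_option autoImplicit false

open MeasureTheory Set Filter Topology
open Pool.Agent.Neu (E D mu)
open Pool.Agent.Neu.Discx (P)

namespace Pool.Agent.NSY

private theorem sqrt_mul_sqrt_le_max {a b : ℝ} (ha : 0 ≤ a) :
    √a * √b ≤ max a b := by
  have h1 : √a ≤ √(max a b) := Real.sqrt_le_sqrt (le_max_left _ _)
  have h2 : √b ≤ √(max a b) := Real.sqrt_le_sqrt (le_max_right _ _)
  calc √a * √b ≤ √(max a b) * √(max a b) :=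
        mul_le_mul h1 h2 (Real.sqrt_nonneg _) (Real.sqrt_nonneg _)
    _ = max a b := Real.mul_self_sqrt (ha.trans (le_max_left _ _))

private theorem log_cont : ContinuousOn (fun p : ℝ × ℝ => √p.1 * √p.2 * Real.log (max p.1 p.2))
    (Icc 0 1 ×ˢ Icc 0 1) := by
  intro p hp
  have hp1 : 0 ≤ p.1 := hp.1.1
  have hp2 : 0 ≤ p.2 := hp.2.1
  rcases eq_or_lt_of_le (hp1.trans (le_max_left p.1 p.2)) with h0 | h0
  · unfold ContinuousWithinAt
    simp only [← h0, Real.log_zero, mul_zero]
    apply squeeze_zero_norm' (a := fun q : ℝ × ℝ => |max q.1 q.2 * Real.log (max q.1 q.2)|)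
    · filter_upwards [self_mem_nhdsWithin] with q hq
      have hq1 : 0 ≤ q.1 := hq.1.1
      rw [Real.norm_eq_abs, abs_mul, abs_mul (max q.1 q.2)]
      apply mul_le_mul_of_nonneg_right _ (abs_nonneg _)
      rw [abs_of_nonneg (mul_nonneg (Real.sqrt_nonneg _) (Real.sqrt_nonneg _)),
        abs_of_nonneg (hq1.trans (le_max_left _ _))]
      exact sqrt_mul_sqrt_le_max hq1
    · have h1 : Continuous (fun q : ℝ × ℝ => |max q.1 q.2 * Real.log (max q.1 q.2)|) :=
        (Real.continuous_mul_log.comp (continuous_fst.max continuous_snd)).abs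
      have h2 := h1.tendsto p
      simp only [← h0, zero_mul, abs_zero] at h2
      exact h2.mono_left nhdsWithin_le_nhds
  · apply ContinuousAt.continuousWithinAt
    have h1 : ContinuousAt (fun q : ℝ × ℝ => √q.1 * √q.2) p :=
      ((Real.continuous_sqrt.comp continuous_fst).mul
        (Real.continuous_sqrt.comp continuous_snd)).continuousAt
    have h2 : ContinuousAt (fun q : ℝ × ℝ => Real.log (max q.1 q.2)) p :=
      ContinuousAt.log ((continuous_fst.max continuous_snd).continuousAt) h0.ne'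
    exact h1.mul h2

theorem G0_cont :
    ContinuousOn (fun p : ℝ × ℝ => √p.1 * √p.2 * G0 p.1 p.2) (Icc 0 1 ×ˢ Icc 0 1) := by
  have h1 : ContinuousOn (fun p : ℝ × ℝ => √p.1 * √p.2 * ((p.1 ^ 2 + p.2 ^ 2) / 2 - 3 / 4))
      (Icc 0 1 ×ˢ Icc 0 1) := by
    apply Continuous.continuousOn
    fun_prop
  have h2 := h1.sub log_cont
  refine h2.congr ?_
  intro p _
  simp only [G0, Pi.sub_apply]
  ring

theorem G0_symm (t s : ℝ) : G0 t s = G0 s t := by
  unfold G0
  rw [max_comm, add_comm (t ^ 2)]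

private theorem sq_int {h : ℝ → ℝ} (hh : Sq h) {g : ℝ → ℝ} (hg : ContinuousOn g (Icc 0 1)) :
    IntervalIntegrable (fun s => g s * (h s * s)) volume 0 1 := by
  obtain ⟨hc, C, hC⟩ := hh
  obtain ⟨M, hM⟩ := isCompact_Icc.exists_bound_of_continuousOn hg
  rw [intervalIntegrable_iff_integrableOn_Ioc_of_le zero_le_one]
  refine ⟨((hg.mono Ioc_subset_Icc_self).mul (hc.mul continuousOn_id)).aestronglyMeasurable
    measurableSet_Ioc, ?_⟩
  refine HasFiniteIntegral.of_bounded (C := M * C) ?_
  rw [ae_restrict_iff' measurableSet_Ioc]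
  filter_upwards with t ht
  have h1 := hM t (Ioc_subset_Icc_self ht)
  have h2 := hC t ht
  have h3 : √t ≤ 1 := Real.sqrt_le_one.2 ht.2
  have h4 : |h t * t| ≤ C := by
    have e : t = √t * √t := (Real.mul_self_sqrt ht.1.le).symm
    have e2 : |h t * t| = √t * (√t * |h t|) := by
      rw [abs_mul, abs_of_pos ht.1]
      nth_rewrite 2 [e]
      ring
    rw [e2]
    calc √t * (√t * |h t|) ≤ 1 * (√t * |h t|) :=
          mul_le_mul_of_nonneg_right h3 (mul_nonneg (Real.sqrt_nonneg _) (abs_nonneg _))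
      _ ≤ C := by rw [one_mul]; exact h2
  rw [norm_mul]
  exact mul_le_mul h1 h4 (abs_nonneg _) ((norm_nonneg _).trans h1)

private theorem sq_int_log {h : ℝ → ℝ} (hh : Sq h) {t : ℝ} (ht : t ∈ Ioc (0 : ℝ) 1) :
    IntervalIntegrable (fun s => Real.log s * (h s * s)) volume t 1 := by
  apply ContinuousOn.intervalIntegrable
  rw [uIcc_of_le ht.2]
  have hsub : Icc t 1 ⊆ Ioc (0 : ℝ) 1 := fun s hs => ⟨ht.1.trans_le hs.1, hs.2⟩
  apply ContinuousOn.mul
  · exact ContinuousOn.log continuousOn_id (fun s hs => (hsub hs).1.ne')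
  · exact (hh.1.mono hsub).mul continuousOn_id

theorem G0_int {h : ℝ → ℝ} (hh : Sq h) {t : ℝ} (ht : t ∈ Ioc (0 : ℝ) 1) :
    ∫ s in (0 : ℝ)..1, G0 t s * (h s * s) = V0 h t := by
  have i0 : IntervalIntegrable (fun s => h s * s) volume 0 1 := by
    have := sq_int hh (g := fun _ => 1) continuousOn_const
    simpa only [one_mul] using this
  have i1 : IntervalIntegrable (fun s => (t ^ 2 / 2 - 3 / 4) * (h s * s)) volume 0 1 :=
    i0.const_mul _
  have i2 : IntervalIntegrable (fun s => h s * s ^ 3) volume 0 1 := by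
    have := sq_int hh (g := fun s => s ^ 2) (continuous_pow 2).continuousOn
    refine this.congr ?_
    intro s _
    ring
  have i0t : IntervalIntegrable (fun s => h s * s) volume 0 t :=
    i0.mono_set (by
      rw [uIcc_of_le ht.1.le, uIcc_of_le zero_le_one]
      exact Icc_subset_Icc_right ht.2)
  have c1 : EqOn (fun s => Real.log t * (h s * s)) (fun s => Real.log (max t s) * (h s * s))
      (uIoc 0 t) := by
    intro s hs
    rw [uIoc_of_le ht.1.le] at hs
    simp only [max_eq_left hs.2]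
  have c2 : EqOn (fun s => Real.log s * (h s * s)) (fun s => Real.log (max t s) * (h s * s))
      (uIoc t 1) := by
    intro s hs
    rw [uIoc_of_le ht.2] at hs
    simp only [max_eq_right hs.1.le]
  have i3 : IntervalIntegrable (fun s => Real.log (max t s) * (h s * s)) volume 0 t :=
    (i0t.const_mul (Real.log t)).congr c1
  have i4 : IntervalIntegrable (fun s => Real.log (max t s) * (h s * s)) volume t 1 :=
    (sq_int_log hh ht).congr c2
  have e1 : ∫ s in (0 : ℝ)..t, Real.log (max t s) * (h s * s) =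
      Real.log t * ∫ s in (0 : ℝ)..t, h s * s := by
    rw [← intervalIntegral.integral_const_mul]
    apply intervalIntegral.integral_congr_ae
    filter_upwards with s hs
    exact (c1 hs).symm
  have e2 : ∫ s in t..1, Real.log (max t s) * (h s * s) =
      ∫ s in t..1, Real.log s * (h s * s) := by
    apply intervalIntegral.integral_congr_ae
    filter_upwards with s hs
    exact (c2 hs).symm
  have e3 : ∫ s in (0 : ℝ)..1, Real.log (max t s) * (h s * s) =
      Real.log t * (∫ s in (0 : ℝ)..t, h s * s) + ∫ s in t..1, Real.log s * (h s * s) := by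
    rw [← e1, ← e2, intervalIntegral.integral_add_adjacent_intervals i3 i4]
  have i5 : IntervalIntegrable (fun s => Real.log (max t s) * (h s * s)) volume 0 1 :=
    i3.trans i4
  have e4 : ∫ s in (0 : ℝ)..1, G0 t s * (h s * s) =
      ∫ s in (0 : ℝ)..1, ((t ^ 2 / 2 - 3 / 4) * (h s * s) + h s * s ^ 3 / 2 -
        Real.log (max t s) * (h s * s)) := by
    congr 1
    funext s
    simp only [G0]
    ring
  rw [e4, intervalIntegral.integral_sub (i1.add (i2.div_const 2)) i5,
    intervalIntegral.integral_add i1 (i2.div_const 2), intervalIntegral.integral_const_mul,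
    intervalIntegral.integral_div, e3]
  unfold V0
  ring

private theorem sq_one : Sq (fun _ => (1 : ℝ)) := by
  refine ⟨continuousOn_const, 1, fun t ht => ?_⟩
  rw [abs_one, mul_one]
  exact Real.sqrt_le_one.2 ht.2

private theorem V0_one {t : ℝ} (ht : t ∈ Ioc (0 : ℝ) 1) : V0 (fun _ => 1) t = 0 := by
  have hlog : ∫ s in t..1, Real.log s * (1 * s) =
      -(1 / 4) - (t ^ 2 * Real.log t / 2 - t ^ 2 / 4) := by
    have hd : ∀ s ∈ uIcc t 1, HasDerivAt (fun s => s ^ 2 * Real.log s / 2 - s ^ 2 / 4)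
        (Real.log s * (1 * s)) s := by
      intro s hs
      rw [uIcc_of_le ht.2] at hs
      have hs0 : s ≠ 0 := (ht.1.trans_le hs.1).ne'
      have h1 := (((hasDerivAt_pow 2 s).mul (Real.hasDerivAt_log hs0)).div_const 2).sub
        ((hasDerivAt_pow 2 s).div_const 4)
      refine h1.congr_deriv ?_
      simp only [Nat.cast_ofNat, Nat.add_one_sub_one, pow_one]
      field_simp
      ring
    have hi := sq_int_log sq_one ht
    rw [intervalIntegral.integral_eq_sub_of_hasDerivAt hd hi]
    rw [Real.log_one]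
    ring
  have h0 : ∫ s in (0 : ℝ)..t, (1 : ℝ) * s = t ^ 2 / 2 := by
    simp only [one_mul]
    rw [integral_id]
    ring
  have h1 : ∫ s in (0 : ℝ)..1, (1 : ℝ) * s = 1 / 2 := by
    simp only [one_mul]
    rw [integral_id]
    ring
  have h3 : ∫ s in (0 : ℝ)..1, (1 : ℝ) * s ^ 3 = 1 / 4 := by
    simp only [one_mul]
    rw [integral_pow]
    norm_num
  unfold V0
  rw [hlog, h0, h1, h3]
  ring

theorem V0_mean {h : ℝ → ℝ} (hh : Sq h) : ∫ t in (0 : ℝ)..1, V0 h t * t = 0 := by
  have hG : IntegrableOn (fun p : ℝ × ℝ => G0 p.1 p.2 * (h p.2 * p.2) * p.1)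
      (Ioc 0 1 ×ˢ Ioc 0 1) := by
    obtain ⟨hc, C, hC⟩ := hh
    obtain ⟨M, hM⟩ := (isCompact_Icc.prod isCompact_Icc).exists_bound_of_continuousOn G0_cont
    have hcG : ContinuousOn (fun p : ℝ × ℝ => G0 p.1 p.2) (Ioc 0 1 ×ˢ Ioc 0 1) := by
      unfold G0
      apply ContinuousOn.sub _ continuousOn_const
      apply ContinuousOn.add
      · apply ContinuousOn.neg
        apply ContinuousOn.log (continuous_fst.max continuous_snd).continuousOn
        intro p hp
        exact (lt_of_lt_of_le hp.1.1 (le_max_left _ _)).ne'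
      · apply Continuous.continuousOn
        fun_prop
    have hc2 : ContinuousOn (fun p : ℝ × ℝ => h p.2) (Ioc 0 1 ×ˢ Ioc 0 1) :=
      hc.comp continuous_snd.continuousOn (fun p hp => hp.2)
    refine ⟨((hcG.mul (hc2.mul continuous_snd.continuousOn)).mul
      continuous_fst.continuousOn).aestronglyMeasurable
      (measurableSet_Ioc.prod measurableSet_Ioc), ?_⟩
    have : IsFiniteMeasure ((volume : Measure (ℝ × ℝ)).restrict (Ioc 0 1 ×ˢ Ioc 0 1)) := by
      refine ⟨?_⟩
      rw [Measure.restrict_apply_univ]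
      refine lt_of_le_of_lt (measure_mono (prod_mono Ioc_subset_Icc_self Ioc_subset_Icc_self)) ?_
      exact (isCompact_Icc.prod isCompact_Icc).measure_lt_top
    refine HasFiniteIntegral.of_bounded (C := M * C) ?_
    rw [ae_restrict_iff' (measurableSet_Ioc.prod measurableSet_Ioc)]
    filter_upwards with p hp
    have h1 := hM p ⟨Ioc_subset_Icc_self hp.1, Ioc_subset_Icc_self hp.2⟩
    have h2 := hC p.2 hp.2
    have h3 : √p.1 ≤ 1 := Real.sqrt_le_one.2 hp.1.2
    have e1 : p.1 = √p.1 * √p.1 := (Real.mul_self_sqrt hp.1.1.le).symm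
    have e2 : p.2 = √p.2 * √p.2 := (Real.mul_self_sqrt hp.2.1.le).symm
    have e3 : |G0 p.1 p.2 * (h p.2 * p.2) * p.1| =
        |√p.1 * √p.2 * G0 p.1 p.2| * (√p.2 * |h p.2|) * √p.1 := by
      simp only [abs_mul, abs_of_nonneg (Real.sqrt_nonneg _)]
      rw [abs_of_pos hp.1.1, abs_of_pos hp.2.1]
      calc |G0 p.1 p.2| * (|h p.2| * p.2) * p.1
          = |G0 p.1 p.2| * (|h p.2| * (√p.2 * √p.2)) * (√p.1 * √p.1) := by rw [← e1, ← e2]
        _ = _ := by ring
    rw [Real.norm_eq_abs, e3]
    rw [Real.norm_eq_abs] at h1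
    have hM0 : 0 ≤ M := (abs_nonneg _).trans h1
    have hb0 : 0 ≤ √p.2 * |h p.2| := mul_nonneg (Real.sqrt_nonneg _) (abs_nonneg _)
    calc |√p.1 * √p.2 * G0 p.1 p.2| * (√p.2 * |h p.2|) * √p.1
        ≤ M * C * 1 := by
          refine mul_le_mul (mul_le_mul h1 h2 hb0 hM0) h3 (Real.sqrt_nonneg _) ?_
          exact mul_nonneg hM0 (hb0.trans h2)
      _ = M * C := mul_one _
  have step1 : ∫ t in (0 : ℝ)..1, V0 h t * t =
      ∫ t in Ioc (0 : ℝ) 1, ∫ s in Ioc (0 : ℝ) 1, G0 t s * (h s * s) * t := by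
    rw [intervalIntegral.integral_of_le zero_le_one]
    apply setIntegral_congr_fun measurableSet_Ioc
    intro t ht
    simp only
    rw [integral_mul_const, ← intervalIntegral.integral_of_le zero_le_one, G0_int hh ht]
  have hG' : Integrable (Function.uncurry fun t s => G0 t s * (h s * s) * t)
      ((volume.restrict (Ioc (0 : ℝ) 1)).prod (volume.restrict (Ioc (0 : ℝ) 1))) := by
    rw [Measure.prod_restrict]
    exact hG
  rw [step1, integral_integral_swap hG']
  have step2 : ∀ s ∈ Ioc (0 : ℝ) 1, ∫ t in Ioc (0 : ℝ) 1, G0 t s * (h s * s) * t = 0 := by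
    intro s hs
    have e1 : ∀ t : ℝ, G0 t s * (h s * s) * t = (h s * s) * (G0 s t * (1 * t)) := by
      intro t
      rw [G0_symm t s]
      ring
    simp only [e1]
    rw [integral_const_mul, ← intervalIntegral.integral_of_le zero_le_one]
    rw [G0_int (h := fun _ => 1) sq_one hs, V0_one hs, mul_zero]
  rw [setIntegral_congr_fun measurableSet_Ioc step2]
  exact integral_zero _ _

end Pool.Agent.NSY
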