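import Mathlib
import Pool.Agent.NSY.Defs

/-!
# NSY-KC: operators with continuous kernels are compact

PLAN. Replace `k` by the continuous function `k(clamp t, clamp s)` on `ℝ²` (`clamp t = max 0 (min 1 t)`); uniformly continuous and bounded. For
`g ∈ L²(μ1)` the function `t ↦ ∫_0^1 k t s g s ds` is bounded by `C ‖g‖` and continuous; this defines a bounded linear map
`T : L² → L²` (`LinearMap.mkContinuous`, `MemLp.toLp`, linearity a.e.). COMPACT: for `n ≥ 1` let `k_n t s = k(⌊n t⌋/n, s)`: the operator `T_n` with this kernel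
has finite rank (`∑_{i ≤ n} 1_{[i/n,(i+1)/n)}(t) ∫ k(i/n, s) g s ds`), hence is compact, and `‖T - T_n‖ ≤ sup |k - k_n| → 0`
(uniform continuity); the set of compact operators is closed (`isClosed_setOf_isCompactOperator`, `isCompactOperator_of_tendsto`). ALTERNATIVE: Arzelà-Ascoli for `L² → C([0,1])`
followed by `ContinuousMap.toLp`. Symmetry: Fubini (bounded kernel, `g, h ∈ L² ⊂ L¹`).
-/

set_option autoImplicit false

open MeasureTheory Set Filter Topology
open Pool.Agent.Neu (E D mu)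
open Pool.Agent.Neu.Discx (P)

namespace Pool.Agent.NSY

open scoped BoundedContinuousFunction

private abbrev I1 : Type := Icc (0 : ℝ) 1

private noncomputable def prj : C(ℝ, I1) := ⟨projIcc 0 1 zero_le_one, continuous_projIcc⟩

private noncomputable def cmp : (I1 →ᵇ ℝ) →L[ℝ] (ℝ →ᵇ ℝ) :=
  LinearMap.mkContinuous
    { toFun := fun f => f.compContinuous prj
      map_add' := fun _ _ => rfl
      map_smul' := fun _ _ => rfl } 1 (fun f => by
        rw [one_mul]
        refine (BoundedContinuousFunction.norm_le (norm_nonneg f)).2 (fun x => ?_)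
        exact f.norm_coe_le_norm (prj x))

private noncomputable def JJ : (I1 →ᵇ ℝ) →L[ℝ] Lp ℝ 2 μ1 :=
  (BoundedContinuousFunction.toLp 2 μ1 ℝ).comp cmp

private theorem JJ_coe (f : I1 →ᵇ ℝ) : (JJ f : ℝ → ℝ) =ᵐ[μ1] fun t => f (prj t) :=
  BoundedContinuousFunction.coeFn_toLp 2 μ1 ℝ (cmp f)

/-- the kernel as a continuous function of the first variable -/
private noncomputable def kf (K : C(I1 × I1, ℝ)) (x : I1) : I1 →ᵇ ℝ :=
  ContinuousMap.isometryEquivBoundedOfCompact I1 ℝ (K.curry x)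

private theorem kf_apply (K : C(I1 × I1, ℝ)) (x y : I1) : kf K x y = K (x, y) := rfl

private theorem kf_cont (K : C(I1 × I1, ℝ)) : Continuous (kf K) :=
  (ContinuousMap.isometryEquivBoundedOfCompact I1 ℝ).continuous.comp K.curry.continuous

/-- the integral operator into continuous functions -/
private noncomputable def FF0 (K : C(I1 × I1, ℝ)) (g : Lp ℝ 2 μ1) : I1 →ᵇ ℝ :=
  ContinuousMap.isometryEquivBoundedOfCompact I1 ℝ
    ⟨fun x => inner ℝ (JJ (kf K x)) g, (JJ.continuous.comp (kf_cont K)).inner continuous_const⟩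

private theorem FF0_apply (K : C(I1 × I1, ℝ)) (g : Lp ℝ 2 μ1) (x : I1) :
    FF0 K g x = inner ℝ (JJ (kf K x)) g := rfl

private theorem exists_bd (K : C(I1 × I1, ℝ)) : ∃ C : ℝ, 0 ≤ C ∧ ∀ x : I1, ‖JJ (kf K x)‖ ≤ C := by
  obtain ⟨C, hC⟩ := (isCompact_range ((JJ.continuous.comp (kf_cont K)).norm)).bddAbove
  refine ⟨max C 0, le_max_right _ _, fun x => le_trans (hC ⟨x, rfl⟩) (le_max_left _ _)⟩

private noncomputable def FFL (K : C(I1 × I1, ℝ)) : Lp ℝ 2 μ1 →L[ℝ] (I1 →ᵇ ℝ) :=
  LinearMap.mkContinuous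
    { toFun := FF0 K
      map_add' := fun g h => by
        ext x
        rw [BoundedContinuousFunction.coe_add, Pi.add_apply, FF0_apply, FF0_apply, FF0_apply, inner_add_right]
      map_smul' := fun c g => by
        ext x
        show inner ℝ (JJ (kf K x)) (c • g) = c • inner ℝ (JJ (kf K x)) g
        rw [real_inner_smul_right]
        rfl } (exists_bd K).choose (fun g => by
        have h := (exists_bd K).choose_spec
        refine (BoundedContinuousFunction.norm_le (mul_nonneg h.1 (norm_nonneg g))).2 (fun x => ?_)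
        refine le_trans (norm_inner_le_norm (𝕜 := ℝ) (JJ (kf K x)) g) ?_
        exact mul_le_mul_of_nonneg_right (h.2 x) (norm_nonneg g))

private theorem FFL_apply (K : C(I1 × I1, ℝ)) (g : Lp ℝ 2 μ1) (x : I1) :
    FFL K g x = inner ℝ (JJ (kf K x)) g := rfl

private theorem FFL_compact (K : C(I1 × I1, ℝ)) : IsCompactOperator (FFL K) := by
  obtain ⟨C, hC0, hC⟩ := exists_bd K
  have key : IsCompact (closure ((FFL K : Lp ℝ 2 μ1 →ₗ[ℝ] (I1 →ᵇ ℝ)) '' Metric.ball 0 1)) := by
    refine BoundedContinuousFunction.arzela_ascoli (Icc (-C) C) isCompact_Icc _ ?_ ?_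
    · rintro _ x ⟨g, hg, rfl⟩
      rw [mem_ball_zero_iff] at hg
      have h1 : |FFL K g x| ≤ C := by
        rw [FFL_apply]
        refine le_trans (abs_real_inner_le_norm _ _) ?_
        calc ‖JJ (kf K x)‖ * ‖g‖ ≤ C * 1 := mul_le_mul (hC x) hg.le (norm_nonneg _) hC0
          _ = C := mul_one C
      exact abs_le.mp h1
    · intro x
      rw [Metric.equicontinuousAt_iff_right]
      intro ε hε
      have hcx : Continuous (fun y : I1 => JJ (kf K y)) := JJ.continuous.comp (kf_cont K)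
      have h1 := (Metric.tendsto_nhds.mp (hcx.tendsto x)) ε hε
      filter_upwards [h1] with y hy
      rintro ⟨_, g, hg, rfl⟩
      rw [mem_ball_zero_iff] at hg
      show dist (FFL K g x) (FFL K g y) < ε
      rw [FFL_apply, FFL_apply, Real.dist_eq, ← inner_sub_left]
      refine lt_of_le_of_lt (abs_real_inner_le_norm _ _) ?_
      rw [dist_comm, dist_eq_norm] at hy
      calc ‖JJ (kf K x) - JJ (kf K y)‖ * ‖g‖ ≤ ‖JJ (kf K x) - JJ (kf K y)‖ * 1 :=
            mul_le_mul_of_nonneg_left hg.le (norm_nonneg _)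
        _ < ε := by rw [mul_one]; exact hy
  exact (isCompactOperator_iff_isCompact_closure_image_ball
    (FFL K : Lp ℝ 2 μ1 →ₗ[ℝ] (I1 →ᵇ ℝ)) one_pos).mpr key

private theorem prj_val {t : ℝ} (ht : t ∈ Icc (0 : ℝ) 1) : ((prj t : I1) : ℝ) = t := by
  show ((projIcc 0 1 zero_le_one t : I1) : ℝ) = t
  rw [projIcc_of_mem zero_le_one ht]

private theorem FFL_int (K : C(I1 × I1, ℝ)) (g : Lp ℝ 2 μ1) (x : I1) :
    FFL K g x = ∫ s, K (x, prj s) * g s ∂μ1 := by
  rw [FFL_apply, MeasureTheory.L2.inner_def]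
  refine integral_congr_ae ?_
  filter_upwards [JJ_coe (kf K x)] with s hs
  rw [hs, kf_apply]
  simp [mul_comm]

theorem kc {k : ℝ → ℝ → ℝ}
    (hk : ContinuousOn (fun p : ℝ × ℝ => k p.1 p.2) (Icc 0 1 ×ˢ Icc 0 1))
    (hs : ∀ t s, k t s = k s t) :
    ∃ T : Lp ℝ 2 μ1 →L[ℝ] Lp ℝ 2 μ1, IsCompactOperator T ∧
      (T : Lp ℝ 2 μ1 →ₗ[ℝ] Lp ℝ 2 μ1).IsSymmetric ∧
      ∀ g : Lp ℝ 2 μ1, (T g : ℝ → ℝ) =ᵐ[μ1] fun t => ∫ s in (0 : ℝ)..1, k t s * g s := by
  set K : C(I1 × I1, ℝ) := ⟨fun p => k p.1 p.2, by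
    refine hk.comp_continuous (f := fun p : I1 × I1 => ((p.1 : ℝ), (p.2 : ℝ))) (by fun_prop) (fun p => ⟨p.1.2, p.2.2⟩)⟩
    with hK
  have hKa : ∀ x y : I1, K (x, y) = k x y := fun _ _ => rfl
  have hKsymm : ∀ x y : I1, K (x, y) = K (y, x) := fun x y => hs x y
  have hTa : ∀ g : Lp ℝ 2 μ1, ((JJ.comp (FFL K)) g : ℝ → ℝ) =ᵐ[μ1] fun t => FFL K g (prj t) :=
    fun g => JJ_coe (FFL K g)
  refine ⟨JJ.comp (FFL K), (FFL_compact K).clm_comp JJ, ?_, ?_⟩
  · intro g h
    have hg1 : Integrable (fun t => g t) μ1 := (Lp.memLp g).integrable (by norm_num)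
    have hh1 : Integrable (fun t => h t) μ1 := (Lp.memLp h).integrable (by norm_num)
    have hA : ∀ g h : Lp ℝ 2 μ1, inner ℝ ((JJ.comp (FFL K)) g) h
        = ∫ t, ∫ s, K (prj t, prj s) * (h t * g s) ∂μ1 ∂μ1 := by
      intro g h
      rw [MeasureTheory.L2.inner_def]
      refine integral_congr_ae ?_
      filter_upwards [hTa g] with t ht
      rw [ht, FFL_int]
      have e1 : inner ℝ (∫ s, K (prj t, prj s) * g s ∂μ1) (h t) = h t * ∫ s, K (prj t, prj s) * g s ∂μ1 := by
        simp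
      rw [e1, ← integral_const_mul]
      refine integral_congr_ae (Eventually.of_forall (fun s => ?_))
      show h t * (K (prj t, prj s) * g s) = K (prj t, prj s) * (h t * g s)
      ring
    show inner ℝ ((JJ.comp (FFL K)) g) h = inner ℝ g ((JJ.comp (FFL K)) h)
    rw [real_inner_comm ((JJ.comp (FFL K)) h) g]
    rw [hA g h, hA h g]
    rw [integral_integral_swap]
    · refine integral_congr_ae (Eventually.of_forall (fun s => ?_))
      refine integral_congr_ae (Eventually.of_forall (fun t => ?_))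
      show K (prj t, prj s) * (h t * g s) = K (prj s, prj t) * (g s * h t)
      rw [hKsymm, mul_comm (h t) (g s)]
    · have hI : Integrable (fun z : ℝ × ℝ => h z.1 * g z.2) (μ1.prod μ1) := hh1.mul_prod hg1
      have hKc : Continuous (fun z : ℝ × ℝ => K (prj z.1, prj z.2)) := by fun_prop
      refine hI.bdd_mul (c := ‖K‖) hKc.aestronglyMeasurable (Eventually.of_forall (fun z => ?_))
      exact K.norm_coe_le_norm _
  · intro g
    refine (hTa g).trans ?_
    have hmem : ∀ᵐ t ∂μ1, t ∈ Ioc (0 : ℝ) 1 := ae_restrict_mem measurableSet_Ioc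
    filter_upwards [hmem] with t ht
    rw [FFL_int, intervalIntegral.integral_of_le zero_le_one]
    refine integral_congr_ae ?_
    filter_upwards [hmem] with s hs'
    rw [hKa, prj_val ⟨ht.1.le, ht.2⟩, prj_val ⟨hs'.1.le, hs'.2⟩]

end Pool.Agent.NSY
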