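import Mathlib
import Pool.Agent.NSY.Defs

/-!
# NSY-SF: the finitely many large eigenvalues of a compact symmetric operator

PLAN. See Pool/Agent/Helper89/Stek/Abs.lean on main (helper89: `upper`, `norm_le_of_eigenvalues`, `upper_orth_le`; copy what is needed; it assumes
positivity, here use the eigenvalues with `|μ| > δ` instead). An orthonormal family of eigenvectors with `|λ_i| > δ`, infinite: `‖T e_i - T e_j‖² = λ_i² + λ_j² > 2δ²`, no convergent subsequence, a
contradiction with compactness. So there is an orthonormal family `e : Fin q → H` of eigenvectors with `|λ_i| > δ` of maximal length `q` (finite). `W` = orthogonal complement of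
its span: closed and `T`-invariant; the restriction `S` of `T` to `W` is compact and symmetric without eigenvalue of absolute value `> δ`
(maximality), so `‖S‖ ≤ δ` (`norm_le_of_eigenvalues` in Abs.lean), so `⟪T g, g⟫ ≤ δ ‖g‖²` for `g ∈ W`.
-/

set_option autoImplicit false

open MeasureTheory Set Filter Topology
open Pool.Agent.Neu (E D mu)
open Pool.Agent.Neu.Discx (P)

namespace Pool.Agent.NSY

open Module End in
/-- a compact symmetric operator has norm at most `κ` when all its eigenvalues are at most `κ` in absolute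
value (helper89) -/
lemma sf_norm_le_of_eigenvalues {V : Type*} [NormedAddCommGroup V] [InnerProductSpace ℝ V] [CompleteSpace V]
    (S : V →L[ℝ] V) (hc : IsCompactOperator S) (hsym : (S : V →ₗ[ℝ] V).IsSymmetric) {κ : ℝ} (hκ : 0 ≤ κ)
    (hev : ∀ μ : ℝ, HasEigenvalue (S : End ℝ V) μ → |μ| ≤ κ) : ‖S‖ ≤ κ := by
  by_contra hcon
  push Not at hcon
  have hpos1 : 0 < ‖S‖ := lt_of_le_of_lt hκ hcon
  have hrad := S.spectralRadius_eq_nnnorm hsym.isSelfAdjoint
  have hne : (spectrum ℝ S).Nonempty := by
    by_contra hemp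
    rw [Set.not_nonempty_iff_eq_empty] at hemp
    have : spectralRadius ℝ S = 0 := by
      unfold spectralRadius
      simp [hemp]
    rw [this] at hrad
    have h0 : ‖S‖₊ = 0 := by
      exact_mod_cast hrad.symm
    have : ‖S‖ = 0 := by
      have := congrArg NNReal.toReal h0
      simpa using this
    linarith
  obtain ⟨μ, hμ, hμn⟩ := spectrum.exists_nnnorm_eq_spectralRadius_of_nonempty hne
  rw [hrad] at hμn
  have hμn' : ‖μ‖ = ‖S‖ := by
    have h : ‖μ‖₊ = ‖S‖₊ := by exact_mod_cast hμn
    have := congrArg NNReal.toReal h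
    simpa using this
  have hμ0 : μ ≠ 0 := by
    intro h
    rw [h, norm_zero] at hμn'
    linarith
  have h1 := hev μ ((hc.hasEigenvalue_iff_mem_spectrum hμ0).mpr hμ)
  rw [Real.norm_eq_abs] at hμn'
  linarith

/-- the property of having an orthonormal family of `n` eigenvectors with large eigenvalues -/
def SFam {H : Type} [NormedAddCommGroup H] [InnerProductSpace ℝ H]
    (T : H →L[ℝ] H) (δ : ℝ) (n : ℕ) : Prop :=
  ∃ (e : Fin n → H) (l : Fin n → ℝ), Orthonormal ℝ e ∧ (∀ i, δ < |l i|) ∧ ∀ i, T (e i) = l i • e i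

lemma sfam_bdd {H : Type} [NormedAddCommGroup H] [InnerProductSpace ℝ H]
    (T : H →L[ℝ] H) (hc : IsCompactOperator T) {δ : ℝ} (hδ : 0 < δ) :
    ∃ N : ℕ, ∀ n, SFam T δ n → n ≤ N := by
  have hK : IsCompact (closure (T '' Metric.closedBall 0 1)) :=
    hc.isCompact_closure_image_closedBall 1
  have hr : 0 < δ / 2 := by linarith
  obtain ⟨t, ht, hcov⟩ := Metric.totallyBounded_iff.mp hK.totallyBounded (δ / 2) hr
  refine ⟨ht.toFinset.card, fun n hn => ?_⟩
  obtain ⟨e, l, ho, hl, he⟩ := hn
  have hmem : ∀ i, ∃ y ∈ t, T (e i) ∈ Metric.ball y (δ / 2) := by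
    intro i
    have h1 : T (e i) ∈ closure (T '' Metric.closedBall 0 1) := by
      refine subset_closure ⟨e i, ?_, rfl⟩
      rw [mem_closedBall_zero_iff, ho.1 i]
    have h2 := hcov h1
    simpa using h2
  choose y hy hyb using hmem
  have hinj : Function.Injective y := by
    intro i j hij
    by_contra hne
    have h1 : dist (T (e i)) (T (e j)) < δ := by
      have a := Metric.mem_ball.mp (hyb i)
      have b := Metric.mem_ball.mp (hyb j)
      rw [← hij] at b
      calc dist (T (e i)) (T (e j)) ≤ dist (T (e i)) (y i) + dist (y i) (T (e j)) :=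
            dist_triangle _ _ _
        _ < δ / 2 + δ / 2 := by
            rw [dist_comm (y i)]
            exact add_lt_add a b
        _ = δ := by ring
    have h2 : ‖T (e i) - T (e j)‖ ^ 2 = l i ^ 2 + l j ^ 2 := by
      rw [he i, he j, @norm_sub_sq ℝ, norm_smul, norm_smul, ho.1 i, ho.1 j, inner_smul_left,
        inner_smul_right, ho.2 hne]
      simp
    rw [dist_eq_norm] at h1
    have h3 : ‖T (e i) - T (e j)‖ ^ 2 < δ ^ 2 := by
      have := norm_nonneg (T (e i) - T (e j))
      nlinarith
    have h4 : δ ^ 2 < l i ^ 2 := by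
      rw [← sq_abs (l i)]
      have := hl i
      nlinarith
    nlinarith [sq_nonneg (l j)]
  have hc2 := Finset.card_le_card_of_injOn (s := Finset.univ) (t := ht.toFinset) y
    (by intro i _; simpa using hy i) (by intro a _ b _ h; exact hinj h)
  simpa using hc2

theorem spec_fin {H : Type} [NormedAddCommGroup H] [InnerProductSpace ℝ H] [CompleteSpace H]
    (T : H →L[ℝ] H) (hc : IsCompactOperator T) (hs : (T : H →ₗ[ℝ] H).IsSymmetric) {δ : ℝ}
    (hδ : 0 < δ) :
    ∃ (q : ℕ) (e : Fin q → H) (l : Fin q → ℝ), Orthonormal ℝ e ∧ (∀ i, δ < |l i|) ∧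
      (∀ i, T (e i) = l i • e i) ∧
      ∀ g : H, (∀ i, inner ℝ (e i) g = 0) → inner ℝ (T g) g ≤ δ * ‖g‖ ^ 2 := by
  classical
  obtain ⟨N, hN⟩ := sfam_bdd T hc hδ
  have h0 : SFam T δ 0 := by
    refine ⟨Fin.elim0, Fin.elim0, ?_, fun i => i.elim0, fun i => i.elim0⟩
    exact ⟨fun i => i.elim0, fun i => i.elim0⟩
  set q := Nat.findGreatest (SFam T δ) N with hq
  have hPq : SFam T δ q := Nat.findGreatest_spec (Nat.zero_le N) h0
  have hmax : ¬ SFam T δ (q + 1) := by
    intro h
    have h1 := Nat.le_findGreatest (hN _ h) h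
    omega
  obtain ⟨e, l, ho, hl, he⟩ := hPq
  refine ⟨q, e, l, ho, hl, he, fun g hg => ?_⟩
  set U : Submodule ℝ H := Submodule.span ℝ (Set.range e) with hU
  have hmemW : ∀ x : H, x ∈ Uᗮ ↔ ∀ i, inner ℝ (e i) x = 0 := by
    intro x
    rw [Submodule.mem_orthogonal]
    constructor
    · intro h i
      exact h _ (Submodule.subset_span ⟨i, rfl⟩)
    · intro h u hu
      induction hu using Submodule.span_induction with
      | mem x hx => obtain ⟨i, rfl⟩ := hx; exact h i
      | zero => simp
      | add a b _ _ ha hb => rw [inner_add_left, ha, hb, add_zero]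
      | smul c a _ ha => rw [inner_smul_left, ha, mul_zero]
  have hinv : ∀ x ∈ Uᗮ, (T : H →ₗ[ℝ] H) x ∈ Uᗮ := by
    intro x hx
    rw [hmemW] at *
    intro i
    have h1 := hs (e i) x
    have h2 : (T : H →ₗ[ℝ] H) (e i) = l i • e i := he i
    rw [h2, inner_smul_left, hx i, mul_zero] at h1
    exact h1.symm
  let S : Uᗮ →L[ℝ] Uᗮ := T.restrict hinv
  have hScomp : IsCompactOperator S := hc.restrict' hinv
  have hSsym : (S : Uᗮ →ₗ[ℝ] Uᗮ).IsSymmetric := hs.restrict_invariant hinv
  have hSnorm : ‖S‖ ≤ δ := by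
    refine sf_norm_le_of_eigenvalues S hScomp hSsym hδ.le fun μ hev => ?_
    obtain ⟨v, hv⟩ := hev.exists_hasEigenvector
    have hv0 : (v : H) ≠ 0 := by
      intro h
      exact hv.2 (Subtype.ext h)
    have hTv : T (v : H) = μ • (v : H) := by
      have h1 := hv.apply_eq_smul
      have h2 := congrArg Subtype.val h1
      exact h2
    by_contra hμ
    push Not at hμ
    apply hmax
    have hvn : ‖(v : H)‖ ≠ 0 := norm_ne_zero_iff.mpr hv0
    set w : H := ‖(v : H)‖⁻¹ • (v : H) with hw
    have hwn : ‖w‖ = 1 := by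
      rw [hw, norm_smul, norm_inv, norm_norm, inv_mul_cancel₀ hvn]
    have hwi : ∀ i, inner ℝ (e i) w = 0 := by
      intro i
      rw [hw, inner_smul_right, (hmemW _).mp v.2 i, mul_zero]
    have hTw : T w = μ • w := by
      rw [hw, map_smul, hTv, smul_comm]
    refine ⟨Fin.snoc e w, Fin.snoc l μ, ?_, ?_, ?_⟩
    · constructor
      · intro i
        refine Fin.lastCases ?_ (fun j => ?_) i
        · simpa using hwn
        · simpa using ho.1 j
      · intro i j hij
        revert hij
        refine Fin.lastCases ?_ (fun a => ?_) i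
        · refine Fin.lastCases ?_ (fun b => ?_) j
          · intro h; exact absurd rfl h
          · intro _
            simp only [Fin.snoc_last, Fin.snoc_castSucc]
            rw [real_inner_comm]
            exact hwi b
        · refine Fin.lastCases ?_ (fun b => ?_) j
          · intro _
            simp only [Fin.snoc_last, Fin.snoc_castSucc]
            exact hwi a
          · intro h
            simp only [Fin.snoc_castSucc]
            exact ho.2 (fun hab => h (by rw [hab]))
    · intro i
      refine Fin.lastCases ?_ (fun j => ?_) i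
      · simpa using hμ
      · simpa using hl j
    · intro i
      refine Fin.lastCases ?_ (fun j => ?_) i
      · simpa using hTw
      · simpa using he j
  have hgW : g ∈ Uᗮ := (hmemW g).mpr hg
  have h1 : inner ℝ (T g) g ≤ ‖T g‖ * ‖g‖ := real_inner_le_norm _ _
  have h2 : ‖T g‖ ≤ δ * ‖g‖ := by
    have h3 := S.le_opNorm ⟨g, hgW⟩
    have h4 : ‖S ⟨g, hgW⟩‖ = ‖T g‖ := rfl
    have h5 : ‖(⟨g, hgW⟩ : Uᗮ)‖ = ‖g‖ := rfl
    rw [h4, h5] at h3
    exact h3.trans (mul_le_mul_of_nonneg_right hSnorm (norm_nonneg _))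
  calc inner ℝ (T g) g ≤ ‖T g‖ * ‖g‖ := h1
    _ ≤ δ * ‖g‖ * ‖g‖ := mul_le_mul_of_nonneg_right h2 (norm_nonneg _)
    _ = δ * ‖g‖ ^ 2 := by ring

end Pool.Agent.NSY
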