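import Pool.Agent.NSY.Defs
import Pool.Agent.NSY.KC
import Pool.Agent.NSY.SF

/-!
# NSY-PE: eigenfunctions of a radial kernel

The finitely many large eigenvalues of the integral operator with the kernel `√t √s G t s` on `L²(0,1)` and the continuous
representatives `u i t = l_i⁻¹ (√t)⁻¹ ∫_0^1 k t s e_i(s) ds` of its eigenfunctions divided by `√t`.
-/

set_option autoImplicit false

open MeasureTheory Set Filter Topology
open Pool.Agent.Neu (E D mu)
open Pool.Agent.Neu.Discx (P)

namespace Pool.Agent.NSY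

private theorem pe_inner (f g : Lp ℝ 2 μ1) (F G : ℝ → ℝ) (hf : (f : ℝ → ℝ) =ᵐ[μ1] F)
    (hg : (g : ℝ → ℝ) =ᵐ[μ1] G) : inner ℝ f g = ∫ t in (0 : ℝ)..1, F t * G t := by
  rw [L2.inner_def, intervalIntegral.integral_of_le zero_le_one]
  refine integral_congr_ae ?_
  filter_upwards [hf, hg] with t h1 h2
  rw [h1, h2]
  simp [mul_comm]

private theorem pe_cont {k : ℝ → ℝ → ℝ}
    (hk : ContinuousOn (fun p : ℝ × ℝ => k p.1 p.2) (Icc 0 1 ×ˢ Icc 0 1)) {e : ℝ → ℝ}
    (he : Integrable e μ1) :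
    ContinuousOn (fun t => ∫ s in (0 : ℝ)..1, k t s * e s) (Icc 0 1) := by
  obtain ⟨C, hC⟩ := (isCompact_Icc.prod isCompact_Icc).exists_bound_of_continuousOn hk
  have hsub : Ioc (0 : ℝ) 1 ⊆ Icc 0 1 := Ioc_subset_Icc_self
  intro t ht
  refine intervalIntegral.continuousWithinAt_of_dominated_interval (bound := fun s => C * ‖e s‖) ?_ ?_ ?_ ?_
  · filter_upwards [self_mem_nhdsWithin] with t' ht'
    rw [uIoc_of_le zero_le_one]
    refine AEStronglyMeasurable.mul ?_ he.aestronglyMeasurable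
    have h1 : ContinuousOn (fun s => k t' s) (Ioc 0 1) := by
      have h2 : ContinuousOn (fun s : ℝ => (t', s)) (Ioc 0 1) := by fun_prop
      exact hk.comp h2 fun s hs => ⟨ht', hsub hs⟩
    exact h1.aestronglyMeasurable measurableSet_Ioc
  · filter_upwards [self_mem_nhdsWithin] with t' ht'
    refine ae_of_all _ fun s hs => ?_
    rw [uIoc_of_le zero_le_one] at hs
    rw [norm_mul]
    exact mul_le_mul_of_nonneg_right (hC (t', s) ⟨ht', hsub hs⟩) (norm_nonneg _)
  · rw [intervalIntegrable_iff_integrableOn_Ioc_of_le zero_le_one]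
    exact he.norm.const_mul C
  · refine ae_of_all _ fun s hs => ?_
    rw [uIoc_of_le zero_le_one] at hs
    refine ContinuousWithinAt.mul ?_ continuousWithinAt_const
    have h1 : ContinuousOn (fun t' => k t' s) (Icc 0 1) := by
      have h2 : ContinuousOn (fun t' : ℝ => (t', s)) (Icc 0 1) := by fun_prop
      exact hk.comp h2 fun t' ht' => ⟨ht', hsub hs⟩
    exact h1 t ht

theorem pre_eig {G : ℝ → ℝ → ℝ}
    (hG : ContinuousOn (fun p : ℝ × ℝ => √p.1 * √p.2 * G p.1 p.2) (Icc 0 1 ×ˢ Icc 0 1))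
    (hs : ∀ t s, G t s = G s t) {δ : ℝ} (hδ : 0 < δ) :
    ∃ (q : ℕ) (l : Fin q → ℝ) (u : Fin q → ℝ → ℝ), (∀ i, δ < |l i|) ∧ (∀ i, Sq (u i)) ∧
      (∀ i, ∀ t ∈ Ioc (0 : ℝ) 1, l i * u i t = ∫ s in (0 : ℝ)..1, G t s * (u i s * s)) ∧
      (∀ i j, ip (u i) (u j) = if i = j then 1 else 0) ∧
      ∀ h : ℝ → ℝ, ContinuousOn h (Icc 0 1) → (∀ i, ip h (u i) = 0) →
        ip (fun t => ∫ s in (0 : ℝ)..1, G t s * (h s * s)) h ≤ δ * ip h h := by
  set k : ℝ → ℝ → ℝ := fun t s => √t * √s * G t s with hkdef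
  have hk : ContinuousOn (fun p : ℝ × ℝ => k p.1 p.2) (Icc 0 1 ×ˢ Icc 0 1) := hG
  have hks : ∀ t s, k t s = k s t := by
    intro t s
    simp only [hkdef]
    rw [hs t s]
    ring
  obtain ⟨T, hTc, hTs, hT⟩ := kc hk hks
  obtain ⟨q, e, l, ho, hl, hTe, hle⟩ := spec_fin T hTc hTs hδ
  have hl0 : ∀ i, l i ≠ 0 := by
    intro i h
    have := hl i
    rw [h, abs_zero] at this
    linarith
  have heI : ∀ i, Integrable (e i : ℝ → ℝ) μ1 := by
    intro i
    exact (Lp.memLp (e i)).integrable (by norm_num)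
  have hcon : ∀ i, ContinuousOn (fun t => ∫ s in (0 : ℝ)..1, k t s * e i s) (Icc 0 1) :=
    fun i => pe_cont hk (heI i)
  let u : Fin q → ℝ → ℝ := fun i t => (l i)⁻¹ * (√t)⁻¹ * ∫ s in (0 : ℝ)..1, k t s * e i s
  have hu : ∀ i t, u i t = (l i)⁻¹ * (√t)⁻¹ * ∫ s in (0 : ℝ)..1, k t s * e i s := fun i t => rfl
  have hmem : ∀ᵐ t ∂μ1, t ∈ Ioc (0 : ℝ) 1 := ae_restrict_mem measurableSet_Ioc
  have hsq : ∀ t : ℝ, t ∈ Ioc (0 : ℝ) 1 → √t ≠ 0 := fun t ht => (Real.sqrt_pos.2 ht.1).ne'
  have heu : ∀ i, (e i : ℝ → ℝ) =ᵐ[μ1] fun t => √t * u i t := by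
    intro i
    have h1 := hT (e i)
    rw [hTe i] at h1
    have h2 := Lp.coeFn_smul (l i) (e i)
    filter_upwards [h1, h2, hmem] with t h3 h4 h5
    rw [h4, Pi.smul_apply, smul_eq_mul] at h3
    have h6 := hsq t h5
    have h7 := hl0 i
    rw [hu, ← h3]
    field_simp
  refine ⟨q, l, u, hl, ?_, ?_, ?_, ?_⟩
  · intro i
    constructor
    · have h1 : ContinuousOn (fun t : ℝ => (l i)⁻¹ * (√t)⁻¹) (Ioc 0 1) := by
        refine continuousOn_const.mul (ContinuousOn.inv₀ Real.continuous_sqrt.continuousOn ?_)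
        exact fun t ht => hsq t ht
      exact h1.mul ((hcon i).mono Ioc_subset_Icc_self)
    · obtain ⟨C, hC⟩ := isCompact_Icc.exists_bound_of_continuousOn (hcon i)
      refine ⟨|l i|⁻¹ * C, fun t ht => ?_⟩
      have h1 := hC t (Ioc_subset_Icc_self ht)
      rw [Real.norm_eq_abs] at h1
      have h2 := hsq t ht
      have h3 : 0 < √t := Real.sqrt_pos.2 ht.1
      have h4 : √t * |u i t| = |l i|⁻¹ * |∫ s in (0 : ℝ)..1, k t s * e i s| := by
        rw [hu, abs_mul, abs_mul, abs_inv, abs_inv, abs_of_pos h3]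
        field_simp
      rw [h4]
      gcongr
  · intro i t ht
    have h2 := hsq t ht
    have h3 := hl0 i
    have h4 : ∫ s in (0 : ℝ)..1, k t s * e i s = √t * ∫ s in (0 : ℝ)..1, G t s * (u i s * s) := by
      rw [← intervalIntegral.integral_const_mul, intervalIntegral.integral_of_le zero_le_one,
        intervalIntegral.integral_of_le zero_le_one]
      refine integral_congr_ae ?_
      filter_upwards [heu i, hmem] with s h5 h6
      rw [h5]
      simp only [hkdef]
      have h7 : √s * √s = s := Real.mul_self_sqrt h6.1.le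
      calc √t * √s * G t s * (√s * u i s) = √t * (G t s * (u i s * (√s * √s))) := by ring
        _ = √t * (G t s * (u i s * s)) := by rw [h7]
    rw [hu i t, h4]
    field_simp
  · intro i j
    have h1 := orthonormal_iff_ite.1 ho i j
    rw [← h1, pe_inner (e i) (e j) _ _ (heu i) (heu j)]
    unfold ip
    refine intervalIntegral.integral_congr fun t ht => ?_
    rw [uIcc_of_le zero_le_one] at ht
    have h7 : √t * √t = t := Real.mul_self_sqrt ht.1
    calc u i t * u j t * t = u i t * u j t * (√t * √t) := by rw [h7]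
      _ = √t * u i t * (√t * u j t) := by ring
  · intro h hh hi
    have hgc : ContinuousOn (fun t => √t * h t) (Icc 0 1) := Real.continuous_sqrt.continuousOn.mul hh
    have hgm : MemLp (fun t => √t * h t) 2 μ1 := by
      obtain ⟨C, hC⟩ := isCompact_Icc.exists_bound_of_continuousOn hgc
      refine MemLp.of_bound ((hgc.mono Ioc_subset_Icc_self).aestronglyMeasurable measurableSet_Ioc) C ?_
      filter_upwards [hmem] with t ht
      exact hC t (Ioc_subset_Icc_self ht)
    obtain ⟨g, hg⟩ : ∃ g : Lp ℝ 2 μ1, (g : ℝ → ℝ) =ᵐ[μ1] fun t => √t * h t :=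
      ⟨hgm.toLp, hgm.coeFn_toLp⟩
    have h0 : ∀ i, inner ℝ (e i) g = 0 := by
      intro i
      rw [pe_inner (e i) g _ _ (heu i) hg]
      refine Eq.trans ?_ (hi i)
      unfold ip
      refine intervalIntegral.integral_congr fun t ht => ?_
      rw [uIcc_of_le zero_le_one] at ht
      have h7 : √t * √t = t := Real.mul_self_sqrt ht.1
      calc √t * u i t * (√t * h t) = h t * u i t * (√t * √t) := by ring
        _ = h t * u i t * t := by rw [h7]
    have h1 := hle g h0
    have h2 : ‖g‖ ^ 2 = ip h h := by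
      rw [← real_inner_self_eq_norm_sq, pe_inner g g _ _ hg hg]
      unfold ip
      refine intervalIntegral.integral_congr fun t ht => ?_
      rw [uIcc_of_le zero_le_one] at ht
      have h7 : √t * √t = t := Real.mul_self_sqrt ht.1
      calc √t * h t * (√t * h t) = h t * h t * (√t * √t) := by ring
        _ = h t * h t * t := by rw [h7]
    have h3 : (T g : ℝ → ℝ) =ᵐ[μ1] fun t => √t * ∫ s in (0 : ℝ)..1, G t s * (h s * s) := by
      filter_upwards [hT g] with t ht
      rw [ht, ← intervalIntegral.integral_const_mul, intervalIntegral.integral_of_le zero_le_one,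
        intervalIntegral.integral_of_le zero_le_one]
      refine integral_congr_ae ?_
      filter_upwards [hg, hmem] with s h5 h6
      rw [h5]
      simp only [hkdef]
      have h7 : √s * √s = s := Real.mul_self_sqrt h6.1.le
      calc √t * √s * G t s * (√s * h s) = √t * (G t s * (h s * (√s * √s))) := by ring
        _ = √t * (G t s * (h s * s)) := by rw [h7]
    rw [h2, pe_inner (T g) g _ _ h3 hg] at h1
    refine le_of_eq_of_le ?_ h1
    unfold ip
    refine intervalIntegral.integral_congr fun t ht => ?_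
    rw [uIcc_of_le zero_le_one] at ht
    have h7 : √t * √t = t := Real.mul_self_sqrt ht.1
    calc (∫ s in (0 : ℝ)..1, G t s * (h s * s)) * h t * t
        = (∫ s in (0 : ℝ)..1, G t s * (h s * s)) * h t * (√t * √t) := by rw [h7]
      _ = √t * (∫ s in (0 : ℝ)..1, G t s * (h s * s)) * (√t * h t) := by ring

end Pool.Agent.NSY
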