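import Pool.Agent.NSY.Defs

/-!
# NSY-V0d: derivatives of V0 h

PLAN. As for `UU`: with `H t = ∫_0^t h s s ds`, `H' = t h t` on `(0,1)`; the derivative of `∫_t^1 log s (h s s) ds` is `-log t (h t t)`. So
`V0' = -(H/t + log t · t h) + log t · t h + t ∫_0^1 h s s = -(t⁻¹ H) + t ∫_0^1 h s s`. `(t V0')' = -t h + 2 t ∫_0^1 h s s`. `V0' h 1 = 0`.
Integrability near 0: `|h s s| ≤ C √s`. `V0_lin`: linearity.
-/

set_option autoImplicit false

open MeasureTheory Set Filter Topology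
open Pool.Agent.Neu (E D mu)
open Pool.Agent.Neu.Discx (P)

namespace Pool.Agent.NSY

variable {h : ℝ → ℝ}

private theorem v0d_ii {g : ℝ → ℝ} (hg : ContinuousOn g (Ioc 0 1)) {C : ℝ}
    (hC : ∀ t ∈ Ioc (0 : ℝ) 1, |g t| ≤ C) : IntervalIntegrable g volume 0 1 := by
  rw [intervalIntegrable_iff_integrableOn_Ioc_of_le zero_le_one]
  refine Integrable.of_bound (hg.aestronglyMeasurable measurableSet_Ioc) C ?_
  exact (ae_restrict_mem measurableSet_Ioc).mono fun t ht => by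
    rw [Real.norm_eq_abs]
    exact hC t ht

private theorem v0d_sub {g : ℝ → ℝ} (hg : IntervalIntegrable g volume 0 1) {a b : ℝ}
    (ha : a ∈ Icc (0 : ℝ) 1) (hb : b ∈ Icc (0 : ℝ) 1) : IntervalIntegrable g volume a b := by
  refine hg.mono_set ?_
  rw [uIcc_of_le (zero_le_one : (0 : ℝ) ≤ 1)]
  exact uIcc_subset_Icc ha hb

private theorem v0d_b1 (hh : Sq h) : ∃ C : ℝ, ∀ t ∈ Ioc (0 : ℝ) 1, |h t * t| ≤ C := by
  obtain ⟨C, hC⟩ := hh.2
  refine ⟨C, fun t ht => (le_trans ?_ (hC t ht))⟩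
  rw [abs_mul, abs_of_pos ht.1, mul_comm]
  refine mul_le_mul_of_nonneg_right ?_ (abs_nonneg _)
  exact Real.le_sqrt_of_sq_le (by nlinarith [ht.1, ht.2])

private theorem v0d_i1 (hh : Sq h) : IntervalIntegrable (fun s => h s * s) volume 0 1 := by
  obtain ⟨C, hC⟩ := v0d_b1 hh
  exact v0d_ii (hh.1.mul continuousOn_id) hC

private theorem v0d_i3 (hh : Sq h) : IntervalIntegrable (fun s => h s * s ^ 3) volume 0 1 := by
  obtain ⟨C, hC⟩ := v0d_b1 hh
  refine v0d_ii (hh.1.mul (continuousOn_id.pow 3)) (C := C) fun t ht => le_trans ?_ (hC t ht)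
  rw [abs_mul, abs_mul]
  refine mul_le_mul_of_nonneg_left ?_ (abs_nonneg _)
  rw [abs_of_pos ht.1, abs_of_pos (pow_pos ht.1 3)]
  calc t ^ 3 ≤ t ^ 1 := pow_le_pow_of_le_one ht.1.le ht.2 (by norm_num)
    _ = t := pow_one t

private theorem v0d_c2 (hh : Sq h) : ContinuousOn (fun s => Real.log s * (h s * s)) (Ioc 0 1) :=
  (Real.continuousOn_log.mono fun s hs => by
    simpa using hs.1.ne').mul (hh.1.mul continuousOn_id)

private theorem v0d_i2 (hh : Sq h) {t : ℝ} (ht : t ∈ Ioc (0 : ℝ) 1) :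
    IntervalIntegrable (fun s => Real.log s * (h s * s)) volume t 1 := by
  refine ContinuousOn.intervalIntegrable ((v0d_c2 hh).mono ?_)
  rw [uIcc_of_le ht.2]
  exact fun s hs => ⟨lt_of_lt_of_le ht.1 hs.1, hs.2⟩

private theorem v0d_dH (hh : Sq h) {t : ℝ} (ht : t ∈ Ioo (0 : ℝ) 1) :
    HasDerivAt (fun x => ∫ s in (0 : ℝ)..x, h s * s) (h t * t) t := by
  have hc : ContinuousOn (fun s => h s * s) (Ioo 0 1) :=
    (hh.1.mul continuousOn_id).mono Ioo_subset_Ioc_self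
  exact intervalIntegral.integral_hasDerivAt_right
    (v0d_sub (v0d_i1 hh) (left_mem_Icc.2 zero_le_one) ⟨ht.1.le, ht.2.le⟩)
    (hc.stronglyMeasurableAtFilter isOpen_Ioo t ht) (hc.continuousAt (isOpen_Ioo.mem_nhds ht))

private theorem v0d_dL (hh : Sq h) {t : ℝ} (ht : t ∈ Ioo (0 : ℝ) 1) :
    HasDerivAt (fun x => ∫ s in x..1, Real.log s * (h s * s)) (-(Real.log t * (h t * t))) t := by
  have hc : ContinuousOn (fun s => Real.log s * (h s * s)) (Ioo 0 1) :=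
    (v0d_c2 hh).mono Ioo_subset_Ioc_self
  exact intervalIntegral.integral_hasDerivAt_left (v0d_i2 hh ⟨ht.1, ht.2.le⟩)
    (hc.stronglyMeasurableAtFilter isOpen_Ioo t ht) (hc.continuousAt (isOpen_Ioo.mem_nhds ht))

theorem V0_deriv (hh : Sq h) {t : ℝ} (ht : t ∈ Ioo (0 : ℝ) 1) :
    HasDerivAt (V0 h) (V0' h t) t := by
  have h1 := ((Real.hasDerivAt_log ht.1.ne').mul (v0d_dH hh ht)).neg
  have h2 := v0d_dL hh ht
  have h3 : HasDerivAt (fun x : ℝ => x ^ 2 / 2 * ∫ s in (0 : ℝ)..1, h s * s)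
      (t * ∫ s in (0 : ℝ)..1, h s * s) t := by
    have h4 := ((hasDerivAt_pow 2 t).div_const 2).mul_const (∫ s in (0 : ℝ)..1, h s * s)
    have h7 : t * (∫ s in (0 : ℝ)..1, h s * s) =
        ((2 : ℕ) : ℝ) * t ^ (2 - 1) / 2 * ∫ s in (0 : ℝ)..1, h s * s := by
      norm_num
    rw [h7]
    exact h4
  have h5 := (((h1.sub h2).add h3).add_const ((∫ s in (0 : ℝ)..1, h s * s ^ 3) / 2)).sub_const
    (3 / 4 * ∫ s in (0 : ℝ)..1, h s * s)
  have h6 : V0' h t = -(t⁻¹ * (∫ s in (0 : ℝ)..t, h s * s) + Real.log t * (h t * t)) -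
      -(Real.log t * (h t * t)) + t * ∫ s in (0 : ℝ)..1, h s * s := by
    unfold V0'
    ring
  rw [h6]
  exact h5

theorem V0_deriv2 (hh : Sq h) {t : ℝ} (ht : t ∈ Ioo (0 : ℝ) 1) :
    HasDerivAt (fun s => s * V0' h s) (-(t * h t) + 2 * t * ∫ s in (0 : ℝ)..1, h s * s) t := by
  have ht0 : t ≠ 0 := ht.1.ne'
  have h1 := ((hasDerivAt_inv ht0).mul (v0d_dH hh ht)).neg
  have h2 := (hasDerivAt_id t).mul_const (∫ s in (0 : ℝ)..1, h s * s)
  have h3 := (hasDerivAt_id t).mul (h1.add h2)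
  have h4 : -(t * h t) + 2 * t * ∫ s in (0 : ℝ)..1, h s * s =
      1 * (-(t⁻¹ * ∫ s in (0 : ℝ)..t, h s * s) + t * ∫ s in (0 : ℝ)..1, h s * s) +
      t * (-(-(t ^ 2)⁻¹ * (∫ s in (0 : ℝ)..t, h s * s) + t⁻¹ * (h t * t)) +
        1 * ∫ s in (0 : ℝ)..1, h s * s) := by
    field_simp
    ring
  rw [h4]
  exact h3

theorem V0'_one (h : ℝ → ℝ) : V0' h 1 = 0 := by
  unfold V0'
  rw [inv_one, one_mul, neg_add_cancel]

private theorem v0d_cH (hh : Sq h) : ContinuousOn (fun x => ∫ s in (0 : ℝ)..x, h s * s) (Ioc 0 1) := by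
  have h1 : IntegrableOn (fun s => h s * s) (uIcc (0 : ℝ) 1) := by
    rw [uIcc_of_le zero_le_one, integrableOn_Icc_iff_integrableOn_Ioc]
    exact (intervalIntegrable_iff_integrableOn_Ioc_of_le zero_le_one).1 (v0d_i1 hh)
  have h2 := intervalIntegral.continuousOn_primitive_interval h1
  rw [uIcc_of_le zero_le_one] at h2
  exact h2.mono Ioc_subset_Icc_self

private theorem v0d_cL (hh : Sq h) :
    ContinuousOn (fun x => ∫ s in x..1, Real.log s * (h s * s)) (Ioc 0 1) := by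
  intro t ht
  have ht2 : t / 2 ∈ Ioc (0 : ℝ) 1 := ⟨by linarith [ht.1], by linarith [ht.1, ht.2]⟩
  have h1 : IntegrableOn (fun s => Real.log s * (h s * s)) (uIcc (t / 2) 1) := by
    rw [uIcc_of_le ht2.2, integrableOn_Icc_iff_integrableOn_Ioc]
    exact (intervalIntegrable_iff_integrableOn_Ioc_of_le ht2.2).1 (v0d_i2 hh ht2)
  have h2 := intervalIntegral.continuousOn_primitive_interval_left h1
  rw [uIcc_of_le ht2.2] at h2
  have h3 : t ∈ Icc (t / 2) 1 := ⟨by linarith [ht.1], ht.2⟩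
  refine (h2 t h3).mono_of_mem_nhdsWithin ?_
  have h4 : Ioi (t / 2) ∈ 𝓝[Ioc 0 1] t := mem_nhdsWithin_of_mem_nhds (Ioi_mem_nhds (by linarith [ht.1]))
  filter_upwards [h4, self_mem_nhdsWithin] with s hs1 hs2
  exact ⟨le_of_lt hs1, hs2.2⟩

theorem V0_cont (hh : Sq h) : ContinuousOn (V0 h) (Ioc 0 1) := by
  have h1 : ContinuousOn Real.log (Ioc 0 1) := Real.continuousOn_log.mono fun s hs => by
    simpa using hs.1.ne'
  have h2 := ((((((h1.mul (v0d_cH hh)).neg).sub (v0d_cL hh)).add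
    ((((continuousOn_id (α := ℝ) (s := Ioc 0 1)).pow 2).div_const 2).mul_const
      (∫ s in (0 : ℝ)..1, h s * s))).add
      (continuousOn_const (c := (∫ s in (0 : ℝ)..1, h s * s ^ 3) / 2))).sub
    (continuousOn_const (c := 3 / 4 * ∫ s in (0 : ℝ)..1, h s * s)))
  exact h2

theorem V0'_cont (hh : Sq h) : ContinuousOn (V0' h) (Ioc 0 1) := by
  have h1 : ContinuousOn (fun s : ℝ => s⁻¹) (Ioc 0 1) := continuousOn_inv₀.mono fun s hs => by
    simpa using hs.1.ne'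
  exact ((h1.mul (v0d_cH hh)).neg).add
    ((continuousOn_id (α := ℝ) (s := Ioc 0 1)).mul_const (∫ s in (0 : ℝ)..1, h s * s))

private theorem v0d_lin {f g k : ℝ → ℝ} {a b x y : ℝ} (hf : IntervalIntegrable f volume x y)
    (hg : IntervalIntegrable g volume x y) (hk : ∀ s, k s = a * f s + b * g s) :
    ∫ s in x..y, k s = a * (∫ s in x..y, f s) + b * ∫ s in x..y, g s := by
  have h1 : k = fun s => a * f s + b * g s := funext hk
  rw [h1, intervalIntegral.integral_add (hf.const_mul a) (hg.const_mul b),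
    intervalIntegral.integral_const_mul, intervalIntegral.integral_const_mul]

theorem V0_lin {h₁ h₂ : ℝ → ℝ} (h1 : Sq h₁) (h2 : Sq h₂) (a b : ℝ) {t : ℝ}
    (ht : t ∈ Ioc (0 : ℝ) 1) :
    V0 (fun s => a * h₁ s + b * h₂ s) t = a * V0 h₁ t + b * V0 h₂ t := by
  have h0 : (0 : ℝ) ∈ Icc (0 : ℝ) 1 := left_mem_Icc.2 zero_le_one
  have ht' : t ∈ Icc (0 : ℝ) 1 := ⟨ht.1.le, ht.2⟩
  have e1 : ∫ s in (0 : ℝ)..t, (a * h₁ s + b * h₂ s) * s =
      a * (∫ s in (0 : ℝ)..t, h₁ s * s) + b * ∫ s in (0 : ℝ)..t, h₂ s * s :=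
    v0d_lin (v0d_sub (v0d_i1 h1) h0 ht') (v0d_sub (v0d_i1 h2) h0 ht') fun s => by ring
  have e2 : ∫ s in t..1, Real.log s * ((a * h₁ s + b * h₂ s) * s) =
      a * (∫ s in t..1, Real.log s * (h₁ s * s)) + b * ∫ s in t..1, Real.log s * (h₂ s * s) :=
    v0d_lin (v0d_i2 h1 ht) (v0d_i2 h2 ht) fun s => by ring
  have e3 : ∫ s in (0 : ℝ)..1, (a * h₁ s + b * h₂ s) * s =
      a * (∫ s in (0 : ℝ)..1, h₁ s * s) + b * ∫ s in (0 : ℝ)..1, h₂ s * s :=
    v0d_lin (v0d_i1 h1) (v0d_i1 h2) fun s => by ring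
  have e4 : ∫ s in (0 : ℝ)..1, (a * h₁ s + b * h₂ s) * s ^ 3 =
      a * (∫ s in (0 : ℝ)..1, h₁ s * s ^ 3) + b * ∫ s in (0 : ℝ)..1, h₂ s * s ^ 3 :=
    v0d_lin (v0d_i3 h1) (v0d_i3 h2) fun s => by ring
  unfold V0
  rw [e1, e2, e3, e4]
  ring

end Pool.Agent.NSY
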