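import Pool.Agent.NSY.Defs
import Pool.Agent.NSY.V0d
import Pool.Agent.NSY.G0c

/-!
# NSY-Re0: eigenfunctions of V0 are radial eigenfunctions (m = 0)

`v = u / √2`, extended by its limit at `0` and constant beyond `1`; the derivative is `K V0' u / √2`, which tends to `0` at `0` and
vanishes at `1`.
-/

set_option autoImplicit false

open MeasureTheory Set Filter Topology
open Pool.Agent.Neu (E D mu)
open Pool.Agent.Neu.Discx (P)

namespace Pool.Agent.NSY

private theorem r0_J {u : ℝ → ℝ} {C : ℝ} (hC : ∀ t ∈ Ioc (0 : ℝ) 1, √t * |u t| ≤ C) {t : ℝ}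
    (ht : t ∈ Ioc (0 : ℝ) 1) : |∫ s in (0 : ℝ)..t, u s * s| ≤ C * √t * t := by
  have h := intervalIntegral.norm_integral_le_of_norm_le_const (a := 0) (b := t)
    (f := fun s => u s * s) (C := C * √t) (fun s hs => by
      rw [uIoc_of_le ht.1.le] at hs
      have hs1 : s ∈ Ioc (0 : ℝ) 1 := ⟨hs.1, hs.2.trans ht.2⟩
      have h1 := hC s hs1
      have h2 : √s * √s = s := Real.mul_self_sqrt hs.1.le
      rw [Real.norm_eq_abs, abs_mul, abs_of_pos hs.1]
      have h3 : √s ≤ √t := Real.sqrt_le_sqrt hs.2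
      calc |u s| * s = |u s| * (√s * √s) := by rw [h2]
        _ = (√s * |u s|) * √s := by ring
        _ ≤ C * √t := mul_le_mul h1 h3 (Real.sqrt_nonneg _) (le_trans (by positivity) h1))
  rw [Real.norm_eq_abs, sub_zero, abs_of_pos ht.1] at h
  exact h

private theorem r0_C {u : ℝ → ℝ} {C : ℝ} (hC : ∀ t ∈ Ioc (0 : ℝ) 1, √t * |u t| ≤ C) : 0 ≤ C :=
  le_trans (by positivity) (hC 1 ⟨one_pos, le_rfl⟩)

private theorem r0_lim {u : ℝ → ℝ} (hu : Sq u) : ∃ L, Tendsto (V0 u) (𝓝[>] 0) (𝓝 L) := by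
  obtain ⟨hc, C, hC⟩ := hu
  have hC0 := r0_C hC
  have t1 : Tendsto (fun t => Real.log t * ∫ s in (0 : ℝ)..t, u s * s) (𝓝[>] 0) (𝓝 0) := by
    have h1 : Tendsto (fun t : ℝ => C * |t * Real.log t|) (𝓝[>] 0) (𝓝 0) := by
      have h2 : Tendsto (fun t : ℝ => C * |t * Real.log t|) (𝓝 0) (𝓝 (C * |0 * Real.log 0|)) :=
        (continuous_const.mul Real.continuous_mul_log.abs).tendsto 0
      rw [zero_mul, abs_zero, mul_zero] at h2
      exact h2.mono_left nhdsWithin_le_nhds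
    refine squeeze_zero_norm' ?_ h1
    filter_upwards [Ioc_mem_nhdsGT one_pos] with t ht
    rw [norm_mul, Real.norm_eq_abs, Real.norm_eq_abs, abs_mul, abs_of_pos ht.1]
    have h3 := r0_J hC ht
    have h4 : √t ≤ 1 := Real.sqrt_le_one.2 ht.2
    have h5 : C * √t * t ≤ C * t := by
      have h6 : C * √t ≤ C * 1 := mul_le_mul_of_nonneg_left h4 hC0
      rw [mul_one] at h6
      exact mul_le_mul_of_nonneg_right h6 ht.1.le
    calc |Real.log t| * |∫ s in (0 : ℝ)..t, u s * s| ≤ |Real.log t| * (C * t) :=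
          mul_le_mul_of_nonneg_left (h3.trans h5) (abs_nonneg _)
      _ = C * (t * |Real.log t|) := by ring
  have hint : IntervalIntegrable (fun s => Real.log s * (u s * s)) volume 0 1 := by
    refine IntervalIntegrable.mono_fun'
      (g := fun s => C * ‖Real.log s‖) (intervalIntegral.intervalIntegrable_log'.norm.const_mul C)
      ?_ ?_
    · rw [uIoc_of_le zero_le_one]
      refine AEStronglyMeasurable.mul ?_ ?_
      · exact Real.measurable_log.aestronglyMeasurable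
      · exact (hc.mul continuousOn_id).aestronglyMeasurable measurableSet_Ioc
    · rw [uIoc_of_le zero_le_one]
      refine (ae_restrict_iff' measurableSet_Ioc).2 (Eventually.of_forall fun s hs => ?_)
      have h1 := hC s hs
      have h2 : √s * √s = s := Real.mul_self_sqrt hs.1.le
      have h4 : √s ≤ 1 := Real.sqrt_le_one.2 hs.2
      have h5 : ‖u s * s‖ ≤ C := by
        rw [Real.norm_eq_abs, abs_mul, abs_of_pos hs.1]
        calc |u s| * s = |u s| * (√s * √s) := by rw [h2]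
          _ = (√s * |u s|) * √s := by ring
          _ ≤ C * 1 := mul_le_mul h1 h4 (Real.sqrt_nonneg _) hC0
          _ = C := mul_one C
      show ‖Real.log s * (u s * s)‖ ≤ C * ‖Real.log s‖
      rw [norm_mul, mul_comm C]
      exact mul_le_mul_of_nonneg_left h5 (norm_nonneg _)
  have t2 : Tendsto (fun t => ∫ s in t..1, Real.log s * (u s * s)) (𝓝[>] 0)
      (𝓝 (∫ s in (0 : ℝ)..1, Real.log s * (u s * s))) := by
    have h1 : IntegrableOn (fun s => Real.log s * (u s * s)) (uIcc 0 1) volume := by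
      rw [uIcc_of_le zero_le_one]
      exact (intervalIntegrable_iff_integrableOn_Icc_of_le zero_le_one).1 hint
    have h2 := intervalIntegral.continuousOn_primitive_interval_left h1 0 left_mem_uIcc
    rw [uIcc_of_le zero_le_one] at h2
    exact h2.mono_left (nhdsWithin_le_of_mem
      (mem_of_superset (Ioc_mem_nhdsGT one_pos) Ioc_subset_Icc_self))
  have t3 : Tendsto (fun t : ℝ => t ^ 2 / 2) (𝓝[>] 0) (𝓝 (0 ^ 2 / 2)) :=
    (((continuous_pow 2).div_const 2).tendsto 0).mono_left nhdsWithin_le_nhds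
  unfold V0
  exact ⟨_, (((t1.neg.sub t2).add (t3.mul_const _)).add_const _).sub_const _⟩

private theorem r0_lim' {u : ℝ → ℝ} (hu : Sq u) (hI : ∫ t in (0 : ℝ)..1, u t * t = 0) :
    Tendsto (V0' u) (𝓝[>] 0) (𝓝 0) := by
  obtain ⟨hc, C, hC⟩ := hu
  have h1 : Tendsto (fun t : ℝ => C * √t) (𝓝[>] 0) (𝓝 0) := by
    have h2 : Tendsto (fun t : ℝ => C * √t) (𝓝 0) (𝓝 (C * √0)) :=
      (continuous_const.mul Real.continuous_sqrt).tendsto 0
    rw [Real.sqrt_zero, mul_zero] at h2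
    exact h2.mono_left nhdsWithin_le_nhds
  refine squeeze_zero_norm' ?_ h1
  filter_upwards [Ioc_mem_nhdsGT one_pos] with t ht
  have h3 := r0_J hC ht
  unfold V0'
  rw [hI, mul_zero, add_zero, norm_neg, norm_mul, Real.norm_eq_abs, Real.norm_eq_abs,
    abs_of_pos (inv_pos.2 ht.1)]
  calc t⁻¹ * |∫ s in (0 : ℝ)..t, u s * s| ≤ t⁻¹ * (C * √t * t) :=
        mul_le_mul_of_nonneg_left h3 (inv_pos.2 ht.1).le
    _ = C * √t * (t⁻¹ * t) := by ring
    _ = C * √t := by rw [inv_mul_cancel₀ ht.1.ne', mul_one]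

/-- the eigenfunction -/
private noncomputable def vv (K L : ℝ) (u : ℝ → ℝ) (t : ℝ) : ℝ :=
  if t ≤ 0 then K * L / √2 else u (min t 1) / √2

/-- its derivative -/
private noncomputable def vv' (K : ℝ) (u : ℝ → ℝ) (t : ℝ) : ℝ :=
  if t ≤ 0 then 0 else K * V0' u (min t 1) / √2

private theorem vv_in (K L : ℝ) (u : ℝ → ℝ) {t : ℝ} (ht : t ∈ Ioc (0 : ℝ) 1) :
    vv K L u t = u t / √2 := by
  unfold vv
  rw [if_neg (not_le.2 ht.1), min_eq_left ht.2]

private theorem vv'_in (K : ℝ) (u : ℝ → ℝ) {t : ℝ} (ht : t ∈ Ioc (0 : ℝ) 1) :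
    vv' K u t = K * V0' u t / √2 := by
  unfold vv'
  rw [if_neg (not_le.2 ht.1), min_eq_left ht.2]

private theorem vv_out (K L : ℝ) (u : ℝ → ℝ) {t : ℝ} (ht : 1 ≤ t) :
    vv K L u t = u 1 / √2 := by
  unfold vv
  rw [if_neg (not_le.2 (lt_of_lt_of_le one_pos ht)), min_eq_right ht]

private theorem vv'_out (K : ℝ) (u : ℝ → ℝ) {t : ℝ} (ht : 1 ≤ t) : vv' K u t = 0 := by
  unfold vv'
  rw [if_neg (not_le.2 (lt_of_lt_of_le one_pos ht)), min_eq_right ht, V0'_one, mul_zero, zero_div]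

private theorem vv'_cont (K : ℝ) {u : ℝ → ℝ} (hu : Sq u) : ContinuousOn (vv' K u) (Ioi 0) := by
  have h1 : ContinuousOn (fun t : ℝ => K * V0' u (min t 1) / √2) (Ioi 0) := by
    refine ContinuousOn.div_const (continuousOn_const.mul ?_) _
    exact (V0'_cont hu).comp (continuous_id.min continuous_const).continuousOn
      fun t ht => ⟨lt_min ht one_pos, min_le_right _ _⟩
  refine h1.congr fun t ht => ?_
  unfold vv'
  rw [if_neg (not_le.2 ht)]

private theorem vv_cont (K L : ℝ) {u : ℝ → ℝ} (hu : Sq u) : ContinuousOn (vv K L u) (Ioi 0) := by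
  have h1 : ContinuousOn (fun t : ℝ => u (min t 1) / √2) (Ioi 0) := by
    refine ContinuousOn.div_const ?_ _
    exact hu.1.comp (continuous_id.min continuous_const).continuousOn
      fun t ht => ⟨lt_min ht one_pos, min_le_right _ _⟩
  refine h1.congr fun t ht => ?_
  unfold vv
  rw [if_neg (not_le.2 ht)]

private theorem vv_der0 {K L : ℝ} {u : ℝ → ℝ} (hu : Sq u)
    (hK : ∀ t ∈ Ioc (0 : ℝ) 1, u t = K * V0 u t) {r : ℝ} (hr : r ∈ Ioo (0 : ℝ) 1) :
    HasDerivAt (vv K L u) (vv' K u r) r := by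
  rw [vv'_in K u (Ioo_subset_Ioc_self hr)]
  have h1 := ((V0_deriv hu hr).const_mul K).div_const (√2)
  refine h1.congr_of_eventuallyEq ?_
  filter_upwards [Ioo_mem_nhds hr.1 hr.2] with t ht
  rw [vv_in K L u (Ioo_subset_Ioc_self ht), hK t (Ioo_subset_Ioc_self ht)]

private theorem vv_der {K L : ℝ} {u : ℝ → ℝ} (hu : Sq u)
    (hK : ∀ t ∈ Ioc (0 : ℝ) 1, u t = K * V0 u t) {r : ℝ} (hr : 0 < r) :
    HasDerivAt (vv K L u) (vv' K u r) r := by
  rcases lt_trichotomy r 1 with h | h | h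
  · exact vv_der0 hu hK ⟨hr, h⟩
  · subst h
    rw [vv'_out K u le_rfl]
    have hl : HasDerivWithinAt (vv K L u) 0 (Iic 1) 1 := by
      refine hasDerivWithinAt_Iic_of_tendsto_deriv (s := Ioo 0 1)
        (fun t ht => (vv_der0 hu hK ht).differentiableAt.differentiableWithinAt)
        (((vv_cont K L hu).continuousAt (Ioi_mem_nhds one_pos)).continuousWithinAt)
        (Ioo_mem_nhdsLT one_pos) ?_
      have h2 : Tendsto (vv' K u) (𝓝[<] 1) (𝓝 (vv' K u 1)) :=
        ((vv'_cont K hu).continuousAt (Ioi_mem_nhds one_pos)).tendsto.mono_left nhdsWithin_le_nhds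
      rw [vv'_out K u le_rfl] at h2
      refine h2.congr' ?_
      filter_upwards [Ioo_mem_nhdsLT one_pos] with t ht
      exact (vv_der0 hu hK ht).deriv.symm
    have hg : HasDerivWithinAt (vv K L u) 0 (Ici 1) 1 := by
      refine (hasDerivWithinAt_const (1 : ℝ) (Ici 1) (u 1 / √2)).congr (fun t ht => ?_) ?_
      · exact vv_out K L u ht
      · exact vv_out K L u le_rfl
    have h3 := hl.union hg
    rw [Iic_union_Ici, hasDerivWithinAt_univ] at h3
    exact h3
  · rw [vv'_out K u h.le]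
    refine (hasDerivAt_const r (u 1 / √2)).congr_of_eventuallyEq ?_
    filter_upwards [Ioi_mem_nhds h] with t ht
    exact vv_out K L u (le_of_lt ht)

private theorem r0_main {K L : ℝ} {u : ℝ → ℝ} (hu : Sq u)
    (hK : ∀ t ∈ Ioc (0 : ℝ) 1, u t = K * V0 u t) (h1 : ip u u = 1)
    (hI : ∫ t in (0 : ℝ)..1, u t * t = 0) (hL : Tendsto (V0 u) (𝓝[>] 0) (𝓝 L))
    (hL' : Tendsto (V0' u) (𝓝[>] 0) (𝓝 0)) :
    ∃ v v' : ℝ → ℝ, REig 0 K v v' ∧ ∀ t ∈ Ioc (0 : ℝ) 1, v t = u t / √2 := by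
  have hs2 : √(2 : ℝ) * √2 = 2 := Real.mul_self_sqrt (by norm_num)
  have hs0 : √(2 : ℝ) ≠ 0 := by positivity
  refine ⟨vv K L u, vv' K u, ⟨⟨fun r hr => vv_der hu hK hr, vv'_cont K hu, ?_,
    fun h => absurd rfl h, ⟨0, ?_, fun h => absurd rfl h⟩⟩, fun t ht => ?_,
    fun t ht => vv'_out K u ht, ?_⟩, fun t ht => vv_in K L u ht⟩
  · have h2 : Tendsto (fun t => K * V0 u t / √2) (𝓝[>] 0) (𝓝 (K * L / √2)) :=
      (hL.const_mul K).div_const _
    have h3 : vv K L u 0 = K * L / √2 := by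
      unfold vv
      rw [if_pos le_rfl]
    rw [h3]
    refine h2.congr' ?_
    filter_upwards [Ioc_mem_nhdsGT one_pos] with t ht
    rw [vv_in K L u ht, hK t ht]
  · have h2 : Tendsto (fun t => K * V0' u t / √2) (𝓝[>] 0) (𝓝 (K * 0 / √2)) :=
      (hL'.const_mul K).div_const _
    rw [mul_zero, zero_div] at h2
    refine h2.congr' ?_
    filter_upwards [Ioc_mem_nhdsGT one_pos] with t ht
    rw [vv'_in K u ht]
  · have h2 := ((V0_deriv2 hu ht).const_mul K).div_const (√2)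
    rw [hI, mul_zero, add_zero] at h2
    have h3 : (((0 : ℕ) : ℝ) ^ 2 * vv K L u t / t - K * (t * vv K L u t)) =
        K * -(t * u t) / √2 := by
      rw [vv_in K L u (Ioo_subset_Ioc_self ht), Nat.cast_zero]
      ring
    rw [h3]
    refine h2.congr_of_eventuallyEq ?_
    filter_upwards [Ioo_mem_nhds ht.1 ht.2] with r hr
    rw [vv'_in K u (Ioo_subset_Ioc_self hr)]
    ring
  · have h2 : ∫ t in (0 : ℝ)..1, vv K L u t ^ 2 * t = ∫ t in (0 : ℝ)..1, 1 / 2 * (u t * u t * t) := by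
      rw [intervalIntegral.integral_of_le zero_le_one, intervalIntegral.integral_of_le zero_le_one]
      refine setIntegral_congr_fun measurableSet_Ioc fun t ht => ?_
      show vv K L u t ^ 2 * t = 1 / 2 * (u t * u t * t)
      rw [vv_in K L u ht, div_pow, sq (√2), hs2]
      ring
    rw [h2, intervalIntegral.integral_const_mul]
    have h3 : ∫ t in (0 : ℝ)..1, u t * u t * t = 1 := h1
    rw [h3, mul_one]

theorem reg0 {K : ℝ} {u : ℝ → ℝ} (hu : Sq u)
    (hK : ∀ t ∈ Ioc (0 : ℝ) 1, u t = K * V0 u t) (h1 : ip u u = 1) :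
    (∃ v v' : ℝ → ℝ, REig 0 K v v' ∧ ∀ t ∈ Ioc (0 : ℝ) 1, v t = u t / √2) ∧
      ∫ t in (0 : ℝ)..1, u t * t = 0 := by
  have hI : ∫ t in (0 : ℝ)..1, u t * t = 0 := by
    have e1 : ∫ t in (0 : ℝ)..1, u t * t = ∫ t in (0 : ℝ)..1, K * (V0 u t * t) := by
      rw [intervalIntegral.integral_of_le zero_le_one, intervalIntegral.integral_of_le zero_le_one]
      refine setIntegral_congr_fun measurableSet_Ioc fun t ht => ?_
      show u t * t = K * (V0 u t * t)
      rw [hK t ht, mul_assoc]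
    rw [e1, intervalIntegral.integral_const_mul, V0_mean hu, mul_zero]
  refine ⟨?_, hI⟩
  obtain ⟨L, hL⟩ := r0_lim hu
  exact r0_main hu hK h1 hI hL (r0_lim' hu hI)

theorem reg_one : REig 0 0 (fun _ => 1) (fun _ => 0) := by
  refine ⟨⟨fun r _ => hasDerivAt_const r 1, continuousOn_const, tendsto_const_nhds,
    fun h => absurd rfl h, ⟨0, tendsto_const_nhds, fun h => absurd rfl h⟩⟩, fun t _ => ?_,
    fun _ _ => rfl, ?_⟩
  · have h1 : (fun s : ℝ => s * (0 : ℝ)) = fun _ => 0 := by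
      funext s
      rw [mul_zero]
    rw [h1]
    have h2 : (((0 : ℕ) : ℝ) ^ 2 * 1 / t - 0 * (t * 1)) = 0 := by simp
    rw [h2]
    exact hasDerivAt_const t 0
  · simp only [one_pow, one_mul]
    rw [integral_id]
    norm_num

end Pool.Agent.NSY
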