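import Pool.Agent.NSY.Defs
import Pool.Agent.NSY.V0d

/-!
# NSY-V0a: V0 h is admissible; weak form (m = 0)

PLAN. `|h| ≤ C` on `[0,1]`, so `h` is `Sq`. `|H t| ≤ C t²/2`, so `|V0'| ≤ C t`. Continuity at `0`: `V0 h 0` is `- ∫_0^1 log s (h s s) + (∫ h s³)/2 - 3/4 ∫ h s` (`log 0 = 0`) and
`log t · H t → 0`. WEAK FORM: `φ = f t V0'`, `φ' = f' t V0' + f (-(t h) + 2 t ∫ h s)`, `φ → 0` at both ends. `en 0`: the second term has the
factor `0`.
-/

set_option autoImplicit false

open MeasureTheory Set Filter Topology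
open Pool.Agent.Neu (E D mu)
open Pool.Agent.Neu.Discx (P)

namespace Pool.Agent.NSY

variable {h : ℝ → ℝ}

private theorem v0a_bd (hh : ContinuousOn h (Icc 0 1)) :
    ∃ C : ℝ, 0 ≤ C ∧ ∀ t ∈ Icc (0 : ℝ) 1, |h t| ≤ C := by
  obtain ⟨C, hC⟩ := isCompact_Icc.exists_bound_of_continuousOn hh
  have h0 : (0 : ℝ) ∈ Icc (0 : ℝ) 1 := ⟨le_refl _, zero_le_one⟩
  exact ⟨C, (norm_nonneg _).trans (hC 0 h0), fun t ht => hC t ht⟩

private theorem v0a_sq (hh : ContinuousOn h (Icc 0 1)) : Sq h := by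
  obtain ⟨C, hC0, hC⟩ := v0a_bd hh
  refine ⟨hh.mono Ioc_subset_Icc_self, C, fun t ht => ?_⟩
  have h1 : √t ≤ 1 := Real.sqrt_le_one.2 ht.2
  calc √t * |h t| ≤ 1 * |h t| := mul_le_mul_of_nonneg_right h1 (abs_nonneg _)
    _ = |h t| := one_mul _
    _ ≤ C := hC t (Ioc_subset_Icc_self ht)

private theorem v0a_hs (hh : ContinuousOn h (Icc 0 1)) :
    ContinuousOn (fun s => h s * s) (Icc 0 1) := hh.mul continuousOn_id

private theorem v0a_H_cont (hh : ContinuousOn h (Icc 0 1)) :
    ContinuousOn (fun t => ∫ s in (0 : ℝ)..t, h s * s) (Icc 0 1) := by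
  have h1 : IntegrableOn (fun s => h s * s) (uIcc (0 : ℝ) 1) := by
    rw [uIcc_of_le zero_le_one]
    exact (v0a_hs hh).integrableOn_Icc
  have h2 := intervalIntegral.continuousOn_primitive_interval h1
  rwa [uIcc_of_le zero_le_one] at h2

private theorem v0a_H_le {C : ℝ} (hC0 : 0 ≤ C) (hC : ∀ t ∈ Icc (0 : ℝ) 1, |h t| ≤ C) {t : ℝ}
    (ht : t ∈ Icc (0 : ℝ) 1) : |∫ s in (0 : ℝ)..t, h s * s| ≤ C * t * t := by
  have h1 : ∀ s ∈ uIoc (0 : ℝ) t, ‖h s * s‖ ≤ C * t := by
    intro s hs
    rw [uIoc_of_le ht.1] at hs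
    have h2 : s ∈ Icc (0 : ℝ) 1 := ⟨hs.1.le, hs.2.trans ht.2⟩
    rw [norm_mul, Real.norm_eq_abs, Real.norm_eq_abs, abs_of_nonneg hs.1.le]
    exact mul_le_mul (hC s h2) hs.2 hs.1.le hC0
  have h3 := intervalIntegral.norm_integral_le_of_norm_le_const h1
  rw [sub_zero, abs_of_nonneg ht.1, Real.norm_eq_abs] at h3
  exact h3

private theorem v0a_psi (h : ℝ → ℝ) (t : ℝ) : t * V0' h t =
    -(∫ s in (0 : ℝ)..t, h s * s) + t ^ 2 * ∫ s in (0 : ℝ)..1, h s * s := by
  unfold V0'
  by_cases ht : t = 0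
  · subst ht
    rw [intervalIntegral.integral_same]
    ring
  · field_simp

theorem V0_adm (hh : ContinuousOn h (Icc 0 1)) : Adm (V0 h) (V0' h) := by
  obtain ⟨C, hC0, hC⟩ := v0a_bd hh
  have hSq := v0a_sq hh
  refine ⟨?_, fun t ht => V0_deriv hSq ht, (V0'_cont hSq).mono Ioo_subset_Ioc_self,
    C + |∫ s in (0 : ℝ)..1, h s * s|, ?_⟩
  · have hlogH : ContinuousOn (fun t => Real.log t * ∫ s in (0 : ℝ)..t, h s * s) (Icc 0 1) := by
      intro t ht
      by_cases ht0 : t = 0
      · subst ht0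
        show Tendsto (fun t => Real.log t * ∫ s in (0 : ℝ)..t, h s * s) (𝓝[Icc 0 1] 0)
          (𝓝 (Real.log 0 * ∫ s in (0 : ℝ)..0, h s * s))
        rw [Real.log_zero, zero_mul]
        have hlim : Tendsto (fun t : ℝ => C * |t * Real.log t|) (𝓝[Icc 0 1] 0) (𝓝 0) := by
          have hc : Continuous fun t : ℝ => C * |t * Real.log t| :=
            continuous_const.mul Real.continuous_mul_log.abs
          have h5 := (hc.tendsto 0).mono_left (nhdsWithin_le_nhds (s := Icc (0 : ℝ) 1))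
          have h6 : C * |(0 : ℝ) * Real.log 0| = 0 := by simp
          rw [h6] at h5
          exact h5
        refine squeeze_zero_norm' ?_ hlim
        filter_upwards [self_mem_nhdsWithin] with q hq
        rw [norm_mul, Real.norm_eq_abs, Real.norm_eq_abs]
        have h1 := v0a_H_le hC0 hC hq
        have h2 : |Real.log q| * |∫ s in (0 : ℝ)..q, h s * s| ≤ |Real.log q| * (C * q * q) :=
          mul_le_mul_of_nonneg_left h1 (abs_nonneg _)
        refine h2.trans ?_
        rw [abs_mul, abs_of_nonneg hq.1]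
        have h3 : |Real.log q| * (C * q * q) = C * (q * |Real.log q|) * q := by ring
        rw [h3]
        exact mul_le_of_le_one_right (mul_nonneg hC0 (mul_nonneg hq.1 (abs_nonneg _))) hq.2
      · exact (Real.continuousAt_log ht0).continuousWithinAt.mul (v0a_H_cont hh t ht)
    have hF : ContinuousOn (fun t => ∫ s in t..1, Real.log s * (h s * s)) (Icc 0 1) := by
      have hg : ContinuousOn (fun s => Real.log s * (h s * s)) (Icc 0 1) := by
        have e : (fun s => Real.log s * (h s * s)) = fun s => h s * (s * Real.log s) := by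
          funext s
          ring
        rw [e]
        exact hh.mul Real.continuous_mul_log.continuousOn
      have h1 : IntegrableOn (fun s => Real.log s * (h s * s)) (uIcc (0 : ℝ) 1) := by
        rw [uIcc_of_le zero_le_one]
        exact hg.integrableOn_Icc
      have h2 := intervalIntegral.continuousOn_primitive_interval_left h1
      rwa [uIcc_of_le zero_le_one] at h2
    have hpoly : ContinuousOn (fun t : ℝ => t ^ 2 / 2 * (∫ s in (0 : ℝ)..1, h s * s))
        (Icc 0 1) := by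
      have hc : Continuous fun t : ℝ => t ^ 2 / 2 * (∫ s in (0 : ℝ)..1, h s * s) := by
        fun_prop
      exact hc.continuousOn
    unfold V0
    exact (((hlogH.neg.sub hF).add hpoly).add continuousOn_const).sub continuousOn_const
  · intro t ht
    have ht0 : t ≠ 0 := ht.1.ne'
    have h1 := v0a_H_le hC0 hC (Ioo_subset_Icc_self ht)
    unfold V0'
    have h2 : |t⁻¹ * ∫ s in (0 : ℝ)..t, h s * s| ≤ C := by
      rw [abs_mul, abs_of_pos (inv_pos.2 ht.1)]
      have h3 : t⁻¹ * |∫ s in (0 : ℝ)..t, h s * s| ≤ t⁻¹ * (C * t * t) :=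
        mul_le_mul_of_nonneg_left h1 (inv_pos.2 ht.1).le
      have h4 : t⁻¹ * (C * t * t) = C * t := by field_simp
      rw [h4] at h3
      exact h3.trans (mul_le_of_le_one_right hC0 ht.2.le)
    have h5 : |t * ∫ s in (0 : ℝ)..1, h s * s| ≤ |∫ s in (0 : ℝ)..1, h s * s| := by
      rw [abs_mul, abs_of_pos ht.1]
      exact mul_le_of_le_one_left (abs_nonneg _) ht.2.le
    calc |-(t⁻¹ * ∫ s in (0 : ℝ)..t, h s * s) + t * ∫ s in (0 : ℝ)..1, h s * s|
        ≤ |-(t⁻¹ * ∫ s in (0 : ℝ)..t, h s * s)| + |t * ∫ s in (0 : ℝ)..1, h s * s| :=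
          abs_add_le _ _
      _ ≤ C + |∫ s in (0 : ℝ)..1, h s * s| := by
          rw [abs_neg]
          exact add_le_add h2 h5

theorem weak0 (hh : ContinuousOn h (Icc 0 1)) {f f' : ℝ → ℝ} (hf : Adm f f') :
    en 0 f f' (V0 h) (V0' h) =
      ip f h - 2 * (∫ t in (0 : ℝ)..1, f t * t) * ∫ t in (0 : ℝ)..1, h t * t := by
  have hSq := v0a_sq hh
  obtain ⟨hfc, hfd, hfd', K, hK⟩ := hf
  set A : ℝ := ∫ s in (0 : ℝ)..1, h s * s with hA
  set ψ : ℝ → ℝ := fun t => t * V0' h t with hψ
  have hψc : ContinuousOn ψ (Icc 0 1) := by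
    have e : ψ = fun t => -(∫ s in (0 : ℝ)..t, h s * s) + t ^ 2 * A := by
      funext t
      exact v0a_psi h t
    rw [e]
    have hc : Continuous fun t : ℝ => t ^ 2 * A := by fun_prop
    exact (v0a_H_cont hh).neg.add hc.continuousOn
  obtain ⟨B, hB⟩ := isCompact_Icc.exists_bound_of_continuousOn hψc
  have hK0 : 0 ≤ K := (abs_nonneg _).trans (hK (1 / 2) ⟨by norm_num, by norm_num⟩)
  have hI1 : IntervalIntegrable (fun t => f' t * ψ t) volume 0 1 := by
    rw [intervalIntegrable_iff_integrableOn_Ioo_of_le zero_le_one]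
    have hmeas : AEStronglyMeasurable (fun t => f' t * ψ t)
        (volume.restrict (Ioo (0 : ℝ) 1)) :=
      (hfd'.mul (hψc.mono Ioo_subset_Icc_self)).aestronglyMeasurable measurableSet_Ioo
    refine Integrable.of_bound hmeas (K * B) ?_
    rw [ae_restrict_iff' measurableSet_Ioo]
    refine Filter.Eventually.of_forall fun t ht => ?_
    rw [norm_mul, Real.norm_eq_abs]
    exact mul_le_mul (hK t ht) (hB t (Ioo_subset_Icc_self ht)) (norm_nonneg _) hK0
  have hc2 : ContinuousOn (fun t => f t * (-(t * h t) + 2 * t * A)) (Icc 0 1) := by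
    have hc : Continuous fun t : ℝ => 2 * t * A := by fun_prop
    exact hfc.mul ((continuousOn_id.mul hh).neg.add hc.continuousOn)
  have hI2 : IntervalIntegrable (fun t => f t * (-(t * h t) + 2 * t * A)) volume 0 1 := by
    rw [← uIcc_of_le zero_le_one] at hc2
    exact hc2.intervalIntegrable
  have hFTC := intervalIntegral.integral_eq_sub_of_hasDerivAt_of_le (a := 0) (b := 1)
    (f := fun t => f t * ψ t)
    (f' := fun t => f' t * ψ t + f t * (-(t * h t) + 2 * t * A)) zero_le_one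
    (hfc.mul hψc)
    (fun t ht => (hfd t ht).mul (V0_deriv2 hSq ht)) (hI1.add hI2)
  have hψ1 : ψ 1 = 0 := by
    show 1 * V0' h 1 = 0
    rw [V0'_one, mul_zero]
  have hψ0 : ψ 0 = 0 := by
    show 0 * V0' h 0 = 0
    rw [zero_mul]
  rw [intervalIntegral.integral_add hI1 hI2] at hFTC
  beta_reduce at hFTC
  rw [hψ1, hψ0, mul_zero, mul_zero, sub_zero] at hFTC
  have hen : en 0 f f' (V0 h) (V0' h) = ∫ t in (0 : ℝ)..1, f' t * ψ t := by
    unfold en
    refine intervalIntegral.integral_congr fun t _ => ?_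
    show f' t * V0' h t * t + ((0 : ℕ) : ℝ) ^ 2 * (f t * V0 h t) / t = f' t * (t * V0' h t)
    rw [Nat.cast_zero]
    ring
  have hc3 : IntervalIntegrable (fun t => f t * h t * t) volume 0 1 := by
    have h1 : ContinuousOn (fun t => f t * h t * t) (Icc 0 1) :=
      (hfc.mul hh).mul continuousOn_id
    rw [← uIcc_of_le zero_le_one] at h1
    exact h1.intervalIntegrable
  have hc4 : IntervalIntegrable (fun t => f t * t) volume 0 1 := by
    have h1 : ContinuousOn (fun t => f t * t) (Icc 0 1) := hfc.mul continuousOn_id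
    rw [← uIcc_of_le zero_le_one] at h1
    exact h1.intervalIntegrable
  have hsplit : ∫ t in (0 : ℝ)..1, f t * (-(t * h t) + 2 * t * A) =
      -(∫ t in (0 : ℝ)..1, f t * h t * t) + 2 * A * ∫ t in (0 : ℝ)..1, f t * t := by
    have hc3n : IntervalIntegrable (fun t => -(f t * h t * t)) volume 0 1 := hc3.neg
    have hc4n : IntervalIntegrable (fun t => 2 * A * (f t * t)) volume 0 1 := hc4.const_mul _
    rw [← intervalIntegral.integral_const_mul, ← intervalIntegral.integral_neg,
      ← intervalIntegral.integral_add hc3n hc4n]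
    refine intervalIntegral.integral_congr fun t _ => ?_
    show f t * (-(t * h t) + 2 * t * A) = -(f t * h t * t) + 2 * A * (f t * t)
    ring
  rw [hen]
  unfold ip
  rw [hsplit] at hFTC
  linarith

end Pool.Agent.NSY
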