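import Pool.Agent.NSY.Defs
import Pool.Agent.NSY.PE
import Pool.Agent.NSY.G0c
import Pool.Agent.NSY.V0d
import Pool.Agent.NSY.V0a
import Pool.Agent.NSY.Re0
import Pool.Agent.NSY.Alg
import Pool.Agent.NSY.RegB
import Pool.Agent.NSY.EnId

/-!
# NSY-Sec0: the sector 0

The kernel `G0` and its integral operator `V0`; the constant function is an additional eigenfunction. With
`g = f - f̄ - ∑ c_i w_i` (orthogonal to `1` and to the eigenfunctions) and `h = ∑ K_i c_i w_i + Λ g` the
variational inequality for `f` and `V0 h` gives the lower bound for the energy.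
-/

set_option autoImplicit false

open MeasureTheory Set Filter Topology
open Pool.Agent.Neu (E D mu)
open Pool.Agent.Neu.Discx (P)

namespace Pool.Agent.NSY

private theorem s0_ii {a b : ℝ → ℝ} (ha : ContinuousOn a (Icc 0 1)) (hb : ContinuousOn b (Icc 0 1)) :
    IntervalIntegrable (fun t => a t * b t * t) volume 0 1 := by
  apply ContinuousOn.intervalIntegrable
  rw [uIcc_of_le zero_le_one]
  exact (ha.mul hb).mul continuousOn_id

private theorem s0_congr {a a' b b' : ℝ → ℝ} (h1 : ∀ t ∈ Ioc (0 : ℝ) 1, a t = a' t)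
    (h2 : ∀ t ∈ Ioc (0 : ℝ) 1, b t = b' t) : ip a b = ip a' b' := by
  unfold ip
  rw [intervalIntegral.integral_of_le zero_le_one, intervalIntegral.integral_of_le zero_le_one]
  apply setIntegral_congr_fun measurableSet_Ioc
  intro t ht
  simp only [h1 t ht, h2 t ht]

private theorem s0_comm (a b : ℝ → ℝ) : ip a b = ip b a := by
  unfold ip
  simp only [mul_comm (a _) (b _)]

private theorem s0_lin {a b h : ℝ → ℝ} (ha : ContinuousOn a (Icc 0 1)) (hb : ContinuousOn b (Icc 0 1))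
    (hh : ContinuousOn h (Icc 0 1)) (x y : ℝ) :
    ip (fun t => x * a t + y * b t) h = x * ip a h + y * ip b h := by
  unfold ip
  rw [← intervalIntegral.integral_const_mul, ← intervalIntegral.integral_const_mul,
    ← intervalIntegral.integral_add ((s0_ii ha hh).const_mul x) ((s0_ii hb hh).const_mul y)]
  congr 1
  ext t
  ring

private theorem s0_csum {q : ℕ} (s : Finset (Fin q)) {w : Fin q → ℝ → ℝ} (hw : ∀ i, ContinuousOn (w i) (Icc 0 1))
    (c : Fin q → ℝ) : ContinuousOn (fun t => ∑ i ∈ s, c i * w i t) (Icc 0 1) :=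
  continuousOn_finset_sum _ fun i _ => continuousOn_const.mul (hw i)

private theorem s0_sum {q : ℕ} {w : Fin q → ℝ → ℝ} (hw : ∀ i, ContinuousOn (w i) (Icc 0 1))
    {h : ℝ → ℝ} (hh : ContinuousOn h (Icc 0 1)) (c : Fin q → ℝ) :
    ip (fun t => ∑ i, c i * w i t) h = ∑ i, c i * ip (w i) h := by
  unfold ip
  simp only [← intervalIntegral.integral_const_mul]
  rw [← intervalIntegral.integral_finset_sum]
  · congr 1
    ext t
    rw [Finset.sum_mul, Finset.sum_mul]
    exact Finset.sum_congr rfl fun i _ => by ring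
  · intro i _
    exact (s0_ii (hw i) hh).const_mul (c i)

private theorem s0_sq {h : ℝ → ℝ} (hh : ContinuousOn h (Icc 0 1)) : Sq h := by
  refine ⟨hh.mono Ioc_subset_Icc_self, ?_⟩
  obtain ⟨C, hC⟩ := isCompact_Icc.exists_bound_of_continuousOn hh
  refine ⟨C, fun t ht => ?_⟩
  have h1 := hC t (Ioc_subset_Icc_self ht)
  rw [Real.norm_eq_abs] at h1
  have h2 : √t ≤ 1 := Real.sqrt_le_one.2 ht.2
  have h3 : 0 ≤ √t := Real.sqrt_nonneg t
  have h4 := abs_nonneg (h t)
  calc √t * |h t| ≤ 1 * |h t| := mul_le_mul_of_nonneg_right h2 h4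
    _ ≤ C := by rw [one_mul]; exact h1

private theorem s0_V0sum {q : ℕ} {w : Fin q → ℝ → ℝ} (hw : ∀ i, ContinuousOn (w i) (Icc 0 1)) (c : Fin q → ℝ)
    {t : ℝ} (ht : t ∈ Ioc (0 : ℝ) 1) (s : Finset (Fin q)) :
    V0 (fun r => ∑ i ∈ s, c i * w i r) t = ∑ i ∈ s, c i * V0 (w i) t := by
  classical
  induction s using Finset.induction_on with
  | empty =>
    simp [V0]
  | insert i s hi ih =>
    rw [Finset.sum_insert hi, ← ih, ← one_mul (V0 (fun r => ∑ i ∈ s, c i * w i r) t),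
      ← V0_lin (s0_sq (hw i)) (s0_sq (s0_csum s hw c)) (c i) 1 ht]
    congr 1
    ext r
    rw [Finset.sum_insert hi, one_mul]

private theorem s0_V0congr {a b : ℝ → ℝ} (h : ∀ t ∈ Ioc (0 : ℝ) 1, a t = b t) (ha : Sq a) (hb : Sq b) {t : ℝ}
    (ht : t ∈ Ioc (0 : ℝ) 1) : V0 a t = V0 b t := by
  rw [← G0_int ha ht, ← G0_int hb ht, intervalIntegral.integral_of_le zero_le_one,
    intervalIntegral.integral_of_le zero_le_one]
  apply setIntegral_congr_fun measurableSet_Ioc
  intro s hs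
  simp only [h s hs]

private theorem s0_en_comm (m : ℕ) (f f' g g' : ℝ → ℝ) : en m f f' g g' = en m g g' f f' := by
  unfold en
  simp only [mul_comm (f' _) (g' _), mul_comm (f _) (g _)]

private theorem s0_one (a : ℝ → ℝ) : ip a (fun _ => 1) = ∫ t in (0 : ℝ)..1, a t * t := by
  unfold ip
  simp only [mul_one]

/-- symmetry of `V0` on functions with mean zero -/
private theorem s0_symm {a b : ℝ → ℝ} (ha : ContinuousOn a (Icc 0 1)) (hb : ContinuousOn b (Icc 0 1))
    (ha0 : ∫ t in (0 : ℝ)..1, a t * t = 0) (hb0 : ∫ t in (0 : ℝ)..1, b t * t = 0) :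
    ip (V0 a) b = ip (V0 b) a := by
  have h1 := weak0 hb (V0_adm ha)
  have h2 := weak0 ha (V0_adm hb)
  rw [hb0, mul_zero, sub_zero] at h1
  rw [ha0, mul_zero, sub_zero] at h2
  rw [← h1, ← h2, s0_en_comm]

private theorem s0_ineq {Λ : ℝ} (hΛ : 0 < Λ) {q : ℕ} {K l : Fin q → ℝ} {w : Fin q → ℝ → ℝ}
    (hw : ∀ i, ContinuousOn (w i) (Icc 0 1)) (hl : ∀ i, l i ≠ 0) (hK : ∀ i, K i = (l i)⁻¹)
    (hV : ∀ i, ∀ t ∈ Ioc (0 : ℝ) 1, V0 (w i) t = l i * w i t)
    (horth : ∀ i j, ip (w i) (w j) = if i = j then 1 else 0)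
    (hone : ∀ i, ip (w i) (fun _ => 1) = 0)
    (hgap : ∀ h : ℝ → ℝ, ContinuousOn h (Icc 0 1) → (∀ i, ip h (w i) = 0) →
        ip (V0 h) h ≤ Λ⁻¹ * ip h h)
    {f f' : ℝ → ℝ} (hf : ∀ r, HasDerivAt f (f' r) r) (hf' : Continuous f') :
    ∑ i, K i * ip f (w i) ^ 2 + Λ * (ip f f - 2 * ip f (fun _ => 1) ^ 2 - ∑ i, ip f (w i) ^ 2) ≤
      ∫ r in (0 : ℝ)..1, f' r ^ 2 * r := by
  have hfc : Continuous f := by
    rw [continuous_iff_continuousAt]
    exact fun r => (hf r).continuousAt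
  have hfC : ContinuousOn f (Icc 0 1) := hfc.continuousOn
  have hadm : Adm f f' := by
    refine ⟨hfC, fun t _ => hf t, hf'.continuousOn, ?_⟩
    obtain ⟨C, hC⟩ := isCompact_Icc.exists_bound_of_continuousOn (hf'.continuousOn (s := Icc (0 : ℝ) 1))
    exact ⟨C, fun t ht => by
      have := hC t (Ioo_subset_Icc_self ht)
      rwa [Real.norm_eq_abs] at this⟩
  have h1C : ContinuousOn (fun _ : ℝ => (1 : ℝ)) (Icc 0 1) := continuousOn_const
  have h11 : ip (fun _ => 1) (fun _ => 1) = 1 / 2 := by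
    unfold ip
    simp
  set F := ip f (fun _ => 1) with hF
  set c : Fin q → ℝ := fun i => ip f (w i) with hc
  set W : ℝ → ℝ := fun t => ∑ i, c i * w i t with hW
  have hWC : ContinuousOn W (Icc 0 1) := s0_csum _ hw c
  set f1 : ℝ → ℝ := fun t => 1 * f t + (-(2 * F)) * 1 with hf1
  have hf1C : ContinuousOn f1 (Icc 0 1) := (continuousOn_const.mul hfC).add (continuousOn_const.mul continuousOn_const)
  set g : ℝ → ℝ := fun t => 1 * f1 t + (-1) * W t with hg
  have hgC : ContinuousOn g (Icc 0 1) := (continuousOn_const.mul hf1C).add (continuousOn_const.mul hWC)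
  -- inner products with g
  have ipg : ∀ h : ℝ → ℝ, ContinuousOn h (Icc 0 1) → ip g h = ip f h - 2 * F * ip (fun _ => 1) h - ∑ i, c i * ip (w i) h := by
    intro h hh
    rw [hg, s0_lin hf1C hWC hh 1 (-1), hf1, s0_lin hfC h1C hh 1 (-(2 * F)), hW, s0_sum hw hh]
    ring
  have hg1 : ip g (fun _ => 1) = 0 := by
    rw [ipg _ h1C, h11]
    simp only [hone, mul_zero, Finset.sum_const_zero]
    ring
  have hgw : ∀ j, ip g (w j) = 0 := by
    intro j
    rw [ipg _ (hw j), s0_comm (fun _ => 1) (w j), hone]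
    simp only [horth, mul_ite, mul_one, mul_zero, Finset.sum_ite_eq', Finset.mem_univ, if_true]
    simp only [hc]
    ring
  set W2 : ℝ → ℝ := fun t => ∑ i, (K i * c i) * w i t with hW2
  have hW2C : ContinuousOn W2 (Icc 0 1) := s0_csum _ hw _
  set h : ℝ → ℝ := fun t => 1 * W2 t + Λ * g t with hh
  have hhC : ContinuousOn h (Icc 0 1) := (continuousOn_const.mul hW2C).add (continuousOn_const.mul hgC)
  have iph : ∀ b : ℝ → ℝ, ContinuousOn b (Icc 0 1) → ip h b = ∑ i, (K i * c i) * ip (w i) b + Λ * ip g b := by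
    intro b hb
    rw [hh, s0_lin hW2C hgC hb 1 Λ, hW2, s0_sum hw hb]
    ring
  have hh1 : ip h (fun _ => 1) = 0 := by
    rw [iph _ h1C, hg1]
    simp only [hone, mul_zero, Finset.sum_const_zero, add_zero]
  have hmean : ∫ t in (0 : ℝ)..1, h t * t = 0 := by rw [← s0_one, hh1]
  have hgmean : ∫ t in (0 : ℝ)..1, g t * t = 0 := by rw [← s0_one, hg1]
  have hwmean : ∀ i, ∫ t in (0 : ℝ)..1, w i t * t = 0 := fun i => by rw [← s0_one, hone]
  have hVh := V0_adm hhC
  have e1 := weak0 hhC hadm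
  have e2 := weak0 hhC hVh
  rw [hmean, mul_zero, sub_zero] at e1 e2
  have e3 := en_ineq (m := 0) hadm hVh (fun h => absurd rfl h) (fun h => absurd rfl h)
  rw [e1, e2] at e3
  have e4 : en 0 f f' f f' = ∫ r in (0 : ℝ)..1, f' r ^ 2 * r := by
    unfold en
    apply intervalIntegral.integral_congr
    intro t _
    show f' t * f' t * t + ((0 : ℕ) : ℝ) ^ 2 * (f t * f t) / t = f' t ^ 2 * t
    rw [Nat.cast_zero, zero_pow two_ne_zero, zero_mul, zero_div, add_zero, sq]
  rw [e4] at e3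
  -- ip f h
  have k1 : ip f h = ∑ i, K i * c i ^ 2 + Λ * ip g g := by
    rw [s0_comm, iph f hfC]
    have h1 : ip g f = ip g g := by
      have h2 := ipg g hgC
      rw [s0_comm f g, s0_comm (fun _ => 1) g, hg1] at h2
      have h3 : ∑ i, c i * ip (w i) g = 0 := Finset.sum_eq_zero fun i _ => by rw [s0_comm, hgw, mul_zero]
      rw [h3] at h2
      linarith
    rw [h1]
    congr 1
    refine Finset.sum_congr rfl fun i _ => ?_
    rw [s0_comm (w i) f]
    simp only [hc]
    ring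
  -- ip (V0 h) h
  have hVg := V0_adm hgC
  have kV : ∀ t ∈ Ioc (0 : ℝ) 1, V0 h t = 1 * W t + Λ * V0 g t := by
    intro t ht
    rw [hh, V0_lin (s0_sq hW2C) (s0_sq hgC) 1 Λ ht, hW2, s0_V0sum hw _ ht]
    congr 2
    refine Finset.sum_congr rfl fun i _ => ?_
    rw [hV i t ht, hK i]
    have := hl i
    field_simp
  have k2 : ip (V0 h) h = ip (fun t => 1 * W t + Λ * V0 g t) h :=
    s0_congr kV (fun _ _ => rfl)
  have k3 : ip (fun t => 1 * W t + Λ * V0 g t) h = ip W h + Λ * ip (V0 g) h := by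
    rw [s0_lin hWC hVg.cont hhC 1 Λ, one_mul]
  have k4 : ip W h = ∑ i, K i * c i ^ 2 := by
    rw [hW, s0_sum hw hhC]
    refine Finset.sum_congr rfl fun i _ => ?_
    rw [s0_comm (w i) h, iph _ (hw i), hgw]
    simp only [horth, mul_ite, mul_one, mul_zero, Finset.sum_ite_eq', Finset.mem_univ, if_true]
    ring
  have k5 : ip (V0 g) h = Λ * ip (V0 g) g := by
    rw [s0_comm, iph _ hVg.cont, s0_comm g (V0 g)]
    have h3 : ∑ i, K i * c i * ip (w i) (V0 g) = 0 := by
      refine Finset.sum_eq_zero fun i _ => ?_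
      rw [s0_comm (w i), s0_symm hgC (hw i) hgmean (hwmean i)]
      have h4 : ip (V0 (w i)) g = ip (fun t => l i * w i t + 0 * w i t) g :=
        s0_congr (fun t ht => by rw [hV i t ht]; ring) (fun _ _ => rfl)
      rw [h4, s0_lin (hw i) (hw i) hgC, s0_comm (w i) g, hgw]
      ring
    rw [h3, zero_add]
  rw [k2, k3, k4, k5, k1] at e3
  have hg2 := hgap g hgC hgw
  have hgg : ip g g = ip f f - 2 * F ^ 2 - ∑ i, c i ^ 2 := by
    have h1 : ip g f = ip g g := by
      have h2 := ipg g hgC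
      rw [s0_comm f g, s0_comm (fun _ => 1) g, hg1] at h2
      have h3 : ∑ i, c i * ip (w i) g = 0 := Finset.sum_eq_zero fun i _ => by rw [s0_comm, hgw, mul_zero]
      rw [h3] at h2
      linarith
    rw [← h1, ipg f hfC, s0_comm (fun _ => 1) f, ← hF]
    have h4 : ∑ i, c i * ip (w i) f = ∑ i, c i ^ 2 := by
      refine Finset.sum_congr rfl fun i _ => ?_
      rw [s0_comm (w i) f]
      simp only [hc]
      ring
    rw [h4]
    ring
  have hfin : Λ * (Λ * ip (V0 g) g) ≤ Λ * ip g g := by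
    apply mul_le_mul_of_nonneg_left _ hΛ.le
    calc Λ * ip (V0 g) g ≤ Λ * (Λ⁻¹ * ip g g) := mul_le_mul_of_nonneg_left hg2 hΛ.le
      _ = ip g g := by rw [← mul_assoc, mul_inv_cancel₀ hΛ.ne', one_mul]
  rw [← hgg]
  linarith

theorem sec0 {Λ : ℝ} (hΛ : 0 < Λ) :
    ∃ (q : ℕ) (K : Fin q → ℝ) (u u' : Fin q → ℝ → ℝ),
      (∀ i, REig 0 (K i) (u i) (u' i)) ∧ (∀ i, K i < Λ) ∧ (∃ i, K i = 0) ∧
      (∀ i j, i ≠ j → ∫ t in (0 : ℝ)..1, u i t * u j t * t = 0) ∧
      ∀ f f' : ℝ → ℝ, (∀ r, HasDerivAt f (f' r) r) → Continuous f' →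
        ∑ i, K i * (2 * ip f (u i) ^ 2) +
            Λ * ((∫ t in (0 : ℝ)..1, f t ^ 2 * t) - ∑ i, 2 * ip f (u i) ^ 2) ≤
          ∫ r in (0 : ℝ)..1, f' r ^ 2 * r := by
  obtain ⟨q, l, u, hl, hSq, heig, horth, hgap⟩ := pre_eig G0_cont G0_symm (inv_pos.2 hΛ)
  have hl0 : ∀ i, l i ≠ 0 := by
    intro i h
    have := hl i
    rw [h, abs_zero] at this
    exact absurd this (not_lt.2 (inv_pos.2 hΛ).le)
  have hK : ∀ i, ∀ t ∈ Ioc (0 : ℝ) 1, u i t = (l i)⁻¹ * V0 (u i) t := by
    intro i t ht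
    rw [← G0_int (hSq i) ht, ← heig i t ht, ← mul_assoc, inv_mul_cancel₀ (hl0 i), one_mul]
  have hreg : ∀ i, (∃ v v' : ℝ → ℝ, REig 0 ((l i)⁻¹) v v' ∧ ∀ t ∈ Ioc (0 : ℝ) 1, v t = u i t / √2) ∧
      ∫ t in (0 : ℝ)..1, u i t * t = 0 := fun i => reg0 (hSq i) (hK i) (by rw [horth, if_pos rfl])
  choose v v' hv hvu using fun i => (hreg i).1
  have hu0 := fun i => (hreg i).2
  have hs2 : √(2 : ℝ) * √2 = 2 := Real.mul_self_sqrt (by norm_num)
  have hs20 : √(2 : ℝ) ≠ 0 := by
    intro h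
    rw [h, mul_zero] at hs2
    norm_num at hs2
  set w : Fin q → ℝ → ℝ := fun i t => √2 * v i t with hw
  have hvC : ∀ i, ContinuousOn (v i) (Icc 0 1) := fun i => (hv i).cont.mono Icc_subset_Ici_self
  have hwC : ∀ i, ContinuousOn (w i) (Icc 0 1) := fun i => continuousOn_const.mul (hvC i)
  have hwu : ∀ i, ∀ t ∈ Ioc (0 : ℝ) 1, w i t = u i t := by
    intro i t ht
    simp only [hw]
    rw [hvu i t ht]
    field_simp
  have hVw : ∀ i, ∀ t ∈ Ioc (0 : ℝ) 1, V0 (w i) t = l i * w i t := by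
    intro i t ht
    rw [s0_V0congr (hwu i) (s0_sq (hwC i)) (hSq i) ht, hwu i t ht, ← G0_int (hSq i) ht, ← heig i t ht]
  have horth' : ∀ i j, ip (w i) (w j) = if i = j then 1 else 0 := by
    intro i j
    rw [← horth i j]
    exact s0_congr (hwu i) (hwu j)
  have hone : ∀ i, ip (w i) (fun _ => 1) = 0 := by
    intro i
    rw [s0_congr (a' := u i) (b' := fun _ => 1) (hwu i) (fun _ _ => rfl), s0_one, hu0]
  have hgap' : ∀ h : ℝ → ℝ, ContinuousOn h (Icc 0 1) → (∀ i, ip h (w i) = 0) →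
        ip (V0 h) h ≤ Λ⁻¹ * ip h h := by
    intro h hh h0
    have h1 := hgap h hh (fun i => by
      rw [← h0 i]
      exact s0_congr (fun _ _ => rfl) (fun t ht => (hwu i t ht).symm))
    rwa [s0_congr (a' := V0 h) (b' := h) (fun t ht => G0_int (s0_sq hh) ht) (fun _ _ => rfl)] at h1
  have hvip : ∀ (f : ℝ → ℝ) (i : Fin q), 2 * ip f (v i) ^ 2 = ip f (w i) ^ 2 := by
    intro f i
    have h1 : ip f (w i) = √2 * ip f (v i) := by
      unfold ip
      rw [← intervalIntegral.integral_const_mul]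
      congr 1
      ext t
      simp only [hw]
      ring
    rw [h1, mul_pow, sq (√2), hs2]
  have hKlt : ∀ i, (l i)⁻¹ < Λ := by
    intro i
    have h1 : (l i)⁻¹ ≤ |(l i)⁻¹| := le_abs_self _
    have h2 : |(l i)⁻¹| < Λ := by
      rw [abs_inv]
      rw [inv_lt_comm₀ (abs_pos.2 (hl0 i)) hΛ]
      exact hl i
    linarith
  refine ⟨q + 1, Fin.cons 0 (fun i => (l i)⁻¹), Fin.cons (fun _ => 1) v, Fin.cons (fun _ => 0) v', ?_, ?_, ?_, ?_, ?_⟩
  · intro i
    refine Fin.cases ?_ (fun i => ?_) i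
    · simpa using reg_one
    · simpa using hv i
  · intro i
    refine Fin.cases ?_ (fun i => ?_) i
    · simpa using hΛ
    · simpa using hKlt i
  · exact ⟨0, by simp⟩
  · have h1 : ∀ i, ∫ t in (0 : ℝ)..1, v i t * t = 0 := by
      intro i
      have h2 := hone i
      rw [s0_one] at h2
      have h3 : ∫ t in (0 : ℝ)..1, w i t * t = √2 * ∫ t in (0 : ℝ)..1, v i t * t := by
        rw [← intervalIntegral.integral_const_mul]
        congr 1
        ext t
        simp only [hw]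
        ring
      rw [h3] at h2
      rcases mul_eq_zero.1 h2 with h | h
      · exact absurd h hs20
      · exact h
    intro i j
    refine Fin.cases ?_ (fun i => ?_) i
    · refine Fin.cases ?_ (fun j => ?_) j
      · intro h
        exact absurd rfl h
      · intro _
        simp only [Fin.cons_zero, Fin.cons_succ, one_mul]
        exact h1 j
    · refine Fin.cases ?_ (fun j => ?_) j
      · intro _
        simp only [Fin.cons_zero, Fin.cons_succ, mul_one]
        exact h1 i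
      · intro h
        simp only [Fin.cons_succ]
        have hij : i ≠ j := fun h' => h (by rw [h'])
        have h2 := horth' i j
        rw [if_neg hij] at h2
        have h3 : ip (w i) (w j) = 2 * ∫ t in (0 : ℝ)..1, v i t * v j t * t := by
          unfold ip
          rw [← intervalIntegral.integral_const_mul]
          congr 1
          ext t
          simp only [hw]
          linear_combination (v i t * v j t * t) * hs2
        rw [h3] at h2
        rcases mul_eq_zero.1 h2 with h | h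
        · norm_num at h
        · exact h
  · intro f f' hf hf'
    rw [Fin.sum_univ_succ, Fin.sum_univ_succ]
    simp only [Fin.cons_zero, Fin.cons_succ, hvip, zero_mul, zero_add]
    have h1 := s0_ineq hΛ hwC hl0 (fun i => rfl) hVw horth' hone hgap' hf hf'
    have h2 : ip f f = ∫ t in (0 : ℝ)..1, f t ^ 2 * t := by
      unfold ip
      congr 1
      ext t
      ring
    rw [h2] at h1
    have h3 : (∫ t in (0 : ℝ)..1, f t ^ 2 * t) - (2 * ip f (fun _ => 1) ^ 2 + ∑ i, ip f (w i) ^ 2) =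
        (∫ t in (0 : ℝ)..1, f t ^ 2 * t) - 2 * ip f (fun _ => 1) ^ 2 - ∑ i, ip f (w i) ^ 2 := by ring
    rw [h3]
    exact h1

end Pool.Agent.NSY
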