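import Pool.Agent.NSY.Defs

/-!
# NSY-GGc: the kernel of the sector m >= 1

PLAN. `GG_cont`: on `[0,1]²` minus the origin `max t s > 0` and everything is continuous; at the origin the value is `0` and
`|√t √s GG m t s| ≤ √t √s / m → 0` (`0 ≤ min/max ≤ 1`, `1 + max^(2m) ≤ 2`).
`GG_int`: split `∫_0^1 = ∫_0^t + ∫_t^1` (integrability: `|GG| ≤ 1/m`, `|h s s| ≤ C √s`); for `s < t`:
`GG m t s (h s s) = (2m)⁻¹ (s/t)^m (1 + t^(2m)) h s s = (2m)⁻¹ ((t^m)⁻¹ + t^m) s^(m+1) h s`; for `s > t`: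
`(2m)⁻¹ (t/s)^m (1 + s^(2m)) h s s = (2m)⁻¹ t^m (s (s^m)⁻¹ + s^(m+1)) h s`.
-/

set_option autoImplicit false

open MeasureTheory Set Filter Topology
open Pool.Agent.Neu (E D mu)
open Pool.Agent.Neu.Discx (P)

namespace Pool.Agent.NSY

private theorem ggc_bound {m : ℕ} (hm : 1 ≤ m) {t s : ℝ} (ht0 : 0 ≤ t) (ht1 : t ≤ 1) (hs0 : 0 ≤ s)
    (hs1 : s ≤ 1) : 0 ≤ GG m t s ∧ GG m t s ≤ 1 := by
  have hm' : (1 : ℝ) ≤ m := by exact_mod_cast hm
  have hmax0 : 0 ≤ max t s := le_max_of_le_left ht0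
  have hmax1 : max t s ≤ 1 := max_le ht1 hs1
  have hmin0 : 0 ≤ min t s := le_min ht0 hs0
  have hq0 : 0 ≤ min t s / max t s := div_nonneg hmin0 hmax0
  have hq1 : min t s / max t s ≤ 1 := div_le_one_of_le₀ min_le_max hmax0
  have h1 : 0 ≤ (min t s / max t s) ^ m := pow_nonneg hq0 m
  have h2 : (min t s / max t s) ^ m ≤ 1 := pow_le_one₀ hq0 hq1
  have h3 : 0 ≤ max t s ^ (2 * m) := pow_nonneg hmax0 _
  have h4 : max t s ^ (2 * m) ≤ 1 := pow_le_one₀ hmax0 hmax1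
  have h5 : 0 ≤ (2 * (m : ℝ))⁻¹ := inv_nonneg.2 (by linarith)
  have h6 : (2 * (m : ℝ))⁻¹ ≤ 2⁻¹ := by
    apply inv_anti₀ (by norm_num)
    linarith
  unfold GG
  refine ⟨mul_nonneg (mul_nonneg h5 h1) (by linarith), ?_⟩
  have h7 : (2 * (m : ℝ))⁻¹ * (min t s / max t s) ^ m ≤ 2⁻¹ * 1 :=
    mul_le_mul h6 h2 h1 (by norm_num)
  have h8 : (2 * (m : ℝ))⁻¹ * (min t s / max t s) ^ m * (1 + max t s ^ (2 * m)) ≤ 2⁻¹ * 1 * 2 :=
    mul_le_mul h7 (by linarith) (by linarith) (by norm_num)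
  linarith

theorem GG_cont {m : ℕ} (hm : 1 ≤ m) :
    ContinuousOn (fun p : ℝ × ℝ => √p.1 * √p.2 * GG m p.1 p.2) (Icc 0 1 ×ˢ Icc 0 1) := by
  intro p hp
  obtain ⟨⟨h1, h2⟩, h3, h4⟩ := hp
  by_cases h0 : max p.1 p.2 = 0
  · have hp1 : p.1 = 0 := le_antisymm (h0 ▸ le_max_left _ _) h1
    have hp2 : p.2 = 0 := le_antisymm (h0 ▸ le_max_right _ _) h3
    have hval : √p.1 * √p.2 * GG m p.1 p.2 = 0 := by
      rw [hp1, Real.sqrt_zero, zero_mul, zero_mul]
    show Tendsto (fun p : ℝ × ℝ => √p.1 * √p.2 * GG m p.1 p.2)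
      (𝓝[Icc 0 1 ×ˢ Icc 0 1] p) (𝓝 (√p.1 * √p.2 * GG m p.1 p.2))
    rw [hval]
    have hlim : Tendsto (fun p : ℝ × ℝ => √p.1 * √p.2) (𝓝[Icc 0 1 ×ˢ Icc 0 1] p) (𝓝 0) := by
      have hc : Continuous fun p : ℝ × ℝ => √p.1 * √p.2 :=
        (Real.continuous_sqrt.comp continuous_fst).mul (Real.continuous_sqrt.comp continuous_snd)
      have h5 := (hc.tendsto p).mono_left (nhdsWithin_le_nhds (s := Icc 0 1 ×ˢ Icc 0 1))
      have h6 : √p.1 * √p.2 = 0 := by rw [hp1, Real.sqrt_zero, zero_mul]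
      rw [h6] at h5
      exact h5
    refine squeeze_zero' ?_ ?_ hlim
    · filter_upwards [self_mem_nhdsWithin] with q hq
      obtain ⟨⟨a1, a2⟩, a3, a4⟩ := hq
      exact mul_nonneg (mul_nonneg (Real.sqrt_nonneg _) (Real.sqrt_nonneg _))
        (ggc_bound hm a1 a2 a3 a4).1
    · filter_upwards [self_mem_nhdsWithin] with q hq
      obtain ⟨⟨a1, a2⟩, a3, a4⟩ := hq
      exact mul_le_of_le_one_right (mul_nonneg (Real.sqrt_nonneg _) (Real.sqrt_nonneg _))
        (ggc_bound hm a1 a2 a3 a4).2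
  · apply ContinuousAt.continuousWithinAt
    unfold GG
    have hmin : ContinuousAt (fun p : ℝ × ℝ => min p.1 p.2) p :=
      (continuous_fst.min continuous_snd).continuousAt
    have hmax : ContinuousAt (fun p : ℝ × ℝ => max p.1 p.2) p :=
      (continuous_fst.max continuous_snd).continuousAt
    have hs1 : ContinuousAt (fun p : ℝ × ℝ => √p.1) p :=
      (Real.continuous_sqrt.comp continuous_fst).continuousAt
    have hs2 : ContinuousAt (fun p : ℝ × ℝ => √p.2) p :=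
      (Real.continuous_sqrt.comp continuous_snd).continuousAt
    exact (hs1.mul hs2).mul ((continuousAt_const.mul ((hmin.div hmax h0).pow m)).mul
      (continuousAt_const.add (hmax.pow (2 * m))))

theorem GG_symm (m : ℕ) (t s : ℝ) : GG m t s = GG m s t := by
  unfold GG
  rw [min_comm, max_comm]

theorem GG_int {m : ℕ} (hm : 1 ≤ m) {h : ℝ → ℝ} (hh : Sq h) {t : ℝ} (ht : t ∈ Ioc (0 : ℝ) 1) :
    ∫ s in (0 : ℝ)..1, GG m t s * (h s * s) = UU m h t := by
  obtain ⟨hcont, C, hC⟩ := hh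
  have ht0 : 0 < t := ht.1
  have hm' : (m : ℝ) ≠ 0 := by
    have : (1 : ℝ) ≤ m := by exact_mod_cast hm
    linarith
  have htm : t ^ m ≠ 0 := pow_ne_zero _ ht0.ne'
  -- the two pieces
  have e1 : ∀ s ∈ Icc 0 t, GG m t s * (h s * s) =
      (2 * (m : ℝ))⁻¹ * ((t ^ m)⁻¹ + t ^ m) * (s ^ (m + 1) * h s) := by
    intro s hs
    unfold GG
    rw [min_eq_right hs.2, max_eq_left hs.2, div_pow, pow_succ, pow_mul']
    field_simp
  have e2 : ∀ s ∈ Icc t 1, GG m t s * (h s * s) =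
      (2 * (m : ℝ))⁻¹ * t ^ m * ((s * (s ^ m)⁻¹ + s ^ (m + 1)) * h s) := by
    intro s hs
    have hs0 : s ≠ 0 := (lt_of_lt_of_le ht0 hs.1).ne'
    have hsm : s ^ m ≠ 0 := pow_ne_zero _ hs0
    unfold GG
    rw [min_eq_left hs.1, max_eq_right hs.1, div_pow, pow_succ, pow_mul']
    field_simp
  have hI0 : IntervalIntegrable (fun s => s ^ (m + 1) * h s) volume 0 t := by
    rw [intervalIntegrable_iff_integrableOn_Ioc_of_le ht0.le]
    have hsub : Ioc (0 : ℝ) t ⊆ Ioc 0 1 := Ioc_subset_Ioc_right ht.2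
    have hmeas : AEStronglyMeasurable (fun s => s ^ (m + 1) * h s)
        (volume.restrict (Ioc (0 : ℝ) t)) :=
      ((continuous_pow (m + 1)).continuousOn.mul (hcont.mono hsub)).aestronglyMeasurable
        measurableSet_Ioc
    refine Integrable.of_bound hmeas C ?_
    rw [ae_restrict_iff' measurableSet_Ioc]
    refine Filter.Eventually.of_forall fun s hs => ?_
    have hs1 : s ∈ Ioc (0 : ℝ) 1 := hsub hs
    have h1 := hC s hs1
    have h2 : s ^ (m + 1) ≤ √s := by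
      have h3 : s ^ (m + 1) ≤ s := by
        rw [pow_succ]
        exact mul_le_of_le_one_left hs1.1.le (pow_le_one₀ hs1.1.le hs1.2)
      have h4 : s ≤ √s := by
        have h5 : √s * √s = s := Real.mul_self_sqrt hs1.1.le
        have h6 : √s ≤ 1 := Real.sqrt_le_one.2 hs1.2
        calc s = √s * √s := h5.symm
          _ ≤ √s * 1 := mul_le_mul_of_nonneg_left h6 (Real.sqrt_nonneg _)
          _ = √s := mul_one _
      exact h3.trans h4
    rw [norm_mul, Real.norm_eq_abs, Real.norm_eq_abs, abs_of_nonneg (pow_nonneg hs1.1.le _)]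
    exact (mul_le_mul_of_nonneg_right h2 (abs_nonneg _)).trans h1
  have hI1 : IntervalIntegrable (fun s => GG m t s * (h s * s)) volume 0 t := by
    have h1 := hI0.const_mul ((2 * (m : ℝ))⁻¹ * ((t ^ m)⁻¹ + t ^ m))
    refine h1.congr fun s hs => ?_
    rw [uIoc_of_le ht0.le] at hs
    exact (e1 s ⟨hs.1.le, hs.2⟩).symm
  have hI2 : IntervalIntegrable (fun s => GG m t s * (h s * s)) volume t 1 := by
    have hc : ContinuousOn (fun s => (2 * (m : ℝ))⁻¹ * t ^ m *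
        ((s * (s ^ m)⁻¹ + s ^ (m + 1)) * h s)) (Icc t 1) := by
      have hsub : Icc t 1 ⊆ Ioc (0 : ℝ) 1 := fun s hs => ⟨lt_of_lt_of_le ht0 hs.1, hs.2⟩
      have hinv : ContinuousOn (fun s : ℝ => (s ^ m)⁻¹) (Icc t 1) :=
        (continuous_pow m).continuousOn.inv₀ fun s hs => pow_ne_zero _ (hsub hs).1.ne'
      exact continuousOn_const.mul (((continuousOn_id.mul hinv).add
        (continuous_pow (m + 1)).continuousOn).mul (hcont.mono hsub))
    rw [← uIcc_of_le ht.2] at hc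
    refine hc.intervalIntegrable.congr fun s hs => ?_
    rw [uIoc_of_le ht.2] at hs
    exact (e2 s ⟨hs.1.le, hs.2⟩).symm
  rw [← intervalIntegral.integral_add_adjacent_intervals hI1 hI2]
  have j1 : ∫ s in (0 : ℝ)..t, GG m t s * (h s * s) =
      (2 * (m : ℝ))⁻¹ * ((t ^ m)⁻¹ + t ^ m) * ∫ s in (0 : ℝ)..t, s ^ (m + 1) * h s := by
    rw [← intervalIntegral.integral_const_mul]
    refine intervalIntegral.integral_congr fun s hs => ?_
    rw [uIcc_of_le ht0.le] at hs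
    exact e1 s hs
  have j2 : ∫ s in t..1, GG m t s * (h s * s) =
      (2 * (m : ℝ))⁻¹ * t ^ m * ∫ s in t..1, (s * (s ^ m)⁻¹ + s ^ (m + 1)) * h s := by
    rw [← intervalIntegral.integral_const_mul]
    refine intervalIntegral.integral_congr fun s hs => ?_
    rw [uIcc_of_le ht.2] at hs
    exact e2 s hs
  rw [j1, j2]
  unfold UU
  ring

end Pool.Agent.NSY
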