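import Pool.Agent.NSY.Defs

/-!
# NSY-UUd: derivatives of UU m h

PLAN. With `A t = ∫_0^t s^(m+1) h`, `B t = ∫_t^1 (s (s^m)⁻¹ + s^(m+1)) h`: `A' = t^(m+1) h t`, `B' = -(t (t^m)⁻¹ + t^(m+1)) h t` for `t ∈ (0,1)`
(FTC; the integrands are continuous on `(0,1]`, integrable near `0` for `A` because `|s^(m+1) h| ≤ C s^(m+1/2)`; `B` is an integral over `[t, 1]`, `t > 0`).
`UU = (2m)⁻¹ ((t^-m + t^m) A + t^m B)`: the terms with `h` cancel, the rest is `2⁻¹ ((-t^(-m-1) + t^(m-1)) A + t^(m-1) B) = UU'`.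
`t UU' = 2⁻¹ ((-t^-m + t^m) A + t^m B)`: derivative `(m/2)((t^(-m-1) + t^(m-1)) A + t^(m-1) B) + 2⁻¹ (-t^-m + t^m) t^(m+1) h - 2⁻¹ t^m (t^(1-m) + t^(m+1)) h
= m² UU/t - t h`. `UU' m h 1 = 0` because `-1 + 1 = 0` and the integral over `[1,1]` vanishes. Continuity on `(0,1]`: `A`, `B` are continuous on `(0,1]`.
`UU_lin`: linearity of the integrals.
-/

set_option autoImplicit false

open MeasureTheory Set Filter Topology
open Pool.Agent.Neu (E D mu)
open Pool.Agent.Neu.Discx (P)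

namespace Pool.Agent.NSY

variable {m : ℕ} {h : ℝ → ℝ}

private theorem uud_intA (m : ℕ) {h : ℝ → ℝ} (hh : Sq h) :
    IntegrableOn (fun s => s ^ (m + 1) * h s) (Icc 0 1) volume := by
  obtain ⟨hc, C, hC⟩ := hh
  rw [integrableOn_Icc_iff_integrableOn_Ioc]
  have h1 : ContinuousOn (fun s => s ^ (m + 1) * h s) (Ioc 0 1) :=
    ((continuous_pow (m + 1)).continuousOn).mul hc
  refine Integrable.mono' (g := fun _ => C) ?_ (h1.aestronglyMeasurable measurableSet_Ioc) ?_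
  · exact integrableOn_const (by simp)
  · rw [ae_restrict_iff' measurableSet_Ioc]
    refine Filter.Eventually.of_forall fun s hs => ?_
    rw [Real.norm_eq_abs, abs_mul, abs_of_nonneg (pow_nonneg hs.1.le _)]
    have h2 : s = √s * √s := (Real.mul_self_sqrt hs.1.le).symm
    have h3 : s ^ (m + 1) ≤ √s := by
      have h4 : s ^ m ≤ 1 := pow_le_one₀ hs.1.le hs.2
      have h5 : √s ≤ 1 := Real.sqrt_le_one.2 hs.2
      have h6 : s ≤ √s := by
        nlinarith [Real.sqrt_nonneg s]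
      calc s ^ (m + 1) = s ^ m * s := pow_succ s m
        _ ≤ 1 * s := mul_le_mul_of_nonneg_right h4 hs.1.le
        _ = s := one_mul s
        _ ≤ √s := h6
    exact (mul_le_mul_of_nonneg_right h3 (abs_nonneg _)).trans (hC s hs)

private theorem uud_contB (m : ℕ) {h : ℝ → ℝ} (hh : Sq h) :
    ContinuousOn (fun s => (s * (s ^ m)⁻¹ + s ^ (m + 1)) * h s) (Ioc 0 1) := by
  refine ContinuousOn.mul (ContinuousOn.add (continuousOn_id.mul ?_) (continuous_pow (m + 1)).continuousOn) hh.1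
  exact (continuous_pow m).continuousOn.inv₀ fun s hs => (pow_pos hs.1 m).ne'

private theorem uud_intB (m : ℕ) {h : ℝ → ℝ} (hh : Sq h) {x : ℝ} (hx : 0 < x) :
    IntegrableOn (fun s => (s * (s ^ m)⁻¹ + s ^ (m + 1)) * h s) (Icc x 1) volume := by
  have h1 : ContinuousOn (fun s => (s * (s ^ m)⁻¹ + s ^ (m + 1)) * h s) (Icc x 1) :=
    (uud_contB m hh).mono fun s hs => ⟨lt_of_lt_of_le hx hs.1, hs.2⟩
  exact h1.integrableOn_compact isCompact_Icc

private theorem uud_iiA (m : ℕ) {h : ℝ → ℝ} (hh : Sq h) {t : ℝ} (ht : t ∈ Ioc (0 : ℝ) 1) :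
    IntervalIntegrable (fun s => s ^ (m + 1) * h s) volume 0 t := by
  rw [intervalIntegrable_iff_integrableOn_Icc_of_le ht.1.le]
  exact (uud_intA m hh).mono_set (Icc_subset_Icc_right ht.2)

private theorem uud_iiB (m : ℕ) {h : ℝ → ℝ} (hh : Sq h) {t : ℝ} (ht : t ∈ Ioc (0 : ℝ) 1) :
    IntervalIntegrable (fun s => (s * (s ^ m)⁻¹ + s ^ (m + 1)) * h s) volume t 1 := by
  rw [intervalIntegrable_iff_integrableOn_Icc_of_le ht.2]
  exact uud_intB m hh ht.1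

private theorem uud_dA (m : ℕ) {h : ℝ → ℝ} (hh : Sq h) {t : ℝ} (ht : t ∈ Ioo (0 : ℝ) 1) :
    HasDerivAt (fun u => ∫ s in (0 : ℝ)..u, s ^ (m + 1) * h s) (t ^ (m + 1) * h t) t := by
  have h1 : ContinuousOn (fun s => s ^ (m + 1) * h s) (Ioo 0 1) :=
    ((continuous_pow (m + 1)).continuousOn).mul (hh.1.mono Ioo_subset_Ioc_self)
  exact intervalIntegral.integral_hasDerivAt_right (uud_iiA m hh ⟨ht.1, ht.2.le⟩)
    (h1.stronglyMeasurableAtFilter isOpen_Ioo t ht) (h1.continuousAt (isOpen_Ioo.mem_nhds ht))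

private theorem uud_dB (m : ℕ) {h : ℝ → ℝ} (hh : Sq h) {t : ℝ} (ht : t ∈ Ioo (0 : ℝ) 1) :
    HasDerivAt (fun u => ∫ s in u..1, (s * (s ^ m)⁻¹ + s ^ (m + 1)) * h s)
      (-((t * (t ^ m)⁻¹ + t ^ (m + 1)) * h t)) t := by
  have h1 : ContinuousOn (fun s => (s * (s ^ m)⁻¹ + s ^ (m + 1)) * h s) (Ioo 0 1) :=
    (uud_contB m hh).mono Ioo_subset_Ioc_self
  exact intervalIntegral.integral_hasDerivAt_left (uud_iiB m hh ⟨ht.1, ht.2.le⟩)
    (h1.stronglyMeasurableAtFilter isOpen_Ioo t ht) (h1.continuousAt (isOpen_Ioo.mem_nhds ht))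

theorem UU_deriv (hm : 1 ≤ m) (hh : Sq h) {t : ℝ} (ht : t ∈ Ioo (0 : ℝ) 1) :
    HasDerivAt (UU m h) (UU' m h t) t := by
  have ht0 : t ≠ 0 := ht.1.ne'
  have hm0 : (m : ℝ) ≠ 0 := by
    have : m ≠ 0 := by omega
    exact_mod_cast this
  have hp := hasDerivAt_pow m t
  have hpm : t ^ m ≠ 0 := pow_ne_zero m ht0
  have hi := hp.inv hpm
  have hA := uud_dA m hh ht
  have hB := uud_dB m hh ht
  have h1 := (((hi.add hp).mul hA).add (hp.mul hB)).const_mul (2 * (m : ℝ))⁻¹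
  refine h1.congr_deriv ?_
  unfold UU'
  obtain ⟨n, rfl⟩ : ∃ n, m = n + 1 := ⟨m - 1, by omega⟩
  simp only [Nat.add_sub_cancel, Pi.add_apply, Pi.mul_apply, Pi.inv_apply] at *
  have hpn : t ^ n ≠ 0 := pow_ne_zero n ht0
  field_simp
  ring

theorem UU_deriv2 (hm : 1 ≤ m) (hh : Sq h) {t : ℝ} (ht : t ∈ Ioo (0 : ℝ) 1) :
    HasDerivAt (fun s => s * UU' m h s) ((m : ℝ) ^ 2 * UU m h t / t - t * h t) t := by
  have ht0 : t ≠ 0 := ht.1.ne'
  have hm0 : (m : ℝ) ≠ 0 := by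
    have : m ≠ 0 := by omega
    exact_mod_cast this
  have hp := hasDerivAt_pow m t
  have hpm : t ^ m ≠ 0 := pow_ne_zero m ht0
  have hi := hp.inv hpm
  have hA := uud_dA m hh ht
  have hB := uud_dB m hh ht
  have h1 := ((hi.neg.add hp).mul hA).add (hp.mul hB)
  have h2 := ((hasDerivAt_inv ht0).const_mul (2 : ℝ)⁻¹).mul h1
  have h3 := (hasDerivAt_id t).mul h2
  refine h3.congr_deriv ?_
  unfold UU
  obtain ⟨n, rfl⟩ : ∃ n, m = n + 1 := ⟨m - 1, by omega⟩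
  simp only [Nat.add_sub_cancel, Pi.add_apply, Pi.mul_apply, Pi.inv_apply, Pi.neg_apply, id] at *
  have hpn : t ^ n ≠ 0 := pow_ne_zero n ht0
  field_simp
  ring

theorem UU'_one (m : ℕ) (h : ℝ → ℝ) : UU' m h 1 = 0 := by
  unfold UU'
  simp

private theorem uud_cA (m : ℕ) {h : ℝ → ℝ} (hh : Sq h) :
    ContinuousOn (fun u => ∫ s in (0 : ℝ)..u, s ^ (m + 1) * h s) (Ioc 0 1) := by
  have h1 := intervalIntegral.continuousOn_primitive_interval (μ := volume) (a := (0 : ℝ)) (b := 1)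
    (f := fun s => s ^ (m + 1) * h s) (by
      rw [uIcc_of_le zero_le_one]
      exact uud_intA m hh)
  rw [uIcc_of_le zero_le_one] at h1
  exact h1.mono Ioc_subset_Icc_self

private theorem uud_cB (m : ℕ) {h : ℝ → ℝ} (hh : Sq h) :
    ContinuousOn (fun u => ∫ s in u..1, (s * (s ^ m)⁻¹ + s ^ (m + 1)) * h s) (Ioc 0 1) := by
  intro x hx
  have hx2 : 0 < x / 2 := half_pos hx.1
  have hle : x / 2 ≤ 1 := by linarith [hx.2, hx.1]
  have h1 := intervalIntegral.continuousOn_primitive_interval_left (μ := volume) (a := x / 2) (b := 1)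
    (f := fun s => (s * (s ^ m)⁻¹ + s ^ (m + 1)) * h s) (by
      rw [uIcc_of_le hle]
      exact uud_intB m hh hx2)
  rw [uIcc_of_le hle] at h1
  have h2 := h1 x ⟨by linarith [hx.1], hx.2⟩
  refine h2.mono_of_mem_nhdsWithin ?_
  have h3 : Ioi (x / 2) ∈ 𝓝 x := Ioi_mem_nhds (by linarith [hx.1])
  filter_upwards [nhdsWithin_le_nhds h3, self_mem_nhdsWithin] with y hy1 hy2
  exact ⟨le_of_lt hy1, hy2.2⟩

private theorem uud_ci (m : ℕ) : ContinuousOn (fun t : ℝ => (t ^ m)⁻¹) (Ioc 0 1) :=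
  (continuous_pow m).continuousOn.inv₀ fun s hs => (pow_pos hs.1 m).ne'

theorem UU_cont (hm : 1 ≤ m) (hh : Sq h) : ContinuousOn (UU m h) (Ioc 0 1) := by
  have hp : ContinuousOn (fun t : ℝ => t ^ m) (Ioc 0 1) := (continuous_pow m).continuousOn
  exact continuousOn_const.mul ((((uud_ci m).add hp).mul (uud_cA m hh)).add (hp.mul (uud_cB m hh)))

theorem UU'_cont (hm : 1 ≤ m) (hh : Sq h) : ContinuousOn (UU' m h) (Ioc 0 1) := by
  have hp : ContinuousOn (fun t : ℝ => t ^ m) (Ioc 0 1) := (continuous_pow m).continuousOn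
  have hi : ContinuousOn (fun t : ℝ => 2⁻¹ * t⁻¹) (Ioc 0 1) :=
    continuousOn_const.mul (continuousOn_id.inv₀ fun s hs => hs.1.ne')
  exact hi.mul ((((uud_ci m).neg.add hp).mul (uud_cA m hh)).add (hp.mul (uud_cB m hh)))

theorem UU_zero (hm : 1 ≤ m) (h : ℝ → ℝ) : UU m h 0 = 0 := by
  have h0 : (0 : ℝ) ^ m = 0 := zero_pow (by omega)
  unfold UU
  rw [h0, intervalIntegral.integral_same]
  simp

theorem UU_lin {h₁ h₂ : ℝ → ℝ} (h1 : Sq h₁) (h2 : Sq h₂) (a b : ℝ) {t : ℝ}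
    (ht : t ∈ Ioc (0 : ℝ) 1) :
    UU m (fun s => a * h₁ s + b * h₂ s) t = a * UU m h₁ t + b * UU m h₂ t := by
  have e1 : ∫ s in (0 : ℝ)..t, s ^ (m + 1) * (a * h₁ s + b * h₂ s) =
      a * (∫ s in (0 : ℝ)..t, s ^ (m + 1) * h₁ s) + b * ∫ s in (0 : ℝ)..t, s ^ (m + 1) * h₂ s := by
    rw [← intervalIntegral.integral_const_mul, ← intervalIntegral.integral_const_mul,
      ← intervalIntegral.integral_add ((uud_iiA m h1 ht).const_mul a) ((uud_iiA m h2 ht).const_mul b)]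
    refine intervalIntegral.integral_congr fun s _ => ?_
    show s ^ (m + 1) * (a * h₁ s + b * h₂ s) = a * (s ^ (m + 1) * h₁ s) + b * (s ^ (m + 1) * h₂ s)
    ring
  have e2 : ∫ s in t..1, (s * (s ^ m)⁻¹ + s ^ (m + 1)) * (a * h₁ s + b * h₂ s) =
      a * (∫ s in t..1, (s * (s ^ m)⁻¹ + s ^ (m + 1)) * h₁ s) +
        b * ∫ s in t..1, (s * (s ^ m)⁻¹ + s ^ (m + 1)) * h₂ s := by
    rw [← intervalIntegral.integral_const_mul, ← intervalIntegral.integral_const_mul,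
      ← intervalIntegral.integral_add ((uud_iiB m h1 ht).const_mul a) ((uud_iiB m h2 ht).const_mul b)]
    refine intervalIntegral.integral_congr fun s _ => ?_
    show (s * (s ^ m)⁻¹ + s ^ (m + 1)) * (a * h₁ s + b * h₂ s) =
      a * ((s * (s ^ m)⁻¹ + s ^ (m + 1)) * h₁ s) + b * ((s * (s ^ m)⁻¹ + s ^ (m + 1)) * h₂ s)
    ring
  unfold UU
  rw [e1, e2]
  ring

end Pool.Agent.NSY
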