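import Pool.Agent.NSY.Defs
import Pool.Agent.NSY.UUd

/-!
# NSY-ReM: eigenfunctions of UU are radial eigenfunctions (m >= 1)

PLAN. `w t = u t / √2`. Define `v t = 0` for `t ≤ 0`, `w t` for `0 < t ≤ 1`, `w 1` for `t > 1`; `v' t = K UU' m w t` for `0 < t < 1`, `0` otherwise.
NEAR 0: `√t |w| ≤ C`. First `|w| ≤ C'` (crude bounds of `A`, `B`), then `|w| ≤ C'' t` on `(0,1]`. Then with `|w| ≤ C'' t`:
`|A| ≤ C'' t^(m+3)`, and for `m = 1`: `UU' = 2⁻¹ ((-t⁻² + 1) A + B) → 2⁻¹ B(0+)`, a finite limit `c/K` (`B` converges: the integrand is bounded); for `m ≥ 2`: `t^(m-1) |B| ≤ t^(m-1) ∫_t^1 2 C' s^(2-m) ds → 0`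
(`t^(m-1) s^(2-m) ≤ t` for `s ≥ t`, so `≤ 2 C' t`). So `v'` has a limit `c` at `0`, `c = 0` for `m ≥ 2`, and `v → 0`.
AT 1: left derivative `K UU' m w 1 = 0` (`UU'_one`; the derivative extends continuously: `hasDerivWithinAt_Iic_of_tendsto_deriv` or similar) and constant to the right. For `t > 1` derivative 0. ODE on `(0,1)`: `UU_deriv2`.
`norm`: `ip u u = 1`.
-/

set_option autoImplicit false

open MeasureTheory Set Filter Topology
open Pool.Agent.Neu (E D mu)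
open Pool.Agent.Neu.Discx (P)

namespace Pool.Agent.NSY

private theorem rm_ker1 {m : ℕ} (hm : 1 ≤ m) {t s : ℝ} (ht : 0 < t) (hts : t ≤ s) (hs : s ≤ 1) :
    t ^ m * (s * (s ^ m)⁻¹ + s ^ (m + 1)) ≤ 2 * t := by
  have hs0 : 0 < s := lt_of_lt_of_le ht hts
  have h1 : t ^ m * (s * (s ^ m)⁻¹) = s * (t / s) ^ m := by
    rw [div_pow, div_eq_mul_inv]
    ring
  have h2 : (t / s) ^ m ≤ t / s := by
    refine pow_le_of_le_one (by positivity) ?_ (by omega)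
    rw [div_le_one hs0]
    exact hts
  have h3 : s * (t / s) ^ m ≤ t := by
    calc s * (t / s) ^ m ≤ s * (t / s) := mul_le_mul_of_nonneg_left h2 hs0.le
      _ = t := by field_simp
  have h4 : t ^ m ≤ t := pow_le_of_le_one ht.le (hts.trans hs) (by omega)
  have h5 : s ^ (m + 1) ≤ 1 := pow_le_one₀ hs0.le hs
  have h6 : t ^ m * s ^ (m + 1) ≤ t * 1 := mul_le_mul h4 h5 (by positivity) ht.le
  rw [mul_add, h1]
  linarith

private theorem rm_ker2 {m : ℕ} (hm : 2 ≤ m) {t s : ℝ} (ht : 0 < t) (hts : t ≤ s) (hs : s ≤ 1) :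
    t ^ m * (s * (s ^ m)⁻¹ + s ^ (m + 1)) * s ≤ 2 * t ^ 2 := by
  have hs0 : 0 < s := lt_of_lt_of_le ht hts
  have h1 : t ^ m * (s * (s ^ m)⁻¹) * s = s ^ 2 * (t / s) ^ m := by
    rw [div_pow, div_eq_mul_inv]
    ring
  have h2 : (t / s) ^ m ≤ (t / s) ^ 2 := by
    refine pow_le_pow_of_le_one (by positivity) ?_ hm
    rw [div_le_one hs0]
    exact hts
  have h3 : s ^ 2 * (t / s) ^ m ≤ t ^ 2 := by
    calc s ^ 2 * (t / s) ^ m ≤ s ^ 2 * (t / s) ^ 2 := mul_le_mul_of_nonneg_left h2 (by positivity)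
      _ = t ^ 2 := by field_simp
  have h4 : t ^ m ≤ t ^ 2 := pow_le_pow_of_le_one ht.le (hts.trans hs) hm
  have h5 : s ^ (m + 2) ≤ 1 := pow_le_one₀ hs0.le hs
  have h6 : t ^ m * s ^ (m + 2) ≤ t ^ 2 * 1 := mul_le_mul h4 h5 (by positivity) (by positivity)
  have h7 : t ^ m * (s * (s ^ m)⁻¹ + s ^ (m + 1)) * s =
      t ^ m * (s * (s ^ m)⁻¹) * s + t ^ m * s ^ (m + 2) := by ring
  rw [h7, h1]
  linarith

private theorem rm_A {m : ℕ} {u : ℝ → ℝ} {t α : ℝ} (ht : 0 < t)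
    (h : ∀ s ∈ Ioc (0 : ℝ) t, |s ^ (m + 1) * u s| ≤ α) :
    |∫ s in (0 : ℝ)..t, s ^ (m + 1) * u s| ≤ α * t := by
  have h1 := intervalIntegral.norm_integral_le_of_norm_le_const (a := 0) (b := t) (C := α)
    (f := fun s => s ^ (m + 1) * u s) (fun s hs => by
      rw [uIoc_of_le ht.le] at hs
      exact h s hs)
  rw [sub_zero, abs_of_pos ht] at h1
  exact h1

private theorem rm_B {m : ℕ} {u : ℝ → ℝ} {t β : ℝ} (ht : 0 < t) (ht1 : t ≤ 1)
    (h : ∀ s ∈ Icc t 1, |t ^ m * (s * (s ^ m)⁻¹ + s ^ (m + 1)) * u s| ≤ β) :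
    |t ^ m * ∫ s in t..1, (s * (s ^ m)⁻¹ + s ^ (m + 1)) * u s| ≤ β := by
  have hβ : 0 ≤ β := (abs_nonneg _).trans (h 1 ⟨ht1, le_rfl⟩)
  rw [← intervalIntegral.integral_const_mul]
  have h1 := intervalIntegral.norm_integral_le_of_norm_le_const (a := t) (b := 1) (C := β)
    (f := fun s => t ^ m * ((s * (s ^ m)⁻¹ + s ^ (m + 1)) * u s)) (fun s hs => by
      rw [uIoc_of_le ht1] at hs
      have h2 := h s ⟨hs.1.le, hs.2⟩
      rw [mul_assoc] at h2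
      exact h2)
  refine h1.trans ?_
  rw [abs_of_nonneg (by linarith : (0 : ℝ) ≤ 1 - t)]
  nlinarith

private theorem rm_B1 {m : ℕ} (hm : 1 ≤ m) {u : ℝ → ℝ} {t β : ℝ} (ht : 0 < t) (ht1 : t ≤ 1)
    (h : ∀ s ∈ Icc t 1, |u s| ≤ β) :
    |t ^ m * ∫ s in t..1, (s * (s ^ m)⁻¹ + s ^ (m + 1)) * u s| ≤ 2 * t * β := by
  refine rm_B ht ht1 fun s hs => ?_
  have hs0 : 0 < s := lt_of_lt_of_le ht hs.1
  have h1 := rm_ker1 hm ht hs.1 hs.2
  have h2 : 0 ≤ t ^ m * (s * (s ^ m)⁻¹ + s ^ (m + 1)) := by positivity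
  rw [abs_mul, abs_of_nonneg h2]
  exact mul_le_mul h1 (h s hs) (abs_nonneg _) (by positivity)

private theorem rm_UU {m : ℕ} (hm : 1 ≤ m) {u : ℝ → ℝ} {t a β : ℝ} (ht : 0 < t) (ht1 : t ≤ 1)
    (hA : |∫ s in (0 : ℝ)..t, s ^ (m + 1) * u s| ≤ a) (h : ∀ s ∈ Icc t 1, |u s| ≤ β) :
    |UU m u t| ≤ (t ^ m)⁻¹ * a + t * β := by
  have hB := rm_B1 hm ht ht1 h
  have htm : 0 < t ^ m := by positivity
  have htm1 : t ^ m ≤ (t ^ m)⁻¹ := by
    have h1 : t ^ m ≤ 1 := pow_le_one₀ ht.le ht1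
    exact h1.trans ((one_le_inv₀ htm).2 h1)
  have hm' : (1 : ℝ) ≤ m := by exact_mod_cast hm
  have ha : 0 ≤ a := (abs_nonneg _).trans hA
  have hβ : 0 ≤ β := (abs_nonneg _).trans (h 1 ⟨ht1, le_rfl⟩)
  unfold UU
  set A := ∫ s in (0 : ℝ)..t, s ^ (m + 1) * u s
  set B := t ^ m * ∫ s in t..1, (s * (s ^ m)⁻¹ + s ^ (m + 1)) * u s
  have h1 : |((t ^ m)⁻¹ + t ^ m) * A| ≤ 2 * (t ^ m)⁻¹ * a := by
    rw [abs_mul, abs_of_nonneg (by positivity : 0 ≤ (t ^ m)⁻¹ + t ^ m)]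
    exact mul_le_mul (by linarith) hA (abs_nonneg _) (by positivity)
  have h2 : (2 * (m : ℝ))⁻¹ ≤ 2⁻¹ := by
    refine inv_anti₀ (by norm_num) ?_
    linarith
  have h3 : |((t ^ m)⁻¹ + t ^ m) * A + B| ≤ 2 * (t ^ m)⁻¹ * a + 2 * t * β :=
    (abs_add_le _ _).trans (add_le_add h1 hB)
  rw [abs_mul, abs_of_nonneg (by positivity : 0 ≤ (2 * (m : ℝ))⁻¹)]
  calc (2 * (m : ℝ))⁻¹ * |((t ^ m)⁻¹ + t ^ m) * A + B|
      ≤ 2⁻¹ * (2 * (t ^ m)⁻¹ * a + 2 * t * β) := mul_le_mul h2 h3 (abs_nonneg _) (by norm_num)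
    _ = (t ^ m)⁻¹ * a + t * β := by ring

/-- boundedness of the eigenfunctions -/
private theorem rm_bd {m : ℕ} (hm : 1 ≤ m) {K : ℝ} {u : ℝ → ℝ} (hu : Sq u)
    (hK : ∀ t ∈ Ioc (0 : ℝ) 1, u t = K * UU m u t) :
    ∃ C : ℝ, ∀ t ∈ Ioc (0 : ℝ) 1, |u t| ≤ C := by
  obtain ⟨-, C, hC⟩ := hu
  have hC0 : 0 ≤ C := le_trans (by positivity) (hC 1 ⟨one_pos, le_rfl⟩)
  refine ⟨|K| * (2 * C), fun t ht => ?_⟩
  have hst : 0 < √t := Real.sqrt_pos.2 ht.1
  have hst1 : √t ≤ 1 := Real.sqrt_le_one.2 ht.2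
  have htt : √t * √t = t := Real.mul_self_sqrt ht.1.le
  have htm : 0 < t ^ m := pow_pos ht.1 m
  have hA : |∫ s in (0 : ℝ)..t, s ^ (m + 1) * u s| ≤ C * (t ^ m * √t) * t := by
    refine rm_A ht.1 fun s hs => ?_
    have hs1 : s ≤ 1 := hs.2.trans ht.2
    have h1 := hC s ⟨hs.1, hs1⟩
    have hss : √s * √s = s := Real.mul_self_sqrt hs.1.le
    have h2 : |s ^ (m + 1) * u s| = s ^ m * √s * (√s * |u s|) := by
      rw [abs_mul, abs_of_nonneg (pow_nonneg hs.1.le _), pow_succ]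
      calc s ^ m * s * |u s| = s ^ m * (√s * √s) * |u s| := by rw [hss]
        _ = _ := by ring
    rw [h2]
    have h3 : s ^ m ≤ t ^ m := pow_le_pow_left₀ hs.1.le hs.2 m
    have h4 : √s ≤ √t := Real.sqrt_le_sqrt hs.2
    have h5 : s ^ m * √s ≤ t ^ m * √t := mul_le_mul h3 h4 (Real.sqrt_nonneg _) htm.le
    calc s ^ m * √s * (√s * |u s|) ≤ t ^ m * √t * C :=
          mul_le_mul h5 h1 (by positivity) (by positivity)
      _ = C * (t ^ m * √t) := by ring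
  have hB : ∀ s ∈ Icc t 1, |u s| ≤ C / √t := by
    intro s hs
    have h1 := hC s ⟨lt_of_lt_of_le ht.1 hs.1, hs.2⟩
    have h4 : √t ≤ √s := Real.sqrt_le_sqrt hs.1
    rw [le_div_iff₀ hst]
    calc |u s| * √t ≤ |u s| * √s := mul_le_mul_of_nonneg_left h4 (abs_nonneg _)
      _ = √s * |u s| := mul_comm _ _
      _ ≤ C := h1
  have h1 := rm_UU hm ht.1 ht.2 hA hB
  rw [hK t ht, abs_mul]
  refine mul_le_mul_of_nonneg_left (h1.trans ?_) (abs_nonneg _)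
  have e1 : (t ^ m)⁻¹ * (C * (t ^ m * √t) * t) = C * (√t * t) := by
    field_simp
  have e2 : t * (C / √t) = C * √t := by
    rw [mul_div_assoc', div_eq_iff hst.ne', mul_assoc, htt]
    ring
  rw [e1, e2]
  have h3 : √t * t ≤ 1 := mul_le_one₀ hst1 ht.1.le ht.2
  nlinarith

private theorem rm_lin {m : ℕ} (hm : 1 ≤ m) {K : ℝ} {u : ℝ → ℝ} (hu : Sq u)
    (hK : ∀ t ∈ Ioc (0 : ℝ) 1, u t = K * UU m u t) :
    ∃ C : ℝ, 0 ≤ C ∧ ∀ t ∈ Ioc (0 : ℝ) 1, |u t| ≤ C * t := by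
  obtain ⟨C, hC⟩ := rm_bd hm hu hK
  have hC0 : 0 ≤ C := le_trans (abs_nonneg _) (hC 1 ⟨one_pos, le_rfl⟩)
  refine ⟨|K| * (2 * C), by positivity, fun t ht => ?_⟩
  have htm : 0 < t ^ m := pow_pos ht.1 m
  have hA : |∫ s in (0 : ℝ)..t, s ^ (m + 1) * u s| ≤ C * t ^ (m + 1) * t := by
    refine rm_A ht.1 fun s hs => ?_
    have h1 := hC s ⟨hs.1, hs.2.trans ht.2⟩
    rw [abs_mul, abs_of_nonneg (pow_nonneg hs.1.le _), mul_comm C]
    exact mul_le_mul (pow_le_pow_left₀ hs.1.le hs.2 _) h1 (abs_nonneg _)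
      (pow_nonneg ht.1.le _)
  have h1 := rm_UU hm ht.1 ht.2 hA (fun s hs => hC s ⟨lt_of_lt_of_le ht.1 hs.1, hs.2⟩)
  rw [hK t ht, abs_mul, mul_assoc]
  refine mul_le_mul_of_nonneg_left (h1.trans ?_) (abs_nonneg _)
  have e1 : (t ^ m)⁻¹ * (C * t ^ (m + 1) * t) = C * (t * t) := by
    rw [pow_succ]
    field_simp
  rw [e1]
  have h3 : t * t ≤ t := by nlinarith [ht.1, ht.2]
  nlinarith

/-- the integrand of `B` is integrable on `[0, 1]` for `m = 1` -/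
private theorem rm_int {u : ℝ → ℝ} (hu : Sq u) {C : ℝ} (hC0 : 0 ≤ C)
    (hC : ∀ t ∈ Ioc (0 : ℝ) 1, |u t| ≤ C * t) :
    IntegrableOn (fun s => (s * (s ^ 1)⁻¹ + s ^ (1 + 1)) * u s) (Ioc (0 : ℝ) 1) := by
  have hcont : ContinuousOn (fun s => (s * (s ^ 1)⁻¹ + s ^ (1 + 1)) * u s) (Ioc (0 : ℝ) 1) := by
    refine ContinuousOn.mul (ContinuousOn.add (continuousOn_id.mul ?_) (continuousOn_id.pow _)) hu.1
    exact ContinuousOn.inv₀ (continuousOn_id.pow _) fun s hs => pow_ne_zero _ hs.1.ne'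
  refine Integrable.of_bound (C := 2 * C) (hcont.aestronglyMeasurable measurableSet_Ioc) ?_
  refine (ae_restrict_iff' measurableSet_Ioc).2 (Eventually.of_forall fun s hs => ?_)
  have h1 : |s * (s ^ 1)⁻¹ + s ^ (1 + 1)| ≤ 2 := by
    have h2 : s * (s ^ 1)⁻¹ = 1 := by
      rw [pow_one]
      exact mul_inv_cancel₀ hs.1.ne'
    have h3 : s ^ (1 + 1) ≤ 1 := pow_le_one₀ hs.1.le hs.2
    rw [h2, abs_of_nonneg (add_nonneg zero_le_one (pow_nonneg hs.1.le _))]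
    linarith
  have h2 : |u s| ≤ C := (hC s hs).trans (by nlinarith [hs.1, hs.2])
  rw [Real.norm_eq_abs, abs_mul]
  exact mul_le_mul h1 h2 (abs_nonneg _) (by norm_num)

/-- the limit of the derivative at 0 -/
private theorem rm_slope {m : ℕ} (hm : 1 ≤ m) {K : ℝ} {u : ℝ → ℝ} (hu : Sq u)
    (hK : ∀ t ∈ Ioc (0 : ℝ) 1, u t = K * UU m u t) :
    ∃ c : ℝ, Tendsto (UU' m u) (𝓝[>] 0) (𝓝 c) ∧ (c ≠ 0 → m = 1) := by
  obtain ⟨C, hC0, hC⟩ := rm_lin hm hu hK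
  have hA : ∀ t ∈ Ioc (0 : ℝ) 1, |∫ s in (0 : ℝ)..t, s ^ (m + 1) * u s| ≤ C * t ^ (m + 2) * t := by
    intro t ht
    refine rm_A ht.1 fun s hs => ?_
    have h1 := hC s ⟨hs.1, hs.2.trans ht.2⟩
    rw [abs_mul, abs_of_nonneg (pow_nonneg hs.1.le _)]
    calc s ^ (m + 1) * |u s| ≤ s ^ (m + 1) * (C * s) :=
          mul_le_mul_of_nonneg_left h1 (pow_nonneg hs.1.le _)
      _ = C * s ^ (m + 2) := by ring
      _ ≤ C * t ^ (m + 2) := mul_le_mul_of_nonneg_left (pow_le_pow_left₀ hs.1.le hs.2 _) hC0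
  have hT1 : ∀ t ∈ Ioc (0 : ℝ) 1,
      |t⁻¹ * ((-(t ^ m)⁻¹ + t ^ m) * ∫ s in (0 : ℝ)..t, s ^ (m + 1) * u s)| ≤ 2 * C * t := by
    intro t ht
    have htm : 0 < t ^ m := pow_pos ht.1 m
    have h1 : t ^ m ≤ 1 := pow_le_one₀ ht.1.le ht.2
    have h2 : 1 ≤ (t ^ m)⁻¹ := (one_le_inv₀ htm).2 h1
    have h3 : |-(t ^ m)⁻¹ + t ^ m| ≤ 2 * (t ^ m)⁻¹ := by
      rw [abs_le]
      constructor <;> linarith
    have ht1 : 0 < t⁻¹ := inv_pos.2 ht.1
    rw [abs_mul, abs_mul, abs_of_pos ht1]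
    calc t⁻¹ * (|-(t ^ m)⁻¹ + t ^ m| * |∫ s in (0 : ℝ)..t, s ^ (m + 1) * u s|)
        ≤ t⁻¹ * (2 * (t ^ m)⁻¹ * (C * t ^ (m + 2) * t)) := by
          refine mul_le_mul_of_nonneg_left ?_ ht1.le
          exact mul_le_mul h3 (hA t ht) (abs_nonneg _) (by positivity)
      _ = 2 * C * (t * t) := by
          have := ht.1.ne'
          rw [pow_add]
          field_simp
      _ ≤ 2 * C * t := by
          refine mul_le_mul_of_nonneg_left ?_ (by positivity)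
          nlinarith [ht.1, ht.2]
  have hmem : Ioc (0 : ℝ) 1 ∈ 𝓝[>] (0 : ℝ) := Ioc_mem_nhdsGT one_pos
  have hlin : Tendsto (fun t : ℝ => 2 * C * t) (𝓝[>] 0) (𝓝 0) := by
    have h1 : Tendsto (fun t : ℝ => 2 * C * t) (𝓝 0) (𝓝 (2 * C * 0)) := tendsto_id.const_mul _
    rw [mul_zero] at h1
    exact h1.mono_left nhdsWithin_le_nhds
  have hL1 : Tendsto (fun t : ℝ => t⁻¹ * ((-(t ^ m)⁻¹ + t ^ m) *
      ∫ s in (0 : ℝ)..t, s ^ (m + 1) * u s)) (𝓝[>] 0) (𝓝 0) := by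
    refine squeeze_zero_norm' ?_ hlin
    filter_upwards [hmem] with t ht
    exact hT1 t ht
  have hform : ∀ t, UU' m u t = 2⁻¹ * (t⁻¹ * ((-(t ^ m)⁻¹ + t ^ m) *
      ∫ s in (0 : ℝ)..t, s ^ (m + 1) * u s)) +
      2⁻¹ * (t⁻¹ * (t ^ m * ∫ s in t..1, (s * (s ^ m)⁻¹ + s ^ (m + 1)) * u s)) := by
    intro t
    unfold UU'
    ring
  rcases Nat.lt_or_ge 1 m with h2 | h2
  · refine ⟨0, ?_, fun h => absurd rfl h⟩
    have hL2 : Tendsto (fun t : ℝ => t⁻¹ * (t ^ m *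
        ∫ s in t..1, (s * (s ^ m)⁻¹ + s ^ (m + 1)) * u s)) (𝓝[>] 0) (𝓝 0) := by
      refine squeeze_zero_norm' ?_ hlin
      filter_upwards [hmem] with t ht
      have h3 : |t ^ m * ∫ s in t..1, (s * (s ^ m)⁻¹ + s ^ (m + 1)) * u s| ≤ 2 * t ^ 2 * C := by
        refine rm_B ht.1 ht.2 fun s hs => ?_
        have hs0 : 0 < s := lt_of_lt_of_le ht.1 hs.1
        have h4 := rm_ker2 h2 ht.1 hs.1 hs.2
        have h5 : 0 ≤ t ^ m * (s * (s ^ m)⁻¹ + s ^ (m + 1)) := by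
          have := ht.1
          positivity
        rw [abs_mul, abs_of_nonneg h5]
        calc t ^ m * (s * (s ^ m)⁻¹ + s ^ (m + 1)) * |u s|
            ≤ t ^ m * (s * (s ^ m)⁻¹ + s ^ (m + 1)) * (C * s) :=
              mul_le_mul_of_nonneg_left (hC s ⟨hs0, hs.2⟩) h5
          _ = t ^ m * (s * (s ^ m)⁻¹ + s ^ (m + 1)) * s * C := by ring
          _ ≤ 2 * t ^ 2 * C := mul_le_mul_of_nonneg_right h4 hC0
      have ht1 : 0 < t⁻¹ := inv_pos.2 ht.1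
      rw [Real.norm_eq_abs, abs_mul, abs_of_pos ht1]
      calc t⁻¹ * |t ^ m * ∫ s in t..1, (s * (s ^ m)⁻¹ + s ^ (m + 1)) * u s|
          ≤ t⁻¹ * (2 * t ^ 2 * C) := mul_le_mul_of_nonneg_left h3 ht1.le
        _ = 2 * C * t := by
            have := ht.1.ne'
            field_simp
    have h3 := (hL1.const_mul 2⁻¹).add (hL2.const_mul 2⁻¹)
    rw [mul_zero, add_zero] at h3
    exact h3.congr fun t => (hform t).symm
  · have h1 : m = 1 := le_antisymm h2 hm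
    subst h1
    set f : ℝ → ℝ := fun s => (s * (s ^ 1)⁻¹ + s ^ (1 + 1)) * u s with hf
    have hint := rm_int hu hC0 hC
    have hfb : ∀ s ∈ Ioc (0 : ℝ) 1, |f s| ≤ 2 * C := by
      intro s hs
      have h1 : |s * (s ^ 1)⁻¹ + s ^ (1 + 1)| ≤ 2 := by
        have h2 : s * (s ^ 1)⁻¹ = 1 := by
          rw [pow_one]
          exact mul_inv_cancel₀ hs.1.ne'
        have h3 : s ^ (1 + 1) ≤ 1 := pow_le_one₀ hs.1.le hs.2
        rw [h2, abs_of_nonneg (add_nonneg zero_le_one (pow_nonneg hs.1.le _))]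
        linarith
      have h2 : |u s| ≤ C := (hC s hs).trans (by nlinarith [hs.1, hs.2])
      rw [hf, abs_mul]
      exact mul_le_mul h1 h2 (abs_nonneg _) (by norm_num)
    have hsplit : ∀ t ∈ Ioc (0 : ℝ) 1, (∫ s in t..1, f s) = (∫ s in (0 : ℝ)..1, f s) - ∫ s in (0 : ℝ)..t, f s := by
      intro t ht
      have i1 : IntervalIntegrable f volume 0 t := by
        rw [intervalIntegrable_iff_integrableOn_Ioc_of_le ht.1.le]
        exact hint.mono_set (Ioc_subset_Ioc_right ht.2)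
      have i2 : IntervalIntegrable f volume t 1 := by
        rw [intervalIntegrable_iff_integrableOn_Ioc_of_le ht.2]
        exact hint.mono_set (Ioc_subset_Ioc_left ht.1.le)
      rw [← intervalIntegral.integral_add_adjacent_intervals i1 i2]
      ring
    have hL3 : Tendsto (fun t : ℝ => ∫ s in (0 : ℝ)..t, f s) (𝓝[>] 0) (𝓝 0) := by
      refine squeeze_zero_norm' ?_ hlin
      filter_upwards [hmem] with t ht
      have h3 := intervalIntegral.norm_integral_le_of_norm_le_const (a := 0) (b := t) (C := 2 * C)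
        (f := f) (fun s hs => by
          rw [uIoc_of_le ht.1.le] at hs
          exact hfb s ⟨hs.1, hs.2.trans ht.2⟩)
      rw [sub_zero, abs_of_pos ht.1] at h3
      exact h3
    have hL2 : Tendsto (fun t : ℝ => t⁻¹ * (t ^ 1 * ∫ s in t..1, f s)) (𝓝[>] 0)
        (𝓝 (∫ s in (0 : ℝ)..1, f s)) := by
      have h3 : Tendsto (fun t : ℝ => (∫ s in (0 : ℝ)..1, f s) - ∫ s in (0 : ℝ)..t, f s) (𝓝[>] 0)
          (𝓝 ((∫ s in (0 : ℝ)..1, f s) - 0)) := tendsto_const_nhds.sub hL3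
      rw [sub_zero] at h3
      refine h3.congr' ?_
      filter_upwards [hmem] with t ht
      rw [hsplit t ht, pow_one, ← mul_assoc, inv_mul_cancel₀ ht.1.ne', one_mul]
    have h3 := (hL1.const_mul 2⁻¹).add (hL2.const_mul 2⁻¹)
    exact ⟨_, h3.congr fun t => (hform t).symm, fun _ => rfl⟩

theorem regM {m : ℕ} (hm : 1 ≤ m) {K : ℝ} {u : ℝ → ℝ} (hu : Sq u)
    (hK : ∀ t ∈ Ioc (0 : ℝ) 1, u t = K * UU m u t) (h1 : ip u u = 1) :
    ∃ v v' : ℝ → ℝ, REig m K v v' ∧ ∀ t ∈ Ioc (0 : ℝ) 1, v t = u t / √2 := by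
  obtain ⟨C, hC0, hC⟩ := rm_lin hm hu hK
  obtain ⟨c, hc1, hc2⟩ := rm_slope hm hu hK
  have hs2 : (0 : ℝ) < √2 := Real.sqrt_pos.2 (by norm_num)
  set v : ℝ → ℝ := fun t => if t ≤ 0 then 0 else u (min t 1) / √2 with hv
  set v' : ℝ → ℝ := fun t => if t ≤ 0 then 0 else K * UU' m u (min t 1) / √2 with hv'
  have hv1 : ∀ t ∈ Ioc (0 : ℝ) 1, v t = u t / √2 := by
    intro t ht
    rw [hv]
    show (if t ≤ 0 then 0 else u (min t 1) / √2) = _
    rw [if_neg (not_le.2 ht.1), min_eq_left ht.2]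
  have hv1' : ∀ t ∈ Ioc (0 : ℝ) 1, v' t = K * UU' m u t / √2 := by
    intro t ht
    rw [hv']
    show (if t ≤ 0 then 0 else K * UU' m u (min t 1) / √2) = _
    rw [if_neg (not_le.2 ht.1), min_eq_left ht.2]
  have hv2 : ∀ t, 1 ≤ t → v t = u 1 / √2 := by
    intro t ht
    rw [hv]
    show (if t ≤ 0 then 0 else u (min t 1) / √2) = _
    rw [if_neg (by linarith), min_eq_right ht]
  have hv2' : ∀ t, 1 ≤ t → v' t = 0 := by
    intro t ht
    rw [hv']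
    show (if t ≤ 0 then 0 else K * UU' m u (min t 1) / √2) = _
    rw [if_neg (by linarith), min_eq_right ht, UU'_one, mul_zero, zero_div]
  have hder : ∀ t ∈ Ioo (0 : ℝ) 1, HasDerivAt v (v' t) t := by
    intro t ht
    rw [hv1' t ⟨ht.1, ht.2.le⟩]
    have h2 := ((UU_deriv hm hu ht).const_mul K).div_const √2
    refine h2.congr_of_eventuallyEq ?_
    filter_upwards [Ioo_mem_nhds ht.1 ht.2] with s hs
    rw [hv1 s ⟨hs.1, hs.2.le⟩, hK s ⟨hs.1, hs.2.le⟩]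
  have hcont' : ContinuousOn v' (Ioi 0) := by
    have h2 : ContinuousOn (fun t => K * UU' m u (min t 1) / √2) (Ioi 0) := by
      refine ContinuousOn.div_const (ContinuousOn.mul continuousOn_const ?_) _
      refine (UU'_cont hm hu).comp (continuous_id.min continuous_const).continuousOn fun t ht => ?_
      exact ⟨lt_min ht one_pos, min_le_right _ _⟩
    refine h2.congr fun t ht => ?_
    rw [hv']
    show (if t ≤ 0 then 0 else K * UU' m u (min t 1) / √2) = _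
    rw [if_neg (not_le.2 ht)]
  have hder1 : HasDerivAt v 0 1 := by
    have h2 : HasDerivWithinAt v 0 (Iic 1) 1 := by
      refine hasDerivWithinAt_Iic_of_tendsto_deriv (s := Ioo 0 1)
        (fun t ht => (hder t ht).differentiableAt.differentiableWithinAt) ?_
        (Ioo_mem_nhdsLT one_pos) ?_
      · have h3 : ContinuousWithinAt (fun t => u t / √2) (Ioo 0 1) 1 :=
          ((hu.1 1 ⟨one_pos, le_rfl⟩).mono Ioo_subset_Ioc_self).div_const _
        exact h3.congr (fun t ht => hv1 t ⟨ht.1, ht.2.le⟩) (hv1 1 ⟨one_pos, le_rfl⟩)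
      · have h3 : Tendsto v' (𝓝 1) (𝓝 (v' 1)) :=
          (hcont' 1 (mem_Ioi.2 one_pos)).continuousAt (Ioi_mem_nhds one_pos)
        rw [hv2' 1 le_rfl] at h3
        refine (h3.mono_left nhdsWithin_le_nhds).congr' ?_
        filter_upwards [Ioo_mem_nhdsLT (one_pos : (0 : ℝ) < 1)] with t ht
        exact ((hder t ht).deriv).symm
    have h3 : HasDerivWithinAt v 0 (Ici 1) 1 :=
      (hasDerivWithinAt_const (1 : ℝ) (Ici 1) (u 1 / √2)).congr (fun t ht => hv2 t ht) (hv2 1 le_rfl)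
    have h4 := h2.union h3
    rw [Iic_union_Ici, hasDerivWithinAt_univ] at h4
    exact h4
  refine ⟨v, v', ⟨⟨?_, hcont', ?_, ?_, ?_⟩, ?_, hv2', ?_⟩, hv1⟩
  · intro r hr
    rcases lt_trichotomy r 1 with h2 | h2 | h2
    · exact hder r ⟨hr, h2⟩
    · subst h2
      rw [hv2' 1 le_rfl]
      exact hder1
    · rw [hv2' r h2.le]
      refine (hasDerivAt_const r (u 1 / √2)).congr_of_eventuallyEq ?_
      filter_upwards [Ioi_mem_nhds h2] with s hs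
      exact hv2 s (le_of_lt hs)
  · have h2 : v 0 = 0 := by
      rw [hv]
      show (if (0 : ℝ) ≤ 0 then 0 else u (min 0 1) / √2) = _
      rw [if_pos le_rfl]
    rw [h2]
    have hlin : Tendsto (fun t : ℝ => C * t) (𝓝[>] 0) (𝓝 0) := by
      have h1 : Tendsto (fun t : ℝ => C * t) (𝓝 0) (𝓝 (C * 0)) := tendsto_id.const_mul _
      rw [mul_zero] at h1
      exact h1.mono_left nhdsWithin_le_nhds
    refine squeeze_zero_norm' ?_ hlin
    filter_upwards [Ioc_mem_nhdsGT (one_pos : (0 : ℝ) < 1)] with t ht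
    rw [hv1 t ht, Real.norm_eq_abs, abs_div, abs_of_pos hs2]
    refine (div_le_self (abs_nonneg _) ?_).trans (hC t ht)
    rw [Real.one_le_sqrt]
    norm_num
  · intro _
    rw [hv]
    show (if (0 : ℝ) ≤ 0 then 0 else u (min 0 1) / √2) = _
    rw [if_pos le_rfl]
  · refine ⟨K * c / √2, ?_, fun h => hc2 fun h0 => h (by rw [h0, mul_zero, zero_div])⟩
    refine ((hc1.const_mul K).div_const √2).congr' ?_
    filter_upwards [Ioc_mem_nhdsGT (one_pos : (0 : ℝ) < 1)] with t ht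
    exact (hv1' t ht).symm
  · intro t ht
    have h2 := ((UU_deriv2 hm hu ht).const_mul K).div_const √2
    have e : K * ((m : ℝ) ^ 2 * UU m u t / t - t * u t) / √2 =
        (m : ℝ) ^ 2 * v t / t - K * (t * v t) := by
      rw [hv1 t ⟨ht.1, ht.2.le⟩]
      have h3 := hK t ⟨ht.1, ht.2.le⟩
      have h4 : K * ((m : ℝ) ^ 2 * UU m u t / t - t * u t) / √2 =
          (m : ℝ) ^ 2 * (K * UU m u t / √2) / t - K * (t * (u t / √2)) := by ring
      rw [h4, ← h3]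
    rw [← e]
    refine h2.congr_of_eventuallyEq ?_
    filter_upwards [Ioo_mem_nhds ht.1 ht.2] with s hs
    show s * v' s = K * (s * UU' m u s) / √2
    rw [hv1' s ⟨hs.1, hs.2.le⟩]
    ring
  · have h2 : ∫ t in (0 : ℝ)..1, v t ^ 2 * t = ∫ t in (0 : ℝ)..1, (1 / 2) * (u t * u t * t) := by
      refine intervalIntegral.integral_congr_ae (Eventually.of_forall fun t ht => ?_)
      rw [uIoc_of_le zero_le_one] at ht
      rw [hv1 t ht, div_pow, Real.sq_sqrt (by norm_num : (0 : ℝ) ≤ 2)]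
      ring
    rw [h2, intervalIntegral.integral_const_mul]
    unfold ip at h1
    rw [h1, mul_one]

end Pool.Agent.NSY
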