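import Pool.Agent.NSY.Defs
import Pool.Agent.NSY.UUd

/-!
# NSY-UUa: UU m h is admissible; weak form (m >= 1)

PLAN. `|h| ≤ C` on `[0,1]`, so `h` is `Sq`. `|A t| ≤ C t^(m+2)`, so `(t^-m + t^m) |A| ≤ 2C t²` and `t⁻¹ (…) |A| ≤ 2 C t`. `t^m |B| ≤ C t^m ∫_t^1 2 s^(1-m) ds`: for `m = 1`
`≤ 2 C t`; for `m ≥ 2`, `s^(1-m) ≤ t^(2-m)/s`... simply `t^m s^(1-m) ≤ t` for `s ≥ t` (as `(t/s)^(m-1) ≤ 1`), so
`t^m |B| ≤ 2 C t`. Hence `UU → 0` at `0` (continuity on `[0,1]`, `UU_zero`), `|UU'| ≤ C'` on `(0,1)`.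
WEAK FORM: `φ = f t UU'` on `(0,1)`: `φ' = f' t UU' + f (m² UU/t - t h)`; `φ → 0` at 0 (`f`, `UU'` bounded), `φ → 0` at 1 (`UU'_one`, continuity). FTC on the open
interval with limits (`intervalIntegral.integral_eq_of_hasDerivAt_of_tendsto`-type; or on `[ε, 1-ε]` and let `ε → 0`); integrability: `|f| ≤ C t` (`f 0 = 0`, bounded derivative), so `f UU/t` is bounded.
-/

set_option autoImplicit false

open MeasureTheory Set Filter Topology
open Pool.Agent.Neu (E D mu)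
open Pool.Agent.Neu.Discx (P)

namespace Pool.Agent.NSY

variable {m : ℕ} {h : ℝ → ℝ}

private theorem bound_h (hh : ContinuousOn h (Icc 0 1)) :
    ∃ C : ℝ, 0 ≤ C ∧ ∀ t ∈ Icc (0 : ℝ) 1, |h t| ≤ C := by
  obtain ⟨C, hC⟩ := isCompact_Icc.exists_bound_of_continuousOn hh
  refine ⟨C, le_trans (norm_nonneg _) (hC 0 (left_mem_Icc.2 zero_le_one)), fun t ht => ?_⟩
  have := hC t ht
  rwa [Real.norm_eq_abs] at this

private theorem sq_h (hh : ContinuousOn h (Icc 0 1)) : Sq h := by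
  obtain ⟨C, hC0, hC⟩ := bound_h hh
  refine ⟨hh.mono Ioc_subset_Icc_self, C, fun t ht => ?_⟩
  have h1 : √t ≤ 1 := by
    exact Real.sqrt_le_one.2 ht.2
  have h2 := hC t (Ioc_subset_Icc_self ht)
  have h3 := abs_nonneg (h t)
  have h4 := Real.sqrt_nonneg t
  nlinarith

private theorem bd_A (hh : ContinuousOn h (Icc 0 1)) {C : ℝ}
    (hC : ∀ t ∈ Icc (0 : ℝ) 1, |h t| ≤ C) {t : ℝ} (ht : t ∈ Ioc (0 : ℝ) 1) :
    |∫ s in (0 : ℝ)..t, s ^ (m + 1) * h s| ≤ C * t ^ (m + 2) := by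
  have h1 := intervalIntegral.norm_integral_le_of_norm_le_const
    (a := 0) (b := t) (f := fun s => s ^ (m + 1) * h s) (C := t ^ (m + 1) * C) ?_
  · rw [Real.norm_eq_abs, sub_zero, abs_of_pos ht.1] at h1
    calc |∫ s in (0 : ℝ)..t, s ^ (m + 1) * h s| ≤ t ^ (m + 1) * C * t := h1
      _ = C * t ^ (m + 2) := by ring
  · intro s hs
    rw [uIoc_of_le ht.1.le] at hs
    rw [norm_mul, Real.norm_eq_abs, Real.norm_eq_abs, abs_of_nonneg (pow_nonneg hs.1.le _)]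
    exact mul_le_mul (pow_le_pow_left₀ hs.1.le hs.2 _)
      (hC s ⟨hs.1.le, hs.2.trans ht.2⟩) (abs_nonneg _) (pow_nonneg ht.1.le _)

private theorem bd_B (hm : 1 ≤ m) (hh : ContinuousOn h (Icc 0 1)) {C : ℝ} (hC0 : 0 ≤ C)
    (hC : ∀ t ∈ Icc (0 : ℝ) 1, |h t| ≤ C) {t : ℝ} (ht : t ∈ Ioc (0 : ℝ) 1) :
    |t ^ m * ∫ s in t..1, (s * (s ^ m)⁻¹ + s ^ (m + 1)) * h s| ≤ 2 * C * t := by
  rw [← intervalIntegral.integral_const_mul]
  have h1 := intervalIntegral.norm_integral_le_of_norm_le_const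
    (a := t) (b := 1) (f := fun s => t ^ m * ((s * (s ^ m)⁻¹ + s ^ (m + 1)) * h s))
    (C := 2 * t * C) ?_
  · rw [Real.norm_eq_abs, abs_of_nonneg (by linarith [ht.2] : (0 : ℝ) ≤ 1 - t)] at h1
    refine h1.trans ?_
    have : 0 ≤ C * t := mul_nonneg hC0 ht.1.le
    nlinarith [ht.1, ht.2]
  · intro s hs
    rw [uIoc_of_le ht.2] at hs
    have hs0 : 0 < s := ht.1.trans hs.1
    have hhs := hC s ⟨hs0.le, hs.2⟩
    have e1 : t ^ m * (s * (s ^ m)⁻¹) ≤ t := by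
      obtain ⟨k, rfl⟩ : ∃ k, m = k + 1 := ⟨m - 1, by omega⟩
      have : t ^ (k + 1) * (s * (s ^ (k + 1))⁻¹) = t * (t / s) ^ k := by
        rw [div_pow, pow_succ, pow_succ]
        field_simp
      rw [this]
      have h2 : (t / s) ^ k ≤ 1 :=
        pow_le_one₀ (div_nonneg ht.1.le hs0.le) ((div_le_one hs0).2 hs.1.le)
      nlinarith [ht.1]
    have e2 : t ^ m * s ^ (m + 1) ≤ t := by
      have h2 : t ^ m ≤ t := by
        calc t ^ m ≤ t ^ 1 := pow_le_pow_of_le_one ht.1.le ht.2 hm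
          _ = t := pow_one t
      have h3 : s ^ (m + 1) ≤ 1 := pow_le_one₀ hs0.le hs.2
      have h4 : 0 ≤ s ^ (m + 1) := pow_nonneg hs0.le _
      calc t ^ m * s ^ (m + 1) ≤ t * 1 := mul_le_mul h2 h3 h4 ht.1.le
        _ = t := mul_one t
    have e3 : 0 ≤ t ^ m * (s * (s ^ m)⁻¹ + s ^ (m + 1)) :=
      mul_nonneg (pow_nonneg ht.1.le _) (add_nonneg
        (mul_nonneg hs0.le (inv_nonneg.2 (pow_nonneg hs0.le _))) (pow_nonneg hs0.le _))
    rw [← mul_assoc, norm_mul, Real.norm_eq_abs, Real.norm_eq_abs, abs_of_nonneg e3]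
    refine mul_le_mul ?_ hhs (abs_nonneg _) (by linarith [ht.1])
    rw [mul_add]
    linarith

private theorem bd_tA {t a C : ℝ} (hC0 : 0 ≤ C) (ht : t ∈ Ioc (0 : ℝ) 1)
    (ha : |a| ≤ C * t ^ (m + 2)) : (t ^ m)⁻¹ * |a| + t ^ m * |a| ≤ 2 * C * t ^ 2 := by
  have hp : 0 < t ^ m := pow_pos ht.1 _
  have h1 : t ^ m ≤ 1 := pow_le_one₀ ht.1.le ht.2
  have h2 : (t ^ m)⁻¹ * |a| ≤ C * t ^ 2 := by
    rw [inv_mul_le_iff₀ hp]
    calc |a| ≤ C * t ^ (m + 2) := ha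
      _ = t ^ m * (C * t ^ 2) := by ring
  have h3 : t ^ m * |a| ≤ C * t ^ 2 := by
    have h4 : t ^ m * |a| ≤ 1 * (C * t ^ (m + 2)) :=
      mul_le_mul h1 ha (abs_nonneg _) zero_le_one
    have h5 : t ^ (m + 2) ≤ t ^ 2 := pow_le_pow_of_le_one ht.1.le ht.2 (by omega)
    nlinarith [mul_le_mul_of_nonneg_left h5 hC0]
  linarith

private theorem bd_UU (hm : 1 ≤ m) (hh : ContinuousOn h (Icc 0 1)) {C : ℝ} (hC0 : 0 ≤ C)
    (hC : ∀ t ∈ Icc (0 : ℝ) 1, |h t| ≤ C) {t : ℝ} (ht : t ∈ Ioc (0 : ℝ) 1) :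
    |UU m h t| ≤ 2 * C * t := by
  have hA := bd_A (m := m) hh hC ht
  have hB := bd_B hm hh hC0 hC ht
  unfold UU
  set a := ∫ s in (0 : ℝ)..t, s ^ (m + 1) * h s with ha
  set b := ∫ s in t..1, (s * (s ^ m)⁻¹ + s ^ (m + 1)) * h s with hb
  have hp : 0 < t ^ m := pow_pos ht.1 _
  have h1 := bd_tA hC0 ht hA
  have hm1 : (1 : ℝ) ≤ m := by exact_mod_cast hm
  have h2 : (2 * (m : ℝ))⁻¹ ≤ 2⁻¹ := by
    apply inv_anti₀ (by norm_num)
    linarith
  have h20 : 0 ≤ (2 * (m : ℝ))⁻¹ := by positivity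
  have h3 : |((t ^ m)⁻¹ + t ^ m) * a + t ^ m * b| ≤ 2 * C * t ^ 2 + 2 * C * t := by
    have e1 : |((t ^ m)⁻¹ + t ^ m) * a| = (t ^ m)⁻¹ * |a| + t ^ m * |a| := by
      rw [abs_mul, abs_of_pos (by positivity), add_mul]
    have := abs_add_le (((t ^ m)⁻¹ + t ^ m) * a) (t ^ m * b)
    rw [e1] at this
    linarith
  rw [abs_mul, abs_of_nonneg h20]
  have h4 : 2 * C * t ^ 2 ≤ 2 * C * t := by
    have : t ^ 2 ≤ t := by nlinarith [ht.1, ht.2]
    nlinarith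
  calc (2 * (m : ℝ))⁻¹ * |((t ^ m)⁻¹ + t ^ m) * a + t ^ m * b|
      ≤ 2⁻¹ * (2 * C * t ^ 2 + 2 * C * t) :=
        mul_le_mul h2 h3 (abs_nonneg _) (by norm_num)
    _ ≤ 2 * C * t := by linarith

private theorem bd_UU' (hm : 1 ≤ m) (hh : ContinuousOn h (Icc 0 1)) {C : ℝ} (hC0 : 0 ≤ C)
    (hC : ∀ t ∈ Icc (0 : ℝ) 1, |h t| ≤ C) {t : ℝ} (ht : t ∈ Ioc (0 : ℝ) 1) :
    |UU' m h t| ≤ 2 * C := by
  have hA := bd_A (m := m) hh hC ht
  have hB := bd_B hm hh hC0 hC ht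
  unfold UU'
  set a := ∫ s in (0 : ℝ)..t, s ^ (m + 1) * h s with ha
  set b := ∫ s in t..1, (s * (s ^ m)⁻¹ + s ^ (m + 1)) * h s with hb
  have hp : 0 < t ^ m := pow_pos ht.1 _
  have h1 := bd_tA hC0 ht hA
  have h3 : |(-(t ^ m)⁻¹ + t ^ m) * a + t ^ m * b| ≤ 2 * C * t ^ 2 + 2 * C * t := by
    have e1 : |(-(t ^ m)⁻¹ + t ^ m) * a| ≤ (t ^ m)⁻¹ * |a| + t ^ m * |a| := by
      rw [abs_mul, ← add_mul]
      apply mul_le_mul_of_nonneg_right _ (abs_nonneg _)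
      rw [abs_le]
      have : 0 < (t ^ m)⁻¹ := by positivity
      constructor <;> linarith
    have := abs_add_le ((-(t ^ m)⁻¹ + t ^ m) * a) (t ^ m * b)
    linarith
  have ht0 : 0 < t := ht.1
  rw [abs_mul, abs_of_pos (by positivity : 0 < (2 : ℝ)⁻¹ * t⁻¹)]
  have h4 : 2 * C * t ^ 2 ≤ 2 * C * t := by
    have : t ^ 2 ≤ t := by nlinarith [ht.1, ht.2]
    nlinarith
  calc (2 : ℝ)⁻¹ * t⁻¹ * |(-(t ^ m)⁻¹ + t ^ m) * a + t ^ m * b|
      ≤ 2⁻¹ * t⁻¹ * (4 * C * t) :=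
        mul_le_mul_of_nonneg_left (by linarith) (by positivity)
    _ = 2 * C := by
        field_simp
        ring

theorem UU_adm (hm : 1 ≤ m) (hh : ContinuousOn h (Icc 0 1)) : Adm (UU m h) (UU' m h) := by
  obtain ⟨C, hC0, hC⟩ := bound_h hh
  have hs := sq_h hh
  refine ⟨?_, fun t ht => UU_deriv hm hs ht, (UU'_cont hm hs).mono Ioo_subset_Ioc_self,
    2 * C, fun t ht => bd_UU' hm hh hC0 hC (Ioo_subset_Ioc_self ht)⟩
  intro t ht
  rcases eq_or_lt_of_le ht.1 with h0 | h0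
  · subst h0
    unfold ContinuousWithinAt
    rw [UU_zero hm h]
    apply squeeze_zero_norm' (a := fun t => 2 * C * t)
    · filter_upwards [self_mem_nhdsWithin] with s hs'
      rcases eq_or_lt_of_le hs'.1 with h1 | h1
      · rw [← h1, UU_zero hm h]
        simp
      · exact bd_UU hm hh hC0 hC ⟨h1, hs'.2⟩
    · have : Tendsto (fun t : ℝ => 2 * C * t) (𝓝 0) (𝓝 (2 * C * 0)) :=
        tendsto_id.const_mul _
      rw [mul_zero] at this
      exact this.mono_left nhdsWithin_le_nhds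
  · have h1 : ContinuousWithinAt (UU m h) (Ioc 0 1) t := UU_cont hm hs t ⟨h0, ht.2⟩
    apply h1.mono_of_mem_nhdsWithin
    rw [mem_nhdsWithin]
    exact ⟨Ioi 0, isOpen_Ioi, h0, fun s hs' => ⟨hs'.1, hs'.2.2⟩⟩

private theorem int_of_bdd {g : ℝ → ℝ} (hg : ContinuousOn g (Ioo 0 1)) {C : ℝ}
    (hC : ∀ t ∈ Ioo (0 : ℝ) 1, |g t| ≤ C) : IntervalIntegrable g volume 0 1 := by
  rw [intervalIntegrable_iff_integrableOn_Ioo_of_le zero_le_one]
  refine ⟨hg.aestronglyMeasurable measurableSet_Ioo, ?_⟩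
  refine HasFiniteIntegral.of_bounded (C := C) ?_
  rw [ae_restrict_iff' measurableSet_Ioo]
  filter_upwards with t ht
  exact hC t ht

theorem weakM (hm : 1 ≤ m) (hh : ContinuousOn h (Icc 0 1)) {f f' : ℝ → ℝ} (hf : Adm f f')
    (hf0 : f 0 = 0) : en m f f' (UU m h) (UU' m h) = ip f h := by
  obtain ⟨C, hC0, hC⟩ := bound_h hh
  obtain ⟨F, hF0, hF⟩ := bound_h hf.cont
  obtain ⟨F', hF'⟩ := hf.bdd
  have hs := sq_h hh
  have hU := UU_adm hm hh
  have hF'0 : 0 ≤ F' := (abs_nonneg _).trans (hF' (1 / 2) ⟨by norm_num, by norm_num⟩)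
  have hder : ∀ t ∈ Ioo (0 : ℝ) 1, HasDerivAt (fun t => f t * (t * UU' m h t))
      (f' t * (t * UU' m h t) + f t * ((m : ℝ) ^ 2 * UU m h t / t - t * h t)) t := fun t ht =>
    (hf.der t ht).mul (UU_deriv2 hm hs ht)
  have hcont : ContinuousOn (fun t => f t * (t * UU' m h t)) (Icc 0 1) := by
    apply hf.cont.mul
    intro t ht
    rcases eq_or_lt_of_le ht.1 with h0 | h0
    · subst h0
      unfold ContinuousWithinAt
      simp only [zero_mul]
      apply squeeze_zero_norm' (a := fun t => 2 * C * t)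
      · filter_upwards [self_mem_nhdsWithin] with s hs'
        rcases eq_or_lt_of_le hs'.1 with h1 | h1
        · rw [← h1]
          simp
        · rw [norm_mul, Real.norm_eq_abs, Real.norm_eq_abs, abs_of_pos h1, mul_comm]
          exact mul_le_mul_of_nonneg_right (bd_UU' hm hh hC0 hC ⟨h1, hs'.2⟩) h1.le
      · have : Tendsto (fun t : ℝ => 2 * C * t) (𝓝 0) (𝓝 (2 * C * 0)) :=
          tendsto_id.const_mul _
        rw [mul_zero] at this
        exact this.mono_left nhdsWithin_le_nhds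
    · have h1 : ContinuousWithinAt (fun t => t * UU' m h t) (Ioc 0 1) t :=
        (continuousOn_id.mul (UU'_cont hm hs)) t ⟨h0, ht.2⟩
      apply h1.mono_of_mem_nhdsWithin
      rw [mem_nhdsWithin]
      exact ⟨Ioi 0, isOpen_Ioi, h0, fun s hs' => ⟨hs'.1, hs'.2.2⟩⟩
  have hcU' : ContinuousOn (UU' m h) (Ioo 0 1) := hU.contd
  have hcU : ContinuousOn (UU m h) (Ioo 0 1) := hU.cont.mono Ioo_subset_Icc_self
  have hcf : ContinuousOn f (Ioo 0 1) := hf.cont.mono Ioo_subset_Icc_self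
  have hch : ContinuousOn h (Ioo 0 1) := hh.mono Ioo_subset_Icc_self
  have hne : ∀ t ∈ Ioo (0 : ℝ) 1, t ≠ 0 := fun t ht => ht.1.ne'
  have i1 : IntervalIntegrable (fun t => f' t * UU' m h t * t) volume 0 1 := by
    apply int_of_bdd ((hf.contd.mul hcU').mul continuousOn_id) (C := F' * (2 * C) * 1)
    intro t ht
    rw [Pi.mul_apply, Pi.mul_apply, abs_mul, abs_mul]
    refine mul_le_mul (mul_le_mul (hF' t ht) (bd_UU' hm hh hC0 hC (Ioo_subset_Ioc_self ht))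
      (abs_nonneg _) hF'0) ?_ (abs_nonneg _) (by positivity)
    rw [id, abs_of_pos ht.1]
    exact ht.2.le
  have i2 : IntervalIntegrable (fun t => (m : ℝ) ^ 2 * (f t * UU m h t) / t) volume 0 1 := by
    apply int_of_bdd ((continuousOn_const.mul (hcf.mul hcU)).div continuousOn_id hne)
      (C := (m : ℝ) ^ 2 * (F * (2 * C)))
    intro t ht
    have e1 := hF t (Ioo_subset_Icc_self ht)
    have e2 := bd_UU hm hh hC0 hC (Ioo_subset_Ioc_self ht)
    simp only [Pi.mul_apply, Pi.div_apply, id]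
    rw [abs_div, abs_mul, abs_mul, abs_of_pos ht.1, abs_of_nonneg (sq_nonneg (m : ℝ)),
      div_le_iff₀ ht.1]
    calc (m : ℝ) ^ 2 * (|f t| * |UU m h t|) ≤ (m : ℝ) ^ 2 * (F * (2 * C * t)) :=
          mul_le_mul_of_nonneg_left (mul_le_mul e1 e2 (abs_nonneg _) hF0) (sq_nonneg _)
      _ = (m : ℝ) ^ 2 * (F * (2 * C)) * t := by ring
  have i3 : IntervalIntegrable (fun t => f t * h t * t) volume 0 1 := by
    apply ContinuousOn.intervalIntegrable
    rw [uIcc_of_le zero_le_one]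
    exact (hf.cont.mul hh).mul continuousOn_id
  have key := intervalIntegral.integral_eq_sub_of_hasDerivAt_of_le zero_le_one hcont hder
    (by
      refine ((i1.add i2).sub i3).congr ?_
      intro t _
      ring)
  simp only [UU'_one, mul_zero, zero_mul, sub_zero] at key
  have key2 : ∫ t in (0 : ℝ)..1, ((f' t * UU' m h t * t + (m : ℝ) ^ 2 * (f t * UU m h t) / t)
      - f t * h t * t) = 0 := by
    rw [← key]
    congr 1
    funext t
    ring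
  rw [intervalIntegral.integral_sub (i1.add i2) i3] at key2
  unfold en ip
  linarith

end Pool.Agent.NSY
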