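import Pool.Agent.NSY.Defs
import Pool.Agent.NSY.PE
import Pool.Agent.NSY.GGc
import Pool.Agent.NSY.UUd
import Pool.Agent.NSY.UUa
import Pool.Agent.NSY.ReM
import Pool.Agent.NSY.Alg
import Pool.Agent.NSY.RegB
import Pool.Agent.NSY.EnId

/-!
# NSY-SecM: the sector m >= 1

PLAN. `pre_eig` for `G = GG m` (`GG_cont`, `GG_symm`), `δ = 1/Λ`: `l i`, `u i`; by `GG_int`, `l i u i t = UU m (u i) t`, so `u i = K_i UU m (u i)` on `(0,1]`, `K_i = (l i)⁻¹`,
`|K_i| < Λ`. `regM` gives `REig m K_i v_i v_i'`, `v_i = u_i/√2` on `(0,1]`; `K_i ≥ 0` (`K_nonneg`), so `K_i < Λ` (and `K_i ≠ 0`). Orthogonality from `ip (u i) (u j) = 0`.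
INEQUALITY: let `ũ_i = √2 v_i` (continuous on `[0,1]`, `= u_i` on `(0,1]`), `c_i = ip f u_i = √2 ip f v_i` (so `2 (ip f v_i)² = c_i²`), `g = f - ∑ c_i ũ_i` (continuous on `[0,1]`, `ip g u_i = 0`), `h = ∑ K_i c_i ũ_i + Λ g`,
`U = UU m h`. `en_ineq` with `f` and `U` (`Adm f f'` because `f` is `C¹`; `UU_adm`, `UU_zero`), `weakM`: `en f U = ip f h`, `en U U = ip U h`. So `E(f) ≥ 2 ip f h - ip (UU m h) h`.
`ip f h = ∑ K_i c_i² + Λ ip g g` (`ip f u_i = c_i`, `ip f g = ip g g`). On `(0,1]`: `UU m h = ∑ c_i ũ_i + Λ UU m g` (`UU_lin`, `K_i UU m u_i = u_i`), so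
`ip U h = ∑ K_i c_i² + Λ ∑ c_i ip u_i g + Λ ∑ K_i c_i ip (UU m g) u_i + Λ² ip (UU m g) g`; `ip u_i g = 0`; `ip (UU m g) ũ_i = ip (UU m ũ_i) g` (symmetry: both are `en (UU g) (UU ũ_i)` by
`weakM`) `= K_i⁻¹ ip u_i g = 0`; and `ip (UU m g) g ≤ Λ⁻¹ ip g g` (last part of `pre_eig`, `GG_int`). So `E(f) ≥ ∑ K_i c_i² + Λ ip g g`, `ip g g = ip f f - ∑ c_i²`.
`en m f f' f f' = ∫ (f'² t + m² f²/t)`.
-/

set_option autoImplicit false

open MeasureTheory Set Filter Topology
open Pool.Agent.Neu (E D mu)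
open Pool.Agent.Neu.Discx (P)

namespace Pool.Agent.NSY

private theorem sm_alg {V : Type} [AddCommGroup V] [Module ℝ V] (B S : V →ₗ[ℝ] V →ₗ[ℝ] ℝ)
    (hB : ∀ a b, B a b = B b a) (hS : ∀ a b, S a b = S b a) {q : ℕ} (e : Fin q → V)
    (K : Fin q → ℝ) (hK : ∀ i, K i ≠ 0) (he : ∀ i j, B (e i) (e j) = if i = j then 1 else 0)
    (hSe : ∀ i b, S (e i) b = (K i)⁻¹ * B (e i) b) (x : V) {Λ : ℝ} (hΛ : 0 < Λ) (g h : V)
    (hg : g = x - ∑ i, B x (e i) • e i) (hh : h = ∑ i, (K i * B x (e i)) • e i + Λ • g)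
    (hgg : (∀ i, B g (e i) = 0) → S g g ≤ Λ⁻¹ * B g g) :
    ∑ i, K i * B x (e i) ^ 2 + Λ * (B x x - ∑ i, B x (e i) ^ 2) ≤ 2 * B x h - S h h := by
  have h1 : ∀ j, B g (e j) = 0 := by
    intro j
    rw [hg, map_sub, LinearMap.sub_apply, map_sum, LinearMap.sum_apply]
    simp only [map_smul, LinearMap.smul_apply, he, smul_eq_mul, mul_ite, mul_one, mul_zero]
    rw [Finset.sum_ite_eq' Finset.univ j, if_pos (Finset.mem_univ _), sub_self]
  have h1' : ∀ j, B (e j) g = 0 := fun j => by rw [hB, h1]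
  have h2 : B x g = B g g := by
    have : x = g + ∑ i, B x (e i) • e i := by rw [hg, sub_add_cancel]
    conv_lhs => rw [this]
    rw [map_add, LinearMap.add_apply, map_sum, LinearMap.sum_apply]
    simp only [map_smul, LinearMap.smul_apply, h1', smul_zero, Finset.sum_const_zero, add_zero]
  have h3 : B g g = B x x - ∑ i, B x (e i) ^ 2 := by
    rw [← h2]
    conv_lhs => rw [hg]
    rw [map_sub, map_sum]
    congr 1
    refine Finset.sum_congr rfl fun i _ => ?_
    rw [map_smul, smul_eq_mul, sq]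
  have h4 : B x h = ∑ i, K i * B x (e i) ^ 2 + Λ * B g g := by
    rw [hh, map_add, map_sum, map_smul, h2, smul_eq_mul]
    congr 1
    refine Finset.sum_congr rfl fun i _ => ?_
    rw [map_smul, smul_eq_mul]
    ring
  have h5 : ∀ b, S h b = ∑ i, B x (e i) * B (e i) b + Λ * S g b := by
    intro b
    rw [hh, map_add, LinearMap.add_apply, map_smul, LinearMap.smul_apply, smul_eq_mul, map_sum,
      LinearMap.sum_apply]
    congr 1
    refine Finset.sum_congr rfl fun i _ => ?_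
    rw [map_smul, LinearMap.smul_apply, hSe, smul_eq_mul]
    have := hK i
    field_simp
  have h6 : ∀ i, B (e i) h = K i * B x (e i) := by
    intro i
    rw [hh, map_add, map_smul, h1', smul_zero, add_zero, map_sum]
    simp only [map_smul, he, smul_eq_mul, mul_ite, mul_one, mul_zero]
    rw [Finset.sum_ite_eq Finset.univ i, if_pos (Finset.mem_univ _)]
  have h7 : S g h = Λ * S g g := by
    rw [hS, h5]
    simp only [h1', mul_zero, Finset.sum_const_zero, zero_add]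
  have h8 : S h h = ∑ i, K i * B x (e i) ^ 2 + Λ ^ 2 * S g g := by
    rw [h5, h7]
    congr 1
    · refine Finset.sum_congr rfl fun i _ => ?_
      rw [h6]
      ring
    · ring
  have h9 := hgg h1
  have h10 : Λ ^ 2 * S g g ≤ Λ * B g g := by
    have := mul_le_mul_of_nonneg_left h9 (sq_nonneg Λ)
    have e1 : Λ ^ 2 * (Λ⁻¹ * B g g) = Λ * B g g := by
      field_simp
    rwa [e1] at this
  rw [h4, h8, ← h3]
  linarith

private theorem sm_ip_congr {f g f₁ g₁ : ℝ → ℝ}
    (h : ∀ t ∈ Ioc (0 : ℝ) 1, f t * g t = f₁ t * g₁ t) : ip f g = ip f₁ g₁ := by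
  unfold ip
  rw [intervalIntegral.integral_of_le zero_le_one, intervalIntegral.integral_of_le zero_le_one]
  refine setIntegral_congr_fun measurableSet_Ioc fun t ht => ?_
  show f t * g t * t = f₁ t * g₁ t * t
  rw [h t ht]

private theorem sm_ip_comm (f g : ℝ → ℝ) : ip f g = ip g f :=
  sm_ip_congr fun t _ => mul_comm _ _

private theorem sm_ip_int {f g : ℝ → ℝ} (hf : ContinuousOn f (Icc 0 1))
    (hg : ContinuousOn g (Icc 0 1)) :
    IntervalIntegrable (fun t => f t * g t * t) volume 0 1 :=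
  ((hf.mul hg).mul continuousOn_id).intervalIntegrable_of_Icc zero_le_one

private theorem sm_ip_add {f g h : ℝ → ℝ} (hf : ContinuousOn f (Icc 0 1))
    (hg : ContinuousOn g (Icc 0 1)) (hh : ContinuousOn h (Icc 0 1)) :
    ip (fun t => f t + g t) h = ip f h + ip g h := by
  unfold ip
  rw [← intervalIntegral.integral_add (sm_ip_int hf hh) (sm_ip_int hg hh)]
  refine intervalIntegral.integral_congr fun t _ => ?_
  show (f t + g t) * h t * t = f t * h t * t + g t * h t * t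
  ring

private theorem sm_ip_smul (a : ℝ) (f h : ℝ → ℝ) : ip (fun t => a * f t) h = a * ip f h := by
  unfold ip
  rw [← intervalIntegral.integral_const_mul]
  refine intervalIntegral.integral_congr fun t _ => ?_
  show a * f t * h t * t = a * (f t * h t * t)
  ring

private theorem sm_sq {h : ℝ → ℝ} (hh : ContinuousOn h (Icc 0 1)) : Sq h := by
  refine ⟨hh.mono Ioc_subset_Icc_self, ?_⟩
  obtain ⟨C, hC⟩ := isCompact_Icc.exists_bound_of_continuousOn hh
  refine ⟨C, fun t ht => ?_⟩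
  have h1 : √t ≤ 1 := Real.sqrt_le_one.2 ht.2
  have h2 := hC t ⟨ht.1.le, ht.2⟩
  rw [Real.norm_eq_abs] at h2
  calc √t * |h t| ≤ 1 * |h t| := mul_le_mul_of_nonneg_right h1 (abs_nonneg _)
    _ ≤ C := by rwa [one_mul]

/-- the functions continuous on `[0,1]` -/
private def Vc : Submodule ℝ (ℝ → ℝ) where
  carrier := {f | ContinuousOn f (Icc 0 1)}
  add_mem' := fun {f g} hf hg => ContinuousOn.add hf hg
  zero_mem' := continuousOn_const
  smul_mem' := fun c f hf => ContinuousOn.const_smul hf c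

private noncomputable def BB : Vc →ₗ[ℝ] Vc →ₗ[ℝ] ℝ :=
  LinearMap.mk₂ ℝ (fun f g => ip f.1 g.1)
    (fun f g h => sm_ip_add f.2 g.2 h.2)
    (fun a f h => sm_ip_smul a f.1 h.1)
    (fun f g h => by
      rw [sm_ip_comm, sm_ip_comm f.1, sm_ip_comm f.1]
      exact sm_ip_add g.2 h.2 f.2)
    (fun a f h => by
      rw [sm_ip_comm, sm_ip_comm f.1]
      exact sm_ip_smul a h.1 f.1)

private noncomputable def SS {m : ℕ} (hm : 1 ≤ m) : Vc →ₗ[ℝ] Vc →ₗ[ℝ] ℝ :=
  LinearMap.mk₂ ℝ (fun f g => ip (UU m f.1) g.1)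
    (fun f g h => by
      rw [← sm_ip_add (UU_adm hm f.2).cont (UU_adm hm g.2).cont h.2]
      refine sm_ip_congr fun t ht => ?_
      have := UU_lin (m := m) (sm_sq f.2) (sm_sq g.2) 1 1 ht
      simp only [one_mul] at this
      show UU m (fun s => f.1 s + g.1 s) t * h.1 t = _
      rw [this])
    (fun a f h => by
      show _ = a * _
      rw [← sm_ip_smul]
      refine sm_ip_congr fun t ht => ?_
      have := UU_lin (m := m) (sm_sq f.2) (sm_sq f.2) a 0 ht
      simp only [zero_mul, add_zero] at this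
      show UU m (fun s => a * f.1 s) t * h.1 t = _
      rw [this])
    (fun f g h => by
      rw [sm_ip_comm, sm_ip_comm (UU m f.1), sm_ip_comm (UU m f.1)]
      exact sm_ip_add g.2 h.2 (UU_adm hm f.2).cont)
    (fun a f h => by
      rw [sm_ip_comm, sm_ip_comm (UU m f.1)]
      exact sm_ip_smul a h.1 (UU m f.1))

private theorem sm_UU_congr {m : ℕ} {h h₁ : ℝ → ℝ} (hh : ∀ t ∈ Ioc (0 : ℝ) 1, h t = h₁ t) {t : ℝ}
    (ht : t ∈ Ioc (0 : ℝ) 1) : UU m h t = UU m h₁ t := by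
  unfold UU
  have h1 : ∫ s in (0 : ℝ)..t, s ^ (m + 1) * h s = ∫ s in (0 : ℝ)..t, s ^ (m + 1) * h₁ s := by
    rw [intervalIntegral.integral_of_le ht.1.le, intervalIntegral.integral_of_le ht.1.le]
    refine setIntegral_congr_fun measurableSet_Ioc fun s hs => ?_
    show s ^ (m + 1) * h s = s ^ (m + 1) * h₁ s
    rw [hh s ⟨hs.1, hs.2.trans ht.2⟩]
  have h2 : ∫ s in t..1, (s * (s ^ m)⁻¹ + s ^ (m + 1)) * h s =
      ∫ s in t..1, (s * (s ^ m)⁻¹ + s ^ (m + 1)) * h₁ s := by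
    rw [intervalIntegral.integral_of_le ht.2, intervalIntegral.integral_of_le ht.2]
    refine setIntegral_congr_fun measurableSet_Ioc fun s hs => ?_
    show (s * (s ^ m)⁻¹ + s ^ (m + 1)) * h s = (s * (s ^ m)⁻¹ + s ^ (m + 1)) * h₁ s
    rw [hh s ⟨ht.1.trans hs.1, hs.2⟩]
  rw [h1, h2]

private theorem sm_en_comm (m : ℕ) (f f' g g' : ℝ → ℝ) : en m f f' g g' = en m g g' f f' := by
  unfold en
  refine intervalIntegral.integral_congr fun t _ => ?_
  show f' t * g' t * t + (m : ℝ) ^ 2 * (f t * g t) / t = g' t * f' t * t + (m : ℝ) ^ 2 * (g t * f t) / t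
  rw [mul_comm (f' t), mul_comm (f t)]

private theorem sm_adm {f f' : ℝ → ℝ} (hf : ∀ r, HasDerivAt f (f' r) r) (hf' : Continuous f') :
    Adm f f' where
  cont := fun t _ => (hf t).continuousAt.continuousWithinAt
  der := fun t _ => hf t
  contd := hf'.continuousOn
  bdd := by
    obtain ⟨C, hC⟩ := isCompact_Icc.exists_bound_of_continuousOn
      (hf'.continuousOn (s := Icc (0 : ℝ) 1))
    exact ⟨C, fun t ht => hC t ⟨ht.1.le, ht.2.le⟩⟩

theorem secM {m : ℕ} (hm : 1 ≤ m) {Λ : ℝ} (hΛ : 0 < Λ) :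
    ∃ (q : ℕ) (K : Fin q → ℝ) (u u' : Fin q → ℝ → ℝ),
      (∀ i, REig m (K i) (u i) (u' i)) ∧ (∀ i, K i < Λ) ∧
      (∀ i j, i ≠ j → ∫ t in (0 : ℝ)..1, u i t * u j t * t = 0) ∧
      ∀ f f' : ℝ → ℝ, (∀ r, HasDerivAt f (f' r) r) → Continuous f' → f 0 = 0 →
        ∑ i, K i * (2 * ip f (u i) ^ 2) +
            Λ * ((∫ t in (0 : ℝ)..1, f t ^ 2 * t) - ∑ i, 2 * ip f (u i) ^ 2) ≤
          ∫ r in (0 : ℝ)..1, (f' r ^ 2 * r + (m : ℝ) ^ 2 * f r ^ 2 / r) := by
  obtain ⟨q, l, u, hl, hsq, heig, hort, hgap⟩ := pre_eig (GG_cont hm) (GG_symm m) (inv_pos.2 hΛ)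
  have hl0 : ∀ i, l i ≠ 0 := fun i h0 => by
    have h1 := hl i
    rw [h0, abs_zero] at h1
    exact absurd h1 (inv_pos.2 hΛ).le.not_gt
  have hUU : ∀ i, ∀ t ∈ Ioc (0 : ℝ) 1, UU m (u i) t = l i * u i t := fun i t ht => by
    rw [heig i t ht, GG_int hm (hsq i) ht]
  have hreg : ∀ i, ∃ v v' : ℝ → ℝ, REig m (l i)⁻¹ v v' ∧ ∀ t ∈ Ioc (0 : ℝ) 1, v t = u i t / √2 := by
    intro i
    refine regM hm (hsq i) (fun t ht => ?_) ?_
    · rw [hUU i t ht, ← mul_assoc, inv_mul_cancel₀ (hl0 i), one_mul]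
    · rw [hort, if_pos rfl]
  choose v v' hv hvu using hreg
  have h2 : √(2 : ℝ) ≠ 0 := by positivity
  have h22 : √(2 : ℝ) * √2 = 2 := Real.mul_self_sqrt (by norm_num)
  have hlpos : ∀ i, 0 < l i := fun i => by
    have h1 := (hv i).K_nonneg
    exact lt_of_le_of_ne (inv_nonneg.1 h1) (hl0 i).symm
  have hw : ∀ i, ContinuousOn (fun t => √2 * v i t) (Icc 0 1) := fun i =>
    continuousOn_const.mul ((hv i).cont.mono fun t ht => ht.1)
  have hwu : ∀ i, ∀ t ∈ Ioc (0 : ℝ) 1, √2 * v i t = u i t := fun i t ht => by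
    rw [hvu i t ht]
    field_simp
  refine ⟨q, fun i => (l i)⁻¹, v, v', hv, fun i => ?_, fun i j hij => ?_, fun f f' hf hf' hf0 => ?_⟩
  · have h1 := hl i
    rw [abs_of_pos (hlpos i)] at h1
    exact inv_lt_of_inv_lt₀ hΛ h1
  · have h1 := hort i j
    rw [if_neg hij] at h1
    have h3 : ip (v i) (v j) = (1 / 2) * ip (u i) (u j) := by
      rw [← sm_ip_smul]
      refine sm_ip_congr fun t ht => ?_
      rw [← hwu i t ht, ← hwu j t ht]
      linear_combination (-(1 / 2) * v i t * v j t) * h22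
    rw [h1, mul_zero] at h3
    exact h3
  · have hfa := sm_adm hf hf'
    let x : Vc := ⟨f, hfa.cont⟩
    let e : Fin q → Vc := fun i => ⟨fun t => √2 * v i t, hw i⟩
    let g : Vc := x - ∑ i, BB x (e i) • e i
    let h : Vc := ∑ i, ((l i)⁻¹ * BB x (e i)) • e i + Λ • g
    have hB : ∀ a b : Vc, BB a b = ip a.1 b.1 := fun a b => rfl
    have hS : ∀ a b : Vc, SS hm a b = ip (UU m a.1) b.1 := fun a b => rfl
    have hSen : ∀ a b : Vc, SS hm a b = en m (UU m a.1) (UU' m a.1) (UU m b.1) (UU' m b.1) :=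
      fun a b => by
        rw [weakM hm b.2 (UU_adm hm a.2) (UU_zero hm a.1), hS]
    have he : ∀ i j, BB (e i) (e j) = if i = j then 1 else 0 := fun i j => by
      rw [hB, ← hort i j]
      exact sm_ip_congr fun t ht => by
        show √2 * v i t * (√2 * v j t) = _
        rw [hwu i t ht, hwu j t ht]
    have key := sm_alg BB (SS hm) (fun a b => sm_ip_comm _ _) (fun a b => by
        rw [hSen, hSen, sm_en_comm]) e (fun i => (l i)⁻¹) (fun i => inv_ne_zero (hl0 i)) he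
      (fun i b => by
        rw [hS, hB, inv_inv, ← sm_ip_smul]
        refine sm_ip_congr fun t ht => ?_
        have h3 : UU m (e i).1 t = l i * (e i).1 t := by
          rw [sm_UU_congr (h₁ := u i) (fun s hs => hwu i s hs) ht, hUU i t ht]
          show _ = l i * (√2 * v i t)
          rw [hwu i t ht]
        rw [h3]) x hΛ g h rfl rfl (fun hge => by
          have h3 := hgap g.1 g.2 (fun i => by
            rw [← hge i, hB]
            exact sm_ip_congr fun t ht => by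
              show g.1 t * u i t = g.1 t * (√2 * v i t)
              rw [hwu i t ht])
          have h4 : ip (fun t => ∫ s in (0 : ℝ)..1, GG m t s * (g.1 s * s)) g.1 = SS hm g g := by
            rw [hS]
            refine sm_ip_congr fun t ht => ?_
            rw [GG_int hm (sm_sq g.2) ht]
          rw [h4] at h3
          exact h3)
    have h3 := en_ineq (m := m) hfa (UU_adm hm h.2) (fun _ => hf0) (fun _ => UU_zero hm h.1)
    rw [weakM hm h.2 hfa hf0, weakM hm h.2 (UU_adm hm h.2) (UU_zero hm h.1)] at h3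
    have h4 : en m f f' f f' = ∫ r in (0 : ℝ)..1, (f' r ^ 2 * r + (m : ℝ) ^ 2 * f r ^ 2 / r) := by
      unfold en
      refine intervalIntegral.integral_congr fun t _ => ?_
      show f' t * f' t * t + (m : ℝ) ^ 2 * (f t * f t) / t = f' t ^ 2 * t + (m : ℝ) ^ 2 * f t ^ 2 / t
      rw [sq (f' t), sq (f t)]
    have h5 : ∀ i, BB x (e i) ^ 2 = 2 * ip f (v i) ^ 2 := fun i => by
      have h6 : BB x (e i) = √2 * ip f (v i) := by
        show ip f (fun t => √2 * v i t) = √2 * ip f (v i)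
        rw [sm_ip_comm f, sm_ip_smul, sm_ip_comm]
      rw [h6, mul_pow, sq √2, h22]
    have h7 : BB x x = ∫ t in (0 : ℝ)..1, f t ^ 2 * t := by
      rw [hB]
      unfold ip
      refine intervalIntegral.integral_congr fun t _ => ?_
      show f t * f t * t = f t ^ 2 * t
      rw [sq]
    simp only [h5, h7] at key
    rw [h4] at h3
    exact key.trans h3

end Pool.Agent.NSY
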