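import Pool.Agent.NSY.Defs
import Pool.Agent.NSY.FkD
import Pool.Agent.NSY.DiE
import Pool.Agent.NSY.LamF
import Pool.Agent.NSY.CfL
import Pool.Agent.NSY.SecM
import Pool.Agent.NSY.Sec0

/-!
# NSY-FamE: existence of the family of the disc

The families of the angular sectors `|k| < M` (`secM`, `sec0`) together form a family with the gap
inequality: `disc_energy` with `M' ≥ M`, `M'² ≥ Λ`; the sectors `M ≤ |k| < M'` are bounded below by
`lam M ≥ Λ`, the rest by `M'² ≥ Λ`.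
-/

set_option autoImplicit false

open MeasureTheory Set Filter Topology
open Pool.Agent.Neu (E D mu)
open Pool.Agent.Neu.Discx (P)

namespace Pool.Agent.NSY

private theorem fam_sec {Λ : ℝ} (hΛ : 0 < Λ) (m : ℕ) :
    ∃ (q : ℕ) (K : Fin q → ℝ) (u u' : Fin q → ℝ → ℝ),
      (∀ i, REig m (K i) (u i) (u' i)) ∧ (∀ i, K i < Λ) ∧ (m = 0 → ∃ i, K i = 0) ∧
      (∀ i j, i ≠ j → ∫ t in (0 : ℝ)..1, u i t * u j t * t = 0) ∧
      ∀ f f' : ℝ → ℝ, (∀ r, HasDerivAt f (f' r) r) → Continuous f' → (m ≠ 0 → f 0 = 0) →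
        ∑ i, K i * (2 * ip f (u i) ^ 2) +
            Λ * ((∫ t in (0 : ℝ)..1, f t ^ 2 * t) - ∑ i, 2 * ip f (u i) ^ 2) ≤
          ∫ r in (0 : ℝ)..1, (f' r ^ 2 * r + (m : ℝ) ^ 2 * f r ^ 2 / r) := by
  rcases Nat.eq_zero_or_pos m with hm | hm
  · subst hm
    obtain ⟨q, K, u, u', h1, h2, h3, h4, h5⟩ := sec0 hΛ
    refine ⟨q, K, u, u', h1, h2, fun _ => h3, h4, fun f f' hf hf' _ => ?_⟩
    have e : ∀ r : ℝ, f' r ^ 2 * r + ((0 : ℕ) : ℝ) ^ 2 * f r ^ 2 / r = f' r ^ 2 * r := by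
      intro r; simp
    simp only [e]
    exact h5 f f' hf hf'
  · obtain ⟨q, K, u, u', h1, h2, h4, h5⟩ := secM hm hΛ
    exact ⟨q, K, u, u', h1, h2, fun h => absurd h (by omega), h4,
      fun f f' hf hf' h0 => h5 f f' hf hf' (h0 (by omega))⟩

theorem exists_fam {M : ℕ} (hM : 1 ≤ M) {Λ : ℝ} (h0 : 0 < Λ) (hΛ : Λ ≤ lam M) :
    ∃ (ι : Type) (_ : Fintype ι) (k : ι → ℤ) (K : ι → ℝ) (u u' : ι → ℝ → ℝ),
      Fam M Λ k K u u' := by
  choose q K u u' h1 h2 h3 h4 h5 using fam_sec h0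
  let S : Finset ℤ := Finset.Ioo (-(M : ℤ)) M
  refine ⟨Σ k : S, Fin (q k.1.natAbs), inferInstance, fun i => i.1.1,
    fun i => K i.1.1.natAbs i.2, fun i => u i.1.1.natAbs i.2, fun i => u' i.1.1.natAbs i.2, ?_⟩
  have hsum : ∀ g : (k : ℤ) → Fin (q k.natAbs) → ℝ,
      ∑ i : (Σ k : S, Fin (q k.1.natAbs)), g i.1.1 i.2 = ∑ k ∈ S, ∑ j, g k j := by
    intro g
    rw [Fintype.sum_sigma]
    exact Finset.sum_coe_sort S (fun k => ∑ j, g k j)
  refine ⟨?_, fun i => h1 _ _, fun i => h2 _ _, ?_, ?_, ?_⟩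
  · rintro ⟨⟨k, hk⟩, x⟩
    have := Finset.mem_Ioo.1 hk
    show k.natAbs < M
    omega
  · obtain ⟨i0, hi0⟩ := h3 0 rfl
    have h0S : (0 : ℤ) ∈ S := Finset.mem_Ioo.2 ⟨by omega, by omega⟩
    exact ⟨⟨⟨0, h0S⟩, i0⟩, hi0⟩
  · rintro ⟨⟨a, ha⟩, x⟩ ⟨⟨b, hb⟩, y⟩ hne hab
    have hab' : a = b := hab
    subst hab'
    have hxy : x ≠ y := by
      intro h
      apply hne
      rw [h]
    exact h4 _ x y hxy
  · intro v hv
    let M' : ℕ := max M ⌈Λ⌉₊
    let S' : Finset ℤ := Finset.Ioo (-(M' : ℤ)) M'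
    have hMM' : M ≤ M' := le_max_left _ _
    have hΛM' : Λ ≤ (M' : ℝ) := (Nat.le_ceil Λ).trans (by exact_mod_cast le_max_right _ _)
    have hM'1 : (1 : ℝ) ≤ M' := by exact_mod_cast hM.trans hMM'
    have hΛ2 : Λ ≤ (M' : ℝ) ^ 2 := by nlinarith
    have hSS' : S ⊆ S' := by
      intro k hk
      have := Finset.mem_Ioo.1 hk
      exact Finset.mem_Ioo.2 ⟨by omega, by omega⟩
    have hE := disc_energy hv M'
    have hB := disc_bessel hv M'
    have hpi := Real.pi_pos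
    set V : ℝ := ∫ x in D, v x ^ 2 with hV
    set N : ℤ → ℝ := fun k => ∫ r in (0 : ℝ)..1, fk v k r ^ 2 * r with hN
    set En : ℤ → ℝ := fun k =>
      ∫ r in (0 : ℝ)..1, (fk' v k r ^ 2 * r + (k : ℝ) ^ 2 * fk v k r ^ 2 / r) with hEn
    have hN0 : ∀ k, 0 ≤ N k := by
      intro k
      apply intervalIntegral.integral_nonneg zero_le_one
      intro t ht
      have := ht.1
      positivity
    have hcast : ∀ k : ℤ, ((k.natAbs : ℕ) : ℝ) ^ 2 = (k : ℝ) ^ 2 := by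
      intro k
      have h6 : ((k.natAbs : ℕ) : ℤ) ^ 2 = k ^ 2 := Int.natAbs_sq k
      have h7 : ((((k.natAbs : ℕ) : ℤ) ^ 2 : ℤ) : ℝ) = ((k ^ 2 : ℤ) : ℝ) := by rw [h6]
      rw [Int.cast_pow, Int.cast_pow, Int.cast_natCast] at h7
      exact h7
    let g : (k : ℤ) → ℝ := fun k =>
      ∑ j, (K k.natAbs j - Λ) * (cf k (u k.natAbs j) v ^ 2 / Real.pi)
    have hk : ∀ k ∈ S', (if k ∈ S then g k else 0) + Λ * (2 * Real.pi * N k) ≤
        2 * Real.pi * En k := by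
      intro k _
      split_ifs with hkS
      · have h6 := h5 k.natAbs (fk v k) (fk' v k) (fk_deriv hv k) (fk'_cont hv k)
          (fun h => fk_zero hv (by simpa using h))
        simp only [hcast] at h6
        have h7 : ∑ i, K k.natAbs i * (2 * ip (fk v k) (u k.natAbs i) ^ 2) +
            Λ * (N k - ∑ i, 2 * ip (fk v k) (u k.natAbs i) ^ 2) ≤ En k := h6
        have h8 : g k = 2 * Real.pi * (∑ i, K k.natAbs i * (2 * ip (fk v k) (u k.natAbs i) ^ 2) -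
            Λ * ∑ i, 2 * ip (fk v k) (u k.natAbs i) ^ 2) := by
          rw [Finset.mul_sum, ← Finset.sum_sub_distrib, Finset.mul_sum]
          refine Finset.sum_congr rfl (fun j _ => ?_)
          rw [cf_fk]
          field_simp
        rw [h8]
        have h9 := mul_le_mul_of_nonneg_left h7 (by positivity : (0 : ℝ) ≤ 2 * Real.pi)
        linarith
      · have hkM : M ≤ k.natAbs := by
          by_contra hcon
          exact hkS (Finset.mem_Ioo.2 ⟨by omega, by omega⟩)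
        have h6 := lam_le hkM (fk_deriv hv k) (fk'_cont hv k) (fk_zero hv (by omega))
        simp only [hcast] at h6
        have h7 : lam M * N k ≤ En k := h6
        have h8 : Λ * N k ≤ lam M * N k := mul_le_mul_of_nonneg_right hΛ (hN0 k)
        have h9 := mul_le_mul_of_nonneg_left (h8.trans h7) (by positivity : (0 : ℝ) ≤ 2 * Real.pi)
        linarith
    have hs := Finset.sum_le_sum hk
    rw [Finset.sum_add_distrib, Finset.sum_ite_mem, Finset.inter_eq_right.2 hSS',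
      ← Finset.mul_sum] at hs
    have hBV : Λ * (V - ∑ k ∈ S', 2 * Real.pi * N k) ≤
        (M' : ℝ) ^ 2 * (V - ∑ k ∈ S', 2 * Real.pi * N k) :=
      mul_le_mul_of_nonneg_right hΛ2 (by linarith)
    have hE' : ∑ k ∈ S', 2 * Real.pi * En k + (M' : ℝ) ^ 2 * (V - ∑ k ∈ S', 2 * Real.pi * N k) ≤
        ∫ x in D, ‖fderiv ℝ v x‖ ^ 2 := hE
    have e1 := hsum (fun k j => K k.natAbs j * (cf k (u k.natAbs j) v ^ 2 / Real.pi))
    have e2 := hsum (fun k j => cf k (u k.natAbs j) v ^ 2 / Real.pi)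
    have e3 : ∑ k ∈ S, g k =
        ∑ k ∈ S, ∑ j, K k.natAbs j * (cf k (u k.natAbs j) v ^ 2 / Real.pi) -
          Λ * ∑ k ∈ S, ∑ j, cf k (u k.natAbs j) v ^ 2 / Real.pi := by
      rw [Finset.mul_sum, ← Finset.sum_sub_distrib]
      refine Finset.sum_congr rfl (fun k _ => ?_)
      rw [Finset.mul_sum, ← Finset.sum_sub_distrib]
      refine Finset.sum_congr rfl (fun j _ => ?_)
      ring
    rw [e3] at hs
    have e4 : ∑ i : (Σ k : S, Fin (q k.1.natAbs)), K i.1.1.natAbs i.2 *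
        (cf i.1.1 (u i.1.1.natAbs i.2) v ^ 2 / Real.pi) +
        Λ * (V - ∑ i : (Σ k : S, Fin (q k.1.natAbs)),
          cf i.1.1 (u i.1.1.natAbs i.2) v ^ 2 / Real.pi) ≤ ∫ x in D, ‖fderiv ℝ v x‖ ^ 2 := by
      rw [e1, e2]
      linarith
    exact e4

end Pool.Agent.NSY
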