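import Pool.Agent.NSY.Defs
import Pool.Agent.NSY.Rot
import Pool.Agent.NSY.Iso

/-!
# NSY-Ine: area and inertia of the affine image

PLAN. `vol_image`: `Measure.addHaar_image_linearMap` and translation invariance (`T x = L x + T 0`). `mean_zero`: `∫_Ω x = ∫_Ω rot x` (`Sym.int_rot` for the
coordinates, or the vector valued version) `= rot (∫_Ω x)`; a nonzero vector is not fixed by the rotation by `2π/N`, `N ≥ 2`
(`cos ≠ 1`). `inertia_image`: change of variables: `∫_{TΩ} y = δ ∫_Ω (L x + T 0) = δ vol(Ω) T 0`, so the centroid is `T 0` (volume of `TΩ` is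
`δ vol Ω > 0`, finite, as `Ω` is nonempty open bounded); `∫_{TΩ} ‖y - T 0‖² = δ ∫_Ω ‖L x‖² = δ (hs L / 2) ∫_Ω ‖x‖²`: average of `Sym.int_rot` over
`s < N` and `sum_rot_apply`.
-/

set_option autoImplicit false

open MeasureTheory Set Filter Topology
open Pool.Agent.Neu (E D mu)
open Pool.Agent.Neu.Discx (P)

namespace Pool.Agent.NSY

private theorem ine_int {F : Type*} [NormedAddCommGroup F] {Ω : Set E}
    (hb : Bornology.IsBounded Ω) {f : E → F} (hf : Continuous f) : IntegrableOn f Ω volume :=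
  (hf.continuousOn.integrableOn_compact hb.isCompact_closure).mono_set subset_closure

theorem mean_zero {N : ℕ} (hN : 2 ≤ N) {Ω : Set E} (hΩ : IsOpen Ω)
    (hb : Bornology.IsBounded Ω) (hs : Sym N Ω) : ∫ x in Ω, x = 0 := by
  have _ := hΩ
  set α : ℝ := 2 * Real.pi / N with hα
  set v : E := ∫ x in Ω, x with hv
  have hNr : (2 : ℝ) ≤ N := by exact_mod_cast hN
  have hint : IntegrableOn (fun x : E => x) Ω volume := ine_int hb continuous_id
  have hintr : IntegrableOn (fun x : E => rotL α x) Ω volume := ine_int hb (rotL α).continuous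
  have hrot : rotL α v = v := by
    have h1 : ∀ w : E, inner ℝ w (rotL α v) = inner ℝ w v := by
      intro w
      have h2 : ∫ x in Ω, rotL α x = rotL α v := (rotL α).integral_comp_comm hint
      have h3 : ∫ x in Ω, inner ℝ w (rotL α x) = inner ℝ w (∫ x in Ω, rotL α x) :=
        integral_inner hintr w
      have h4 : ∫ x in Ω, inner ℝ w x = inner ℝ w v := integral_inner hint w
      have h5 := Sym.int_rot (by omega : 0 < N) hs 1 (fun x : E => inner ℝ w x)
      rw [Nat.cast_one, one_mul] at h5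
      rw [← h2, ← h3, ← h4, ← h5]
      rfl
    have h6 := h1 (rotL α v - v)
    have h7 : inner ℝ (rotL α v - v) (rotL α v - v) = 0 := by
      rw [inner_sub_right, h6, sub_self]
    exact sub_eq_zero.1 (inner_self_eq_zero.1 h7)
  rw [rotL_apply] at hrot
  have e0 : Real.cos α * v 0 - Real.sin α * v 1 = v 0 := by
    have h := congrArg (fun z : E => z 0) hrot
    simpa [rot] using h
  have e1 : Real.sin α * v 0 + Real.cos α * v 1 = v 1 := by
    have h := congrArg (fun z : E => z 1) hrot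
    simpa [rot] using h
  have hpi := Real.pi_pos
  have hα0 : 0 < α := by
    rw [hα]
    positivity
  have hα1 : α ≤ Real.pi := by
    rw [hα, div_le_iff₀ (by linarith)]
    nlinarith
  have hc : Real.cos α ≠ 1 := by
    intro h
    have h1 := (Real.cos_eq_one_iff_of_lt_of_lt (by linarith) (by linarith)).1 h
    linarith
  have hc1 : Real.cos α < 1 := lt_of_le_of_ne (Real.cos_le_one α) hc
  have hsum : (1 - Real.cos α) * (v 0 ^ 2 + v 1 ^ 2) = 0 := by
    have h1 : (1 - Real.cos α) * v 0 = -(Real.sin α * v 1) := by linarith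
    have h2 : (1 - Real.cos α) * v 1 = Real.sin α * v 0 := by linarith
    calc (1 - Real.cos α) * (v 0 ^ 2 + v 1 ^ 2)
        = ((1 - Real.cos α) * v 0) * v 0 + ((1 - Real.cos α) * v 1) * v 1 := by ring
      _ = 0 := by rw [h1, h2]; ring
  have hsq : v 0 ^ 2 + v 1 ^ 2 = 0 := by
    rcases mul_eq_zero.1 hsum with h | h
    · linarith
    · exact h
  have hv0 : v 0 = 0 := by nlinarith [sq_nonneg (v 0), sq_nonneg (v 1)]
  have hv1 : v 1 = 0 := by nlinarith [sq_nonneg (v 0), sq_nonneg (v 1)]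
  ext i
  fin_cases i
  · simpa using hv0
  · simpa using hv1

private theorem aff_apply (T : E ≃ᵃ[ℝ] E) (x : E) : T x = T.linear x + T 0 := by
  have h := T.map_vadd 0 x
  simpa using h

theorem vol_image (T : E ≃ᵃ[ℝ] E) (Ω : Set E) :
    (volume (T '' Ω)).toReal =
      |LinearMap.det (T.linear : E →ₗ[ℝ] E)| * (volume Ω).toReal := by
  have h1 : T '' Ω = (fun y => T 0 + y) '' ((T.linear : E →ₗ[ℝ] E) '' Ω) := by
    rw [← Set.image_comp]
    refine Set.image_congr fun x _ => ?_
    show T x = T 0 + T.linear x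
    rw [aff_apply, add_comm]
  rw [h1, Set.image_add_left, measure_preimage_add, Measure.addHaar_image_linearMap,
    ENNReal.toReal_mul, ENNReal.toReal_ofReal (abs_nonneg _)]

private theorem int_image {F : Type*} [NormedAddCommGroup F] [NormedSpace ℝ F] {Ω : Set E}
    (hΩ : IsOpen Ω) (T : E ≃ᵃ[ℝ] E) (g : E → F) :
    ∫ y in T '' Ω, g y =
      |LinearMap.det (T.linear : E →ₗ[ℝ] E)| • ∫ x in Ω, g (T x) := by
  set A : E →L[ℝ] E := LinearMap.toContinuousLinearMap (T.linear : E →ₗ[ℝ] E) with hA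
  have hd : ∀ x ∈ Ω, HasFDerivWithinAt (T : E → E) A Ω x := by
    intro x _
    have h1 : (T : E → E) = fun x => A x + T 0 := by
      funext x
      exact aff_apply T x
    rw [h1]
    exact (A.hasFDerivAt.add_const (T 0)).hasFDerivWithinAt
  rw [integral_image_eq_integral_abs_det_fderiv_smul volume hΩ.measurableSet hd
    T.injective.injOn g, integral_smul]
  rfl

theorem inertia_image {N : ℕ} (hN : 3 ≤ N) {Ω : Set E} (hΩ : IsOpen Ω)
    (hb : Bornology.IsBounded Ω) (hne : Ω.Nonempty) (hs : Sym N Ω) (T : E ≃ᵃ[ℝ] E) :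
    ∫ x in T '' Ω, ‖x - ((volume (T '' Ω)).toReal)⁻¹ • ∫ y in T '' Ω, y‖ ^ 2 =
      |LinearMap.det (T.linear : E →ₗ[ℝ] E)| * (NSY.hs (T.linear : E →ₗ[ℝ] E) / 2) *
        ∫ x in Ω, ‖x‖ ^ 2 := by
  have hm := mean_zero (by omega : 2 ≤ N) hΩ hb hs
  have hdet : 0 < |LinearMap.det (T.linear : E →ₗ[ℝ] E)| := by
    rw [abs_pos]
    exact (LinearEquiv.isUnit_det' T.linear).ne_zero
  have hfin : volume Ω ≠ ⊤ := hb.measure_lt_top.ne
  have hV : 0 < (volume Ω).toReal :=
    ENNReal.toReal_pos (hΩ.measure_pos volume hne).ne' hfin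
  set A : E →L[ℝ] E := LinearMap.toContinuousLinearMap (T.linear : E →ₗ[ℝ] E) with hA
  have hcen : ((volume (T '' Ω)).toReal)⁻¹ • ∫ y in T '' Ω, y = T 0 := by
    rw [vol_image, int_image hΩ T (fun y => y)]
    have h1 : ∫ x in Ω, T x = (volume Ω).toReal • T 0 := by
      have h2 : ∀ x, T x = A x + T 0 := fun x => aff_apply T x
      have h3 : IntegrableOn (fun x : E => A x) Ω volume := ine_int hb A.continuous
      have h4 : IntegrableOn (fun _ : E => T 0) Ω volume := ine_int hb continuous_const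
      have h5 : ∫ x in Ω, A x = 0 := by
        have h6 : ∫ x in Ω, A x = A (∫ x in Ω, x) :=
          A.integral_comp_comm (ine_int hb continuous_id)
        rw [h6, hm, map_zero]
      calc ∫ x in Ω, T x = ∫ x in Ω, (A x + T 0) := by
            refine integral_congr_ae (Filter.Eventually.of_forall fun x => ?_)
            exact h2 x
        _ = (∫ x in Ω, A x) + ∫ _ in Ω, T 0 := integral_add h3 h4
        _ = (volume Ω).toReal • T 0 := by
            rw [h5, zero_add, setIntegral_const]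
            rfl
    rw [h1, smul_smul, smul_smul]
    have h7 : (|LinearMap.det (T.linear : E →ₗ[ℝ] E)| * (volume Ω).toReal)⁻¹ *
        (|LinearMap.det (T.linear : E →ₗ[ℝ] E)| * (volume Ω).toReal) = 1 :=
      inv_mul_cancel₀ (mul_pos hdet hV).ne'
    rw [← mul_assoc] at h7
    rw [h7, one_smul]
  rw [hcen, int_image hΩ T (fun y => ‖y - T 0‖ ^ 2)]
  have h1 : ∫ x in Ω, ‖T x - T 0‖ ^ 2 = ∫ x in Ω, ‖(T.linear : E →ₗ[ℝ] E) x‖ ^ 2 := by
    refine integral_congr_ae (Filter.Eventually.of_forall fun x => ?_)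
    show ‖T x - T 0‖ ^ 2 = ‖T.linear x‖ ^ 2
    rw [aff_apply T x, add_sub_cancel_right]
  have hNr : (0 : ℝ) < N := by
    have : 0 < N := by omega
    exact_mod_cast this
  have h2 : (N : ℝ) * ∫ x in Ω, ‖(T.linear : E →ₗ[ℝ] E) x‖ ^ 2 =
      N * ((NSY.hs (T.linear : E →ₗ[ℝ] E) / 2) * ∫ x in Ω, ‖x‖ ^ 2) := by
    have h3 : ∀ s ∈ Finset.range N,
        ∫ x in Ω, ‖(T.linear : E →ₗ[ℝ] E) (rot (s * (2 * Real.pi / N)) x)‖ ^ 2 =
          ∫ x in Ω, ‖(T.linear : E →ₗ[ℝ] E) x‖ ^ 2 := fun s _ =>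
      Sym.int_rot (by omega : 0 < N) hs s (fun x => ‖(T.linear : E →ₗ[ℝ] E) x‖ ^ 2)
    have h4 : ∑ s ∈ Finset.range N,
        ∫ x in Ω, ‖(T.linear : E →ₗ[ℝ] E) (rot (s * (2 * Real.pi / N)) x)‖ ^ 2 =
          (N : ℝ) * ∫ x in Ω, ‖(T.linear : E →ₗ[ℝ] E) x‖ ^ 2 := by
      rw [Finset.sum_congr rfl h3, Finset.sum_const, Finset.card_range, nsmul_eq_mul]
    rw [← h4, ← integral_finset_sum]
    · have h5 : ∀ x : E, ∑ s ∈ Finset.range N,
          ‖(T.linear : E →ₗ[ℝ] E) (rot (s * (2 * Real.pi / N)) x)‖ ^ 2 =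
            (N * (NSY.hs (T.linear : E →ₗ[ℝ] E) / 2)) * ‖x‖ ^ 2 := fun x =>
        sum_rot_apply hN _ x
      simp only [h5]
      rw [integral_const_mul]
      ring
    · intro s _
      have h6 : Continuous fun x : E =>
          ‖(T.linear : E →ₗ[ℝ] E) (rot (s * (2 * Real.pi / N)) x)‖ ^ 2 := by
        have h7 : (fun x : E => ‖(T.linear : E →ₗ[ℝ] E) (rot (s * (2 * Real.pi / N)) x)‖ ^ 2) =
            fun x : E => ‖A (rotL (s * (2 * Real.pi / N)) x)‖ ^ 2 := by
          funext x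
          rw [rotL_apply]
          rfl
        rw [h7]
        exact ((A.continuous.comp (rotL _).continuous).norm).pow 2
      exact ine_int hb h6
  have h3 := mul_left_cancel₀ hNr.ne' h2
  rw [h1, h3, smul_eq_mul]
  ring

end Pool.Agent.NSY
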