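import Pool.Agent.NSY.Defs

/-!
# NSY-Pla: Plancherel bound by Gaussian regularisation
-/

set_option autoImplicit false

open MeasureTheory Set Filter Topology
open Pool.Agent.Neu (E D mu)
open Pool.Agent.Neu.Discx (P)

namespace Pool.Agent.NSY

private lemma pl_exp : ((Module.finrank ℝ E : ℝ) / 2) = 1 := by
  rw [finrank_euclideanSpace_fin]
  norm_num

private lemma pl_expc : ((Module.finrank ℝ E : ℂ) / 2) = 1 := by
  rw [finrank_euclideanSpace_fin]
  norm_num

/-- the kernel -/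
private noncomputable def plk (ε : ℝ) (w : E) : ℝ :=
  (Real.pi / ε) * Real.exp (-(1 / (4 * ε)) * ‖w‖ ^ 2)

private lemma plk_nonneg {ε : ℝ} (hε : 0 < ε) (w : E) : 0 ≤ plk ε w := by
  unfold plk
  positivity

private lemma plk_cont (ε : ℝ) : Continuous (plk ε) := by
  unfold plk
  fun_prop

private lemma plk_le {ε : ℝ} (hε : 0 < ε) (w : E) : plk ε w ≤ Real.pi / ε := by
  unfold plk
  have h1 : Real.exp (-(1 / (4 * ε)) * ‖w‖ ^ 2) ≤ 1 := by
    rw [Real.exp_le_one_iff]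
    have : 0 ≤ 1 / (4 * ε) * ‖w‖ ^ 2 := by positivity
    linarith
  have h2 : 0 ≤ Real.pi / ε := by positivity
  exact mul_le_of_le_one_right h2 h1

private lemma plk_int {ε : ℝ} (hε : 0 < ε) : Integrable (plk ε) := by
  unfold plk
  have h := GaussianFourier.integrable_cexp_neg_mul_sq_norm_add (V := E)
    (b := ((1 / (4 * ε) : ℝ) : ℂ)) (by rw [Complex.ofReal_re]; positivity) 0 0
  have h2 := h.re
  refine Integrable.const_mul ?_ _
  refine h2.congr (Eventually.of_forall fun w => ?_)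
  show RCLike.re (Complex.exp _) = _
  rw [RCLike.re_eq_complex_re, Complex.exp_re]
  simp [← Complex.ofReal_pow]

private lemma plk_total {ε : ℝ} (hε : 0 < ε) : ∫ w, plk ε w = (2 * Real.pi) ^ 2 := by
  unfold plk
  rw [integral_const_mul, GaussianFourier.integral_rexp_neg_mul_sq_norm (by positivity), pl_exp,
    Real.rpow_one]
  field_simp
  ring

private lemma pl_gauss_int {ε : ℝ} (hε : 0 < ε) : Integrable (fun z : E => Real.exp (-ε * ‖z‖ ^ 2)) := by
  have h := GaussianFourier.integrable_cexp_neg_mul_sq_norm_add (V := E)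
    (b := (ε : ℂ)) (by rw [Complex.ofReal_re]; exact hε) 0 0
  refine h.re.congr (Eventually.of_forall fun w => ?_)
  show RCLike.re (Complex.exp _) = _
  rw [RCLike.re_eq_complex_re, Complex.exp_re]
  simp [← Complex.ofReal_pow]

private lemma pl_k {ε : ℝ} (hε : 0 < ε) (w : E) :
    ∫ z : E, Real.exp (-ε * ‖z‖ ^ 2) * Real.cos (inner ℝ z w) = plk ε w := by
  have hb : 0 < (ε : ℂ).re := by
    rw [Complex.ofReal_re]
    exact hε
  have h1 := GaussianFourier.integral_cexp_neg_mul_sq_norm_add (V := E) hb Complex.I w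
  have hint := GaussianFourier.integrable_cexp_neg_mul_sq_norm_add (V := E) hb Complex.I w
  have h2 : ∀ z : E, Real.exp (-ε * ‖z‖ ^ 2) * Real.cos (inner ℝ z w) =
      RCLike.re (Complex.exp (-(ε : ℂ) * (‖z‖ : ℂ) ^ 2 + Complex.I * ((inner ℝ w z : ℝ) : ℂ))) := by
    intro z
    rw [RCLike.re_eq_complex_re, Complex.exp_re, real_inner_comm]
    simp [← Complex.ofReal_pow]
  simp_rw [h2]
  rw [integral_re hint, h1, pl_expc, Complex.cpow_one]
  have e1 : (Real.pi : ℂ) / ε * Complex.exp (Complex.I ^ 2 * (‖w‖ : ℂ) ^ 2 / (4 * (ε : ℂ))) =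
      ((plk ε w : ℝ) : ℂ) := by
    unfold plk
    push_cast
    rw [Complex.I_sq]
    congr 2
    field_simp
  rw [e1]
  simp

private lemma pl_fin : IsFiniteMeasure ((volume : Measure E).restrict D) :=
  ⟨by
    rw [Measure.restrict_apply_univ]
    exact measure_ball_lt_top⟩

private noncomputable abbrev plν : Measure (E × E) :=
  ((volume : Measure E).restrict D).prod ((volume : Measure E).restrict D)

/-- bounded continuous functions are integrable on `D × D` -/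
private lemma pl_int_bdd {f : E × E → ℝ} (hf : Continuous f) {C : ℝ} (hC : ∀ p, |f p| ≤ C) :
    Integrable f plν := by
  have := pl_fin
  exact Integrable.of_bound hf.aestronglyMeasurable C (Eventually.of_forall fun p => by
    rw [Real.norm_eq_abs]
    exact hC p)

private lemma pl_h {ψ : E → ℝ} (hψ : Continuous ψ) {M : ℝ} (hM : ∀ x, |ψ x| ≤ M) (z : E) :
    (∫ x in D, ψ x * Real.cos (inner ℝ z x)) ^ 2 + (∫ x in D, ψ x * Real.sin (inner ℝ z x)) ^ 2 =
      ∫ p, ψ p.1 * ψ p.2 * Real.cos (inner ℝ z (p.1 - p.2)) ∂plν := by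
  have := pl_fin
  have hM0 : 0 ≤ M := (abs_nonneg _).trans (hM 0)
  rw [sq, sq, ← integral_prod_mul, ← integral_prod_mul, ← integral_add]
  · refine integral_congr_ae (Eventually.of_forall fun p => ?_)
    show ψ p.1 * Real.cos (inner ℝ z p.1) * (ψ p.2 * Real.cos (inner ℝ z p.2)) +
      ψ p.1 * Real.sin (inner ℝ z p.1) * (ψ p.2 * Real.sin (inner ℝ z p.2)) =
      ψ p.1 * ψ p.2 * Real.cos (inner ℝ z (p.1 - p.2))
    rw [inner_sub_right, Real.cos_sub]
    ring
  · refine pl_int_bdd (by fun_prop) (C := M * 1 * (M * 1)) fun p => ?_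
    rw [abs_mul, abs_mul, abs_mul]
    have h1 := Real.abs_cos_le_one (inner ℝ z p.1)
    have h2 := Real.abs_cos_le_one (inner ℝ z p.2)
    have h3 := hM p.1
    have h4 := hM p.2
    gcongr
  · refine pl_int_bdd (by fun_prop) (C := M * 1 * (M * 1)) fun p => ?_
    rw [abs_mul, abs_mul, abs_mul]
    have h1 := Real.abs_sin_le_one (inner ℝ z p.1)
    have h2 := Real.abs_sin_le_one (inner ℝ z p.2)
    have h3 := hM p.1
    have h4 := hM p.2
    gcongr

private lemma pl_G_int {ψ : E → ℝ} (hψ : Continuous ψ) {M : ℝ} (hM : ∀ x, |ψ x| ≤ M) {ε : ℝ}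
    (hε : 0 < ε) :
    Integrable (fun q : E × (E × E) => Real.exp (-ε * ‖q.1‖ ^ 2) *
      (ψ q.2.1 * ψ q.2.2 * Real.cos (inner ℝ q.1 (q.2.1 - q.2.2)))) (volume.prod plν) := by
  have := pl_fin
  have hM0 : 0 ≤ M := (abs_nonneg _).trans (hM 0)
  have h1 : Integrable (fun q : E × (E × E) => Real.exp (-ε * ‖q.1‖ ^ 2) * (M * M * 1))
      (volume.prod plν) :=
    Integrable.mul_prod (pl_gauss_int hε) (integrable_const (M * M * 1))
  refine h1.mono' (Continuous.aestronglyMeasurable (by fun_prop)) (Eventually.of_forall fun q => ?_)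
  rw [Real.norm_eq_abs, abs_mul, abs_of_pos (Real.exp_pos _)]
  refine mul_le_mul_of_nonneg_left ?_ (Real.exp_pos _).le
  rw [abs_mul, abs_mul]
  have h2 := Real.abs_cos_le_one (inner ℝ q.1 (q.2.1 - q.2.2))
  have h3 := hM q.2.1
  have h4 := hM q.2.2
  gcongr

private lemma pl_swap {ψ : E → ℝ} (hψ : Continuous ψ) {M : ℝ} (hM : ∀ x, |ψ x| ≤ M) {ε : ℝ}
    (hε : 0 < ε) :
    ∫ z : E, Real.exp (-ε * ‖z‖ ^ 2) * ∫ p, ψ p.1 * ψ p.2 * Real.cos (inner ℝ z (p.1 - p.2)) ∂plν =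
      ∫ p, ψ p.1 * ψ p.2 * plk ε (p.1 - p.2) ∂plν := by
  have := pl_fin
  have h1 : ∀ z : E, Real.exp (-ε * ‖z‖ ^ 2) *
      ∫ p, ψ p.1 * ψ p.2 * Real.cos (inner ℝ z (p.1 - p.2)) ∂plν =
      ∫ p, Real.exp (-ε * ‖z‖ ^ 2) * (ψ p.1 * ψ p.2 * Real.cos (inner ℝ z (p.1 - p.2))) ∂plν := by
    intro z
    rw [integral_const_mul]
  simp_rw [h1]
  rw [integral_integral_swap (pl_G_int hψ hM hε)]
  refine integral_congr_ae (Eventually.of_forall fun p => ?_)
  show ∫ z : E, Real.exp (-ε * ‖z‖ ^ 2) * (ψ p.1 * ψ p.2 * Real.cos (inner ℝ z (p.1 - p.2))) =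
    ψ p.1 * ψ p.2 * plk ε (p.1 - p.2)
  rw [← pl_k hε, ← integral_const_mul]
  refine integral_congr_ae (Eventually.of_forall fun z => ?_)
  show Real.exp (-ε * ‖z‖ ^ 2) * (ψ p.1 * ψ p.2 * Real.cos (inner ℝ z (p.1 - p.2))) =
    ψ p.1 * ψ p.2 * (Real.exp (-ε * ‖z‖ ^ 2) * Real.cos (inner ℝ z (p.1 - p.2)))
  ring

private lemma pl_bound {ψ : E → ℝ} (hψ : Continuous ψ) {M : ℝ} (hM : ∀ x, |ψ x| ≤ M) {ε : ℝ}
    (hε : 0 < ε) :
    ∫ p, ψ p.1 * ψ p.2 * plk ε (p.1 - p.2) ∂plν ≤ (2 * Real.pi) ^ 2 * ∫ x in D, ψ x ^ 2 := by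
  have := pl_fin
  have hM0 : 0 ≤ M := (abs_nonneg _).trans (hM 0)
  have hkc := plk_cont ε
  have hpe : 0 ≤ Real.pi / ε := by positivity
  have hkabs : ∀ w, |plk ε w| ≤ Real.pi / ε := fun w => by
    rw [abs_of_nonneg (plk_nonneg hε w)]
    exact plk_le hε w
  have hi1 : Integrable (fun p : E × E => ψ p.1 ^ 2 * plk ε (p.1 - p.2)) plν := by
    refine pl_int_bdd (by fun_prop) (C := M ^ 2 * (Real.pi / ε)) fun p => ?_
    rw [abs_mul, abs_pow]
    have h1 := hM p.1
    have h2 := hkabs (p.1 - p.2)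
    gcongr
  have hi2 : Integrable (fun p : E × E => ψ p.2 ^ 2 * plk ε (p.1 - p.2)) plν := by
    refine pl_int_bdd (by fun_prop) (C := M ^ 2 * (Real.pi / ε)) fun p => ?_
    rw [abs_mul, abs_pow]
    have h1 := hM p.2
    have h2 := hkabs (p.1 - p.2)
    gcongr
  have hi0 : Integrable (fun p : E × E => ψ p.1 * ψ p.2 * plk ε (p.1 - p.2)) plν := by
    refine pl_int_bdd (by fun_prop) (C := M * M * (Real.pi / ε)) fun p => ?_
    rw [abs_mul, abs_mul]
    have h1 := hM p.1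
    have h3 := hM p.2
    have h2 := hkabs (p.1 - p.2)
    gcongr
  have hψi : IntegrableOn (fun x => ψ x ^ 2) D := by
    refine Integrable.of_bound (hψ.pow 2).aestronglyMeasurable (M ^ 2)
      (Eventually.of_forall fun x => ?_)
    rw [Real.norm_eq_abs, abs_pow]
    exact pow_le_pow_left₀ (abs_nonneg _) (hM x) 2
  have hA : ∫ p, ψ p.1 ^ 2 * plk ε (p.1 - p.2) ∂plν ≤ (2 * Real.pi) ^ 2 * ∫ x in D, ψ x ^ 2 := by
    rw [integral_prod _ hi1, ← integral_const_mul]
    refine integral_mono_of_nonneg (Eventually.of_forall fun x => ?_) (hψi.const_mul _)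
      (Eventually.of_forall fun x => ?_)
    · exact integral_nonneg fun y => mul_nonneg (sq_nonneg _) (plk_nonneg hε _)
    · show ∫ y in D, ψ x ^ 2 * plk ε (x - y) ≤ (2 * Real.pi) ^ 2 * ψ x ^ 2
      rw [integral_const_mul, mul_comm]
      refine mul_le_mul_of_nonneg_right ?_ (sq_nonneg _)
      have hk : Integrable (fun y => plk ε (x - y)) := (plk_int hε).comp_sub_left x
      refine (setIntegral_le_integral hk (Eventually.of_forall fun y => plk_nonneg hε _)).trans ?_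
      rw [integral_sub_left_eq_self (plk ε) volume x, plk_total hε]
  have hB : ∫ p, ψ p.2 ^ 2 * plk ε (p.1 - p.2) ∂plν ≤ (2 * Real.pi) ^ 2 * ∫ x in D, ψ x ^ 2 := by
    rw [integral_prod_symm _ hi2, ← integral_const_mul]
    refine integral_mono_of_nonneg (Eventually.of_forall fun x => ?_) (hψi.const_mul _)
      (Eventually.of_forall fun x => ?_)
    · exact integral_nonneg fun y => mul_nonneg (sq_nonneg _) (plk_nonneg hε _)
    · show ∫ y in D, ψ x ^ 2 * plk ε (y - x) ≤ (2 * Real.pi) ^ 2 * ψ x ^ 2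
      rw [integral_const_mul, mul_comm]
      refine mul_le_mul_of_nonneg_right ?_ (sq_nonneg _)
      have hk : Integrable (fun y => plk ε (y - x)) := (plk_int hε).comp_sub_right x
      refine (setIntegral_le_integral hk (Eventually.of_forall fun y => plk_nonneg hε _)).trans ?_
      rw [integral_sub_right_eq_self (plk ε) x, plk_total hε]
  have hle : ∫ p, ψ p.1 * ψ p.2 * plk ε (p.1 - p.2) ∂plν ≤
      ∫ p, (1 / 2 * (ψ p.1 ^ 2 * plk ε (p.1 - p.2)) + 1 / 2 * (ψ p.2 ^ 2 * plk ε (p.1 - p.2))) ∂plν := by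
    refine integral_mono hi0 ((hi1.const_mul _).add (hi2.const_mul _)) fun p => ?_
    show ψ p.1 * ψ p.2 * plk ε (p.1 - p.2) ≤
      1 / 2 * (ψ p.1 ^ 2 * plk ε (p.1 - p.2)) + 1 / 2 * (ψ p.2 ^ 2 * plk ε (p.1 - p.2))
    have h1 := plk_nonneg hε (p.1 - p.2)
    nlinarith [sq_nonneg (ψ p.1 - ψ p.2), mul_nonneg (sq_nonneg (ψ p.1 - ψ p.2)) h1]
  rw [integral_add (hi1.const_mul _) (hi2.const_mul _), integral_const_mul, integral_const_mul]
    at hle
  linarith

theorem planch {φ : E → ℝ} (hφ : Continuous φ) {R : ℝ} (hR : 0 < R) :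
    ∫ z in Metric.ball (0 : E) R, ((∫ x in D, φ x * Real.cos (inner ℝ z x)) ^ 2 +
        (∫ x in D, φ x * Real.sin (inner ℝ z x)) ^ 2) ≤
      (2 * Real.pi) ^ 2 * ∫ x in D, φ x ^ 2 := by
  have := pl_fin
  obtain ⟨M0, hM0⟩ := (isCompact_closedBall (0 : E) 1).exists_bound_of_continuousOn hφ.continuousOn
  obtain ⟨M, hMdef⟩ : ∃ M : ℝ, M = max M0 0 := ⟨_, rfl⟩
  have hMnn : 0 ≤ M := by
    rw [hMdef]
    exact le_max_right _ _
  obtain ⟨ψ, hψdef⟩ : ∃ ψ : E → ℝ, ψ = fun x => max (-M) (min M (φ x)) := ⟨_, rfl⟩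
  have hψ : Continuous ψ := by
    rw [hψdef]
    exact continuous_const.max (continuous_const.min hφ)
  have hM : ∀ x, |ψ x| ≤ M := by
    intro x
    rw [hψdef, abs_le]
    exact ⟨le_max_left _ _, max_le (by linarith) (min_le_left _ _)⟩
  have heq : ∀ x ∈ D, φ x = ψ x := by
    intro x hx
    have h1 := hM0 x (Metric.ball_subset_closedBall hx)
    rw [Real.norm_eq_abs] at h1
    have h2 : |φ x| ≤ M := by
      rw [hMdef]
      exact h1.trans (le_max_left _ _)
    rw [abs_le] at h2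
    rw [hψdef]
    show φ x = max (-M) (min M (φ x))
    rw [min_eq_right h2.2, max_eq_right h2.1]
  have e1 : ∀ z : E, ∫ x in D, φ x * Real.cos (inner ℝ z x) = ∫ x in D, ψ x * Real.cos (inner ℝ z x) :=
    fun z => setIntegral_congr_fun measurableSet_ball fun x hx => by
      show φ x * _ = ψ x * _
      rw [heq x hx]
  have e2 : ∀ z : E, ∫ x in D, φ x * Real.sin (inner ℝ z x) = ∫ x in D, ψ x * Real.sin (inner ℝ z x) :=
    fun z => setIntegral_congr_fun measurableSet_ball fun x hx => by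
      show φ x * _ = ψ x * _
      rw [heq x hx]
  have e3 : ∫ x in D, φ x ^ 2 = ∫ x in D, ψ x ^ 2 :=
    setIntegral_congr_fun measurableSet_ball fun x hx => by
      show φ x ^ 2 = ψ x ^ 2
      rw [heq x hx]
  simp_rw [e1, e2, pl_h hψ hM]
  rw [e3]
  obtain ⟨h, hh⟩ : ∃ h : E → ℝ, h = fun z => ∫ p, ψ p.1 * ψ p.2 * Real.cos (inner ℝ z (p.1 - p.2)) ∂plν :=
    ⟨_, rfl⟩
  have hnn : ∀ z, 0 ≤ h z := by
    intro z
    rw [hh]
    show 0 ≤ ∫ p, ψ p.1 * ψ p.2 * Real.cos (inner ℝ z (p.1 - p.2)) ∂plν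
    rw [← pl_h hψ hM]
    positivity
  show ∫ z in Metric.ball (0 : E) R, (∫ p, ψ p.1 * ψ p.2 * Real.cos (inner ℝ z (p.1 - p.2)) ∂plν) ≤ _
  have hfold : ∫ z in Metric.ball (0 : E) R,
      (∫ p, ψ p.1 * ψ p.2 * Real.cos (inner ℝ z (p.1 - p.2)) ∂plν) =
      ∫ z in Metric.ball (0 : E) R, h z := by rw [hh]
  rw [hfold]
  have hmain : ∀ ε : ℝ, 0 < ε → Real.exp (-ε * R ^ 2) * ∫ z in Metric.ball (0 : E) R, h z ≤
      (2 * Real.pi) ^ 2 * ∫ x in D, ψ x ^ 2 := by
    intro ε hε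
    have hgi : Integrable (fun z : E => Real.exp (-ε * ‖z‖ ^ 2) * h z) := by
      have h1 := (pl_G_int hψ hM hε).integral_prod_left
      refine h1.congr (Eventually.of_forall fun z => ?_)
      show ∫ p, Real.exp (-ε * ‖z‖ ^ 2) * (ψ p.1 * ψ p.2 * Real.cos (inner ℝ z (p.1 - p.2))) ∂plν = _
      rw [integral_const_mul, hh]
    have h1 : Real.exp (-ε * R ^ 2) * ∫ z in Metric.ball (0 : E) R, h z ≤
        ∫ z in Metric.ball (0 : E) R, Real.exp (-ε * ‖z‖ ^ 2) * h z := by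
      rw [← integral_const_mul]
      refine integral_mono_of_nonneg (Eventually.of_forall fun z => ?_) hgi.integrableOn ?_
      · exact mul_nonneg (Real.exp_pos _).le (hnn z)
      · refine (ae_restrict_iff' measurableSet_ball).2 (Eventually.of_forall fun z hz => ?_)
        refine mul_le_mul_of_nonneg_right ?_ (hnn z)
        rw [Real.exp_le_exp]
        rw [mem_ball_zero_iff] at hz
        have h2 : ‖z‖ ^ 2 ≤ R ^ 2 := pow_le_pow_left₀ (norm_nonneg _) hz.le 2
        nlinarith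
    have h2 : ∫ z in Metric.ball (0 : E) R, Real.exp (-ε * ‖z‖ ^ 2) * h z ≤
        ∫ z : E, Real.exp (-ε * ‖z‖ ^ 2) * h z :=
      setIntegral_le_integral hgi
        (Eventually.of_forall fun z => mul_nonneg (Real.exp_pos _).le (hnn z))
    have h3 : ∫ z : E, Real.exp (-ε * ‖z‖ ^ 2) * h z = ∫ p, ψ p.1 * ψ p.2 * plk ε (p.1 - p.2) ∂plν := by
      rw [← pl_swap hψ hM hε, hh]
    exact h1.trans (h2.trans (h3.le.trans (pl_bound hψ hM hε)))
  have hlim : Tendsto (fun ε : ℝ => Real.exp (-ε * R ^ 2) * ∫ z in Metric.ball (0 : E) R, h z)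
      (𝓝[>] 0) (𝓝 (1 * ∫ z in Metric.ball (0 : E) R, h z)) := by
    refine Tendsto.mul_const _ ?_
    have hc : Continuous (fun ε : ℝ => Real.exp (-ε * R ^ 2)) := by fun_prop
    have h1 := (hc.tendsto 0).mono_left (nhdsWithin_le_nhds (s := Ioi (0 : ℝ)))
    have e : Real.exp (-0 * R ^ 2) = 1 := by simp
    rw [e] at h1
    exact h1
  rw [one_mul] at hlim
  refine le_of_tendsto hlim ?_
  filter_upwards [self_mem_nhdsWithin] with ε hε
  exact hmain ε hε

end Pool.Agent.NSY
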