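import Pool.Agent.NSY.Defs
import Pool.Agent.NSY.CfL
import Pool.Agent.NSY.EnId
import Pool.Agent.NSY.Pla

/-!
# NSY-Kro: Kroeger: the number of eigenvalues of the disc below the gap

For `z : E` the gap inequality applied to `cos⟪z, ·⟫` and `sin⟪z, ·⟫` gives
`(Λ - |z|²) π ≤ (Λ/π) ∑ A_i(z)`, `A_i(z) = (∫_D φ_i cos)² + (∫_D φ_i sin)²`.  Integration over
`|z| < √Λ` and the Plancherel bound `planch` give `Λ ≤ 8 card ι`.
-/

set_option autoImplicit false

open MeasureTheory Set Filter Topology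
open Pool.Agent.Neu (E D mu)
open Pool.Agent.Neu.Discx (P)

namespace Pool.Agent.NSY

private theorem hasF_cos (z x : E) :
    HasFDerivAt (fun x : E => Real.cos (inner ℝ z x))
      (-(Real.sin (inner ℝ z x)) • (innerSL ℝ z : E →L[ℝ] ℝ)) x := by
  have h : HasFDerivAt (fun x : E => (innerSL ℝ z : E →L[ℝ] ℝ) x) (innerSL ℝ z : E →L[ℝ] ℝ) x :=
    (innerSL ℝ z : E →L[ℝ] ℝ).hasFDerivAt
  exact (Real.hasDerivAt_cos _).comp_hasFDerivAt x h

private theorem hasF_sin (z x : E) :
    HasFDerivAt (fun x : E => Real.sin (inner ℝ z x))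
      ((Real.cos (inner ℝ z x)) • (innerSL ℝ z : E →L[ℝ] ℝ)) x := by
  have h : HasFDerivAt (fun x : E => (innerSL ℝ z : E →L[ℝ] ℝ) x) (innerSL ℝ z : E →L[ℝ] ℝ) x :=
    (innerSL ℝ z : E →L[ℝ] ℝ).hasFDerivAt
  exact (Real.hasDerivAt_sin _).comp_hasFDerivAt x h

private theorem cd_cos (z : E) : ContDiff ℝ 1 (fun x : E => Real.cos (inner ℝ z x)) :=
  Real.contDiff_cos.comp (innerSL ℝ z : E →L[ℝ] ℝ).contDiff

private theorem cd_sin (z : E) : ContDiff ℝ 1 (fun x : E => Real.sin (inner ℝ z x)) :=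
  Real.contDiff_sin.comp (innerSL ℝ z : E →L[ℝ] ℝ).contDiff

private theorem intD {f : E → ℝ} (hf : Continuous f) : IntegrableOn f D :=
  (hf.continuousOn.integrableOn_compact (isCompact_closedBall (0 : E) 1)).mono_set
    Metric.ball_subset_closedBall

private theorem vol_D : ∫ _x in D, (1 : ℝ) = Real.pi := by
  rw [setIntegral_const, smul_eq_mul, mul_one, Measure.real,
    EuclideanSpace.volume_ball_fin_two]
  simp [Real.pi_pos.le]

private theorem cont_A {φ : E → ℝ} (hφ : Continuous φ) {g : ℝ → ℝ} (hg : Continuous g)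
    (hb : ∀ t, |g t| ≤ 1) : Continuous (fun z : E => ∫ x in D, φ x * g (inner ℝ z x)) := by
  refine continuous_of_dominated (bound := fun x => |φ x|) ?_ ?_ ?_ ?_
  · intro z
    exact (hφ.mul (hg.comp (continuous_const.inner continuous_id))).aestronglyMeasurable
  · intro z
    refine Eventually.of_forall fun x => ?_
    rw [Real.norm_eq_abs, abs_mul]
    exact mul_le_of_le_one_right (abs_nonneg _) (hb _)
  · exact (intD hφ.abs)
  · refine Eventually.of_forall fun x => ?_
    exact continuous_const.mul (hg.comp (continuous_id.inner continuous_const))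

private theorem int_ball {Λ : ℝ} (hΛ : 0 < Λ) :
    ∫ z in Metric.ball (0 : E) (√Λ), (Λ - ‖z‖ ^ 2) = Real.pi * Λ ^ 2 / 2 := by
  have hs : 0 < √Λ := Real.sqrt_pos.mpr hΛ
  have hss : √Λ ^ 2 = Λ := Real.sq_sqrt hΛ.le
  have h1 : ∀ z : E, (Metric.ball (0 : E) (√Λ)).indicator (fun z => Λ - ‖z‖ ^ 2) z =
      (fun r : ℝ => (Iio (√Λ)).indicator (fun r => Λ - r ^ 2) r) ‖z‖ := by
    intro z
    by_cases hz : ‖z‖ < √Λ
    · rw [indicator_of_mem (by simpa using hz)]
      simp only
      rw [indicator_of_mem (by simpa using hz)]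
    · rw [indicator_of_notMem (by simpa using hz)]
      simp only
      rw [indicator_of_notMem (by simpa using hz)]
  rw [← integral_indicator Metric.isOpen_ball.measurableSet]
  simp_rw [h1]
  rw [integral_fun_norm_addHaar (volume : Measure E)]
  rw [Measure.real, EuclideanSpace.volume_ball_fin_two]
  have h2 : Module.finrank ℝ E = 2 := by simp
  rw [h2]
  have h3 : ∫ y in Ioi (0 : ℝ), y ^ (2 - 1) • (Iio (√Λ)).indicator (fun r => Λ - r ^ 2) y =
      ∫ y in (0 : ℝ)..√Λ, (Λ * y - y ^ 3) := by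
    have e1 : ∀ y : ℝ, y ^ (2 - 1) • (Iio (√Λ)).indicator (fun r => Λ - r ^ 2) y =
        (Iio (√Λ)).indicator (fun y => Λ * y - y ^ 3) y := by
      intro y
      by_cases hy : y < √Λ
      · rw [indicator_of_mem (by simpa using hy), indicator_of_mem (by simpa using hy)]
        simp only [smul_eq_mul]; ring
      · rw [indicator_of_notMem (by simpa using hy), indicator_of_notMem (by simpa using hy)]
        simp
    simp_rw [e1]
    rw [setIntegral_indicator measurableSet_Iio, Ioi_inter_Iio,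
      intervalIntegral.integral_of_le hs.le, integral_Ioc_eq_integral_Ioo]
  rw [h3]
  have h4 : ∫ y in (0 : ℝ)..√Λ, (Λ * y - y ^ 3) = Λ ^ 2 / 4 := by
    rw [intervalIntegral.integral_sub
      ((by fun_prop : Continuous fun y : ℝ => Λ * y).intervalIntegrable _ _)
      ((by fun_prop : Continuous fun y : ℝ => y ^ 3).intervalIntegrable _ _)]
    rw [intervalIntegral.integral_const_mul, integral_id, integral_pow]
    have : √Λ ^ 4 = Λ ^ 2 := by
      calc √Λ ^ 4 = (√Λ ^ 2) ^ 2 := by ring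
        _ = Λ ^ 2 := by rw [hss]
    norm_num
    rw [this, hss]; ring
  rw [h4]
  simp [Real.pi_pos.le]
  ring

theorem Fam.kroeger {M : ℕ} {Λ : ℝ} {ι : Type} [Fintype ι] {k : ι → ℤ} {K : ι → ℝ}
    {u u' : ι → ℝ → ℝ} (h : Fam M Λ k K u u') (hΛ : 0 < Λ) : Λ ≤ 8 * Fintype.card ι := by
  have hpi := Real.pi_pos
  set φ : ι → E → ℝ := fun i => pol (k i) (u i) with hφd
  have hφ : ∀ i, Continuous (φ i) := fun i => (pol_contDiff (h.eig i).reg).continuous
  set A : ι → E → ℝ := fun i z => (∫ x in D, φ i x * Real.cos (inner ℝ z x)) ^ 2 +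
    (∫ x in D, φ i x * Real.sin (inner ℝ z x)) ^ 2 with hA
  have hAc : ∀ i, Continuous (A i) := fun i =>
    ((cont_A (hφ i) Real.continuous_cos Real.abs_cos_le_one).pow 2).add
      ((cont_A (hφ i) Real.continuous_sin Real.abs_sin_le_one).pow 2)
  have hK : ∀ i, 0 ≤ K i := fun i => (h.eig i).K_nonneg
  have hA0 : ∀ i z, 0 ≤ A i z := fun i z => by positivity
  -- pointwise inequality
  have key : ∀ z : E, (Λ - ‖z‖ ^ 2) * Real.pi ≤ Λ / Real.pi * ∑ i, A i z := by
    intro z
    have g1 := h.gap _ (cd_cos z)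
    have g2 := h.gap _ (cd_sin z)
    have c1 : ∀ i, cf (k i) (u i) (fun x : E => Real.cos (inner ℝ z x)) =
        ∫ x in D, φ i x * Real.cos (inner ℝ z x) := by
      intro i
      rw [cf_eq (h.eig i) (cd_cos z).continuous]
      refine integral_congr_ae (Eventually.of_forall fun x => ?_)
      simp only [hφd]; ring
    have c2 : ∀ i, cf (k i) (u i) (fun x : E => Real.sin (inner ℝ z x)) =
        ∫ x in D, φ i x * Real.sin (inner ℝ z x) := by
      intro i
      rw [cf_eq (h.eig i) (cd_sin z).continuous]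
      refine integral_congr_ae (Eventually.of_forall fun x => ?_)
      simp only [hφd]; ring
    simp only [c1] at g1
    simp only [c2] at g2
    have n1 : ∀ x : E, ‖fderiv ℝ (fun x : E => Real.cos (inner ℝ z x)) x‖ ^ 2 =
        ‖z‖ ^ 2 * Real.sin (inner ℝ z x) ^ 2 := by
      intro x
      rw [(hasF_cos z x).fderiv, norm_smul, innerSL_apply_norm, mul_pow, Real.norm_eq_abs,
        sq_abs]
      ring
    have n2 : ∀ x : E, ‖fderiv ℝ (fun x : E => Real.sin (inner ℝ z x)) x‖ ^ 2 =
        ‖z‖ ^ 2 * Real.cos (inner ℝ z x) ^ 2 := by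
      intro x
      rw [(hasF_sin z x).fderiv, norm_smul, innerSL_apply_norm, mul_pow, Real.norm_eq_abs,
        sq_abs]
      ring
    simp only [n1] at g1
    simp only [n2] at g2
    have ic : Continuous (fun x : E => Real.cos (inner ℝ z x) ^ 2) :=
      (cd_cos z).continuous.pow 2
    have is : Continuous (fun x : E => Real.sin (inner ℝ z x) ^ 2) :=
      (cd_sin z).continuous.pow 2
    have hsum : (∫ x in D, Real.cos (inner ℝ z x) ^ 2) +
        ∫ x in D, Real.sin (inner ℝ z x) ^ 2 = Real.pi := by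
      rw [← integral_add (intD ic) (intD is), ← vol_D]
      refine integral_congr_ae (Eventually.of_forall fun x => ?_)
      simp only
      exact Real.cos_sq_add_sin_sq _
    rw [integral_const_mul] at g1 g2
    have hsumA : ∑ i, A i z / Real.pi =
        ∑ i, (∫ x in D, φ i x * Real.cos (inner ℝ z x)) ^ 2 / Real.pi +
        ∑ i, (∫ x in D, φ i x * Real.sin (inner ℝ z x)) ^ 2 / Real.pi := by
      rw [← Finset.sum_add_distrib]
      refine Finset.sum_congr rfl fun i _ => ?_
      simp only [hA]; ring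
    have p1 : 0 ≤ ∑ i, K i * ((∫ x in D, φ i x * Real.cos (inner ℝ z x)) ^ 2 / Real.pi) :=
      Finset.sum_nonneg fun i _ => mul_nonneg (hK i) (by positivity)
    have p2 : 0 ≤ ∑ i, K i * ((∫ x in D, φ i x * Real.sin (inner ℝ z x)) ^ 2 / Real.pi) :=
      Finset.sum_nonneg fun i _ => mul_nonneg (hK i) (by positivity)
    have hfin : Λ * (Real.pi - ∑ i, A i z / Real.pi) ≤ ‖z‖ ^ 2 * Real.pi := by
      rw [hsumA]
      nlinarith [g1, g2, p1, p2, hsum]
    have : Λ / Real.pi * ∑ i, A i z = Λ * ∑ i, A i z / Real.pi := by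
      rw [← Finset.sum_div]; ring
    rw [this]
    nlinarith [hfin]
  -- integrate
  have hcb : IsCompact (Metric.closedBall (0 : E) (√Λ)) := isCompact_closedBall _ _
  have ib : ∀ {f : E → ℝ}, Continuous f → IntegrableOn f (Metric.ball (0 : E) (√Λ)) :=
    fun hf => (hf.continuousOn.integrableOn_compact hcb).mono_set
      Metric.ball_subset_closedBall
  have hint : ∫ z in Metric.ball (0 : E) (√Λ), (Λ - ‖z‖ ^ 2) * Real.pi ≤
      ∫ z in Metric.ball (0 : E) (√Λ), Λ / Real.pi * ∑ i, A i z := by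
    refine setIntegral_mono (ib (by fun_prop)) (ib ?_) key
    exact continuous_const.mul (continuous_finsetSum _ fun i _ => hAc i)
  rw [integral_mul_const, int_ball hΛ, integral_const_mul,
    integral_finsetSum _ (fun i _ => ib (hAc i))] at hint
  have hpl : ∑ i, ∫ z in Metric.ball (0 : E) (√Λ), A i z ≤
      ∑ _i : ι, (2 * Real.pi) ^ 2 * Real.pi := by
    refine Finset.sum_le_sum fun i _ => ?_
    have := planch (hφ i) (Real.sqrt_pos.mpr hΛ)
    rw [pol_norm (h.eig i)] at this
    exact this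
  rw [Finset.sum_const, Finset.card_univ, nsmul_eq_mul] at hpl
  have h1 : Real.pi * Λ ^ 2 / 2 * Real.pi ≤
      Λ / Real.pi * (Fintype.card ι * ((2 * Real.pi) ^ 2 * Real.pi)) :=
    le_trans hint (mul_le_mul_of_nonneg_left hpl (by positivity))
  have h2 : Λ / Real.pi * (Fintype.card ι * ((2 * Real.pi) ^ 2 * Real.pi)) =
      (Real.pi ^ 2 * Λ / 2) * (8 * Fintype.card ι) := by
    field_simp; ring
  rw [h2] at h1
  have h3 : Real.pi * Λ ^ 2 / 2 * Real.pi = (Real.pi ^ 2 * Λ / 2) * Λ := by ring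
  rw [h3] at h1
  exact le_of_mul_le_mul_left h1 (by positivity)

end Pool.Agent.NSY
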