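import Mathlib
import Pool.Agent.NSY.Defs

/-!
# NSY-Lim: limit of the traces (linear algebra)

PLAN. `G ν → π 1` entrywise, so `det (G ν) → π^n ≠ 0`, `(G ν)⁻¹ → π⁻¹ 1` entrywise (`Matrix.inv_def`, adjugate is continuous;
`ContinuousAt` of the matrix inverse), and `G ν` is eventually positive definite: symmetric with `xᵀ G x ≥ (π - n ε) |x|²` when all
entries are within `ε` of those of `π 1`. `A ν` is positive semidefinite with diagonal `≤ B ν j`, bounded; so its entries are bounded: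
`|A i j| ≤ (A i i + A j j)/2`. `trace (G⁻¹ A) - π⁻¹ trace A = ∑ ((G⁻¹)_{ij} - π⁻¹ δ_ij) A_ji → 0` and
`π⁻¹ trace A ≤ π⁻¹ ∑ B ν j → π⁻¹ ∑ b j`. Pass to the limit in `X ≤ c trace (...) ≤ c (π⁻¹ ∑ B ν j + o(1))` (`ge_of_tendsto`).
-/

set_option autoImplicit false

open MeasureTheory Set Filter Topology
open Pool.Agent.Neu (E D mu)
open Pool.Agent.Neu.Discx (P)

namespace Pool.Agent.NSY

private theorem tl_posDef {n : ℕ} {M : Matrix (Fin n) (Fin n) ℝ} (hs : M.IsHermitian) {a ε : ℝ}
    (hε : 0 ≤ ε) (ha : ε * n < a) (h : ∀ i j, |M i j - (if i = j then a else 0)| ≤ ε) :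
    M.PosDef := by
  refine Matrix.posDef_iff_dotProduct_mulVec.2 ⟨hs, fun {x} hx => ?_⟩
  have h1 : star x ⬝ᵥ (M.mulVec x) = ∑ i, ∑ j, M i j * (x i * x j) := by
    simp only [dotProduct, Matrix.mulVec, Pi.star_apply, star_trivial, Finset.mul_sum]
    refine Finset.sum_congr rfl fun i _ => Finset.sum_congr rfl fun j _ => ?_
    ring
  have h2 : ∑ i, ∑ j, (if i = j then a else 0) * (x i * x j) = a * ∑ i, x i ^ 2 := by
    rw [Finset.mul_sum]
    refine Finset.sum_congr rfl fun i _ => ?_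
    rw [Finset.sum_eq_single i]
    · rw [if_pos rfl]
      ring
    · intro j _ hne
      rw [if_neg (Ne.symm hne), zero_mul]
    · intro hc
      exact absurd (Finset.mem_univ i) hc
  have h3 : ∀ i j, -(ε * ((x i ^ 2 + x j ^ 2) / 2)) ≤
      (M i j - (if i = j then a else 0)) * (x i * x j) := by
    intro i j
    have h4 : |(M i j - (if i = j then a else 0)) * (x i * x j)| ≤
        ε * ((x i ^ 2 + x j ^ 2) / 2) := by
      rw [abs_mul]
      refine mul_le_mul (h i j) ?_ (abs_nonneg _) hε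
      rw [abs_le]
      constructor
      · nlinarith [sq_nonneg (x i + x j)]
      · nlinarith [sq_nonneg (x i - x j)]
    exact neg_le_of_abs_le h4
  have h5 : ∑ i, ∑ j, -(ε * ((x i ^ 2 + x j ^ 2) / 2)) = -(ε * n * ∑ i, x i ^ 2) := by
    have h6 : ∑ i : Fin n, ∑ j : Fin n, (x i ^ 2 + x j ^ 2) = 2 * (n * ∑ i, x i ^ 2) := by
      simp only [Finset.sum_add_distrib, Finset.sum_const, Finset.card_univ, Fintype.card_fin,
        nsmul_eq_mul, ← Finset.mul_sum]
      ring
    calc ∑ i, ∑ j, -(ε * ((x i ^ 2 + x j ^ 2) / 2)) =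
        -(ε / 2) * ∑ i, ∑ j, (x i ^ 2 + x j ^ 2) := by
          rw [Finset.mul_sum]
          refine Finset.sum_congr rfl fun i _ => ?_
          rw [Finset.mul_sum]
          refine Finset.sum_congr rfl fun j _ => ?_
          ring
      _ = _ := by
        rw [h6]
        ring
  have h7 : ∑ i, ∑ j, M i j * (x i * x j) = a * ∑ i, x i ^ 2 +
      ∑ i, ∑ j, (M i j - (if i = j then a else 0)) * (x i * x j) := by
    rw [← h2, ← Finset.sum_add_distrib]
    refine Finset.sum_congr rfl fun i _ => ?_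
    rw [← Finset.sum_add_distrib]
    refine Finset.sum_congr rfl fun j _ => ?_
    ring
  have h8 : -(ε * n * ∑ i, x i ^ 2) ≤
      ∑ i, ∑ j, (M i j - (if i = j then a else 0)) * (x i * x j) := by
    rw [← h5]
    exact Finset.sum_le_sum fun i _ => Finset.sum_le_sum fun j _ => h3 i j
  have h9 : 0 < ∑ i, x i ^ 2 := by
    obtain ⟨i, hi⟩ := Function.ne_iff.1 hx
    exact Finset.sum_pos' (fun i _ => sq_nonneg _)
      ⟨i, Finset.mem_univ i, by
        have : x i ≠ 0 := hi
        positivity⟩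
  rw [h1, h7]
  nlinarith

private theorem tl_inv {n : ℕ} {G : ℕ → Matrix (Fin n) (Fin n) ℝ}
    (hG : ∀ i j, Tendsto (fun ν => G ν i j) atTop (𝓝 (if i = j then Real.pi else 0))) (i j : Fin n) :
    Tendsto (fun ν => (G ν)⁻¹ i j) atTop (𝓝 (if i = j then Real.pi⁻¹ else 0)) := by
  have h1 : Tendsto G atTop (𝓝 (Matrix.diagonal fun _ => Real.pi)) := by
    refine tendsto_pi_nhds.2 fun i => tendsto_pi_nhds.2 fun j => ?_
    exact hG i j
  have hdet : Tendsto (fun ν => (G ν).det) atTop (𝓝 (Matrix.diagonal fun _ : Fin n => Real.pi).det) :=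
    (Continuous.matrix_det continuous_id).continuousAt.tendsto.comp h1
  have hd0 : (Matrix.diagonal fun _ : Fin n => Real.pi).det ≠ 0 := by
    rw [Matrix.det_diagonal, Finset.prod_const]
    exact pow_ne_zero _ Real.pi_ne_zero
  have hadj : Tendsto (fun ν => (G ν).adjugate) atTop
      (𝓝 (Matrix.diagonal fun _ : Fin n => Real.pi).adjugate) :=
    (Continuous.matrix_adjugate continuous_id).continuousAt.tendsto.comp h1
  have hinv : Tendsto (fun ν => (G ν)⁻¹) atTop (𝓝 (Matrix.diagonal fun _ : Fin n => Real.pi)⁻¹) := by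
    simp only [Matrix.inv_def, Ring.inverse_eq_inv']
    exact (hdet.inv₀ hd0).smul hadj
  have hval : (Matrix.diagonal fun _ : Fin n => Real.pi)⁻¹ = Matrix.diagonal fun _ => Real.pi⁻¹ := by
    apply Matrix.inv_eq_right_inv
    rw [Matrix.diagonal_mul_diagonal]
    simp [Real.pi_ne_zero]
  rw [hval] at hinv
  have h2 := (tendsto_pi_nhds.1 ((tendsto_pi_nhds.1 hinv) i)) j
  exact h2

private theorem tl_entry {n : ℕ} {A : Matrix (Fin n) (Fin n) ℝ} (hA : A.PosSemidef) (i j : Fin n) :
    |A i j| ≤ (A i i + A j j) / 2 := by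
  have hsymm : A j i = A i j := by
    have h := hA.isHermitian.apply i j
    simpa using h
  have key : ∀ s : ℝ, 0 ≤ A i i + s * A i j + s * A j i + s * s * A j j := by
    intro s
    have h := hA.dotProduct_mulVec_nonneg (Pi.single i (1 : ℝ) + s • Pi.single j (1 : ℝ))
    have e1 : star (Pi.single i (1 : ℝ) + s • Pi.single j (1 : ℝ) : Fin n → ℝ) ⬝ᵥ
        (A.mulVec (Pi.single i (1 : ℝ) + s • Pi.single j (1 : ℝ))) =
        A i i + s * A i j + s * A j i + s * s * A j j := by
      rw [star_trivial, Matrix.mulVec_add, Matrix.mulVec_smul, add_dotProduct, smul_dotProduct,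
        dotProduct_add, dotProduct_add, dotProduct_smul, dotProduct_smul,
        Matrix.mulVec_single_one, Matrix.mulVec_single_one, single_dotProduct, single_dotProduct,
        single_dotProduct, single_dotProduct]
      simp only [Matrix.col_apply, one_mul, smul_eq_mul]
      ring
    rw [e1] at h
    exact h
  have h1 := key 1
  have h2 := key (-1)
  rw [abs_le]
  constructor <;> linarith

theorem trace_limit {n : ℕ} {X c : ℝ} (hc : 0 ≤ c) {G A : ℕ → Matrix (Fin n) (Fin n) ℝ}
    {B : ℕ → Fin n → ℝ} {b : Fin n → ℝ} (hs : ∀ ν, (G ν).IsHermitian)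
    (hG : ∀ i j, Tendsto (fun ν => G ν i j) atTop (𝓝 (if i = j then Real.pi else 0)))
    (hA : ∀ ν, (A ν).PosSemidef) (hAB : ∀ ν j, A ν j j ≤ B ν j)
    (hB : ∀ j, Tendsto (fun ν => B ν j) atTop (𝓝 (b j)))
    (hX : ∀ ν, (G ν).PosDef → X ≤ c * ((G ν)⁻¹ * A ν).trace) :
    X ≤ c * (Real.pi⁻¹ * ∑ j, b j) := by
  -- the matrices are eventually positive definite
  obtain ⟨ε, hε0, hε1⟩ : ∃ ε : ℝ, 0 < ε ∧ ε * n < Real.pi := by
    refine ⟨Real.pi / (n + 1), by positivity, ?_⟩
    rw [div_mul_eq_mul_div, div_lt_iff₀ (by positivity)]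
    nlinarith [Real.pi_pos]
  have hev : ∀ᶠ ν in atTop, (G ν).PosDef := by
    have h1 : ∀ᶠ ν in atTop, ∀ i j, |G ν i j - (if i = j then Real.pi else 0)| ≤ ε := by
      refine eventually_all.2 fun i => eventually_all.2 fun j => ?_
      have h2 := (hG i j).eventually (Metric.closedBall_mem_nhds _ hε0)
      filter_upwards [h2] with ν hν
      exact hν
    filter_upwards [h1] with ν hν
    exact tl_posDef (hs ν) hε0.le hε1 hν
  -- upper bound for the trace
  have hbound : ∀ ν, ((G ν)⁻¹ * A ν).trace ≤ Real.pi⁻¹ * ∑ j, B ν j +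
      ∑ i, ∑ j, |(G ν)⁻¹ i j - (if i = j then Real.pi⁻¹ else 0)| * ((B ν j + B ν i) / 2) := by
    intro ν
    have e1 : ((G ν)⁻¹ * A ν).trace = ∑ i, ∑ j, (G ν)⁻¹ i j * A ν j i := by
      simp only [Matrix.trace, Matrix.diag_apply, Matrix.mul_apply]
    have e2 : ∑ i, ∑ j, (if i = j then Real.pi⁻¹ else 0) * A ν j i = Real.pi⁻¹ * ∑ j, A ν j j := by
      rw [Finset.mul_sum]
      refine Finset.sum_congr rfl fun i _ => ?_
      rw [Finset.sum_eq_single i]
      · rw [if_pos rfl]
      · intro j _ hne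
        rw [if_neg (Ne.symm hne), zero_mul]
      · intro hcc
        exact absurd (Finset.mem_univ i) hcc
    have e3 : ∑ i, ∑ j, (G ν)⁻¹ i j * A ν j i = Real.pi⁻¹ * ∑ j, A ν j j +
        ∑ i, ∑ j, ((G ν)⁻¹ i j - (if i = j then Real.pi⁻¹ else 0)) * A ν j i := by
      rw [← e2, ← Finset.sum_add_distrib]
      refine Finset.sum_congr rfl fun i _ => ?_
      rw [← Finset.sum_add_distrib]
      refine Finset.sum_congr rfl fun j _ => ?_
      ring
    rw [e1, e3]
    refine add_le_add ?_ ?_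
    · exact mul_le_mul_of_nonneg_left (Finset.sum_le_sum fun j _ => hAB ν j)
        (inv_nonneg.2 Real.pi_pos.le)
    · refine Finset.sum_le_sum fun i _ => Finset.sum_le_sum fun j _ => ?_
      refine (le_abs_self _).trans ?_
      rw [abs_mul]
      refine mul_le_mul_of_nonneg_left ?_ (abs_nonneg _)
      refine (tl_entry (hA ν) j i).trans ?_
      have h1 := hAB ν i
      have h2 := hAB ν j
      linarith
  have hlim : Tendsto (fun ν => c * (Real.pi⁻¹ * ∑ j, B ν j +
      ∑ i, ∑ j, |(G ν)⁻¹ i j - (if i = j then Real.pi⁻¹ else 0)| * ((B ν j + B ν i) / 2))) atTop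
      (𝓝 (c * (Real.pi⁻¹ * ∑ j, b j + ∑ i : Fin n, ∑ j : Fin n, 0 * ((b j + b i) / 2)))) := by
    refine Tendsto.const_mul c (Tendsto.add ?_ ?_)
    · exact Tendsto.const_mul _ (tendsto_finsetSum _ fun j _ => hB j)
    · refine tendsto_finsetSum _ fun i _ => tendsto_finsetSum _ fun j _ => ?_
      refine Tendsto.mul ?_ (((hB j).add (hB i)).div_const 2)
      have h1 := ((tl_inv hG i j).sub_const (if i = j then Real.pi⁻¹ else 0)).abs
      rwa [sub_self, abs_zero] at h1
  have hzero : ∑ i : Fin n, ∑ j : Fin n, 0 * ((b j + b i) / 2) = 0 := by simp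
  rw [hzero, add_zero] at hlim
  refine ge_of_tendsto hlim ?_
  filter_upwards [hev] with ν hν
  exact (hX ν hν).trans (mul_le_mul_of_nonneg_left (hbound ν) hc)

end Pool.Agent.NSY
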