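import Pool.Agent.NSY.Defs
import Pool.Agent.NSY.AngD
import Pool.Agent.NSY.AngN
import Pool.Agent.NSY.PolP
import Pool.Agent.NSY.PolC
import Pool.Agent.NSY.Rot
import Pool.Agent.NSY.PolI

/-!
# NSY-PolG: mass and energy of pol k g on a symmetric set

PLAN. `int_polar` for `f = pol k g * pol l h` (continuous) and for `f = ‖fderiv (pol k g)‖²` (continuous as `pol k g` is `C¹`,
`pol_contDiff`). For `r > 0` the inner integral is `g r h r ∫ χ cc k cc l`, `χ θ = ind Ω (P r θ)` (`pol_P`), resp.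
`g'² ∫ χ cc k² + k² (g r / r)² ∫ χ cc (-k)²` (`pol_fderiv`); apply `cc_orth_sym` with `Sym.ind` (`χ` is measurable and bounded by 1) for the pairs
`(k, l)`, `(k, k)`, `(-k, -k)`; `∫ χ = 2π dens Ω r`. The point `r = 0` is a null set (`intervalIntegral.integral_congr_ae` or
`integral_congr` on `Ioc`).
-/

set_option autoImplicit false

open MeasureTheory Set Filter Topology
open Pool.Agent.Neu (E D mu)
open Pool.Agent.Neu.Discx (P)

namespace Pool.Agent.NSY

namespace PolGx

theorem ang {N : ℕ} (hN : 0 < N) {Ω : Set E} (hΩ : MeasurableSet Ω) (hs : Sym N Ω) {k l : ℤ}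
    (hkl : k.natAbs + l.natAbs < N) (r : ℝ) :
    ∫ θ in (-Real.pi)..Real.pi, ind Ω (P r θ) * (cc k θ * cc l θ) =
      if k = l then 2 * Real.pi * dens Ω r else 0 := by
  have hm : Measurable (fun θ => ind Ω (P r θ)) :=
    (ind_meas hΩ).comp (measurable_const.prodMk measurable_id)
  have h := cc_orth_sym hN (χ := fun θ => ind Ω (P r θ)) hm (C := 1) ?_ ?_ k l hkl
  · rw [h]
    unfold dens
    split_ifs
    · have := Real.pi_pos
      field_simp
    · rfl
  · intro θ
    have := ind_bd Ω (P r θ)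
    rw [abs_le]
    constructor <;> linarith [this.1, this.2]
  · intro θ
    exact hs.ind hN r θ

end PolGx

theorem gram_pol {N : ℕ} (hN : 0 < N) {Ω : Set E} (hΩ : MeasurableSet Ω) (hs : Sym N Ω) {R : ℝ}
    (hR : 0 < R) (hb : Ω ⊆ Metric.ball 0 R) {k l : ℤ} (hkl : k.natAbs + l.natAbs < N)
    {g h : ℝ → ℝ} (hg : Continuous (pol k g)) (hh : Continuous (pol l h)) :
    ∫ x in Ω, pol k g x * pol l h x =
      if k = l then 2 * Real.pi * ∫ r in (0 : ℝ)..R, dens Ω r * (g r * h r) * r else 0 := by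
  rw [int_polar hΩ hR hb (f := fun x => pol k g x * pol l h x) (hg.mul hh)]
  have h1 : ∀ r ∈ uIcc (0 : ℝ) R,
      (∫ θ in (-Real.pi)..Real.pi, ind Ω (P r θ) * (pol k g (P r θ) * pol l h (P r θ))) * r =
        if k = l then 2 * Real.pi * (dens Ω r * (g r * h r) * r) else 0 := by
    intro r hr
    rw [uIcc_of_le hR.le] at hr
    rcases hr.1.eq_or_lt with h0 | h0
    · rw [← h0]
      simp
    · have h2 : (∫ θ in (-Real.pi)..Real.pi, ind Ω (P r θ) * (pol k g (P r θ) * pol l h (P r θ))) =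
          (g r * h r) * ∫ θ in (-Real.pi)..Real.pi, ind Ω (P r θ) * (cc k θ * cc l θ) := by
        rw [← intervalIntegral.integral_const_mul]
        refine intervalIntegral.integral_congr fun θ _ => ?_
        rw [pol_P k g h0, pol_P l h h0]
        ring
      rw [h2, PolGx.ang hN hΩ hs hkl]
      split_ifs
      · ring
      · simp
  rw [intervalIntegral.integral_congr h1]
  split_ifs
  · rw [intervalIntegral.integral_const_mul]
  · simp

theorem energy_pol {N : ℕ} (hN : 0 < N) {Ω : Set E} (hΩ : MeasurableSet Ω) (hs : Sym N Ω)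
    {R : ℝ} (hR : 0 < R) (hb : Ω ⊆ Metric.ball 0 R) {k : ℤ} (hk : 2 * k.natAbs < N)
    {g g' : ℝ → ℝ} (hg : Reg k.natAbs g g') :
    ∫ x in Ω, ‖fderiv ℝ (pol k g) x‖ ^ 2 =
      2 * Real.pi * ∫ r in (0 : ℝ)..R,
        dens Ω r * (g' r ^ 2 + (k : ℝ) ^ 2 * (g r / r) ^ 2) * r := by
  have hc : Continuous (fun x => ‖fderiv ℝ (pol k g) x‖ ^ 2) :=
    (((pol_contDiff hg).continuous_fderiv (by norm_num)).norm).pow 2
  rw [int_polar hΩ hR hb hc, ← intervalIntegral.integral_const_mul]
  refine intervalIntegral.integral_congr fun r hr => ?_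
  rw [uIcc_of_le hR.le] at hr
  rcases hr.1.eq_or_lt with h0 | h0
  · rw [← h0]
    simp
  · have hm : Measurable (fun θ => ind Ω (P r θ)) :=
      (ind_meas hΩ).comp (measurable_const.prodMk measurable_id)
    have hi : ∀ j : ℤ, IntervalIntegrable (fun θ => ind Ω (P r θ) * (cc j θ * cc j θ)) volume
        (-Real.pi) Real.pi := by
      intro j
      refine (((cc_cont j).mul (cc_cont j)).intervalIntegrable (-Real.pi) Real.pi).mono_fun
        (hm.mul ((cc_cont j).mul (cc_cont j)).measurable).aestronglyMeasurable ?_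
      refine Filter.Eventually.of_forall fun θ => ?_
      change ‖ind Ω (P r θ) * (cc j θ * cc j θ)‖ ≤ ‖cc j θ * cc j θ‖
      rw [norm_mul]
      have h2 := ind_bd Ω (P r θ)
      have h3 : ‖ind Ω (P r θ)‖ ≤ 1 := by
        rw [Real.norm_eq_abs, abs_le]
        constructor <;> linarith [h2.1, h2.2]
      calc ‖ind Ω (P r θ)‖ * ‖cc j θ * cc j θ‖ ≤ 1 * ‖cc j θ * cc j θ‖ :=
            mul_le_mul_of_nonneg_right h3 (norm_nonneg _)
        _ = _ := one_mul _
    have h2 : (∫ θ in (-Real.pi)..Real.pi, ind Ω (P r θ) * ‖fderiv ℝ (pol k g) (P r θ)‖ ^ 2) =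
        g' r ^ 2 * (∫ θ in (-Real.pi)..Real.pi, ind Ω (P r θ) * (cc k θ * cc k θ)) +
        (k : ℝ) ^ 2 * (g r / r) ^ 2 *
          (∫ θ in (-Real.pi)..Real.pi, ind Ω (P r θ) * (cc (-k) θ * cc (-k) θ)) := by
      rw [← intervalIntegral.integral_const_mul, ← intervalIntegral.integral_const_mul,
        ← intervalIntegral.integral_add ((hi k).const_mul _) ((hi (-k)).const_mul _)]
      refine intervalIntegral.integral_congr fun θ _ => ?_
      rw [pol_fderiv hg h0]
      ring
    rw [h2, PolGx.ang hN hΩ hs (by omega), PolGx.ang hN hΩ hs (by rw [Int.natAbs_neg]; omega),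
      if_pos rfl, if_pos rfl]
    ring

end Pool.Agent.NSY
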