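import Pool.Agent.NSY.Defs
import Pool.Agent.NSY.PolC
import Pool.Agent.NSY.PolG
import Pool.Agent.NSY.PolI
import Pool.Agent.NSY.TmP
import Pool.Agent.NSY.TmR
import Pool.Agent.NSY.ApE
import Pool.Agent.NSY.ApL
import Pool.Agent.NSY.RegB
import Pool.Agent.NSY.EnId
import Pool.Agent.NSY.EnL

/-!
# NSY-TrF: the trial functions on the symmetric set
-/

set_option autoImplicit false

open MeasureTheory Set Filter Topology
open Pool.Agent.Neu (E D mu)
open Pool.Agent.Neu.Discx (P)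

namespace Pool.Agent.NSY

private lemma tf_lim2 : Tendsto (fun ν : ℕ => 1 / ((ν : ℝ) + 2)) atTop (𝓝 0) := by
  have h : Tendsto (fun ν : ℕ => (ν : ℝ) + 2) atTop atTop :=
    tendsto_atTop_add_const_right _ _ (tendsto_natCast_atTop_atTop (R := ℝ))
  refine (tendsto_inv_atTop_zero.comp h).congr fun n => ?_
  simp [one_div]

private lemma tf_int {ω : ℝ → ℝ} (hm : Measurable ω) (h01 : ∀ r, 0 ≤ ω r ∧ ω r ≤ 1) {R : ℝ}
    (hR : 0 < R) {G : ℝ → ℝ} (hG : ContinuousOn G (Icc 0 R)) :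
    IntervalIntegrable (fun r => ω r * G r) volume 0 R := by
  rw [intervalIntegrable_iff_integrableOn_Ioc_of_le hR.le]
  have h1 : IntegrableOn G (Ioc 0 R) :=
    (hG.integrableOn_compact isCompact_Icc).mono_set Ioc_subset_Icc_self
  have h2 : Integrable (fun r => ‖G r‖) (volume.restrict (Ioc 0 R)) := h1.norm
  refine h2.mono' (hm.aestronglyMeasurable.mul h1.aestronglyMeasurable)
    (Eventually.of_forall fun r => ?_)
  rw [norm_mul, Real.norm_eq_abs, abs_of_nonneg (h01 r).1]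
  exact mul_le_of_le_one_left (norm_nonneg _) (h01 r).2

private lemma tf_cube : ∫ t in (0 : ℝ)..1, t ^ 2 * t = 1 / 4 := by
  have h : ∀ t : ℝ, t ^ 2 * t = t ^ 3 := fun t => by ring
  simp_rw [h]
  rw [integral_pow]
  norm_num

/-- the energy density -/
private lemma tf_F {m : ℕ} {K : ℝ} {u u' : ℝ → ℝ} (h : REig m K u u') :
    ContinuousOn (fun t => u' t ^ 2 + (m : ℝ) ^ 2 * (u t / t) ^ 2) (Ioi 0) ∧
      ∃ C : ℝ, ∀ t, 0 < t → |u' t ^ 2 + (m : ℝ) ^ 2 * (u t / t) ^ 2| ≤ C := by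
  constructor
  · have h1 : ContinuousOn u (Ioi 0) := h.cont.mono fun x hx => mem_Ici.2 (le_of_lt hx)
    refine (h.reg.cont.pow 2).add (continuousOn_const.mul ((h1.div continuousOn_id fun x hx => ?_).pow 2))
    exact ne_of_gt hx
  · obtain ⟨C, hC0, hC⟩ := h.bd
    refine ⟨C ^ 2 + (m : ℝ) ^ 2 * C ^ 2, fun t ht => ?_⟩
    obtain ⟨h1, h2, h3⟩ := hC t ht
    rw [abs_of_nonneg (by positivity)]
    have h4 : u' t ^ 2 ≤ C ^ 2 := by
      rw [← sq_abs]
      exact pow_le_pow_left₀ (abs_nonneg _) h2 2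
    have h5 : (m : ℝ) ^ 2 * (u t / t) ^ 2 ≤ (m : ℝ) ^ 2 * C ^ 2 := by
      by_cases hm : m = 0
      · rw [hm]
        simp
      · have h6 : |u t / t| ≤ C := by
          rw [abs_div, abs_of_pos ht, div_le_iff₀ ht]
          exact h3 hm
        refine mul_le_mul_of_nonneg_left ?_ (by positivity)
        rw [← sq_abs]
        exact pow_le_pow_left₀ (abs_nonneg _) h6 2
    linarith

private lemma tf_uu {m m' : ℕ} {K K' : ℝ} {u u' v v' : ℝ → ℝ} (h : REig m K u u')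
    (h' : REig m' K' v v') :
    ContinuousOn (fun t => u t * v t) (Ioi 0) ∧ ∃ C : ℝ, ∀ t, 0 < t → |u t * v t| ≤ C := by
  constructor
  · exact (h.cont.mono fun x hx => mem_Ici.2 (le_of_lt hx)).mul
      (h'.cont.mono fun x hx => mem_Ici.2 (le_of_lt hx))
  · obtain ⟨C, hC0, hC⟩ := h.bd
    obtain ⟨C', hC0', hC'⟩ := h'.bd
    refine ⟨C * C', fun t ht => ?_⟩
    rw [abs_mul]
    exact mul_le_mul (hC t ht).1 (hC' t ht).1 (abs_nonneg _) hC0

theorem exists_trial {N n : ℕ} (hN : 0 < N) {Ω : Set E} (hΩ : IsOpen Ω)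
    (hb : Bornology.IsBounded Ω) (hs : Sym N Ω) (hv : (volume Ω).toReal = Real.pi) {ρ : ℝ}
    (hρ : 0 < ρ) (hρ4 : 1 / 2 ≤ ρ ^ 4) (hball : Metric.ball 0 ρ ⊆ Ω) {k : Fin n → ℤ}
    {K : Fin n → ℝ} {u u' : Fin n → ℝ → ℝ} (hk : ∀ i, 2 * (k i).natAbs < N)
    (he : ∀ i, REig (k i).natAbs (K i) (u i) (u' i))
    (ho : ∀ i j, i ≠ j → k i = k j → ∫ t in (0 : ℝ)..1, u i t * u j t * t = 0) :
    ∃ (w : ℕ → Fin n → E → ℝ) (B : ℕ → Fin n → ℝ) (b : Fin n → ℝ),
      (∀ ν j, ContDiff ℝ 1 (w ν j)) ∧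
      (∀ i j, Tendsto (fun ν => ∫ x in Ω, w ν i x * w ν j x) atTop
        (𝓝 (if i = j then Real.pi else 0))) ∧
      (∀ ν j, ∫ x in Ω, ‖fderiv ℝ (w ν j) x‖ ^ 2 ≤ B ν j) ∧
      (∀ j, Tendsto (fun ν => B ν j) atTop (𝓝 (b j))) ∧
      ∀ j, b j ≤ 2 * K j * ∫ x in Ω, ‖x‖ ^ 2 := by
  obtain ⟨R, hR1, hbR⟩ := hb.subset_ball_lt (max ρ 1) (0 : E)
  have hρR : ρ ≤ R := (le_max_left _ _).trans hR1.le
  have hR : 0 < R := hρ.trans_le hρR
  have hΩm : MeasurableSet Ω := hΩ.measurableSet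
  have hm := dens_meas hΩm
  have h01 := dens_bd hΩm
  obtain ⟨om, hom⟩ := exists_appr hm h01 hρ hρR (fun r h0 hr => dens_eq_one hball h0 hr)
  have hOm := fun ν => hom.om hρ ν
  have hvol : ∫ r in (0 : ℝ)..R, dens Ω r * r = 1 / 2 := by
    have h1 := dens_vol hΩm hR hbR
    rw [hv] at h1
    have h2 : Real.pi * (∫ r in (0 : ℝ)..R, dens Ω r * r) = Real.pi * (1 / 2) := by linarith
    exact mul_left_cancel₀ Real.pi_ne_zero h2
  obtain ⟨I, hI⟩ : ∃ I : ℝ, I = ∫ r in (0 : ℝ)..R, dens Ω r * r ^ 3 := ⟨_, rfl⟩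
  have hIΩ : ∫ x in Ω, ‖x‖ ^ 2 = 2 * Real.pi * I := by
    rw [hI]
    exact dens_inertia hΩm hR hbR
  have hsqc : ∀ j : Fin n, (((k j).natAbs : ℕ) : ℝ) ^ 2 = ((k j : ℤ) : ℝ) ^ 2 := by
    intro j
    rw [Nat.cast_natAbs, Int.cast_abs, sq_abs]
  have htm2 : Tendsto (fun ν => ∫ r in (0 : ℝ)..R, dens Ω r * tm (om ν) r ^ 2 * r) atTop
      (𝓝 (1 / 4)) := by
    have h1 := hom.limit hm h01 hρ hR hvol (F := fun t => t ^ 2)
      ((continuous_pow 2).continuousOn) (C := R ^ 2) (fun t ht htR => by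
        rw [abs_of_nonneg (sq_nonneg t)]
        exact pow_le_pow_left₀ ht.le htR 2)
    rw [tf_cube] at h1
    exact h1
  have hI4 : 1 / 4 ≤ I := by
    refine le_of_tendsto' htm2 fun ν => ?_
    rw [hI]
    have hc : ContinuousOn (tm (om ν)) (Icc 0 R) :=
      (hOm ν).tm_contOn.mono fun x hx => mem_Ici.2 hx.1
    have e1 : ∀ r : ℝ, dens Ω r * tm (om ν) r ^ 2 * r = dens Ω r * (tm (om ν) r ^ 2 * r) :=
      fun r => by ring
    simp_rw [e1]
    refine intervalIntegral.integral_mono_on hR.le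
      (tf_int hm h01 hR ((hc.pow 2).mul continuousOn_id))
      (tf_int hm h01 hR (continuous_pow 3).continuousOn) fun r hr => ?_
    refine mul_le_mul_of_nonneg_left ?_ (h01 r).1
    have h2 := (hOm ν).tm_le hr.1
    have h3 : 0 ≤ tm (om ν) r := Real.sqrt_nonneg _
    have h4 : tm (om ν) r ^ 2 ≤ r ^ 2 := pow_le_pow_left₀ h3 h2 2
    have h5 : r ^ 3 = r ^ 2 * r := by ring
    rw [h5]
    exact mul_le_mul_of_nonneg_right h4 hr.1
  have hreg : ∀ ν j, Reg (k j).natAbs (fun r => u j (tm (om ν) r))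
      (fun r => u' j (tm (om ν) r) * (om ν r * r / tm (om ν) r)) := fun ν j =>
    (hOm ν).reg (he j).reg
  refine ⟨fun ν j => pol (k j) (fun r => u j (tm (om ν) r)),
    fun ν j => 2 * Real.pi * ((∫ r in (0 : ℝ)..R, dens Ω r *
      (u' j (tm (om ν) r) ^ 2 + ((k j).natAbs : ℝ) ^ 2 * (u j (tm (om ν) r) / tm (om ν) r) ^ 2) * r) +
      K j / (ρ * (1 - 1 / (ν + 2))) ^ 4 * (I - ∫ r in (0 : ℝ)..R, dens Ω r * tm (om ν) r ^ 2 * r)),
    fun j => 2 * Real.pi * (K j / 2 + K j / ρ ^ 4 * (I - 1 / 4)), ?_, ?_, ?_, ?_, ?_⟩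
  · intro ν j
    exact pol_contDiff (hreg ν j)
  · intro i j
    have hkl : (k i).natAbs + (k j).natAbs < N := by
      have h1 := hk i
      have h2 := hk j
      omega
    have hgram := fun ν => gram_pol hN hΩm hs hR hbR hkl (pol_contDiff (hreg ν i)).continuous
      (pol_contDiff (hreg ν j)).continuous
    refine Tendsto.congr (fun ν => (hgram ν).symm) ?_
    by_cases hkk : k i = k j
    · simp only [if_pos hkk]
      obtain ⟨hc, C, hC⟩ := tf_uu (he i) (he j)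
      have h1 := hom.limit hm h01 hρ hR hvol hc (C := C) (fun t ht _ => hC t ht)
      have h2 := h1.const_mul (2 * Real.pi)
      by_cases hij : i = j
      · rw [if_pos hij]
        have h3 : ∫ t in (0 : ℝ)..1, u i t * u j t * t = 1 / 2 := by
          rw [← hij, ← (he i).norm]
          refine intervalIntegral.integral_congr fun t _ => ?_
          show u i t * u i t * t = u i t ^ 2 * t
          ring
        rw [h3] at h2
        have h4 : 2 * Real.pi * (1 / 2) = Real.pi := by ring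
        rw [h4] at h2
        exact h2
      · rw [if_neg hij]
        rw [ho i j hij hkk, mul_zero] at h2
        exact h2
    · simp only [if_neg hkk]
      rw [if_neg (fun hij => hkk (by rw [hij]))]
      exact tendsto_const_nhds
  · intro ν j
    show ∫ x in Ω, ‖fderiv ℝ (pol (k j) (fun r => u j (tm (om ν) r))) x‖ ^ 2 ≤ _
    rw [energy_pol hN hΩm hs hR hbR (hk j) (hreg ν j)]
    refine mul_le_mul_of_nonneg_left ?_ (by positivity)
    have h1 := energy_le (hOm ν) (he j) hm h01 hR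
    rw [hsqc j, ← hI] at h1
    rw [hsqc j]
    exact h1
  · intro j
    obtain ⟨hc, C, hC⟩ := tf_F (he j)
    have h1 := hom.limit hm h01 hρ hR hvol hc (C := C) (fun t ht _ => hC t ht)
    rw [(he j).energy] at h1
    have h2 : Tendsto (fun ν : ℕ => K j / (ρ * (1 - 1 / ((ν : ℝ) + 2))) ^ 4) atTop
        (𝓝 (K j / ρ ^ 4)) := by
      have h3 : Tendsto (fun ν : ℕ => (ρ * (1 - 1 / ((ν : ℝ) + 2))) ^ 4) atTop (𝓝 (ρ ^ 4)) := by
        have h4 := ((tendsto_const_nhds (x := (1 : ℝ))).sub tf_lim2).const_mul ρ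
        rw [sub_zero, mul_one] at h4
        exact h4.pow 4
      exact tendsto_const_nhds.div h3 (pow_ne_zero 4 hρ.ne')
    exact (h1.add (h2.mul (tendsto_const_nhds.sub htm2))).const_mul _
  · intro j
    have hK := (he j).K_nonneg
    rw [hIΩ]
    have h1 : K j / ρ ^ 4 ≤ 2 * K j := by
      rw [div_le_iff₀ (by positivity)]
      nlinarith
    have h2 : K j / ρ ^ 4 * (I - 1 / 4) ≤ 2 * K j * (I - 1 / 4) :=
      mul_le_mul_of_nonneg_right h1 (by linarith)
    have hpi := Real.pi_pos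
    have h3 : 2 * Real.pi * (K j / 2 + K j / ρ ^ 4 * (I - 1 / 4)) ≤
        2 * Real.pi * (K j / 2 + 2 * K j * (I - 1 / 4)) :=
      mul_le_mul_of_nonneg_left (by linarith) (by positivity)
    refine h3.trans (le_of_eq ?_)
    ring

end Pool.Agent.NSY
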