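import Pool.Agent.NSY.Defs
import Pool.Agent.NSY.TrF
import Pool.Agent.NSY.GrM
import Pool.Agent.NSY.TrU
import Pool.Agent.NSY.Avg
import Pool.Agent.NSY.Ine
import Pool.Agent.NSY.Lim
import Pool.Agent.NSY.DiS
import Pool.Agent.NSY.Kro
import Pool.Agent.NSY.FamE
import Pool.Agent.NSY.LamF
import Pool.Agent.NSY.FD
import Pool.Agent.NSY.EnId
import Pool.Agent.NSY.Iso

/-!
# NSY-Mn1: assembly for area π

PLAN. `M = (N+1)/2 ≥ 2`, `Λ = lam M ≥ M² > 0`; `exists_fam`. `n ≤ card ι`: `card_ge`, or `lam M ≤ 8 card ι` (`kroeger`) and `lam M ≥ M² ≥ N²/4 ≥ 8n`. `exists_emb`: `σ`.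
`exists_trial` for `k ∘ σ`, ... (`2 |k| < N` because `|k| < (N+1)/2`). `trace_limit` with `X = ∑_{Icc 1 n} mu (T '' Ω)`, `c = hs/(2 det²)`, `G ν = gramM Ω (w ν)`, `A ν = enM Ω (w ν)`, `avg`. So
`∑_{Icc 2 n} mu (T '' Ω) ≤ X ≤ c π⁻¹ ∑ 2 K_j I` (`mu ≥ 0` for the index 1), `I = ∫_Ω ‖x‖² > 0`. With `vol_image`, `inertia_image`:
`FF n (T '' Ω) = (∑ mu) (δ π)³ / (δ (hs/2) I) ≤ (hs/(2δ²)) π⁻¹ 2 I ∑K_j δ³π³ / (δ (hs/2) I) = 2π² ∑ K_j ≤ FF n D` (`FF_disc`).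
-/

set_option autoImplicit false

open MeasureTheory Set Filter Topology
open Pool.Agent.Neu (E D mu)
open Pool.Agent.Neu.Discx (P)

namespace Pool.Agent.NSY

private theorem mn1_num {Y S I δ h : ℝ} (hδ : 0 < δ) (hh : 0 < h) (hI : 0 < I)
    (hY : Y ≤ h / (2 * δ ^ 2) * (Real.pi⁻¹ * (2 * S * I))) :
    Y * (δ * Real.pi) ^ 3 / (δ * (h / 2) * I) ≤ 2 * Real.pi ^ 2 * S := by
  have hp := Real.pi_pos
  rw [div_le_iff₀ (by positivity)]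
  have h1 : Y * (δ * Real.pi) ^ 3 ≤
      h / (2 * δ ^ 2) * (Real.pi⁻¹ * (2 * S * I)) * (δ * Real.pi) ^ 3 :=
    mul_le_mul_of_nonneg_right hY (by positivity)
  refine h1.trans (le_of_eq ?_)
  field_simp

private theorem mn1_card {N n c : ℕ} {L : ℝ} (h1 : (((N + 1) / 2 : ℕ) : ℝ) ^ 2 ≤ L)
    (h2 : L ≤ 8 * c) (h3 : 32 * n ≤ N ^ 2) : n ≤ c := by
  have h4 : N ≤ 2 * ((N + 1) / 2) := by omega
  have h5 : N ^ 2 ≤ (2 * ((N + 1) / 2)) ^ 2 := Nat.pow_le_pow_left h4 2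
  have h6 : 8 * n ≤ ((N + 1) / 2) ^ 2 := by
    rw [mul_pow] at h5
    omega
  have h7 : (8 * n : ℝ) ≤ 8 * c := by
    have h8 : ((8 * n : ℕ) : ℝ) ≤ ((((N + 1) / 2) ^ 2 : ℕ) : ℝ) := by exact_mod_cast h6
    push_cast at h8
    exact h8.trans (by simpa using h1.trans h2)
  have h9 : (n : ℝ) ≤ c := by linarith
  exact_mod_cast h9

theorem main_pi {N n : ℕ} (hN : 3 ≤ N) {Ω : Set E} (hΩ : IsOpen Ω)
    (hb : Bornology.IsBounded Ω) (hs : Sym N Ω) (hv : (volume Ω).toReal = Real.pi) {ρ : ℝ}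
    (hρ : 0 < ρ) (hball : Metric.ball 0 ρ ⊆ Ω) (hρ2 : Real.pi ≤ √2 * Real.pi * ρ ^ 2)
    (hn : mu D n < lam ((N + 1) / 2) ∨ 32 * n ≤ N ^ 2) (T : E ≃ᵃ[ℝ] E) :
    FF n (T '' Ω) ≤ FF n D := by
  have hp := Real.pi_pos
  have hM : 1 ≤ (N + 1) / 2 := by omega
  have hM2 : (((N + 1) / 2 : ℕ) : ℝ) ^ 2 ≤ lam ((N + 1) / 2) := sq_le_lam _
  have hl : 0 < lam ((N + 1) / 2) := by
    have h1 : (1 : ℝ) ≤ (((N + 1) / 2 : ℕ) : ℝ) := by exact_mod_cast hM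
    nlinarith
  obtain ⟨ι, hι, k, K, u, u', h⟩ := exists_fam hM hl le_rfl
  have hcard : n ≤ Fintype.card ι := by
    rcases hn with h1 | h1
    · exact h.card_ge h1
    · exact mn1_card hM2 (h.kroeger hl) h1
  obtain ⟨σ, hσ, hK⟩ := h.exists_emb hcard
  have hρ4 : 1 / 2 ≤ ρ ^ 4 := by
    have h1 : 1 ≤ √2 * ρ ^ 2 := by
      by_contra h2
      push Not at h2
      nlinarith
    have h2 : (√2) ^ 2 = 2 := Real.sq_sqrt (by norm_num)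
    have h3 : 1 ≤ (√2 * ρ ^ 2) ^ 2 := one_le_pow₀ h1
    have h4 : (√2 * ρ ^ 2) ^ 2 = 2 * ρ ^ 4 := by rw [mul_pow, h2]; ring
    linarith
  obtain ⟨w, B, b, hw, hG, hA, hB, hbK⟩ := exists_trial (n := n) (N := N) (by omega) hΩ hb hs hv hρ
    hρ4 hball (k := fun j => k (σ j)) (K := fun j => K (σ j)) (u := fun j => u (σ j))
    (u' := fun j => u' (σ j)) (fun i => by have := h.sec (σ i); omega) (fun i => h.eig (σ i))
    (fun i j hij hk => h.orth _ _ (fun h1 => hij (hσ h1)) hk)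
  have hc : 0 ≤ NSY.hs (T.linear : E →ₗ[ℝ] E) / (2 * LinearMap.det (T.linear : E →ₗ[ℝ] E) ^ 2) := by
    have := hs_pos T.linear
    positivity
  have hX : ∑ i ∈ Finset.Icc 1 n, mu (T '' Ω) i ≤
      NSY.hs (T.linear : E →ₗ[ℝ] E) / (2 * LinearMap.det (T.linear : E →ₗ[ℝ] E) ^ 2) *
        (Real.pi⁻¹ * ∑ j, b j) := by
    refine trace_limit hc (G := fun ν => gramM Ω (w ν)) (A := fun ν => enM Ω (w ν)) (B := B)
      (fun ν => gramM_symm Ω (w ν)) hG (fun ν => enM_posSemidef hΩ.measurableSet hb (hw ν))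
      (fun ν j => ?_) hB (fun ν hν => avg hN hΩ hb hs T (hw ν) hν)
    rw [enM_diag]
    exact hA ν j
  have hI0 : 0 ≤ ∫ x in Ω, ‖x‖ ^ 2 := integral_nonneg fun _ => by positivity
  have hne : Ω.Nonempty := ⟨0, hball (Metric.mem_ball_self hρ)⟩
  rw [FF_disc, FF, inertia_image hN hΩ hb hne hs, vol_image, hv]
  have hS0 : 0 ≤ ∑ k ∈ Finset.Icc 2 n, mu D k := Finset.sum_nonneg fun _ _ => mu_nonneg _ _
  have hY : ∑ i ∈ Finset.Icc 2 n, mu (T '' Ω) i ≤ ∑ i ∈ Finset.Icc 1 n, mu (T '' Ω) i :=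
    Finset.sum_le_sum_of_subset_of_nonneg (Finset.Icc_subset_Icc (by norm_num) le_rfl)
      fun _ _ _ => mu_nonneg _ _
  rcases hI0.eq_or_lt with hI | hI
  · rw [← hI, mul_zero, div_zero]
    positivity
  · have hδ : 0 < |LinearMap.det (T.linear : E →ₗ[ℝ] E)| :=
      abs_pos.2 (LinearEquiv.isUnit_det' T.linear).ne_zero
    have hb2 : ∑ j, b j ≤ 2 * (∑ j, K (σ j)) * ∫ x in Ω, ‖x‖ ^ 2 := by
      rw [Finset.mul_sum, Finset.sum_mul]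
      exact Finset.sum_le_sum fun j _ => hbK j
    refine (mn1_num (S := ∑ j, K (σ j)) hδ (hs_pos T.linear) hI ?_).trans
      (mul_le_mul_of_nonneg_left hK (by positivity))
    rw [sq_abs]
    refine hY.trans (hX.trans (mul_le_mul_of_nonneg_left ?_ hc))
    exact mul_le_mul_of_nonneg_left hb2 (by positivity)

end Pool.Agent.NSY
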