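import Pool.Agent.NSY.Defs
import Pool.Agent.NSY.Mn1
import Pool.Agent.NSY.Cvx

/-!
# NSY-Mn2: assembly

Reduction of the theorem to area `π` (`main_pi`) by scaling; convex sets contain a large disc (`convex_disc`).
-/

set_option autoImplicit false

open MeasureTheory Set Filter Topology
open Pool.Agent.Neu (E D mu)
open Pool.Agent.Neu.Discx (P)

namespace Pool.Agent.NSY

open scoped Pointwise in
theorem main {N n : ℕ} (hN : 3 ≤ N) {Ω : Set E} (hΩ : IsOpen Ω)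
    (hb : Bornology.IsBounded Ω) (hne : Ω.Nonempty) (hs : Sym N Ω)
    (hd : (∃ ρ : ℝ, 0 < ρ ∧ Metric.ball 0 ρ ⊆ Ω ∧
      (volume Ω).toReal ≤ √2 * Real.pi * ρ ^ 2) ∨ (4 ≤ N ∧ Convex ℝ Ω))
    (hn : mu D n < lam ((N + 1) / 2) ∨ 32 * n ≤ N ^ 2) (T : E ≃ᵃ[ℝ] E) :
    FF n (T '' Ω) ≤ FF n D := by
  have hd' : ∃ ρ : ℝ, 0 < ρ ∧ Metric.ball 0 ρ ⊆ Ω ∧
      (volume Ω).toReal ≤ √2 * Real.pi * ρ ^ 2 := by
    rcases hd with h | ⟨h4, hc⟩
    · exact h
    · exact convex_disc h4 hΩ hb hne hc hs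
  obtain ⟨ρ, hρ, hball, hvol⟩ := hd'
  have hfin : volume Ω ≠ ⊤ := hb.measure_lt_top.ne
  have hpos : 0 < volume Ω := by
    exact hΩ.measure_pos volume hne
  have hV : 0 < (volume Ω).toReal := ENNReal.toReal_pos hpos.ne' hfin
  set V : ℝ := (volume Ω).toReal with hVdef
  set c : ℝ := √(Real.pi / V) with hcdef
  have hc2 : c ^ 2 = Real.pi / V := Real.sq_sqrt (by positivity)
  have hc0 : 0 < c := Real.sqrt_pos.2 (by positivity)
  have hvol1 : (volume (c • Ω)).toReal = Real.pi := by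
    rw [Measure.addHaar_smul, ENNReal.toReal_mul, ENNReal.toReal_ofReal (abs_nonneg _)]
    have hfr : Module.finrank ℝ E = 2 := by simp
    rw [hfr, abs_of_nonneg (by positivity), hc2, ← hVdef]
    field_simp
  have hsym : Sym N (c • Ω) := by
    intro x hx
    obtain ⟨y, hy, rfl⟩ := Set.mem_smul_set.1 hx
    refine Set.mem_smul_set.2 ⟨rot (2 * Real.pi / N) y, hs y hy, ?_⟩
    ext i
    fin_cases i
    · simp [rot]; ring
    · simp [rot]; ring
  have hb1 : Metric.ball (0 : E) (c * ρ) ⊆ c • Ω := by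
    have h1 : c • Metric.ball (0 : E) ρ = Metric.ball (0 : E) (c * ρ) := by
      rw [smul_ball hc0.ne', smul_zero, Real.norm_eq_abs, abs_of_pos hc0]
    rw [← h1]
    exact Set.smul_set_mono hball
  have hρ2 : Real.pi ≤ √2 * Real.pi * (c * ρ) ^ 2 := by
    have h1 : √2 * Real.pi * (c * ρ) ^ 2 = c ^ 2 * (√2 * Real.pi * ρ ^ 2) := by ring
    rw [h1]
    have h2 : c ^ 2 * V ≤ c ^ 2 * (√2 * Real.pi * ρ ^ 2) :=
      mul_le_mul_of_nonneg_left hvol (by positivity)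
    have h3 : c ^ 2 * V = Real.pi := by
      rw [hc2]
      field_simp
    linarith
  have hci : c⁻¹ ≠ 0 := inv_ne_zero hc0.ne'
  have key := main_pi (n := n) hN (hΩ.smul₀ hc0.ne') (hb.smul₀ c) hsym hvol1 (mul_pos hc0 hρ) hb1 hρ2 hn
    ((LinearEquiv.smulOfNeZero ℝ E c⁻¹ hci).toAffineEquiv.trans T)
  have himg : ((LinearEquiv.smulOfNeZero ℝ E c⁻¹ hci).toAffineEquiv.trans T) '' (c • Ω) = T '' Ω := by
    ext x
    constructor
    · rintro ⟨y, hy, rfl⟩
      obtain ⟨z, hz, rfl⟩ := Set.mem_smul_set.1 hy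
      refine ⟨z, hz, ?_⟩
      show T z = T (c⁻¹ • c • z)
      rw [smul_smul, inv_mul_cancel₀ hc0.ne', one_smul]
    · rintro ⟨z, hz, rfl⟩
      refine ⟨c • z, Set.smul_mem_smul_set hz, ?_⟩
      show T (c⁻¹ • c • z) = T z
      rw [smul_smul, inv_mul_cancel₀ hc0.ne', one_smul]
  rw [himg] at key
  exact key


end Pool.Agent.NSY
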